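import Pool.Agent.H80.VNTriple

set_option autoImplicit false
set_option linter.unusedSectionVars false

/-!
# The extension `M ⊆ M ⊗ M ⊗ M` used in the proof
-/

universe u v w

namespace H80VN

open scoped ComplexOrder Topology InnerProductSpace TensorProduct
open Filter

variable {A : Type u} [CStarAlgebra A] [TracialVN A]

/-- Left multiplication on `L2 A`. -/
noncomputable def lm (a : A) : L2 A →L[ℂ] L2 A :=
  LinearMap.mkContinuous
    ((toL2 : A ≃ₗ[ℂ] L2 A).toLinearMap ∘ₗ LinearMap.mulLeft ℂ a ∘ₗ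
      (toL2 : A ≃ₗ[ℂ] L2 A).symm.toLinearMap) ‖a‖
    fun x => n2_mul_le_left a ((toL2 : A ≃ₗ[ℂ] L2 A).symm x)

/-- Right multiplication on `L2 A`. -/
noncomputable def rm (a : A) : L2 A →L[ℂ] L2 A :=
  LinearMap.mkContinuous
    ((toL2 : A ≃ₗ[ℂ] L2 A).toLinearMap ∘ₗ LinearMap.mulRight ℂ a ∘ₗ
      (toL2 : A ≃ₗ[ℂ] L2 A).symm.toLinearMap) ‖a‖
    fun x => (n2_mul_le_right ((toL2 : A ≃ₗ[ℂ] L2 A).symm x) a).trans (mul_comm _ _).le

/-- The adjoint on `L2 A`. -/
noncomputable def stJ (x : L2 A) : L2 A := toL2 (star ((toL2 : A ≃ₗ[ℂ] L2 A).symm x))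

theorem ind_L2 {p : L2 A → Prop} (h : ∀ a : A, p (toL2 a)) (x : L2 A) : p x :=
  h ((toL2 : A ≃ₗ[ℂ] L2 A).symm x)

theorem lm_toL2 (a x : A) : lm a (toL2 x) = toL2 (a * x) := rfl

theorem rm_toL2 (a x : A) : rm a (toL2 x) = toL2 (x * a) := rfl

theorem stJ_toL2 (x : A) : stJ (toL2 x) = toL2 (star x) := rfl

theorem ext_L2 {S T : L2 A →L[ℂ] L2 A} (h : ∀ a : A, S (toL2 a) = T (toL2 a)) : S = T := by
  ext x
  exact ind_L2 (p := fun x => S x = T x) h x

theorem inner_lm (a : A) (x y : L2 A) : ⟪lm a x, y⟫_ℂ = ⟪x, lm (star a) y⟫_ℂ := by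
  refine ind_L2 (p := fun x => ⟪lm a x, y⟫_ℂ = ⟪x, lm (star a) y⟫_ℂ) (fun x => ?_) x
  refine ind_L2 (p := fun y => ⟪lm a (toL2 x), y⟫_ℂ = ⟪toL2 x, lm (star a) y⟫_ℂ) (fun y => ?_) y
  rw [lm_toL2, lm_toL2, inner_toL2, inner_toL2, star_mul, mul_assoc]

theorem inner_rm (a : A) (x y : L2 A) : ⟪rm a x, y⟫_ℂ = ⟪x, rm (star a) y⟫_ℂ := by
  refine ind_L2 (p := fun x => ⟪rm a x, y⟫_ℂ = ⟪x, rm (star a) y⟫_ℂ) (fun x => ?_) x
  refine ind_L2 (p := fun y => ⟪rm a (toL2 x), y⟫_ℂ = ⟪toL2 x, rm (star a) y⟫_ℂ) (fun y => ?_) y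
  rw [rm_toL2, rm_toL2, inner_toL2, inner_toL2, star_mul, mul_assoc, tr_comm, mul_assoc]

theorem inner_stJ (x y : L2 A) : ⟪stJ x, stJ y⟫_ℂ = ⟪y, x⟫_ℂ := by
  refine ind_L2 (p := fun x => ⟪stJ x, stJ y⟫_ℂ = ⟪y, x⟫_ℂ) (fun x => ?_) x
  refine ind_L2 (p := fun y => ⟪stJ (toL2 x), stJ y⟫_ℂ = ⟪y, toL2 x⟫_ℂ) (fun y => ?_) y
  rw [stJ_toL2, stJ_toL2, inner_toL2, inner_toL2, star_star, tr_comm]

theorem lm_mul (a b : A) : lm a * lm b = lm (a * b) := by
  apply ext_L2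
  intro x
  show lm a (lm b (toL2 x)) = _
  rw [lm_toL2, lm_toL2, lm_toL2, mul_assoc]

theorem lm_add (a b : A) : lm (a + b) = lm a + lm b := by
  apply ext_L2
  intro x
  rw [add_apply, lm_toL2, lm_toL2, lm_toL2, add_mul, map_add]

theorem lm_smul (c : ℂ) (a : A) : lm (c • a) = c • lm a := by
  apply ext_L2
  intro x
  rw [smul_apply, lm_toL2, lm_toL2, smul_mul_assoc, map_smul]

theorem lm_one : lm (1 : A) = 1 := by
  apply ext_L2
  intro x
  rw [lm_toL2, one_mul]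
  rfl

theorem lm_rm (a b : A) : rm a * lm b = lm b * rm a := by
  apply ext_L2
  intro x
  show rm a (lm b (toL2 x)) = lm b (rm a (toL2 x))
  rw [lm_toL2, rm_toL2, rm_toL2, lm_toL2, mul_assoc]

variable (A) in
/-- The Hilbert space. -/
abbrev HH : Type u := HT (HT (L2 A) (L2 A)) (L2 A)

/-- Left multiplications. -/
noncomputable def L3 (a b c : A) : HH A →L[ℂ] HH A := HT.T (HT.T (lm a) (lm b)) (lm c)

/-- Right multiplications. -/
noncomputable def R3 (a b c : A) : HH A →L[ℂ] HH A := HT.T (HT.T (rm a) (rm b)) (rm c)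

/-- Elementary tensors. -/
noncomputable def e3 (a b c : A) : HH A := HT.tm (HT.tm (toL2 a) (toL2 b)) (toL2 c)

/-- The involution. -/
noncomputable def J3 : HH A → HH A :=
  HT.JJ (HT.inner_JJ (inner_stJ (A := A)) (inner_stJ (A := A))) (inner_stJ (A := A))

theorem inner_J3 (x y : HH A) : ⟪J3 x, J3 y⟫_ℂ = ⟪y, x⟫_ℂ := HT.inner_JJ _ _ x y

theorem J3_e3 (a b c : A) : J3 (e3 a b c) = e3 (star a) (star b) (star c) := by
  unfold J3 e3
  rw [HT.JJ_tm, HT.JJ_tm]
  rfl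

theorem inner_e3 (a b c a' b' c' : A) :
    ⟪e3 a b c, e3 a' b' c'⟫_ℂ = tr (star a * a') * tr (star b * b') * tr (star c * c') := by
  unfold e3
  rw [HT.inner_tm, HT.inner_tm, inner_toL2, inner_toL2, inner_toL2]

theorem L3_e3 (a b c a' b' c' : A) : L3 a b c (e3 a' b' c') = e3 (a * a') (b * b') (c * c') := by
  unfold L3 e3
  rw [HT.T_tm, HT.T_tm]
  rfl

theorem R3_e3 (a b c a' b' c' : A) : R3 a b c (e3 a' b' c') = e3 (a' * a) (b' * b) (c' * c) := by
  unfold R3 e3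
  rw [HT.T_tm, HT.T_tm]
  rfl

theorem inner_L3 (a b c : A) (x y : HH A) :
    ⟪L3 a b c x, y⟫_ℂ = ⟪x, L3 (star a) (star b) (star c) y⟫_ℂ :=
  HT.inner_T (HT.inner_T (inner_lm a) (inner_lm b)) (inner_lm c) x y

theorem inner_R3 (a b c : A) (x y : HH A) :
    ⟪R3 a b c x, y⟫_ℂ = ⟪x, R3 (star a) (star b) (star c) y⟫_ℂ :=
  HT.inner_T (HT.inner_T (inner_rm a) (inner_rm b)) (inner_rm c) x y

theorem star_eq_of_inner {H : Type u} [NormedAddCommGroup H] [InnerProductSpace ℂ H]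
    [CompleteSpace H] {S T : H →L[ℂ] H} (h : ∀ x y, ⟪S x, y⟫_ℂ = ⟪x, T y⟫_ℂ) : star S = T := by
  rw [ContinuousLinearMap.star_eq_adjoint]
  have h1 : S = ContinuousLinearMap.adjoint T := by
    rw [ContinuousLinearMap.eq_adjoint_iff]
    exact h
  rw [h1, ContinuousLinearMap.adjoint_adjoint]

theorem star_L3 (a b c : A) : star (L3 a b c) = L3 (star a) (star b) (star c) :=
  star_eq_of_inner (inner_L3 a b c)

theorem star_R3 (a b c : A) : star (R3 a b c) = R3 (star a) (star b) (star c) :=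
  star_eq_of_inner (inner_R3 a b c)

theorem L3_mul (a b c a' b' c' : A) : L3 a b c * L3 a' b' c' = L3 (a * a') (b * b') (c * c') := by
  unfold L3
  rw [HT.T_mul, HT.T_mul, lm_mul, lm_mul, lm_mul]

theorem R3_L3 (a b c a' b' c' : A) : R3 a b c * L3 a' b' c' = L3 a' b' c' * R3 a b c := by
  unfold L3 R3
  rw [HT.T_mul, HT.T_mul, HT.T_mul, HT.T_mul, lm_rm, lm_rm, lm_rm]

theorem L3_one : L3 (1 : A) 1 1 = 1 := by
  unfold L3
  rw [lm_one, HT.T_one, HT.T_one]

theorem L3_add_left (a a' b c : A) : L3 (a + a') b c = L3 a b c + L3 a' b c := by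
  unfold L3
  rw [lm_add, HT.T_add_left, HT.T_add_left]

theorem L3_add_mid (a b b' c : A) : L3 a (b + b') c = L3 a b c + L3 a b' c := by
  unfold L3
  rw [lm_add, HT.T_add_right, HT.T_add_left]

theorem L3_add_right (a b c c' : A) : L3 a b (c + c') = L3 a b c + L3 a b c' := by
  unfold L3
  rw [lm_add, HT.T_add_right]

theorem L3_smul_left (r : ℂ) (a b c : A) : L3 (r • a) b c = r • L3 a b c := by
  unfold L3
  rw [lm_smul, HT.T_smul_left, HT.T_smul_left]

theorem L3_smul_mid (r : ℂ) (a b c : A) : L3 a (r • b) c = r • L3 a b c := by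
  unfold L3
  rw [lm_smul, HT.T_smul_right, HT.T_smul_left]

variable (A) in
/-- The right multiplications. -/
def SS : Set (HH A →L[ℂ] HH A) := {s | ∃ a b c : A, s = R3 a b c}

theorem hSS : ∀ s ∈ SS A, star s ∈ SS A := by
  rintro _ ⟨a, b, c, rfl⟩
  exact ⟨_, _, _, star_R3 a b c⟩

theorem hJSS : ∀ s ∈ SS A, J3 (s (e3 (1 : A) 1 1)) = star s (e3 (1 : A) 1 1) := by
  rintro _ ⟨a, b, c, rfl⟩
  rw [star_R3, R3_e3, R3_e3, J3_e3]
  simp

theorem hdSS : Dense (Submodule.span ℂ {ζ : HH A | ∃ s ∈ SS A, ζ = s (e3 (1 : A) 1 1)} :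
    Set (HH A)) := by
  have h0 : Dense (Submodule.span ℂ (Set.univ : Set (L2 A)) : Set (L2 A)) := by
    rw [Submodule.span_univ]
    exact dense_univ
  have h1 := HT.dense_tm h0 h0
  have h2 := HT.dense_tm h1 h0
  refine h2.mono ?_
  refine Submodule.span_mono ?_
  rintro _ ⟨_, ⟨x, _, y, _, rfl⟩, z, _, rfl⟩
  set a := (toL2 : A ≃ₗ[ℂ] L2 A).symm x
  set b := (toL2 : A ≃ₗ[ℂ] L2 A).symm y
  set c := (toL2 : A ≃ₗ[ℂ] L2 A).symm z
  refine ⟨R3 a b c, ⟨a, b, c, rfl⟩, ?_⟩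
  rw [R3_e3, one_mul, one_mul, one_mul]
  rfl

theorem norm_e3_one : ‖e3 (1 : A) 1 1‖ = 1 := by
  unfold e3
  rw [HT.norm_tm, HT.norm_tm, norm_toL2, n2_one]
  norm_num

variable (A) in
/-- The tensor cube of `A`. -/
noncomputable def cube : TracialVNA.{u} := ofCommutant hSS inner_J3 hJSS hdSS (norm_e3_one (A := A))

/-- Elements of the cube. -/
noncomputable def l3 (a b c : A) : (cube A).El :=
  ⟨L3 a b c, (mem_commutantVN hSS).2 (by rintro _ ⟨a', b', c', rfl⟩; exact R3_L3 _ _ _ _ _ _)⟩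

theorem l3_mul (a b c a' b' c' : A) : l3 a b c * l3 a' b' c' = l3 (a * a') (b * b') (c * c') :=
  Subtype.ext (L3_mul _ _ _ _ _ _)

theorem star_l3 (a b c : A) : star (l3 a b c) = l3 (star a) (star b) (star c) :=
  Subtype.ext (star_L3 _ _ _)

theorem l3_one : l3 (1 : A) 1 1 = 1 := Subtype.ext L3_one

theorem l3_add_left (a a' b c : A) : l3 (a + a') b c = l3 a b c + l3 a' b c :=
  Subtype.ext (L3_add_left _ _ _ _)

theorem l3_add_mid (a b b' c : A) : l3 a (b + b') c = l3 a b c + l3 a b' c :=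
  Subtype.ext (L3_add_mid _ _ _ _)

theorem l3_add_right (a b c c' : A) : l3 a b (c + c') = l3 a b c + l3 a b c' :=
  Subtype.ext (L3_add_right _ _ _ _)

theorem l3_smul_left (r : ℂ) (a b c : A) : l3 (r • a) b c = r • l3 a b c :=
  Subtype.ext (L3_smul_left _ _ _ _)

theorem l3_smul_mid (r : ℂ) (a b c : A) : l3 a (r • b) c = r • l3 a b c :=
  Subtype.ext (L3_smul_mid _ _ _ _)

theorem l3_zero_right (a b : A) : l3 a b 0 = 0 := by
  have := l3_add_right a b 0 0
  rw [add_zero] at this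
  exact left_eq_add.1 this

theorem l3_zero_left (b c : A) : l3 0 b c = 0 := by
  have := l3_add_left 0 0 b c
  rw [add_zero] at this
  exact left_eq_add.1 this

theorem l3_zero_mid (a c : A) : l3 a 0 c = 0 := by
  have := l3_add_mid a 0 0 c
  rw [add_zero] at this
  exact left_eq_add.1 this

theorem tr_l3 (a b c : A) : (cube A).tr (l3 a b c) = tr a * tr b * tr c := by
  show ⟪e3 (1 : A) 1 1, L3 a b c (e3 (1 : A) 1 1)⟫_ℂ = _
  rw [L3_e3, inner_e3]
  simp

section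

variable {p p' w : A} (hp : p * p = p) (hp' : p' * p' = p') (hpp' : p * p' = 0) (hp'p : p' * p = 0)
  (hps : star p = p) (hp's : star p' = p') (h1 : p + p' = 1) (hws : star w = w) (hw : w * w = 1)
  (hwp : w * p * w = p') (hwp' : w * p' * w = p)

/-- The embedding. -/
noncomputable def iota (hp : p * p = p) (hp' : p' * p' = p') (hpp' : p * p' = 0) (hp'p : p' * p = 0)
    (hps : star p = p) (hp's : star p' = p') (h1 : p + p' = 1) : A →⋆ₐ[ℂ] (cube A).El where
  toFun := fun x => l3 x 1 p + l3 1 x p'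
  map_one' := by rw [← l3_add_right, h1, l3_one]
  map_mul' := fun x y => by
    rw [add_mul, mul_add, mul_add, l3_mul, l3_mul, l3_mul, l3_mul, hp, hp', hpp', hp'p,
      l3_zero_right, l3_zero_right, one_mul, add_zero, zero_add]
  map_zero' := by rw [l3_zero_left, l3_zero_mid, add_zero]
  map_add' := fun x y => by
    rw [l3_add_left, l3_add_mid]
    abel
  commutes' := fun r => by
    rw [Algebra.algebraMap_eq_smul_one, Algebra.algebraMap_eq_smul_one, l3_smul_left, l3_smul_mid,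
      ← smul_add, ← l3_add_right, h1, l3_one]
  map_star' := fun x => by
    rw [star_add, star_l3, star_l3, hps, hp's, star_one]

theorem iota_apply (x : A) : iota hp hp' hpp' hp'p hps hp's h1 x = l3 x 1 p + l3 1 x p' := rfl

include hp hp' hpp' hp'p hps hp's h1 hws hw hwp hwp'

/-- The extension. -/
theorem exists_extension : ∃ (Q : TracialVNA.{u}) (ι : A →⋆ₐ[ℂ] Q.El) (u : Q.El),
    (∀ x, Q.tr (ι x) = tr x) ∧ ‖u‖ ≤ 1 ∧ star u * u = 1 ∧
      ∀ x y, (u * ι x * star u) * ι y = ι y * (u * ι x * star u) := by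
  refine ⟨cube A, iota hp hp' hpp' hp'p hps hp's h1, l3 1 1 w, fun x => ?_, ?_, ?_, fun x y => ?_⟩
  · rw [iota_apply, map_add, tr_l3, tr_l3, tr_one, mul_one, one_mul, ← mul_add, ← map_add, h1,
      tr_one, mul_one]
  · have h2 : star (l3 1 1 w) * l3 (1 : A) 1 w = 1 := by
      rw [star_l3, l3_mul, hws, hw, star_one, one_mul, l3_one]
    have h3 := CStarRing.norm_star_mul_self (x := l3 (1 : A) 1 w)
    rw [h2] at h3
    have h4 : ‖(1 : (cube A).El)‖ ≤ 1 := by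
      by_contra hne
      have h5 := CStarRing.norm_star_mul_self (x := (1 : (cube A).El))
      rw [star_one, one_mul] at h5
      push Not at hne
      nlinarith only [h5, hne]
    nlinarith only [h3, h4]
  · rw [star_l3, l3_mul, hws, hw, star_one, one_mul, l3_one]
  · have h2 : l3 1 1 w * iota hp hp' hpp' hp'p hps hp's h1 x * star (l3 1 1 w) =
        l3 x 1 p' + l3 1 x p := by
      rw [iota_apply, star_l3, mul_add, add_mul, l3_mul, l3_mul, l3_mul, l3_mul, star_one, hws,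
        one_mul, one_mul, mul_one, mul_one, hwp, hwp']
    rw [h2, iota_apply, add_mul, mul_add, mul_add, add_mul, mul_add, mul_add]
    simp only [l3_mul, one_mul, mul_one, hp, hp', hpp', hp'p, l3_zero_right, add_zero, zero_add]
    abel

end

end H80VN
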