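import Pool.Agent.H80.VNStmt
import Pool.Agent.H80.VNExt

set_option autoImplicit false
set_option linter.unusedSectionVars false

/-!
# From the definitions in the statement to the ones used in the proof, and back
-/

universe u v w

namespace H80VN

open scoped ComplexOrder Topology InnerProductSpace
open Filter

section

variable {M : Type u} [CStarAlgebra M] {τ : M →ₗ[ℂ] ℂ}

section rep

variable {H : Type u} [NormedAddCommGroup H] [InnerProductSpace ℂ H] [CompleteSpace H]
  {A : VonNeumannAlgebra H} {π : M →⋆ₐ[ℂ] (H →L[ℂ] H)} {ξ : ℕ → H}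

/-- The isomorphism onto the von Neumann algebra. -/
noncomputable def repEquiv (h : Stmt.IsNormalRep τ A π ξ) : M ≃⋆ₐ[ℂ] A.toStarSubalgebra :=
  StarAlgEquiv.ofBijective (StarAlgHom.codRestrict π A.toStarSubalgebra fun x => (h.range _).2 ⟨x, rfl⟩)
    ⟨fun x y hxy => h.injective (congrArg Subtype.val hxy), fun y => by
      obtain ⟨x, hx⟩ := (h.range y.1).1 y.2
      exact ⟨x, Subtype.ext hx⟩⟩

theorem repEquiv_coe (h : Stmt.IsNormalRep τ A π ξ) (x : M) :
    ((repEquiv h x : A.toStarSubalgebra) : H →L[ℂ] H) = π x := rfl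

theorem rep_nonneg (h : Stmt.IsNormalRep τ A π ξ) (x : M) : 0 ≤ τ (star x * x) := by
  have h1 := h.hasSum (star x * x)
  have h2 : ∀ n, ⟪ξ n, π (star x * x) (ξ n)⟫_ℂ = ((‖π x (ξ n)‖ ^ 2 : ℝ) : ℂ) := by
    intro n
    rw [map_mul, map_star]
    show ⟪ξ n, ContinuousLinearMap.adjoint (π x) (π x (ξ n))⟫_ℂ = _
    rw [ContinuousLinearMap.adjoint_inner_right, inner_self_eq_norm_sq_to_K]
    push_cast
    rfl
  simp only [h2] at h1
  have h3 := Complex.hasSum_re h1
  have h4 := Complex.hasSum_im h1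
  simp only [Complex.ofReal_re] at h3
  simp only [Complex.ofReal_im] at h4
  rw [Complex.le_def]
  refine ⟨?_, ?_⟩
  · exact h3.nonneg fun n => by positivity
  · exact (h4.unique hasSum_zero).symm

/-- The concrete von Neumann algebra. -/
noncomputable def concrete (h : Stmt.IsNormalRep τ A π ξ) (h1 : τ 1 = 1)
    (h2 : ∀ x y, τ (x * y) = τ (y * x)) (h3 : ∀ x, τ (star x * x) = 0 → x = 0) : TracialVNA.{u} where
  H := H
  alg := A
  tr := τ ∘ₗ (repEquiv h).symm.toAlgEquiv.toLinearMap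
  tr_one := by
    show τ ((repEquiv h).symm 1) = 1
    rw [map_one, h1]
  nonneg := fun x => by
    show 0 ≤ τ ((repEquiv h).symm (star x * x))
    rw [map_mul (repEquiv h).symm, map_star]
    exact rep_nonneg h _
  tracial := fun x y => by
    show τ ((repEquiv h).symm (x * y)) = τ ((repEquiv h).symm (y * x))
    rw [map_mul (repEquiv h).symm, map_mul (repEquiv h).symm, h2]
  faithful := fun x hx => by
    have h4 : τ ((repEquiv h).symm (star x * x)) = 0 := hx
    rw [map_mul (repEquiv h).symm, map_star] at h4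
    have h5 := h3 _ h4
    exact (map_eq_zero_iff (repEquiv h).symm (repEquiv h).symm.injective).1 h5
  normal := by
    refine ⟨ξ, h.summable, fun x => ?_⟩
    have h4 := h.hasSum ((repEquiv h).symm x)
    have h5 : π ((repEquiv h).symm x) = (x : H →L[ℂ] H) := by
      rw [← repEquiv_coe h, StarAlgEquiv.apply_symm_apply]
    rw [h5] at h4
    exact h4

/-- The isomorphism onto the concrete von Neumann algebra. -/
noncomputable def toP (h : Stmt.IsNormalRep τ A π ξ) (h1 : τ 1 = 1)
    (h2 : ∀ x y, τ (x * y) = τ (y * x)) (h3 : ∀ x, τ (star x * x) = 0 → x = 0) :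
    M ≃⋆ₐ[ℂ] (concrete h h1 h2 h3).El :=
  repEquiv h

theorem tr_toP (h : Stmt.IsNormalRep τ A π ξ) (h1 : τ 1 = 1)
    (h2 : ∀ x y, τ (x * y) = τ (y * x)) (h3 : ∀ x, τ (star x * x) = 0 → x = 0) (x : M) :
    (concrete h h1 h2 h3).tr (toP h h1 h2 h3 x) = τ x := by
  show τ ((repEquiv h).symm (repEquiv h x)) = τ x
  rw [StarAlgEquiv.symm_apply_apply]

theorem ball_complete_of_rep (h : Stmt.IsNormalRep τ A π ξ) (h1 : τ 1 = 1)
    (h2 : ∀ x y, τ (x * y) = τ (y * x)) (h3 : ∀ x, τ (star x * x) = 0 → x = 0)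
    (x : ℕ → M) (hx : ∀ n, ‖x n‖ ≤ 1)
    (hc : ∀ ε : ℝ, 0 < ε → ∃ N, ∀ m ≥ N, ∀ n ≥ N, √(τ (star (x m - x n) * (x m - x n))).re < ε) :
    ∃ y, ‖y‖ ≤ 1 ∧ ∀ ε : ℝ, 0 < ε → ∃ N, ∀ n ≥ N, √(τ (star (x n - y) * (x n - y))).re < ε := by
  set e := toP h h1 h2 h3 with he
  have h4 : ∀ z w : M, (concrete h h1 h2 h3).tr (star (e z - e w) * (e z - e w)) =
        τ (star (z - w) * (z - w)) := by
    intro z w
    rw [← map_sub, ← map_star, ← map_mul, tr_toP]
  obtain ⟨y, hy, hlim⟩ := (concrete h h1 h2 h3).ball_complete' (fun n => e (x n))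
    (fun n => by
      show ‖π (x n)‖ ≤ 1
      exact (NonUnitalStarAlgHom.norm_apply_le π (x n)).trans (hx n))
    (fun ε hε => by
      obtain ⟨N, hN⟩ := hc ε hε
      refine ⟨N, fun m hm n hn => ?_⟩
      rw [h4]
      exact hN m hm n hn)
  obtain ⟨z, rfl⟩ := e.surjective y
  refine ⟨z, ?_, fun ε hε => ?_⟩
  · have h5 : ‖π z‖ = ‖z‖ := NonUnitalStarAlgHom.norm_map π h.injective _
    rw [← h5]
    exact hy
  · obtain ⟨N, hN⟩ := hlim ε hε
    refine ⟨N, fun n hn => ?_⟩
    rw [← h4]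
    exact hN n hn

end rep

/-- A tracial von Neumann algebra in the sense of the statement is one in the sense of the proof. -/
@[reducible] noncomputable def toTracialVN (h : Stmt.IsTracialVN τ) : TracialVN M where
  tr := τ
  tr_one := h.one
  tr_nonneg := fun x => by
    obtain ⟨H, _, _, _, A, π, ξ, hr⟩ := h.normal
    exact rep_nonneg hr x
  tr_comm := h.tracial
  tr_faithful := h.faithful
  ball_complete := fun x hx hc => by
    obtain ⟨H, _, _, _, A, π, ξ, hr⟩ := h.normal
    exact ball_complete_of_rep hr h.one h.tracial h.faithful x hx hc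

end

namespace TracialVNA

variable (P : TracialVNA.{u})

theorem isTracialVN : Stmt.IsTracialVN (M := P.El) P.tr where
  one := P.tr_one
  tracial := P.tracial
  faithful := P.faithful
  normal := by
    obtain ⟨ξ, h1, h2⟩ := P.normal
    refine ⟨P.H, inferInstance, inferInstance, inferInstance, P.alg,
      StarSubalgebra.subtype P.alg.toStarSubalgebra, ξ, ⟨?_, ?_, h1, ?_⟩⟩
    · exact Subtype.val_injective
    · intro T
      exact ⟨fun hT => ⟨⟨T, hT⟩, rfl⟩, by rintro ⟨x, rfl⟩; exact x.2⟩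
    · exact h2

end TracialVNA

end H80VN
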