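import Pool.Agent.H80.VNGlue

set_option autoImplicit false
set_option linter.unusedSectionVars false

/-!
# Factors without property Gamma have spectral gap
-/

universe u v

namespace H80VN

open scoped ComplexOrder Topology
open Filter Finset

attribute [local instance] CStarAlgebra.spectralOrder CStarAlgebra.spectralOrderedRing

/-- Property Gamma. -/
def Gamma (N : Type u) [CStarAlgebra N] [TracialVN N] : Prop :=
  ∀ (F : Finset N) (ε : ℝ), 0 < ε → ∃ u ∈ unitary N, tr u = 0 ∧ ∀ x ∈ F, n2 (x * u - u * x) < ε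

variable {M : Type u} [CStarAlgebra M] [TracialVN M]

/-- Almost central elements are almost independent of a given element. -/
theorem independence (hM : IsFactor M) {z : M} (hz : star z = z) {ε : ℝ} (hε : 0 < ε) :
    ∃ (G : Finset M) (δ : ℝ), (∀ u ∈ G, u ∈ unitary M) ∧ 0 < δ ∧ ∀ y : M, n2 y ≤ 1 →
      (∀ u ∈ G, n2 (y * u - u * y) ≤ δ) → |rt (z * y) - rt z * rt y| ≤ ε := by
  classical
  obtain ⟨ι, t, w, u, hw0, hw1, hu, hlt⟩ := exists_average hM z (half_pos hε)
  have hn := n2_nonneg z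
  refine ⟨t.image u, ε / (2 * (n2 z + 1)), ?_, by positivity, ?_⟩
  · intro v hv
    rw [Finset.mem_image] at hv
    obtain ⟨i, hi, rfl⟩ := hv
    exact hu i hi
  intro y hy hcomm
  set δ := ε / (2 * (n2 z + 1)) with hδ
  have h1 : ∀ i ∈ t, |rt (u i * z * star (u i) * y) - rt (z * y)| ≤ n2 z * δ := by
    intro i hi
    have h2 : rt (u i * z * star (u i) * y) = rt (z * (star (u i) * y * u i)) := by
      rw [mul_assoc (u i), mul_assoc (u i), rt_comm]
      simp only [mul_assoc]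
    rw [h2, ← rt_sub, ← mul_sub]
    refine (abs_rt_le _ _).trans ?_
    gcongr
    have h3 : star (u i) * y * u i - y = star (u i) * (y * u i - u i * y) := by
      rw [mul_sub, ← mul_assoc, ← mul_assoc, Unitary.star_mul_self_of_mem (hu i hi), one_mul]
    rw [h3, n2_unitary_mul (Unitary.star_mem (hu i hi))]
    exact hcomm _ (Finset.mem_image_of_mem _ hi)
  set S := ∑ i ∈ t, w i • (u i * z * star (u i)) with hS
  have h2 : |rt (S * y) - rt (z * y)| ≤ n2 z * δ := by
    have h3 : rt (S * y) - rt (z * y) =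
        ∑ i ∈ t, w i * (rt (u i * z * star (u i) * y) - rt (z * y)) := by
      rw [hS, Finset.sum_mul, rt_sum]
      simp only [smul_mul_assoc, rt_smul, mul_sub]
      rw [Finset.sum_sub_distrib, ← Finset.sum_mul, hw1, one_mul]
    rw [h3]
    refine (Finset.abs_sum_le_sum_abs _ _).trans ?_
    calc _ ≤ ∑ i ∈ t, w i * (n2 z * δ) := by
          refine Finset.sum_le_sum fun i hi => ?_
          rw [abs_mul, abs_of_nonneg (hw0 i hi)]
          exact mul_le_mul_of_nonneg_left (h1 i hi) (hw0 i hi)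
      _ = n2 z * δ := by rw [← Finset.sum_mul, hw1, one_mul]
  have h3 : |rt (S * y) - rt z * rt y| ≤ ε / 2 := by
    have h4 : rt (S * y) - rt z * rt y = rt ((S - tr z • (1 : M)) * y) := by
      rw [sub_mul, rt_sub, tr_eq_rt hz, Complex.coe_smul, smul_mul_assoc, one_mul, rt_smul]
    rw [h4]
    refine (abs_rt_le _ _).trans ?_
    have h5 := n2_nonneg (S - tr z • (1 : M))
    have h6 := n2_nonneg y
    nlinarith only [hy, hlt, h5]
  have h4 : n2 z * δ ≤ ε / 2 := by
    rw [hδ, mul_div_assoc', div_le_iff₀ (by positivity)]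
    nlinarith only [hε]
  have h5 := abs_le.1 h2
  have h6 := abs_le.1 h3
  rw [abs_le]
  constructor <;> linarith only [h4, h5.2, h6.1, h5.1, h6.2]

theorem near_sym {y : M} (hy : star y = y) {E : M} (hE : IsSpec y 0 E) :
    n2 ((2 : ℝ) • E - 1 - y) ≤ 2 * n2 (1 - y * y) := by
  have hsq : cfc (fun t : ℝ => 1 - t * t) y = 1 - y * y := by
    rw [fc_sub (f := fun _ : ℝ => 1) (g := fun t : ℝ => t * t) continuous_const (by fun_prop),
      fc_mul continuous_id' continuous_id', fc_id hy, fc_const hy, one_smul]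
  have hEy : E * y = y * E := hE.comm rfl
  have h1 : (2 : ℝ) • E - 1 - y = (1 - y) * E - (1 + y) * (1 - E) := by
    have : (1 - y) * E - (1 + y) * (1 - E) = E + E - 1 - y := by noncomm_ring
    rw [this, two_smul]
  have hc1 : Continuous (fun t : ℝ => 1 / max (1 + t) 1) := by
    refine Continuous.div continuous_const (by fun_prop) fun t => ?_
    have : (0 : ℝ) < max (1 + t) 1 := lt_max_of_lt_right (by norm_num)
    exact this.ne'
  have hc2 : Continuous (fun t : ℝ => 1 / max (1 - t) 1) := by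
    refine Continuous.div continuous_const (by fun_prop) fun t => ?_
    have : (0 : ℝ) < max (1 - t) 1 := lt_max_of_lt_right (by norm_num)
    exact this.ne'
  have hb : ∀ s : ℝ, |1 / max s 1| ≤ 1 := by
    intro s
    have h0 : (1 : ℝ) ≤ max s 1 := le_max_right _ _
    rw [abs_of_pos (by positivity), div_le_iff₀ (by linarith)]
    linarith
  have e1 : (1 - y) * E = cfc (fun t : ℝ => 1 / max (1 + t) 1) y * (1 - y * y) * E := by
    rw [← hsq, ← fc_mul hc1 (by fun_prop)]
    rw [← hE.ge (f := fun t : ℝ => 1 - t) (g := fun t : ℝ => 1 / max (1 + t) 1 * (1 - t * t))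
      (by fun_prop) (hc1.mul (by fun_prop)) (fun t ht => by
      rw [max_eq_left (by linarith)]
      have : 1 + t ≠ 0 := by linarith
      field_simp
      ring)]
    rw [fc_sub (f := fun _ : ℝ => 1) continuous_const continuous_id', fc_const hy, one_smul,
      fc_id hy]
  have e2 : (1 + y) * (1 - E) = cfc (fun t : ℝ => 1 / max (1 - t) 1) y * (1 - y * y) * (1 - E) := by
    rw [← hsq, ← fc_mul hc2 (by fun_prop)]
    rw [← hE.le (f := fun t : ℝ => 1 + t)
      (g := fun t : ℝ => 1 / max (1 - t) 1 * (1 - t * t))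
      (by fun_prop) (hc2.mul (by fun_prop)) (fun t ht => by
      rw [max_eq_left (by linarith)]
      have : 1 - t ≠ 0 := by linarith
      field_simp
      ring)]
    rw [fc_add (f := fun _ : ℝ => 1) continuous_const continuous_id', fc_const hy, one_smul,
      fc_id hy]
  rw [h1]
  refine (n2_sub_le _ _).trans ?_
  have h3 : n2 ((1 - y) * E) ≤ n2 (1 - y * y) := by
    rw [e1]
    refine (n2_mul_le_of_norm_le_one_right _ hE.proj.norm_le).trans ?_
    exact n2_mul_le_of_norm_le_one_left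
      (fc_norm_le (f := fun t : ℝ => 1 / max (1 + t) 1) zero_le_one (fun t => hb _) y) _
  have h4 : n2 ((1 + y) * (1 - E)) ≤ n2 (1 - y * y) := by
    rw [e2]
    refine (n2_mul_le_of_norm_le_one_right _ hE.proj.one_sub.norm_le).trans ?_
    exact n2_mul_le_of_norm_le_one_left
      (fc_norm_le (f := fun t : ℝ => 1 / max (1 - t) 1) zero_le_one (fun t => hb _) y) _
  linarith

/-- There are almost central symmetries with trace at most `t`. -/
def AC (M : Type u) [CStarAlgebra M] [TracialVN M] (t : ℝ) : Prop :=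
  ∀ F : Finset M, (∀ f ∈ F, f ∈ unitary M) → ∀ η : ℝ, 0 < η →
    ∃ p : M, Proj p ∧ |2 * rt p - 1| ≤ t ∧ cs2 F p ≤ η

theorem AC.mono {s t : ℝ} (h : AC M s) (hst : s ≤ t) : AC M t := fun F hF η hη => by
  obtain ⟨p, hp, h1, h2⟩ := h F hF η hη
  exact ⟨p, hp, h1.trans hst, h2⟩

theorem comm_sym (p f : M) :
    n2 (((2 : ℝ) • p - 1) * f - f * ((2 : ℝ) • p - 1)) = 2 * n2 (p * f - f * p) := by
  have h2 : ((2 : ℝ) • p - 1) * f - f * ((2 : ℝ) • p - 1) = (2 : ℝ) • (p * f - f * p) := by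
    rw [mul_sub, sub_mul, mul_smul_comm, smul_mul_assoc, mul_one, one_mul]
    module
  rw [h2, n2_rsmul, abs_of_pos (by norm_num : (0 : ℝ) < 2)]

theorem rt_sym (p : M) : rt ((2 : ℝ) • p - 1) = 2 * rt p - 1 := by
  rw [rt_sub, rt_smul, rt_one]

set_option maxHeartbeats 1000000 in
theorem AC.mul (hM : IsFactor M) {s t : ℝ} (hs : 0 ≤ s) (h : AC M s) (h' : AC M t) {ε : ℝ}
    (hε : 0 < ε) : AC M (s * t + ε) := by
  classical
  intro F hF η hη
  obtain ⟨p₁, hp₁, hr₁, hc₁⟩ := h F hF (η / 6) (by positivity)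
  set v₁ : M := (2 : ℝ) • p₁ - 1 with hv₁
  have hv₁u : v₁ ∈ unitary M := sub_one_unitary hp₁
  have hv₁s : star v₁ = v₁ := by rw [hv₁, star_sub, star_smul, hp₁.star_eq, star_one]; simp
  obtain ⟨G, δ, hG, hδ, hind⟩ := independence hM hv₁s (show 0 < ε / 2 by positivity)
  -- parameter
  set C : ℝ := 3 + 12 * F.card with hC
  have hC0 : 0 < C := by positivity
  set η₂ : ℝ := min (η / (2 * C)) (min ((δ / 2) ^ 2) ((ε / 8) ^ 2)) with hη₂
  have hη₂0 : 0 < η₂ := by
    refine lt_min (by positivity) (lt_min (by positivity) (by positivity))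
  have hη₂1 : η₂ ≤ η / (2 * C) := min_le_left _ _
  have hη₂2 : η₂ ≤ (δ / 2) ^ 2 := (min_le_right _ _).trans (min_le_left _ _)
  have hη₂3 : η₂ ≤ (ε / 8) ^ 2 := (min_le_right _ _).trans (min_le_right _ _)
  obtain ⟨p₂, hp₂, hr₂, hc₂⟩ := h' (insert v₁ (F ∪ G)) (by
    intro f hf
    rw [Finset.mem_insert, Finset.mem_union] at hf
    rcases hf with rfl | hf | hf
    · exact hv₁u
    · exact hF f hf
    · exact hG f hf) η₂ hη₂0
  set v₂ : M := (2 : ℝ) • p₂ - 1 with hv₂
  have hv₂u : v₂ ∈ unitary M := sub_one_unitary hp₂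
  have hv₂s : star v₂ = v₂ := by rw [hv₂, star_sub, star_smul, hp₂.star_eq, star_one]; simp
  have h11 : v₁ * v₁ = 1 := by
    have := Unitary.star_mul_self_of_mem hv₁u
    rwa [hv₁s] at this
  have h22 : v₂ * v₂ = 1 := by
    have := Unitary.star_mul_self_of_mem hv₂u
    rwa [hv₂s] at this
  set c := n2 (v₂ * v₁ - v₁ * v₂) with hc
  have hc0 : 0 ≤ c := n2_nonneg _
  have hc2 : c ^ 2 ≤ 4 * η₂ := by
    rw [hc, hv₂, comm_sym, mul_pow]
    have := (le_cs2 (Finset.mem_insert_self v₁ (F ∪ G)) p₂).trans hc₂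
    linarith only [this]
  have hcε : c ≤ ε / 4 := by
    have h1 : c ^ 2 ≤ (ε / 4) ^ 2 := by nlinarith only [hη₂3, hc2]
    exact (sq_le_sq₀ hc0 (by positivity)).1 h1
  set y : M := (1 / 2 : ℝ) • (v₁ * v₂ + v₂ * v₁) with hy
  have hys : star y = y := by
    rw [hy, star_smul, star_add, star_mul, star_mul, hv₁s, hv₂s]
    simp [add_comm]
  have hyy : n2 (1 - y * y) ≤ 1 / 2 * c := by
    have h1 : 1 - y * y = (1 / 4 : ℝ) • ((v₂ * v₁ - v₁ * v₂) * (v₁ * v₂) -
        (v₂ * v₁ - v₁ * v₂) * (v₂ * v₁)) := by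
      have h2 : (v₂ * v₁ - v₁ * v₂) * (v₁ * v₂) = 1 - v₁ * v₂ * (v₁ * v₂) := by
        rw [sub_mul]
        congr 1
        calc v₂ * v₁ * (v₁ * v₂) = v₂ * (v₁ * v₁) * v₂ := by simp only [mul_assoc]
          _ = 1 := by rw [h11, mul_one, h22]
      have h3 : (v₂ * v₁ - v₁ * v₂) * (v₂ * v₁) = v₂ * v₁ * (v₂ * v₁) - 1 := by
        rw [sub_mul]
        congr 1
        calc v₁ * v₂ * (v₂ * v₁) = v₁ * (v₂ * v₂) * v₁ := by simp only [mul_assoc]
          _ = 1 := by rw [h22, mul_one, h11]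
      have h4 : (v₁ * v₂ + v₂ * v₁) * (v₁ * v₂ + v₂ * v₁) =
          v₁ * v₂ * (v₁ * v₂) + v₂ * v₁ * (v₂ * v₁) + 1 + 1 := by
        have e1 : v₁ * v₂ * (v₂ * v₁) = 1 := by
          calc v₁ * v₂ * (v₂ * v₁) = v₁ * (v₂ * v₂) * v₁ := by simp only [mul_assoc]
            _ = 1 := by rw [h22, mul_one, h11]
        have e2 : v₂ * v₁ * (v₁ * v₂) = 1 := by
          calc v₂ * v₁ * (v₁ * v₂) = v₂ * (v₁ * v₁) * v₂ := by simp only [mul_assoc]
            _ = 1 := by rw [h11, mul_one, h22]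
        rw [add_mul, mul_add, mul_add, e1, e2]
        abel
      rw [h2, h3, hy, smul_mul_smul_comm, h4]
      module
    rw [h1, n2_rsmul, abs_of_pos (by norm_num : (0 : ℝ) < 1 / 4)]
    have h2 := n2_sub_le ((v₂ * v₁ - v₁ * v₂) * (v₁ * v₂)) ((v₂ * v₁ - v₁ * v₂) * (v₂ * v₁))
    rw [n2_mul_unitary (mul_mem hv₁u hv₂u), n2_mul_unitary (mul_mem hv₂u hv₁u)] at h2
    linarith
  obtain ⟨E, hE⟩ := exists_spec y 0
  have hnear : n2 ((2 : ℝ) • E - 1 - y) ≤ c := by
    have := near_sym hys hE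
    linarith
  refine ⟨E, hE.proj, ?_, ?_⟩
  · -- the trace
    have h1 : |rt ((2 : ℝ) • E - 1) - rt y| ≤ c := by
      rw [← rt_sub]
      exact (abs_rt_le' _).trans hnear
    have h2 : rt y = rt (v₁ * v₂) := by
      rw [hy, rt_smul, rt_add, rt_comm v₂ v₁]; ring
    have h3 : |rt (v₁ * v₂) - rt v₁ * rt v₂| ≤ ε / 2 := by
      refine hind v₂ (by rw [← n2_one (M := M)]; have := n2_mul_unitary hv₂u (1 : M); rw [one_mul] at this; exact this.le) ?_
      intro u hu
      rw [hv₂, comm_sym]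
      have h4 := (le_cs2 (Finset.mem_insert_of_mem (Finset.mem_union_right F hu)) p₂).trans hc₂
      have h5 : n2 (p₂ * u - u * p₂) ≤ δ / 2 :=
        (sq_le_sq₀ (n2_nonneg _) (by positivity)).1 (h4.trans hη₂2)
      linarith
    rw [rt_sym] at h1
    have h4 : |rt v₁ * rt v₂| ≤ s * t := by
      rw [abs_mul, hv₁, hv₂, rt_sym, rt_sym]
      exact mul_le_mul hr₁ hr₂ (abs_nonneg _) hs
    have h5 := abs_le.1 h1
    have h6 := abs_le.1 h3
    have h7 := abs_le.1 h4
    rw [abs_le]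
    constructor <;> linarith only [hcε, h2, h6, h5.1, h7.1, h5, h6.2, h7.2]
  · -- the commutators
    have key : ∀ f ∈ F, n2 (E * f - f * E) ^ 2 ≤ 3 * n2 (p₁ * f - f * p₁) ^ 2 +
        3 * n2 (p₂ * f - f * p₂) ^ 2 + 3 * c ^ 2 := by
      intro f hf
      have hfu := hF f hf
      have h1 : n2 (y * f - f * y) ≤ 2 * n2 (p₁ * f - f * p₁) + 2 * n2 (p₂ * f - f * p₂) := by
        have e1 : y * f - f * y = (1 / 2 : ℝ) • ((v₁ * (v₂ * f - f * v₂) + (v₁ * f - f * v₁) * v₂) +
            (v₂ * (v₁ * f - f * v₁) + (v₂ * f - f * v₂) * v₁)) := by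
          rw [hy, smul_mul_assoc, mul_smul_comm, ← smul_sub]
          congr 1
          noncomm_ring
        rw [e1, n2_rsmul, abs_of_pos (by norm_num : (0 : ℝ) < 1 / 2)]
        have a1 := n2_add_le (v₁ * (v₂ * f - f * v₂) + (v₁ * f - f * v₁) * v₂)
          (v₂ * (v₁ * f - f * v₁) + (v₂ * f - f * v₂) * v₁)
        have a2 := n2_add_le (v₁ * (v₂ * f - f * v₂)) ((v₁ * f - f * v₁) * v₂)
        have a3 := n2_add_le (v₂ * (v₁ * f - f * v₁)) ((v₂ * f - f * v₂) * v₁)
        rw [n2_unitary_mul hv₁u, n2_mul_unitary hv₂u] at a2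
        rw [n2_unitary_mul hv₂u, n2_mul_unitary hv₁u] at a3
        have a4 : n2 (v₁ * f - f * v₁) = 2 * n2 (p₁ * f - f * p₁) := comm_sym p₁ f
        have a5 : n2 (v₂ * f - f * v₂) = 2 * n2 (p₂ * f - f * p₂) := comm_sym p₂ f
        linarith only [a1, a2, a3, a4, a5]
      have h2 : 2 * n2 (E * f - f * E) ≤ n2 (y * f - f * y) + 2 * c := by
        rw [← comm_sym]
        have e1 : ((2 : ℝ) • E - 1) * f - f * ((2 : ℝ) • E - 1) =
            (y * f - f * y) + (((2 : ℝ) • E - 1 - y) * f - f * ((2 : ℝ) • E - 1 - y)) := by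
          noncomm_ring
        rw [e1]
        have a1 := n2_add_le (y * f - f * y)
          (((2 : ℝ) • E - 1 - y) * f - f * ((2 : ℝ) • E - 1 - y))
        have a2 := n2_sub_le (((2 : ℝ) • E - 1 - y) * f) (f * ((2 : ℝ) • E - 1 - y))
        rw [n2_mul_unitary hfu, n2_unitary_mul hfu] at a2
        linarith
      set a := n2 (p₁ * f - f * p₁)
      set b := n2 (p₂ * f - f * p₂)
      have h3 : n2 (E * f - f * E) ≤ a + b + c := by linarith
      have h4 : n2 (E * f - f * E) ^ 2 ≤ (a + b + c) ^ 2 := by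
        have := n2_nonneg (E * f - f * E)
        gcongr
      nlinarith only [h4, sq_nonneg (a - b), sq_nonneg (b - c), sq_nonneg (a - c)]
    have h1 : cs2 F E ≤ 3 * cs2 F p₁ + 3 * cs2 F p₂ + F.card * (3 * c ^ 2) := by
      unfold cs2
      calc _ ≤ ∑ f ∈ F, (3 * n2 (p₁ * f - f * p₁) ^ 2 + 3 * n2 (p₂ * f - f * p₂) ^ 2 + 3 * c ^ 2) :=
            Finset.sum_le_sum key
        _ = _ := by
            rw [Finset.sum_add_distrib, Finset.sum_add_distrib, ← Finset.mul_sum, ← Finset.mul_sum,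
              Finset.sum_const, nsmul_eq_mul]
    have h2 : cs2 F p₂ ≤ η₂ :=
      (cs2_mono (Finset.subset_union_left.trans (Finset.subset_insert _ _)) p₂).trans hc₂
    have h3 : (F.card : ℝ) * (3 * c ^ 2) ≤ F.card * (12 * η₂) :=
      mul_le_mul_of_nonneg_left (by linarith) (Nat.cast_nonneg _)
    have h4 : C * η₂ ≤ η / 2 := by
      rw [le_div_iff₀ (by positivity)] at hη₂1
      linarith only [hη₂1]
    rw [hC] at h4
    linarith only [hc₁, h1, h2, h3, h4]

theorem NoGap.ac (hM : IsFactor M) (hg : NoGap M) (k : ℕ) : AC M ((8 / 9) ^ k) := by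
  have h0 : AC M (7 / 8) := by
    intro F hF η hη
    obtain ⟨p, hp, h1, h2, h3⟩ := hg.proj_big hM F hF hη
    refine ⟨p, hp, ?_, ?_⟩
    · rw [abs_le]; constructor <;> linarith only [h1, h2]
    · have := hp.rt_le_one
      nlinarith only [hη, h2, h3]
  induction k with
  | zero => exact h0.mono (by norm_num)
  | succ k ih =>
    have h1 : (0 : ℝ) < (8 / 9) ^ k := by positivity
    have := AC.mul hM h1.le ih h0 (ε := (8 / 9) ^ k * (8 / 9 - 7 / 8)) (by
      have : (0 : ℝ) < 8 / 9 - 7 / 8 := by norm_num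
      positivity)
    refine this.mono ?_
    rw [pow_succ]
    linarith

theorem exists_half (hM : IsFactor M) (hinf : ¬ FiniteDimensional ℂ M) {p : M} (hp : Proj p)
    (h : 1 / 2 ≤ rt p) : ∃ r, Proj r ∧ rt r = 1 / 2 ∧ n2 (p - r) ^ 2 = rt p - 1 / 2 := by
  obtain ⟨r, hr, hrp, hrt⟩ := exists_darboux hM hinf hp (t := 1 / 2) (by norm_num) h
  refine ⟨r, hr, hrt, ?_⟩
  rw [(hr.sub hp hrp).n2_sq, rt_sub, hrt]

/-- Exact trace zero almost central symmetries. -/
theorem NoGap.exact (hM : IsFactor M) (hinf : ¬ FiniteDimensional ℂ M) (hg : NoGap M)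
    (F : Finset M) (hF : ∀ f ∈ F, f ∈ unitary M) {ε : ℝ} (hε : 0 < ε) :
    ∃ u ∈ unitary M, tr u = 0 ∧ ∀ f ∈ F, n2 (f * u - u * f) ≤ ε := by
  obtain ⟨k, hk⟩ := exists_pow_lt_of_lt_one (show 0 < (ε / 8) ^ 2 by positivity)
    (show (8 / 9 : ℝ) < 1 by norm_num)
  obtain ⟨p, hp, hpr, hpc⟩ := hg.ac hM k F hF ((ε / 4) ^ 2) (by positivity)
  have hcomm : ∀ f ∈ F, n2 (p * f - f * p) ≤ ε / 4 := fun f hf =>
    (sq_le_sq₀ (n2_nonneg _) (by positivity)).1 ((le_cs2 hf p).trans hpc)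
  have key : ∀ q : M, Proj q → 1 / 2 ≤ rt q → |2 * rt q - 1| ≤ (8 / 9) ^ k →
      (∀ f ∈ F, n2 (q * f - f * q) ≤ ε / 4) →
      ∃ u ∈ unitary M, tr u = 0 ∧ ∀ f ∈ F, n2 (f * u - u * f) ≤ ε := by
    intro q hq hq2 hqr hqc
    obtain ⟨r, hr, hr2, hqr'⟩ := exists_half hM hinf hq hq2
    refine ⟨(2 : ℝ) • r - 1, sub_one_unitary hr, ?_, fun f hf => ?_⟩
    · rw [tr_eq_rt (by rw [star_sub, star_smul, hr.star_eq, star_one]; simp), rt_sym, hr2]
      norm_num
    · rw [n2_sub_comm, comm_sym]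
      have h1 : n2 (q - r) ≤ ε / 8 := by
        refine (sq_le_sq₀ (n2_nonneg _) (by positivity)).1 ?_
        rw [hqr']
        have := (abs_le.1 hqr).2
        linarith only [hk, hq2, this]
      have h2 : r * f - f * r = (q * f - f * q) - ((q - r) * f - f * (q - r)) := by
        noncomm_ring
      rw [h2]
      have h3 := n2_sub_le (q * f - f * q) ((q - r) * f - f * (q - r))
      have h4 := n2_sub_le ((q - r) * f) (f * (q - r))
      rw [n2_mul_unitary (hF f hf), n2_unitary_mul (hF f hf)] at h4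
      have h5 := hqc f hf
      linarith only [h1, h3, h4, h5]
  rcases le_total (1 / 2) (rt p) with h | h
  · exact key p hp h hpr hcomm
  · refine key (1 - p) hp.one_sub (by rw [rt_sub, rt_one]; linarith only [h]) ?_ ?_
    · rw [rt_sub, rt_one, abs_sub_comm]
      convert! hpr using 2
      ring
    · intro f hf
      have : (1 - p) * f - f * (1 - p) = -(p * f - f * p) := by noncomm_ring
      rw [this, n2_neg]
      exact hcomm f hf

theorem NoGap.gamma (hM : IsFactor M) (hinf : ¬ FiniteDimensional ℂ M) (hg : NoGap M) :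
    Gamma M := by
  classical
  intro F ε hε
  choose w c hx hc using fun x : M => CStarAlgebra.exists_sum_four_unitary x
  set B : ℝ := ∑ x ∈ F, ‖x‖ with hB
  have hB0 : 0 ≤ B := Finset.sum_nonneg fun _ _ => norm_nonneg _
  set F₁ : Finset M := (F ×ˢ (Finset.univ : Finset (Fin 4))).image fun z => (w z.1 z.2 : M) with hF₁
  obtain ⟨u, hu, hutr, hcomm⟩ := hg.exact hM hinf F₁ (by
    intro f hf
    rw [hF₁, Finset.mem_image] at hf
    obtain ⟨z, _, rfl⟩ := hf
    exact (w z.1 z.2).2) (show 0 < ε / (2 * B + 1) by positivity)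
  refine ⟨u, hu, hutr, fun x hxF => ?_⟩
  have h1 : x * u - u * x = ∑ i, c x i • ((w x i : M) * u - u * (w x i : M)) := by
    nth_rw 1 2 [hx x]
    rw [Finset.sum_mul, Finset.mul_sum, ← Finset.sum_sub_distrib]
    refine Finset.sum_congr rfl fun i _ => ?_
    rw [smul_mul_assoc, mul_smul_comm, smul_sub]
  have hsum : ∀ (s : Finset (Fin 4)) (g : Fin 4 → M), n2 (∑ i ∈ s, g i) ≤ ∑ i ∈ s, n2 (g i) := by
    intro s g
    induction s using Finset.induction_on with
    | empty => simp [n2_zero]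
    | insert a s ha ih =>
      rw [Finset.sum_insert ha, Finset.sum_insert ha]
      exact (n2_add_le _ _).trans (by linarith)
  have h2 : n2 (x * u - u * x) ≤ ∑ i : Fin 4, ‖x‖ / 2 * (ε / (2 * B + 1)) := by
    rw [h1]
    refine (hsum _ _).trans (Finset.sum_le_sum fun i _ => ?_)
    rw [n2_smul]
    have h3 : n2 ((w x i : M) * u - u * (w x i : M)) ≤ ε / (2 * B + 1) := by
      refine hcomm _ ?_
      rw [hF₁, Finset.mem_image]
      exact ⟨(x, i), by simp [hxF], rfl⟩
    have h4 := hc x i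
    exact mul_le_mul h4 h3 (n2_nonneg _) (by positivity)
  refine h2.trans_lt ?_
  rw [Finset.sum_const, Finset.card_univ, Fintype.card_fin, nsmul_eq_mul]
  have h3 : ‖x‖ ≤ B := Finset.single_le_sum (f := fun x : M => ‖x‖) (fun _ _ => norm_nonneg _) hxF
  have h4 : ((4 : ℕ) : ℝ) * (‖x‖ / 2 * (ε / (2 * B + 1))) = (2 * ‖x‖) * ε / (2 * B + 1) := by
    push_cast; ring
  rw [h4, div_lt_iff₀ (by positivity)]
  nlinarith only [hε, h3]

/-- **Connes**: a factor without property Gamma has a spectral gap in its standard space. -/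
theorem gap_of_not_gamma (hM : IsFactor M) (hinf : ¬ FiniteDimensional ℂ M) (hG : ¬ Gamma M) :
    ∃ (F : Finset M) (K : ℝ), (∀ f ∈ F, f ∈ unitary M) ∧ 0 < K ∧
      ∀ a : M, n2 (a - tr a • (1 : M)) ^ 2 ≤ K * cs2 F a := by
  have hng : ¬ NoGap M := fun h => hG (h.gamma hM hinf)
  unfold NoGap at hng
  push Not at hng
  obtain ⟨F, hF, η, hη, h⟩ := hng
  refine ⟨F, η⁻¹, hF, by positivity, fun a => ?_⟩
  have hcs : cs2 F (a - tr a • (1 : M)) = cs2 F a := by
    unfold cs2
    refine Finset.sum_congr rfl fun f _ => ?_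
    congr 2
    rw [sub_mul, mul_sub, smul_mul_assoc, mul_smul_comm, one_mul, mul_one]
    abel
  rcases eq_or_ne (a - tr a • (1 : M)) 0 with h0 | h0
  · rw [h0, n2_zero, zero_pow two_ne_zero]
    exact mul_nonneg (inv_nonneg.2 hη.le) (cs2_nonneg F a)
  · have h1 := h _ h0 (by rw [map_sub, map_smul, tr_one]; simp)
    rw [hcs] at h1
    rw [inv_mul_eq_div, le_div_iff₀ hη]
    linarith

end H80VN
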