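import Pool.Agent.H80.ArithDefs

/-! Arithmetical hierarchy for predicates on effectively coded types, with closure properties. -/

namespace Pool.Agent.H80

open Encodable Denumerable

variable {α β γ : Type} [Primcodable α] [Primcodable β] [Primcodable γ]

theorem isSigma_succ {n : ℕ} {p : α → Prop} :
    IsSigma (n + 1) p ↔ ∃ q : α × ℕ → Prop, IsPi n q ∧ ∀ a, p a ↔ ∃ x, q (a, x) := Iff.rfl

theorem isSigma_zero {p : α → Prop} : IsSigma 0 p ↔ ComputablePred p := Iff.rfl

theorem IsSigma.of_eq {n : ℕ} {p q : α → Prop} (hp : IsSigma n p) (h : ∀ a, p a ↔ q a) :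
    IsSigma n q :=
  (funext fun a => propext (h a) : p = q) ▸ hp

theorem IsPi.of_eq {n : ℕ} {p q : α → Prop} (hp : IsPi n p) (h : ∀ a, p a ↔ q a) :
    IsPi n q :=
  (funext fun a => propext (h a) : p = q) ▸ hp

theorem isPi_not {n : ℕ} {p : α → Prop} : IsPi n (fun a => ¬ p a) ↔ IsSigma n p := by
  unfold IsPi; constructor
  · intro h; exact h.of_eq (fun a => not_not)
  · intro h; exact h.of_eq (fun a => not_not.symm)

theorem isPi_zero {p : α → Prop} : IsPi 0 p ↔ ComputablePred p := by
  constructor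
  · intro h
    have h' : ComputablePred (fun a => ¬ p a) := h
    exact h'.not.of_eq (fun a => not_not)
  · intro h
    exact h.not

/-! ### Computable predicates -/

theorem cp_comp {p : β → Prop} {f : α → β} (hp : ComputablePred p) (hf : Computable f) :
    ComputablePred (fun a => p (f a)) := by
  obtain ⟨g, hg, rfl⟩ := ComputablePred.computable_iff.1 hp
  exact ComputablePred.computable_iff.2 ⟨fun a => g (f a), hg.comp hf, rfl⟩

theorem cp_and {p q : α → Prop} (hp : ComputablePred p) (hq : ComputablePred q) :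
    ComputablePred (fun a => p a ∧ q a) := by
  obtain ⟨g, hg, rfl⟩ := ComputablePred.computable_iff.1 hp
  obtain ⟨h, hh, rfl⟩ := ComputablePred.computable_iff.1 hq
  refine ComputablePred.computable_iff.2 ⟨fun a => g a && h a, ?_, ?_⟩
  · exact (Primrec.and.to_comp).comp hg hh
  · funext a; simp

theorem cp_or {p q : α → Prop} (hp : ComputablePred p) (hq : ComputablePred q) :
    ComputablePred (fun a => p a ∨ q a) := by
  obtain ⟨g, hg, rfl⟩ := ComputablePred.computable_iff.1 hp
  obtain ⟨h, hh, rfl⟩ := ComputablePred.computable_iff.1 hq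
  refine ComputablePred.computable_iff.2 ⟨fun a => g a || h a, ?_, ?_⟩
  · exact (Primrec.or.to_comp).comp hg hh
  · funext a; simp

theorem cp_forall_lt {p : α × ℕ → Prop} {f : α → ℕ} (hp : ComputablePred p) (hf : Computable f) :
    ComputablePred (fun a => ∀ i < f a, p (a, i)) := by
  obtain ⟨g, hg, rfl⟩ := ComputablePred.computable_iff.1 hp
  have h1 : Computable (fun a => (Nat.rec (true : Bool)
      (fun i b => b && g (a, i)) (f a) : Bool)) := by
    refine Computable.nat_rec (f := f) (g := fun _ => true)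
      (h := fun a z => z.2 && g (a, z.1)) hf (Computable.const true) ?_
    exact (Primrec.and.to_comp).comp (Computable.snd.comp Computable.snd)
      (hg.comp (Computable.fst.pair (Computable.fst.comp Computable.snd)))
  have h2 : ∀ a n, ((Nat.rec (true : Bool) (fun i b => b && g (a, i)) n : Bool) = true) ↔
      ∀ i < n, g (a, i) = true := by
    intro a n
    induction n with
    | zero => simp
    | succ n ih =>
      show ((Nat.rec (true : Bool) (fun i b => b && g (a, i)) n : Bool) && g (a, n)) = true ↔ _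
      rw [Bool.and_eq_true, ih]
      constructor
      · rintro ⟨h, h'⟩ i hi
        rcases Nat.lt_succ_iff_lt_or_eq.1 hi with h3 | h3
        · exact h i h3
        · rw [h3]; exact h'
      · intro h
        exact ⟨fun i hi => h i (Nat.lt_succ_of_lt hi), h n (Nat.lt_succ_self n)⟩
  refine ComputablePred.computable_iff.2 ⟨_, h1, ?_⟩
  funext a
  exact propext (h2 a (f a)).symm

theorem cp_exists_lt {p : α × ℕ → Prop} {f : α → ℕ} (hp : ComputablePred p) (hf : Computable f) :
    ComputablePred (fun a => ∃ i < f a, p (a, i)) := by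
  have h := (cp_forall_lt (f := f) hp.not hf).not
  refine h.of_eq (fun a => ?_)
  push Not
  rfl

/-! ### Closure properties -/

theorem IsSigma.comp : ∀ {n : ℕ} {α β : Type} [Primcodable α] [Primcodable β]
    {p : β → Prop} {f : α → β}, IsSigma n p → Computable f → IsSigma n (fun a => p (f a))
  | 0, _, _, _, _, _, _, hp, hf => cp_comp hp hf
  | n + 1, _, _, _, _, p, f, hp, hf => by
    obtain ⟨q, hq, h⟩ := hp
    refine ⟨fun z => q (f z.1, z.2), ?_, fun a => h (f a)⟩
    exact IsSigma.comp (p := fun z => ¬ q z) (f := fun z : _ × ℕ => (f z.1, z.2)) hq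
      ((hf.comp Computable.fst).pair Computable.snd)

theorem IsPi.comp {n : ℕ} {p : β → Prop} {f : α → β} (hp : IsPi n p) (hf : Computable f) :
    IsPi n (fun a => p (f a)) :=
  IsSigma.comp (p := fun a => ¬ p a) hp hf

theorem IsSigma.and_or : ∀ {n : ℕ} {α : Type} [Primcodable α] {p q : α → Prop},
    IsSigma n p → IsSigma n q → IsSigma n (fun a => p a ∧ q a) ∧ IsSigma n (fun a => p a ∨ q a)
  | 0, _, _, _, _, hp, hq => ⟨cp_and hp hq, cp_or hp hq⟩
  | n + 1, _, _, p, q, hp, hq => by
    obtain ⟨p', hp', h1⟩ := hp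
    obtain ⟨q', hq', h2⟩ := hq
    constructor
    · refine ⟨fun z => p' (z.1, z.2.unpair.1) ∧ q' (z.1, z.2.unpair.2), ?_, fun a => ?_⟩
      · have e1 := IsSigma.comp hp' (f := fun z : _ × ℕ => (z.1, z.2.unpair.1))
          (Computable.fst.pair (Computable.fst.comp (Computable.unpair.comp Computable.snd)))
        have e2 := IsSigma.comp hq' (f := fun z : _ × ℕ => (z.1, z.2.unpair.2))
          (Computable.fst.pair (Computable.snd.comp (Computable.unpair.comp Computable.snd)))
        exact (IsSigma.and_or e1 e2).2.of_eq (fun a => by tauto)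
      · beta_reduce
        rw [h1, h2]
        constructor
        · rintro ⟨⟨x, hx⟩, ⟨y, hy⟩⟩
          exact ⟨Nat.pair x y, by simpa using hx, by simpa using hy⟩
        · rintro ⟨z, hz1, hz2⟩
          exact ⟨⟨_, hz1⟩, ⟨_, hz2⟩⟩
    · refine ⟨fun z => p' z ∨ q' z, ?_, fun a => ?_⟩
      · exact (IsSigma.and_or hp' hq').1.of_eq (fun a => by tauto)
      · beta_reduce
        rw [h1, h2]
        constructor
        · rintro (⟨x, hx⟩ | ⟨x, hx⟩)
          · exact ⟨x, Or.inl hx⟩
          · exact ⟨x, Or.inr hx⟩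
        · rintro ⟨x, hx | hx⟩
          · exact Or.inl ⟨x, hx⟩
          · exact Or.inr ⟨x, hx⟩

theorem IsSigma.and {n : ℕ} {p q : α → Prop} (hp : IsSigma n p) (hq : IsSigma n q) :
    IsSigma n (fun a => p a ∧ q a) := (IsSigma.and_or hp hq).1

theorem IsSigma.or {n : ℕ} {p q : α → Prop} (hp : IsSigma n p) (hq : IsSigma n q) :
    IsSigma n (fun a => p a ∨ q a) := (IsSigma.and_or hp hq).2

theorem IsPi.and {n : ℕ} {p q : α → Prop} (hp : IsPi n p) (hq : IsPi n q) :
    IsPi n (fun a => p a ∧ q a) :=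
  (IsSigma.or hp hq).of_eq (fun a => by tauto)

theorem IsPi.or {n : ℕ} {p q : α → Prop} (hp : IsPi n p) (hq : IsPi n q) :
    IsPi n (fun a => p a ∨ q a) :=
  (IsSigma.and hp hq).of_eq (fun a => by tauto)

theorem IsSigma.pi_not {n : ℕ} {p : α → Prop} (hp : IsSigma n p) : IsPi n (fun a => ¬ p a) :=
  isPi_not.2 hp

theorem IsPi.sigma_not {n : ℕ} {p : α → Prop} (hp : IsPi n p) : IsSigma n (fun a => ¬ p a) := hp

/-- existential quantification of a `Π⁰ₙ` predicate -/
theorem IsPi.ex {n : ℕ} {p : α × ℕ → Prop} (hp : IsPi n p) :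
    IsSigma (n + 1) (fun a => ∃ x, p (a, x)) := ⟨p, hp, fun _ => Iff.rfl⟩

/-- universal quantification of a `Σ⁰ₙ` predicate -/
theorem IsSigma.all {n : ℕ} {p : α × ℕ → Prop} (hp : IsSigma n p) :
    IsPi (n + 1) (fun a => ∀ x, p (a, x)) :=
  ((IsSigma.pi_not hp).ex).of_eq (fun a => by push Not; rfl)

/-- `Σ⁰ₙ ∪ Π⁰ₙ ⊆ Σ⁰ₙ₊₁ ∩ Π⁰ₙ₊₁` -/
theorem sigma_pi_succ : ∀ {n : ℕ} {α : Type} [Primcodable α] {p : α → Prop},
    (IsSigma n p → IsSigma (n + 1) p) ∧ (IsPi n p → IsSigma (n + 1) p)
  | 0, _, _, p => by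
    have key : ∀ {α : Type} [Primcodable α] {p : α → Prop}, IsPi 0 p → IsSigma 1 p := by
      intro α _ p hp
      exact ⟨fun z => p z.1, IsSigma.comp (p := fun a => ¬ p a) hp Computable.fst, fun a => by simp⟩
    exact ⟨fun h => key (isPi_zero.2 h), key⟩
  | n + 1, _, _, p => by
    constructor
    · rintro ⟨q, hq, h⟩
      have h1 : IsSigma (n + 1) (fun z => ¬ q z) := (sigma_pi_succ (p := fun z => ¬ q z)).1 hq
      exact ⟨q, h1, h⟩
    · intro hp
      exact ⟨fun z => p z.1, IsSigma.comp (p := fun a => ¬ p a) hp Computable.fst, fun a => by simp⟩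

theorem IsSigma.succ {n : ℕ} {p : α → Prop} (hp : IsSigma n p) : IsSigma (n + 1) p :=
  sigma_pi_succ.1 hp

theorem IsPi.sigma_succ {n : ℕ} {p : α → Prop} (hp : IsPi n p) : IsSigma (n + 1) p :=
  sigma_pi_succ.2 hp

theorem IsSigma.pi_succ {n : ℕ} {p : α → Prop} (hp : IsSigma n p) : IsPi (n + 1) p :=
  IsPi.sigma_succ (IsSigma.pi_not hp)

theorem IsPi.succ {n : ℕ} {p : α → Prop} (hp : IsPi n p) : IsPi (n + 1) p :=
  IsSigma.succ (p := fun a => ¬ p a) hp

theorem IsSigma.mono {m n : ℕ} (h : m ≤ n) {p : α → Prop} (hp : IsSigma m p) : IsSigma n p := by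
  induction h with
  | refl => exact hp
  | step _ ih => exact ih.succ

theorem IsPi.mono {m n : ℕ} (h : m ≤ n) {p : α → Prop} (hp : IsPi m p) : IsPi n p := by
  induction h with
  | refl => exact hp
  | step _ ih => exact ih.succ

theorem ComputablePred.sigma {p : α → Prop} (hp : ComputablePred p) (n : ℕ) : IsSigma n p :=
  IsSigma.mono (Nat.zero_le n) (p := p) hp

theorem ComputablePred.pi {p : α → Prop} (hp : ComputablePred p) (n : ℕ) : IsPi n p :=
  IsPi.mono (Nat.zero_le n) (isPi_zero.2 hp)

/-- `Σ⁰ₙ₊₁` is closed under existential quantification -/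
theorem IsSigma.ex {n : ℕ} {p : α × ℕ → Prop} (hp : IsSigma (n + 1) p) :
    IsSigma (n + 1) (fun a => ∃ x, p (a, x)) := by
  obtain ⟨q, hq, h⟩ := hp
  refine ⟨fun z => q ((z.1, z.2.unpair.1), z.2.unpair.2), ?_, fun a => ?_⟩
  · exact IsSigma.comp (p := fun z => ¬ q z) (f := fun z : α × ℕ =>
      ((z.1, z.2.unpair.1), z.2.unpair.2)) hq
      ((Computable.fst.pair (Computable.fst.comp (Computable.unpair.comp Computable.snd))).pair
        (Computable.snd.comp (Computable.unpair.comp Computable.snd)))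
  · constructor
    · rintro ⟨x, hx⟩
      obtain ⟨y, hy⟩ := (h _).1 hx
      exact ⟨Nat.pair x y, by simpa using hy⟩
    · rintro ⟨z, hz⟩
      exact ⟨_, (h _).2 ⟨_, hz⟩⟩

/-- `Π⁰ₙ₊₁` is closed under universal quantification -/
theorem IsPi.all {n : ℕ} {p : α × ℕ → Prop} (hp : IsPi (n + 1) p) :
    IsPi (n + 1) (fun a => ∀ x, p (a, x)) :=
  (IsSigma.ex (p := fun z => ¬ p z) hp).of_eq (fun a => by push Not; rfl)

/-- existential quantifiers over an arbitrary nonempty coded type -/
theorem IsSigma.ex_type {n : ℕ} {p : α × β → Prop} (hp : IsSigma (n + 1) p) :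
    IsSigma (n + 1) (fun a => ∃ x, p (a, x)) := by
  by_cases hβ : Nonempty β
  · obtain ⟨b0⟩ := hβ
    have h1 : Computable (fun z : α × ℕ => (z.1, ((decode z.2 : Option β).getD b0))) :=
      Computable.fst.pair (Computable.option_getD (Computable.decode.comp Computable.snd)
        (Computable.const b0))
    have h2 := (hp.comp h1).ex
    refine h2.of_eq (fun a => ?_)
    constructor
    · rintro ⟨x, hx⟩; exact ⟨_, hx⟩
    · rintro ⟨b, hb⟩; exact ⟨encode b, by simpa using hb⟩
  · have : ∀ a : α, ¬ ∃ x, p (a, x) := fun a ⟨x, _⟩ => hβ ⟨x⟩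
    refine IsSigma.of_eq (p := fun _ : α => False) (ComputablePred.sigma ?_ _) (fun a => ?_)
    · exact ComputablePred.computable_iff.2 ⟨fun _ => false, Computable.const _, by simp⟩
    · exact ⟨fun h => h.elim, fun h => (this a h)⟩

theorem IsPi.all_type {n : ℕ} {p : α × β → Prop} (hp : IsPi (n + 1) p) :
    IsPi (n + 1) (fun a => ∀ x, p (a, x)) :=
  (IsSigma.ex_type (p := fun z => ¬ p z) hp).of_eq (fun a => by push Not; rfl)

/-- bounded quantifiers -/
theorem IsSigma.bounded : ∀ {n : ℕ} {α : Type} [Primcodable α] {p : α × ℕ → Prop} {f : α → ℕ},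
    IsSigma n p → Computable f → IsSigma n (fun a => ∀ i < f a, p (a, i)) ∧
      IsSigma n (fun a => ∃ i < f a, p (a, i))
  | 0, _, _, _, _, hp, hf => ⟨cp_forall_lt hp hf, cp_exists_lt hp hf⟩
  | n + 1, α, _, p, f, hp, hf => by
    constructor
    · obtain ⟨q, hq, h⟩ := hp
      -- choose a list of witnesses
      have h1 : IsSigma n (fun z : (α × List ℕ) × ℕ =>
          ¬ q ((z.1.1, z.2), (z.1.2[z.2]?).getD 0)) := by
        refine IsSigma.comp (p := fun z => ¬ q z) (f := fun z : (α × List ℕ) × ℕ =>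
          ((z.1.1, z.2), (z.1.2[z.2]?).getD 0)) hq ?_
        refine ((Computable.fst.comp Computable.fst).pair Computable.snd).pair ?_
        refine Computable.option_getD ?_ (Computable.const 0)
        exact Computable.list_getElem?.comp (Computable.snd.comp Computable.fst) Computable.snd
      have h2 := (IsSigma.bounded (f := fun z : α × List ℕ => f z.1) h1
        (hf.comp Computable.fst)).2
      have h3 : IsPi n (fun z : α × List ℕ => ∀ i < f z.1, q ((z.1, i), (z.2[i]?).getD 0)) := by
        refine h2.of_eq (fun z => ?_)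
        push Not; rfl
      have h4 : IsSigma (n + 1) (fun z : α × List ℕ =>
          ∀ i < f z.1, q ((z.1, i), (z.2[i]?).getD 0)) := h3.sigma_succ
      refine h4.ex_type.of_eq (fun a => ?_)
      constructor
      · rintro ⟨l, hl⟩ i hi
        exact (h _).2 ⟨_, hl i hi⟩
      · intro H
        choose! w hw using fun i (hi : i < f a) => (h (a, i)).1 (H i hi)
        refine ⟨(List.range (f a)).map w, fun i hi => ?_⟩
        have : ((List.range (f a)).map w)[i]? = some (w i) := by
          simp [hi]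
        simp only [this, Option.getD_some]
        exact hw i hi
    · have h1 : IsSigma (n + 1) (fun z : α × ℕ => z.2 < f z.1) := by
        refine ComputablePred.sigma ?_ _
        have : ComputablePred (fun z : ℕ × ℕ => z.1 < z.2) := by
          have := Primrec.nat_lt
          exact PrimrecPred.computablePred this
        exact cp_comp (p := fun z : ℕ × ℕ => z.1 < z.2) (f := fun z : α × ℕ => (z.2, f z.1)) this
          (Computable.snd.pair (hf.comp Computable.fst))
      exact (h1.and hp).ex.of_eq (fun a => by simp)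

theorem IsSigma.ball {n : ℕ} {p : α × ℕ → Prop} {f : α → ℕ} (hp : IsSigma n p)
    (hf : Computable f) : IsSigma n (fun a => ∀ i < f a, p (a, i)) := (IsSigma.bounded hp hf).1

theorem IsSigma.bex {n : ℕ} {p : α × ℕ → Prop} {f : α → ℕ} (hp : IsSigma n p)
    (hf : Computable f) : IsSigma n (fun a => ∃ i < f a, p (a, i)) := (IsSigma.bounded hp hf).2

theorem IsPi.ball {n : ℕ} {p : α × ℕ → Prop} {f : α → ℕ} (hp : IsPi n p)
    (hf : Computable f) : IsPi n (fun a => ∀ i < f a, p (a, i)) :=
  (IsSigma.bex (p := fun z => ¬ p z) hp hf).of_eq (fun a => by push Not; rfl)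

theorem IsPi.bex {n : ℕ} {p : α × ℕ → Prop} {f : α → ℕ} (hp : IsPi n p)
    (hf : Computable f) : IsPi n (fun a => ∃ i < f a, p (a, i)) :=
  (IsSigma.ball (p := fun z => ¬ p z) hp hf).of_eq (fun a => by push Not; rfl)

end Pool.Agent.H80
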