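import Mathlib

/-! The arithmetical hierarchy for predicates on effectively coded types: definitions. -/

namespace Pool.Agent.H80

/-- `IsSigma n p`: the predicate `p` on the effectively coded type `α` is `Σ⁰ₙ`.
`Σ⁰₀` means computable, and `p` is `Σ⁰ₙ₊₁` when `p a ↔ ∃ x, q (a, x)` with `q` in `Π⁰ₙ`
(that is, with the negation of `q` in `Σ⁰ₙ`). -/
def IsSigma : ℕ → ∀ {α : Type} [Primcodable α], (α → Prop) → Prop
  | 0, _, _, p => ComputablePred p
  | n + 1, α, _, p =>
    ∃ q : α × ℕ → Prop, IsSigma n (fun z => ¬ q z) ∧ ∀ a, p a ↔ ∃ x, q (a, x)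

/-- `IsPi n p`: the negation of `p` is `Σ⁰ₙ`. -/
def IsPi (n : ℕ) {α : Type} [Primcodable α] (p : α → Prop) : Prop :=
  IsSigma n (fun a => ¬ p a)

end Pool.Agent.H80
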