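import Pool.Agent.H80.IndexDefs
import Pool.Agent.H80.Arith

/-! Upper bounds: `card π e ≥ 1` is `Π⁰₁` and `card π e ≥ k` is `Σ⁰₂`. -/

namespace Pool.Agent.H80

open Encodable Denumerable

/-- cardinality of the class as an extended natural number -/
noncomputable def card (π : ℕ → List ℕ → Bool) (e : ℕ) : ℕ∞ := (classP π e ∩ cantor).encard

/-! ### Binary strings coded by numbers -/

/-- the string of the first `n` binary digits of `i` -/
def bits (n i : ℕ) : List ℕ := (List.range n).map (fun j => i / 2 ^ j % 2)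

/-- the number whose first `n` binary digits are `X 0, …, X (n-1)` -/
def num (X : ℕ → ℕ) (n : ℕ) : ℕ := ∑ j ∈ Finset.range n, X j * 2 ^ j

theorem num_succ (X : ℕ → ℕ) (n : ℕ) : num X (n + 1) = num X n + X n * 2 ^ n := by
  simp [num, Finset.sum_range_succ]

theorem num_lt {X : ℕ → ℕ} (hX : X ∈ cantor) (n : ℕ) : num X n < 2 ^ n := by
  induction n with
  | zero => simp [num]
  | succ n ih =>
    rw [num_succ, pow_succ]
    rcases hX n with h | h <;> rw [h] <;> omega

theorem digit_num {X : ℕ → ℕ} (hX : X ∈ cantor) (n : ℕ) :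
    ∀ j < n, num X n / 2 ^ j % 2 = X j := by
  induction n with
  | zero => intro j hj; omega
  | succ n ih =>
    intro j hj
    rw [num_succ]
    rcases Nat.lt_succ_iff_lt_or_eq.1 hj with h | h
    · have h1 : X n * 2 ^ n = 2 ^ j * (2 * (X n * 2 ^ (n - j - 1))) := by
        have : 2 ^ n = 2 ^ j * (2 * 2 ^ (n - j - 1)) := by
          rw [← pow_succ', ← pow_add]; congr 1; omega
        rw [this]; ring
      rw [h1, Nat.add_mul_div_left _ _ (by positivity), Nat.add_mul_mod_self_left]
      exact ih j h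
    · subst h
      have h2 := num_lt hX j
      rw [Nat.add_mul_div_right _ _ (by positivity), Nat.div_eq_of_lt h2, zero_add]
      rcases hX j with h | h <;> rw [h]

theorem bits_num {X : ℕ → ℕ} (hX : X ∈ cantor) (n : ℕ) :
    bits n (num X n) = (List.range n).map X := by
  unfold bits
  apply List.map_congr_left
  intro j hj
  exact digit_num hX n j (List.mem_range.1 hj)

theorem num_digits (i n : ℕ) : num (fun j => i / 2 ^ j % 2) n = i % 2 ^ n := by
  induction n with
  | zero => simp [num, Nat.mod_one]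
  | succ n ih =>
    rw [num_succ, ih, Nat.mod_pow_succ, mul_comm]

theorem digits_cantor (i : ℕ) : (fun j => i / 2 ^ j % 2) ∈ cantor := by
  intro j
  have : i / 2 ^ j % 2 < 2 := Nat.mod_lt _ (by norm_num)
  simp only
  omega

theorem num_mod {X : ℕ → ℕ} (hX : X ∈ cantor) (n m : ℕ) : num X (n + m) % 2 ^ n = num X n := by
  induction m with
  | zero => exact Nat.mod_eq_of_lt (num_lt hX n)
  | succ m ih =>
    rw [← add_assoc, num_succ, pow_add, ← mul_assoc, mul_comm (X (n + m)) (2 ^ n), mul_assoc,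
      Nat.add_mul_mod_self_left, ih]

theorem treeU_prefix {π : ℕ → List ℕ → Bool} {e : ℕ} {σ τ : List ℕ} (h : τ <+: σ)
    (hσ : σ ∈ treeU π e) : τ ∈ treeU π e := fun ρ hρ => hσ ρ (hρ.trans h)

theorem range_map_prefix (X : ℕ → ℕ) {n m : ℕ} (h : n ≤ m) :
    (List.range n).map X <+: (List.range m).map X := by
  have h1 : (List.range m).take n = List.range n := by
    rw [List.take_range, min_eq_left h]
  rw [← h1, List.map_take]
  exact List.take_prefix _ _

/-- extendibility of the string `bits n i` to strings in the tree of every length -/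
def Ext (π : ℕ → List ℕ → Bool) (e n i : ℕ) : Prop :=
  ∀ m, ∃ i' < 2 ^ (n + m), i' % 2 ^ n = i ∧ bits (n + m) i' ∈ treeU π e

theorem ext_of_path {π : ℕ → List ℕ → Bool} {e : ℕ} {X : ℕ → ℕ}
    (hX : X ∈ classP π e ∩ cantor) (n : ℕ) : Ext π e n (num X n) := by
  intro m
  refine ⟨num X (n + m), num_lt hX.2 _, num_mod hX.2 n m, ?_⟩
  rw [bits_num hX.2]
  exact hX.1 (n + m)

theorem isClosed_map (N : ℕ) (S : Set (List ℕ)) :
    IsClosed {X : ℕ → ℕ | (List.range N).map X ∈ S} := by
  have h1 : {X : ℕ → ℕ | (List.range N).map X ∈ S} =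
      (fun X (j : Fin N) => X j) ⁻¹' {f | List.ofFn f ∈ S} := by
    ext X
    have h2 : (List.range N).map X = List.ofFn (fun j : Fin N => X j) := by
      apply List.ext_getElem
      · simp
      · intro i h1 h2; simp
    simp only [Set.mem_ofPred_eq, Set.mem_preimage, h2]
  rw [h1]
  refine IsClosed.preimage ?_ (isClosed_discrete _)
  exact continuous_pi (fun j => continuous_apply _)

theorem isCompact_cantor : IsCompact cantor := by
  have h : cantor = Set.pi Set.univ (fun _ : ℕ => ({0, 1} : Set ℕ)) := by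
    ext X; simp [cantor, Set.mem_pi]
  rw [h]
  exact isCompact_univ_pi (fun _ => (Set.toFinite _).isCompact)

theorem path_of_ext {π : ℕ → List ℕ → Bool} {e n i : ℕ} (h : Ext π e n i) :
    ∃ X ∈ classP π e ∩ cantor, num X n = i := by
  have hi : i < 2 ^ n := by
    obtain ⟨i', _, h2, _⟩ := h 0
    rw [← h2]; exact Nat.mod_lt _ (by positivity)
  let K : ℕ → Set (ℕ → ℕ) := fun m =>
    cantor ∩ {X | (List.range n).map X ∈ ({bits n i} : Set (List ℕ))} ∩
      {X | (List.range (n + m)).map X ∈ treeU π e}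
  have hKcl : ∀ m, IsClosed (K m) := fun m =>
    (isCompact_cantor.isClosed.inter (isClosed_map _ _)).inter (isClosed_map _ _)
  have hK0 : IsCompact (K 0) :=
    (isCompact_cantor.inter_right (isClosed_map _ _)).inter_right (isClosed_map _ _)
  have hKd : ∀ m, K (m + 1) ⊆ K m := by
    intro m X hX
    refine ⟨hX.1, ?_⟩
    have := hX.2
    exact treeU_prefix (range_map_prefix X (by omega)) this
  have hKn : ∀ m, (K m).Nonempty := by
    intro m
    obtain ⟨i', h1, h2, h3⟩ := h m
    refine ⟨fun j => i' / 2 ^ j % 2, ⟨digits_cantor i', ?_⟩, h3⟩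
    show (List.range n).map (fun j => i' / 2 ^ j % 2) ∈ ({bits n i} : Set (List ℕ))
    rw [← bits_num (digits_cantor i') n, num_digits, h2]
    rfl
  obtain ⟨X, hX⟩ := IsCompact.nonempty_iInter_of_sequence_nonempty_isCompact_isClosed K hKd hKn
    hK0 hKcl
  rw [Set.mem_iInter] at hX
  have hXc : X ∈ cantor := (hX 0).1.1
  refine ⟨X, ⟨fun N => ?_, hXc⟩, ?_⟩
  · have h1 := (hX N).2
    exact treeU_prefix (range_map_prefix X (by omega)) h1
  · have h1 : (List.range n).map X = bits n i := (hX 0).1.2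
    have h2 : num X n = num (fun j => i / 2 ^ j % 2) n := by
      unfold num
      apply Finset.sum_congr rfl
      intro j hj
      have hj' : j < n := Finset.mem_range.1 hj
      have h3 : ((List.range n).map X)[j]'(by simpa using hj') = X j := by simp
      have h4 : (bits n i)[j]'(by simpa [bits] using hj') = i / 2 ^ j % 2 := by simp [bits]
      have h5 : X j = i / 2 ^ j % 2 := by
        rw [← h3, ← h4]; simp only [h1]
      rw [h5]
    rw [h2, num_digits, Nat.mod_eq_of_lt hi]

theorem one_le_card {π : ℕ → List ℕ → Bool} {e : ℕ} : 1 ≤ card π e ↔ Ext π e 0 0 := by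
  unfold card
  rw [Set.one_le_encard_iff_nonempty]
  constructor
  · rintro ⟨X, hX⟩
    exact ext_of_path hX 0
  · intro h
    obtain ⟨X, hX, _⟩ := path_of_ext h
    exact ⟨X, hX⟩

theorem exists_separating (F : Finset (ℕ → ℕ)) (hF : ∀ X ∈ F, X ∈ cantor) :
    ∃ n, Set.InjOn (fun X => num X n) (F : Set (ℕ → ℕ)) := by
  classical
  have h1 : ∀ p : (ℕ → ℕ) × (ℕ → ℕ), p.1 ≠ p.2 → ∃ j, p.1 j ≠ p.2 j := by
    intro p hp
    by_contra hcon
    push Not at hcon
    exact hp (funext hcon)
  choose! d hd using h1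
  refine ⟨(F ×ˢ F).sup d + 1, ?_⟩
  intro X hX Y hY hXY
  by_contra hne
  have h2 := hd (X, Y) hne
  have h3 : d (X, Y) ≤ (F ×ˢ F).sup d :=
    Finset.le_sup (Finset.mem_product.2 ⟨hX, hY⟩)
  have h4 : d (X, Y) < (F ×ˢ F).sup d + 1 := Nat.lt_succ_of_le h3
  apply h2
  show X (d (X, Y)) = Y (d (X, Y))
  rw [← digit_num (hF X hX) _ _ h4, ← digit_num (hF Y hY) _ _ h4]
  simp only at hXY
  rw [hXY]

theorem le_card {π : ℕ → List ℕ → Bool} {e k : ℕ} :
    (k : ℕ∞) ≤ card π e ↔ ∃ z : ℕ × List ℕ,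
      (∀ j < k, ∀ j' < j, (z.2[j]?).getD 0 ≠ (z.2[j']?).getD 0) ∧
      ∀ j < k, Ext π e z.1 ((z.2[j]?).getD 0) := by
  classical
  unfold card
  constructor
  · intro h
    obtain ⟨t, ht, htk⟩ := Set.exists_subset_encard_eq h
    have hfin : t.Finite := Set.finite_of_encard_eq_coe htk
    obtain ⟨F, rfl⟩ := hfin.exists_finset_coe
    rw [Set.encard_coe_eq_coe_finsetCard] at htk
    have hk : F.card = k := by exact_mod_cast htk
    obtain ⟨n, hn⟩ := exists_separating F (fun X hX => (ht hX).2)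
    have hg : ∀ j (hj : j < k), ((F.toList.map (fun X => num X n))[j]?).getD 0 =
        num (F.toList[j]'(by simpa [hk] using hj)) n := by
      intro j hj
      have : j < F.toList.length := by simpa [hk] using hj
      rw [List.getElem?_map, List.getElem?_eq_getElem this]
      rfl
    refine ⟨(n, F.toList.map (fun X => num X n)), ?_, ?_⟩
    · intro j hj j' hj'
      simp only
      rw [hg j hj, hg j' (by omega)]
      intro hcon
      have h1 : F.toList[j]'(by simpa [hk] using hj) ∈ (F : Set (ℕ → ℕ)) :=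
        Finset.mem_toList.1 (List.getElem_mem _)
      have h2 : F.toList[j']'(by simp [hk]; omega) ∈ (F : Set (ℕ → ℕ)) :=
        Finset.mem_toList.1 (List.getElem_mem _)
      have h3 := hn h1 h2 hcon
      have h4 := (List.Nodup.getElem_inj_iff F.nodup_toList).1 h3
      omega
    · intro j hj
      simp only
      rw [hg j hj]
      apply ext_of_path
      apply ht
      exact Finset.mem_toList.1 (List.getElem_mem _)
  · rintro ⟨⟨n, l⟩, h1, h2⟩
    simp only at h1 h2
    have h3 : ∀ j : Fin k, ∃ X ∈ classP π e ∩ cantor, num X n = (l[(j : ℕ)]?).getD 0 :=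
      fun j => path_of_ext (h2 j j.2)
    choose X hX hXn using h3
    have hinj : Function.Injective X := by
      intro a b hab
      by_contra hne
      have hne' : (a : ℕ) ≠ b := fun h => hne (Fin.ext h)
      have h4 : (l[(a : ℕ)]?).getD 0 = (l[(b : ℕ)]?).getD 0 := by rw [← hXn a, ← hXn b, hab]
      rcases lt_or_gt_of_ne hne' with h | h
      · exact h1 b b.2 a h h4.symm
      · exact h1 a a.2 b h h4
    have h5 : ((Finset.univ.image X : Finset (ℕ → ℕ)) : Set (ℕ → ℕ)) ⊆ classP π e ∩ cantor := by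
      intro Y hY
      simp only [Finset.coe_image, Finset.coe_univ, Set.image_univ, Set.mem_range] at hY
      obtain ⟨j, rfl⟩ := hY
      exact hX j
    have h6 := Set.encard_le_encard h5
    rw [Set.encard_coe_eq_coe_finsetCard, Finset.card_image_of_injective _ hinj] at h6
    simpa using h6

/-! ### Computability -/

theorem primrec_pow : Primrec₂ (fun a b : ℕ => a ^ b) := Primrec₂.unpaired'.1 Nat.Primrec.pow

theorem primrec_bits : Primrec₂ bits := by
  refine Primrec.list_map (f := fun p : ℕ × ℕ => List.range p.1)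
    (g := fun (p : ℕ × ℕ) (j : ℕ) => p.2 / 2 ^ j % 2) (Primrec.list_range.comp Primrec.fst) ?_
  refine Primrec.nat_mod.comp (Primrec.nat_div.comp (Primrec.snd.comp Primrec.fst)
    (primrec_pow.comp (Primrec.const 2) Primrec.snd)) (Primrec.const 2)

theorem mem_treeU_iff {π : ℕ → List ℕ → Bool} {e : ℕ} {σ : List ℕ} :
    σ ∈ treeU π e ↔ ∀ j < σ.length + 1, π e (σ.take j) = true := by
  constructor
  · intro h j _
    exact h _ (List.take_prefix _ _)
  · intro h τ hτ
    rw [List.prefix_iff_eq_take] at hτ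
    rw [hτ]
    exact h _ (Nat.lt_succ_of_le (by
      have : τ.length ≤ σ.length := by rw [hτ]; simp
      exact this))

theorem computable_treeU {π : ℕ → List ℕ → Bool} (hπ : EffectiveEnum π) :
    ComputablePred (fun z : ℕ × List ℕ => z.2 ∈ treeU π z.1) := by
  have h1 : ComputablePred (fun z : (ℕ × List ℕ) × ℕ => π z.1.1 (z.1.2.take z.2) = true) := by
    refine ComputablePred.computable_iff.2 ⟨fun z => π z.1.1 (z.1.2.take z.2), ?_, rfl⟩
    exact hπ.computable.comp (Computable.fst.comp Computable.fst)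
      (Primrec.list_take.to_comp.comp Computable.snd (Computable.snd.comp Computable.fst))
  have h2 := cp_forall_lt (f := fun z : ℕ × List ℕ => z.2.length + 1) h1
    (Computable.succ.comp (Computable.list_length.comp Computable.snd))
  exact h2.of_eq (fun z => (mem_treeU_iff (π := π) (e := z.1) (σ := z.2)).symm)

theorem isPi_ext {π : ℕ → List ℕ → Bool} (hπ : EffectiveEnum π) :
    IsPi 1 (fun z : ℕ × ℕ × ℕ => Ext π z.1 z.2.1 z.2.2) := by
  -- variables: z = (e, n, i), m, i'
  have h1 : ComputablePred (fun w : ((ℕ × ℕ × ℕ) × ℕ) × ℕ =>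
      w.2 % 2 ^ w.1.1.2.1 = w.1.1.2.2 ∧
        bits (w.1.1.2.1 + w.1.2) w.2 ∈ treeU π w.1.1.1) := by
    have hn : Primrec (fun w : ((ℕ × ℕ × ℕ) × ℕ) × ℕ => w.1.1.2.1) :=
      Primrec.fst.comp (Primrec.snd.comp (Primrec.fst.comp Primrec.fst))
    have hi : Primrec (fun w : ((ℕ × ℕ × ℕ) × ℕ) × ℕ => w.1.1.2.2) :=
      Primrec.snd.comp (Primrec.snd.comp (Primrec.fst.comp Primrec.fst))
    have he : Primrec (fun w : ((ℕ × ℕ × ℕ) × ℕ) × ℕ => w.1.1.1) :=
      Primrec.fst.comp (Primrec.fst.comp Primrec.fst)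
    have hm : Primrec (fun w : ((ℕ × ℕ × ℕ) × ℕ) × ℕ => w.1.2) :=
      Primrec.snd.comp Primrec.fst
    apply cp_and
    · apply PrimrecPred.computablePred
      exact Primrec.eq.comp (Primrec.nat_mod.comp Primrec.snd
        (primrec_pow.comp (Primrec.const 2) hn)) hi
    · refine cp_comp (p := fun z : ℕ × List ℕ => z.2 ∈ treeU π z.1)
        (f := fun w : ((ℕ × ℕ × ℕ) × ℕ) × ℕ => (w.1.1.1, bits (w.1.1.2.1 + w.1.2) w.2))
        (computable_treeU hπ) ?_
      exact he.to_comp.pair (primrec_bits.comp (Primrec.nat_add.comp hn hm) Primrec.snd).to_comp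
  have h2 := cp_exists_lt (f := fun w : (ℕ × ℕ × ℕ) × ℕ => 2 ^ (w.1.2.1 + w.2)) h1 (by
    exact (primrec_pow.comp (Primrec.const 2) (Primrec.nat_add.comp
      (Primrec.fst.comp (Primrec.snd.comp Primrec.fst)) Primrec.snd)).to_comp)
  have h3 : IsSigma 0 (fun w : (ℕ × ℕ × ℕ) × ℕ => ∃ i' < 2 ^ (w.1.2.1 + w.2),
    i' % 2 ^ w.1.2.1 = w.1.2.2 ∧ bits (w.1.2.1 + w.2) i' ∈ treeU π w.1.1) := h2
  exact h3.all

theorem isPi_one_le_card {π : ℕ → List ℕ → Bool} (hπ : EffectiveEnum π) :
    IsPi 1 (fun e : ℕ => 1 ≤ card π e) := by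
  have h := (isPi_ext hπ).comp (f := fun e : ℕ => (e, (0 : ℕ), (0 : ℕ)))
    (Computable.id.pair (Computable.const (0, 0)))
  exact h.of_eq (fun e => one_le_card.symm)

theorem isSigma_le_card {π : ℕ → List ℕ → Bool} (hπ : EffectiveEnum π) :
    IsSigma 2 (fun p : ℕ × ℕ => (p.2 : ℕ∞) ≤ card π p.1) := by
  have hget : ∀ {α : Type} [Primcodable α] {l : α → List ℕ} {j : α → ℕ}, Primrec l → Primrec j →
      Primrec (fun a => ((l a)[j a]?).getD 0) := by
    intro α _ l j hl hj
    exact Primrec.option_getD.comp (Primrec.list_getElem?.comp hl hj) (Primrec.const 0)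
  -- distinctness
  have h1 : ComputablePred (fun w : (((ℕ × ℕ) × ℕ × List ℕ) × ℕ) × ℕ =>
      (w.1.1.2.2[w.1.2]?).getD 0 ≠ (w.1.1.2.2[w.2]?).getD 0) := by
    apply ComputablePred.not
    apply PrimrecPred.computablePred
    have hl : Primrec (fun w : (((ℕ × ℕ) × ℕ × List ℕ) × ℕ) × ℕ => w.1.1.2.2) :=
      Primrec.snd.comp (Primrec.snd.comp (Primrec.fst.comp Primrec.fst))
    exact Primrec.eq.comp (hget hl (Primrec.snd.comp Primrec.fst)) (hget hl Primrec.snd)
  have h2 := cp_forall_lt (f := fun w : ((ℕ × ℕ) × ℕ × List ℕ) × ℕ => w.2) h1 Computable.snd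
  have h3 := cp_forall_lt (f := fun w : (ℕ × ℕ) × ℕ × List ℕ => w.1.2) h2
    (Computable.snd.comp Computable.fst)
  have h4 : IsPi 1 (fun w : ((ℕ × ℕ) × ℕ × List ℕ) × ℕ =>
      Ext π w.1.1.1 w.1.2.1 ((w.1.2.2[w.2]?).getD 0)) := by
    refine (isPi_ext hπ).comp (f := fun w : ((ℕ × ℕ) × ℕ × List ℕ) × ℕ =>
      (w.1.1.1, w.1.2.1, (w.1.2.2[w.2]?).getD 0)) ?_
    refine Primrec.to_comp ?_
    refine (Primrec.fst.comp (Primrec.fst.comp Primrec.fst)).pair
      ((Primrec.fst.comp (Primrec.snd.comp Primrec.fst)).pair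
        (hget (Primrec.snd.comp (Primrec.snd.comp Primrec.fst)) Primrec.snd))
  have h5 := h4.ball (f := fun w : (ℕ × ℕ) × ℕ × List ℕ => w.1.2)
    (Computable.snd.comp Computable.fst)
  have h6 := (ComputablePred.pi h3 1).and h5
  have h7 := (h6.sigma_succ).ex_type
  refine h7.of_eq (fun p => ?_)
  exact (le_card (π := π) (e := p.1) (k := p.2)).symm

theorem isSigma_add_two_le_card {π : ℕ → List ℕ → Bool} (hπ : EffectiveEnum π) :
    IsSigma 2 (fun p : ℕ × ℕ => ((p.2 + 2 : ℕ) : ℕ∞) ≤ card π p.1) :=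
  (isSigma_le_card hπ).comp (f := fun p : ℕ × ℕ => (p.1, p.2 + 2))
    (Computable.fst.pair (Computable.succ.comp (Computable.succ.comp Computable.snd)))

end Pool.Agent.H80
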