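import Pool.Agent.H80.ArithDefs

/-! Definitions for index sets of `Π⁰₁` classes by cardinality. -/

namespace Pool.Agent.H80

/-- An effective enumeration `π₀, π₁, …` of the primitive recursive functions from finite strings
over `ω` to `{0,1}` (written as `Bool`): every `π e` is primitive recursive, `π` is computable
uniformly in the index, and (s-m-n property) for every primitive recursive family
`g x : ω^{<ω} → {0,1}` an index of `g x` can be computed from `x`. -/
structure EffectiveEnum (π : ℕ → List ℕ → Bool) : Prop where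
  primrec : ∀ e, Primrec (π e)
  computable : Computable₂ π
  smn : ∀ g : ℕ → List ℕ → Bool, Primrec₂ g →
    ∃ f : ℕ → ℕ, Computable f ∧ ∀ x, π (f x) = g x

/-- The tree `U_e` of strings all of whose initial segments are accepted by `π e`. -/
def treeU (π : ℕ → List ℕ → Bool) (e : ℕ) : Set (List ℕ) :=
  {σ | ∀ τ, τ <+: σ → π e τ = true}

/-- The `Π⁰₁` class `P_e = [U_e]` of infinite paths through `U_e`. -/
def classP (π : ℕ → List ℕ → Bool) (e : ℕ) : Set (ℕ → ℕ) :=
  {X | ∀ n, (List.range n).map X ∈ treeU π e}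

/-- Cantor space `2^ω` inside Baire space. -/
def cantor : Set (ℕ → ℕ) := {X | ∀ n, X n = 0 ∨ X n = 1}

/-- The index set `I_C` of the `Π⁰₁` classes whose part in `2^ω` is finite with cardinality
in `C`. -/
def indexI (π : ℕ → List ℕ → Bool) (C : Set ℕ) : Set ℕ :=
  {e | (classP π e ∩ cantor).Finite ∧ (classP π e ∩ cantor).ncard ∈ C}

/-- `X` is many-one complete for the class `Γ` of sets of natural numbers. -/
def CompleteFor (Γ : Set ℕ → Prop) (X : Set ℕ) : Prop :=
  Γ X ∧ ∀ Y : Set ℕ, Γ Y → (fun n => n ∈ Y) ≤₀ (fun n => n ∈ X)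

/-- The classes `D_k(Σ⁰ₙ)` of the difference hierarchy over `Σ⁰ₙ`: `D_0` consists of the empty
set, and `D_{k+1}` of the sets `A \ B` with `A` in `Σ⁰ₙ` and `B` in `D_k`. So `D_1 = Σ⁰ₙ` and
`D_2` consists of the differences of two `Σ⁰ₙ` sets. -/
def IsDiff (n : ℕ) : ℕ → Set ℕ → Prop
  | 0, X => X = ∅
  | k + 1, X => ∃ A B : Set ℕ, IsSigma n (fun x => x ∈ A) ∧ IsDiff n k B ∧ X = A \ B

/-- The class `Γ_C` attached to `C`: all preimages `G⁻¹(C)` of `C` under functions
`G : ω → ω ∪ {∞}` such that `G x ≥ 1` is a `Π⁰₁` property of `x` and `G x ≥ k + 2` is a `Σ⁰₂`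
property of `(x, k)`. -/
def GammaC (C : Set ℕ) (X : Set ℕ) : Prop :=
  ∃ G : ℕ → ℕ∞, IsPi 1 (fun x : ℕ => 1 ≤ G x) ∧
    IsSigma 2 (fun p : ℕ × ℕ => ((p.2 + 2 : ℕ) : ℕ∞) ≤ G p.1) ∧
    ∀ x, x ∈ X ↔ ∃ c ∈ C, G x = (c : ℕ∞)

/-- `C` has arbitrarily large elements which are uniformly approximable from below relative
to the halting problem: there are `v 0, v 1, … ∈ C` with `v n ≥ n` and `{(n, k) : k ≤ v n}`
in `Σ⁰₂`. -/
def HasSelection (C : Set ℕ) : Prop :=
  ∃ v : ℕ → ℕ, (∀ n, v n ∈ C ∧ n ≤ v n) ∧ IsSigma 2 (fun p : ℕ × ℕ => p.2 ≤ v p.1)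

/-- The places `m ≥ 1` where membership in `C` changes between `m` and `m + 1`. -/
def changes (C : Set ℕ) : Set ℕ := {m | 1 ≤ m ∧ ¬ (m ∈ C ↔ m + 1 ∈ C)}

end Pool.Agent.H80
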