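import Pool.Agent.H80.IndexUniv

/-! Finite `C`: exact levels of the difference hierarchy. -/

namespace Pool.Agent.H80

open Encodable Denumerable

theorem mem_indexI {π : ℕ → List ℕ → Bool} {C : Set ℕ} {e : ℕ} :
    e ∈ indexI π C ↔ ∃ c ∈ C, card π e = (c : ℕ∞) := by
  constructor
  · rintro ⟨hf, hc⟩
    exact ⟨_, hc, (hf.cast_ncard_eq).symm⟩
  · rintro ⟨c, hc, h⟩
    have hfin : (classP π e ∩ cantor).Finite := Set.finite_of_encard_eq_coe h
    refine ⟨hfin, ?_⟩
    have h2 : (classP π e ∩ cantor).ncard = c := by
      rw [Set.ncard_def]
      unfold card at h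
      rw [h]; rfl
    rw [h2]; exact hc

theorem isPi_true {α : Type} [Primcodable α] {n : ℕ} {p : α → Prop} (h : ∀ a, p a) :
    IsPi n p := by
  refine IsPi.of_eq (p := fun _ : α => True) (ComputablePred.pi ?_ n) (fun a => by simp [h a])
  exact ComputablePred.computable_iff.2 ⟨fun _ => true, Computable.const _, by simp⟩

theorem isSigma_false {α : Type} [Primcodable α] {n : ℕ} {p : α → Prop} (h : ∀ a, ¬ p a) :
    IsSigma n p := by
  refine IsSigma.of_eq (p := fun _ : α => False) (ComputablePred.sigma ?_ n)
    (fun a => by simp [h a])
  exact ComputablePred.computable_iff.2 ⟨fun _ => false, Computable.const _, by simp⟩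

theorem isSigma_const {α : Type} [Primcodable α] {n : ℕ} (P : Prop) :
    IsSigma n (fun _ : α => P) := by
  by_cases h : P
  · exact (isPi_true (n := n) (p := fun _ : α => ¬ ¬ P) (fun _ => not_not.2 h)).of_eq
      (fun _ => not_not) |> fun h2 => by
        have : IsSigma n (fun _ : α => ¬ ¬ P) := by
          refine IsSigma.of_eq (p := fun _ : α => True) (ComputablePred.sigma ?_ n)
            (fun a => by simp [h])
          exact ComputablePred.computable_iff.2 ⟨fun _ => true, Computable.const _, by simp⟩
        exact this.of_eq (fun _ => not_not)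
  · exact isSigma_false (fun _ => h)

/-! ### parity description of the difference hierarchy -/

/-- number of indices below `k` whose set contains `x` -/
noncomputable def cntA (A : ℕ → Set ℕ) (k x : ℕ) : ℕ := by
  classical exact ((Finset.range k).filter (fun i => x ∈ A i)).card

theorem cntA_zero (A : ℕ → Set ℕ) (x : ℕ) : cntA A 0 x = 0 := by
  classical
  simp [cntA]

theorem cntA_succ_shift (A : ℕ → Set ℕ) (k x : ℕ) :
    cntA A (k + 1) x = cntA (fun i => A (i + 1)) k x + (by classical exact if x ∈ A 0 then 1 else 0) := by
  classical
  unfold cntA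
  rw [Finset.card_filter, Finset.card_filter, Finset.sum_range_succ']

theorem cntA_eq_zero {A : ℕ → Set ℕ} {k x : ℕ} (h : ∀ i, x ∉ A i) : cntA A k x = 0 := by
  classical
  unfold cntA
  rw [Finset.card_eq_zero, Finset.filter_eq_empty_iff]
  intro i _; exact h i

theorem isDiff_of_parity {n : ℕ} : ∀ (k : ℕ) (A : ℕ → Set ℕ),
    (∀ i, IsSigma n (fun x => x ∈ A i)) → (∀ i, A (i + 1) ⊆ A i) →
    IsDiff n k {x | Odd (cntA A k x)}
  | 0, A, _, _ => by
    show {x | Odd (cntA A 0 x)} = ∅
    ext x; simp [cntA_zero]
  | k + 1, A, hA, hd => by
    refine ⟨A 0, {x | Odd (cntA (fun i => A (i + 1)) k x)}, hA 0,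
      isDiff_of_parity k (fun i => A (i + 1)) (fun i => hA (i + 1)) (fun i => hd (i + 1)), ?_⟩
    ext x
    simp only [Set.mem_ofPred_eq, Set.mem_sdiff]
    rw [cntA_succ_shift]
    by_cases hx : x ∈ A 0
    · simp only [hx, if_true, true_and]
      rw [Nat.odd_add_one]
    · have h0 : ∀ i, x ∉ A i := by
        intro i
        induction i with
        | zero => exact hx
        | succ i ih => exact fun h => ih (hd i h)
      rw [cntA_eq_zero (A := fun i => A (i + 1)) (fun i => h0 (i + 1))]
      simp [hx]

theorem parity_of_isDiff {n : ℕ} : ∀ (k : ℕ) (X : Set ℕ), IsDiff n k X →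
    ∃ A : ℕ → Set ℕ, (∀ i, IsSigma n (fun x => x ∈ A i)) ∧ (∀ i, A (i + 1) ⊆ A i) ∧
      X = {x | Odd (cntA A k x)}
  | 0, X, h => by
    refine ⟨fun _ => ∅, fun i => isSigma_false (fun a => by simp), fun i => subset_refl _, ?_⟩
    rw [show X = ∅ from h]
    ext x; simp [cntA_zero]
  | k + 1, X, h => by
    obtain ⟨A0, B, hA0, hB, rfl⟩ := h
    obtain ⟨A, hA, hd, rfl⟩ := parity_of_isDiff k B hB
    refine ⟨fun i => match i with | 0 => A0 | (j + 1) => A0 ∩ A j, ?_, ?_, ?_⟩
    · intro i
      cases i with
      | zero => exact hA0
      | succ j => exact hA0.and (hA j)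
    · intro i
      cases i with
      | zero => exact Set.inter_subset_left
      | succ j => exact Set.inter_subset_inter_right _ (hd j)
    · ext x
      simp only [Set.mem_ofPred_eq, Set.mem_sdiff]
      rw [cntA_succ_shift]
      by_cases hx : x ∈ A0
      · simp only [hx, if_true, true_and]
        rw [Nat.odd_add_one]
        have : cntA (fun i => A0 ∩ A i) k x = cntA A k x := by
          classical
          unfold cntA
          congr 1
          ext i
          simp [hx]
        rw [this]
      · rw [cntA_eq_zero (A := fun i => A0 ∩ A i) (fun i h => hx h.1)]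
        simp [hx]

/-! ### change points -/

section changes

variable {C : Set ℕ}

theorem changes_finite (hC : C.Finite) : (changes C).Finite := by
  have h : changes C ⊆ C ∪ (fun m => m - 1) '' C := by
    rintro m ⟨_, hm⟩
    by_cases h1 : m ∈ C
    · exact Or.inl h1
    · right
      have h2 : m + 1 ∈ C := by
        by_contra h2
        exact hm ⟨fun h => absurd h h1, fun h => absurd h h2⟩
      exact ⟨m + 1, h2, by simp⟩
  exact (hC.union (hC.image _)).subset h

open Classical in
theorem mem_iff_even_count {n : ℕ} (hn : 1 ≤ n) :
    (n ∈ C ↔ 1 ∈ C) ↔ Even (Nat.count (fun m => m ∈ changes C) n) := by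
  induction n, hn using Nat.le_induction with
  | base =>
    have h : Nat.count (fun m => m ∈ changes C) 1 = 0 := by
      rw [Nat.count_one, if_neg]
      rintro ⟨h, _⟩
      exact absurd h (by norm_num)
    rw [h]; simp
  | succ n hn ih =>
    rw [Nat.count_succ]
    by_cases h : n ∈ changes C
    · rw [if_pos h, Nat.even_add_one, ← ih]
      have h2 := h.2
      tauto
    · rw [if_neg h, add_zero, ← ih]
      have h2 : (n ∈ C ↔ n + 1 ∈ C) := by
        by_contra h3
        exact h ⟨hn, h3⟩
      tauto

open Classical in
theorem card_toFinset_changes (hf : (changes C).Finite) :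
    hf.toFinset.card = (changes C).ncard := (Set.ncard_eq_toFinset_card _ hf).symm

open Classical in
/-- the `i`-th threshold: the `i`-th place where the status of membership has changed -/
noncomputable def thr (C : Set ℕ) (i : ℕ) : ℕ := Nat.nth (fun m => m ∈ changes C) i + 1

open Classical in
theorem count_le_ncard (hC : C.Finite) (n : ℕ) :
    Nat.count (fun m => m ∈ changes C) n ≤ (changes C).ncard := by
  have h := Nat.count_le_card (p := fun m => m ∈ changes C) (changes_finite hC) n
  rw [← card_toFinset_changes (changes_finite hC)]
  exact h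

open Classical in
theorem thr_le_iff (hC : C.Finite) {i n : ℕ} (hi : i < (changes C).ncard) :
    thr C i ≤ n ↔ i < Nat.count (fun m => m ∈ changes C) n := by
  have hcard : ∀ hf : (Set.ofPred (fun m => m ∈ changes C)).Finite, i < hf.toFinset.card := by
    intro hf
    have : hf.toFinset.card = (changes C).ncard := (Set.ncard_eq_toFinset_card _ hf).symm
    rw [this]; exact hi
  unfold thr
  constructor
  · intro h
    have h1 : Nat.count (fun m => m ∈ changes C) (Nat.nth (fun m => m ∈ changes C) i + 1) = i + 1 :=
      Nat.count_nth_succ hcard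
    have h2 := Nat.count_monotone (fun m => m ∈ changes C) h
    omega
  · intro h
    exact Nat.nth_lt_of_lt_count h

theorem two_le_thr (hC : C.Finite) {i : ℕ} (hi : i < (changes C).ncard) : 2 ≤ thr C i := by
  classical
  have hcard : ∀ hf : (Set.ofPred (fun m => m ∈ changes C)).Finite, i < hf.toFinset.card := by
    intro hf
    have : hf.toFinset.card = (changes C).ncard := (Set.ncard_eq_toFinset_card _ hf).symm
    rw [this]; exact hi
  have h := Nat.nth_mem (p := fun m => m ∈ changes C) i hcard
  have h1 := h.1
  unfold thr
  omega

open Classical in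
theorem exists_large (hC : C.Finite) :
    ∃ n, 1 ≤ n ∧ n ∉ C ∧ Nat.count (fun m => m ∈ changes C) n = (changes C).ncard := by
  obtain ⟨b, hb⟩ := (hC.union (changes_finite hC)).bddAbove
  refine ⟨b + 1, by omega, ?_, ?_⟩
  · intro h
    have := hb (Or.inl h)
    omega
  · rw [Nat.count_eq_card_filter_range, ← card_toFinset_changes (changes_finite hC)]
    congr 1
    ext m
    simp only [Finset.mem_filter, Finset.mem_range, Set.Finite.mem_toFinset]
    constructor
    · exact fun h => h.2
    · intro h
      have := hb (Or.inr h)
      exact ⟨by omega, h⟩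

theorem odd_ncard_changes (hC : C.Finite) : Odd (changes C).ncard ↔ 1 ∈ C := by
  classical
  obtain ⟨n, hn, hnC, hcnt⟩ := exists_large hC
  have h := mem_iff_even_count (C := C) hn
  rw [hcnt] at h
  rw [← Nat.not_even_iff_odd, ← h]
  tauto

end changes

/-- the value attached to `j` passed thresholds -/
noncomputable def lev (C : Set ℕ) (j : ℕ) : ℕ := if j = 0 then 1 else thr C (j - 1)

theorem lev_mem_iff {C : Set ℕ} (hC : C.Finite) {j : ℕ} (hj : j ≤ (changes C).ncard) :
    (lev C j ∈ C ↔ 1 ∈ C) ↔ Even j := by
  classical
  unfold lev
  split_ifs with h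
  · subst h; simp
  · have hj' : j - 1 < (changes C).ncard := by omega
    have hcard : ∀ hf : (Set.ofPred (fun m => m ∈ changes C)).Finite,
        j - 1 < hf.toFinset.card := by
      intro hf
      have : hf.toFinset.card = (changes C).ncard := (Set.ncard_eq_toFinset_card _ hf).symm
      rw [this]; exact hj'
    have h1 : Nat.count (fun m => m ∈ changes C) (thr C (j - 1)) = j := by
      unfold thr
      rw [Nat.count_nth_succ hcard]
      omega
    rw [mem_iff_even_count (C := C) (by have := two_le_thr hC hj'; omega), h1]

theorem thr_mono {C : Set ℕ} (hC : C.Finite) {i j : ℕ} (hij : i ≤ j)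
    (hj : j < (changes C).ncard) : thr C i ≤ thr C j := by
  classical
  have hcard : ∀ hf : (Set.ofPred (fun m => m ∈ changes C)).Finite, j < hf.toFinset.card := by
    intro hf
    have : hf.toFinset.card = (changes C).ncard := (Set.ncard_eq_toFinset_card _ hf).symm
    rw [this]; exact hj
  unfold thr
  have := Nat.nth_le_nth' (p := fun m => m ∈ changes C) hij hcard
  omega

/-! ### completeness -/

/-- `X` is the set of `x` at which the status of the cardinality differs from the status of `1` -/
theorem isDiff_status {π : ℕ → List ℕ → Bool} (hπ : EffectiveEnum π) {C : Set ℕ} (hC : C.Finite)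
    (hC0 : ¬ C ⊆ {0}) :
    IsDiff 2 (changes C).ncard {e | ¬ (e ∈ indexI π C ↔ 1 ∈ C)} := by
  classical
  have hd : 0 < (changes C).ncard := by
    rw [Nat.pos_iff_ne_zero]
    intro h0
    have hemp : changes C = ∅ := (Set.ncard_eq_zero (changes_finite hC)).1 h0
    apply hC0
    intro n hn
    by_contra hn0
    have hn1 : 1 ≤ n := Nat.one_le_iff_ne_zero.2 (by simpa using hn0)
    have h1 := mem_iff_even_count (C := C) hn1
    have h2 : Nat.count (fun m => m ∈ changes C) n = 0 := by
      rw [Nat.count_iff_forall_not]
      intro m _
      rw [hemp]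
      simp
    rw [h2] at h1
    simp only [Even.zero, iff_true] at h1
    have h3 : 1 ∈ C := h1.1 hn
    rw [← odd_ncard_changes hC, h0] at h3
    exact absurd h3 (by simp)
  let E : Set ℕ := {e | card π e = 0 ∧ ¬ (0 ∈ C ↔ 1 ∈ C)}
  let A : ℕ → Set ℕ := fun i =>
    if i < (changes C).ncard then
      {e | (thr C i : ℕ∞) ≤ card π e} ∪ (if i = 0 then E else ∅) else ∅
  have hA : ∀ i, IsSigma 2 (fun x => x ∈ A i) := by
    intro i
    by_cases hi : i < (changes C).ncard
    · have h1 : IsSigma 2 (fun e : ℕ => (thr C i : ℕ∞) ≤ card π e) :=
        (isSigma_le_card hπ).comp (f := fun e : ℕ => (e, thr C i))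
          (Computable.id.pair (Computable.const _))
      have h2 : IsSigma 2 (fun e : ℕ => e ∈ (if i = 0 then E else ∅)) := by
        by_cases h0 : i = 0
        · have h3 : IsSigma 2 (fun e : ℕ => card π e = 0) := by
            have h4 : IsSigma 1 (fun e : ℕ => ¬ 1 ≤ card π e) := (isPi_one_le_card hπ).sigma_not
            refine h4.succ.of_eq (fun e => ?_)
            rw [Order.one_le_iff_ne_zero, not_not]
          have h5 := h3.and (isSigma_const (α := ℕ) (n := 2) (¬ (0 ∈ C ↔ 1 ∈ C)))
          refine h5.of_eq (fun e => ?_)
          rw [if_pos h0]; exact Iff.rfl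
        · exact isSigma_false (fun e => by rw [if_neg h0]; simp)
      refine (h1.or h2).of_eq (fun e => ?_)
      simp only [A]
      rw [if_pos hi]
      rfl
    · exact isSigma_false (fun e => by simp [A, if_neg hi])
  have hdec : ∀ i, A (i + 1) ⊆ A i := by
    intro i e he
    simp only [A] at he ⊢
    by_cases h1 : i + 1 < (changes C).ncard
    · rw [if_pos h1, if_neg (Nat.succ_ne_zero i)] at he
      rcases he with he | he
      · rw [if_pos (by omega)]
        left
        have : thr C i ≤ thr C (i + 1) := thr_mono hC (by omega) h1
        rw [Set.mem_ofPred_eq] at he ⊢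
        exact (Nat.cast_le.2 this).trans he
      · exact absurd he (by simp)
    · rw [if_neg h1] at he
      exact absurd he (by simp)
  have key := isDiff_of_parity (n := 2) (changes C).ncard A hA hdec
  convert key using 1
  ext e
  simp only [Set.mem_ofPred_eq]
  rw [mem_indexI]
  rcases eq_or_ne (card π e) ⊤ with htop | hfin
  · have h1 : ¬ ∃ c ∈ C, card π e = (c : ℕ∞) := by
      rintro ⟨c, _, h⟩
      rw [htop] at h
      exact ENat.top_ne_natCast c h
    have h2 : cntA A (changes C).ncard e = (changes C).ncard := by
      unfold cntA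
      rw [Finset.filter_true_of_mem, Finset.card_range]
      intro i hi
      simp only [A]
      rw [if_pos (Finset.mem_range.1 hi)]
      left
      simp [htop]
    rw [h2, odd_ncard_changes hC]
    simp only [h1, false_iff, not_not]
  · obtain ⟨n, hn⟩ := ENat.ne_top_iff_exists.1 hfin
    have h1 : (∃ c ∈ C, card π e = (c : ℕ∞)) ↔ n ∈ C := by
      constructor
      · rintro ⟨c, hc, h⟩
        rw [← hn] at h
        have : n = c := by exact_mod_cast h
        rw [this]; exact hc
      · intro h; exact ⟨n, h, hn.symm⟩
    rw [h1]
    rcases Nat.eq_zero_or_pos n with h0 | hpos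
    · subst h0
      have h2 : cntA A (changes C).ncard e = if (0 ∈ C ↔ 1 ∈ C) then 0 else 1 := by
        have hi : ∀ i, e ∈ A i ↔ (i = 0 ∧ ¬ (0 ∈ C ↔ 1 ∈ C)) := by
          intro i
          simp only [A]
          split_ifs with h3 h4
          · subst h4
            constructor
            · rintro (h | h)
              · rw [Set.mem_ofPred_eq, ← hn] at h
                have h5 : thr C 0 ≤ 0 := by exact_mod_cast h
                have h6 := two_le_thr hC h3
                omega
              · exact ⟨rfl, h.2⟩
            · rintro ⟨_, h⟩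
              right
              exact ⟨by rw [← hn]; rfl, h⟩
          · constructor
            · rintro (h | h)
              · rw [Set.mem_ofPred_eq, ← hn] at h
                have h5 : thr C i ≤ 0 := by exact_mod_cast h
                have h6 := two_le_thr hC h3
                omega
              · exact absurd h (by simp)
            · rintro ⟨h, _⟩; exact absurd h h4
          · constructor
            · intro h; exact absurd h (by simp)
            · rintro ⟨rfl, _⟩; exact absurd hd h3
        unfold cntA
        simp only [hi]
        split_ifs with h4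
        · simp [h4]
        · simp only [h4, not_false_eq_true, and_true]
          rw [Finset.filter_eq' , if_pos (Finset.mem_range.2 hd)]
          simp
      rw [h2]
      split_ifs with h4
      · simp [h4]
      · simp [h4]
    · have h2 : cntA A (changes C).ncard e = Nat.count (fun m => m ∈ changes C) n := by
        have hi : ∀ i, i < (changes C).ncard →
            (e ∈ A i ↔ i < Nat.count (fun m => m ∈ changes C) n) := by
          intro i hi
          rw [← thr_le_iff hC hi]
          simp only [A]
          rw [if_pos hi]
          constructor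
          · rintro (h | h)
            · rw [Set.mem_ofPred_eq, ← hn] at h
              exact_mod_cast h
            · split_ifs at h with h0
              · have := h.1
                rw [← hn] at this
                have h5 : n = 0 := by exact_mod_cast this
                omega
              · exact absurd h (by simp)
          · intro h
            left
            rw [Set.mem_ofPred_eq, ← hn]
            exact_mod_cast h
        unfold cntA
        have : (Finset.range (changes C).ncard).filter (fun i => e ∈ A i) =
            Finset.range (Nat.count (fun m => m ∈ changes C) n) := by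
          ext i
          simp only [Finset.mem_filter, Finset.mem_range]
          constructor
          · rintro ⟨h3, h4⟩; exact (hi i h3).1 h4
          · intro h3
            have h4 := count_le_ncard hC n
            exact ⟨by omega, (hi i (by omega)).2 h3⟩
        rw [this, Finset.card_range]
      rw [h2, mem_iff_even_count (C := C) hpos, Nat.not_even_iff_odd]

/-- hardness -/
theorem hard_status {π : ℕ → List ℕ → Bool} (hπ : EffectiveEnum π) {C : Set ℕ} (hC : C.Finite)
    {Y : Set ℕ} (hY : IsDiff 2 (changes C).ncard Y) :
    ∃ f : ℕ → ℕ, Computable f ∧ ∀ x, x ∈ Y ↔ ¬ (f x ∈ indexI π C ↔ 1 ∈ C) := by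
  classical
  obtain ⟨A, hA, hdec, rfl⟩ := parity_of_isDiff _ _ hY
  have hanti : ∀ i j, i ≤ j → A j ⊆ A i := by
    intro i j hij
    induction hij with
    | refl => exact subset_refl _
    | step _ ih => exact (hdec _).trans ih
  have hcnt : ∀ x i, i < (changes C).ncard → (x ∈ A i ↔ i < cntA A (changes C).ncard x) := by
    intro x i hi
    unfold cntA
    constructor
    · intro h
      have h1 : Finset.range (i + 1) ⊆ (Finset.range (changes C).ncard).filter (fun i => x ∈ A i) := by
        intro j hj
        have := Finset.mem_range.1 hj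
        rw [Finset.mem_filter, Finset.mem_range]
        exact ⟨by omega, hanti j i (by omega) h⟩
      have := Finset.card_le_card h1
      rw [Finset.card_range] at this
      omega
    · intro h
      by_contra hx
      have h1 : (Finset.range (changes C).ncard).filter (fun i => x ∈ A i) ⊆ Finset.range i := by
        intro j hj
        rw [Finset.mem_filter] at hj
        rw [Finset.mem_range]
        by_contra hji
        exact hx (hanti i j (by omega) hj.2)
      have := Finset.card_le_card h1
      rw [Finset.card_range] at this
      omega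
  have hle : ∀ x, cntA A (changes C).ncard x ≤ (changes C).ncard := by
    intro x
    unfold cntA
    refine (Finset.card_filter_le _ _).trans ?_
    simp
  let G : ℕ → ℕ∞ := fun x => (lev C (cntA A (changes C).ncard x) : ℕ∞)
  have hlev1 : ∀ j, j ≤ (changes C).ncard → 1 ≤ lev C j := by
    intro j hj
    unfold lev
    split_ifs with h
    · exact le_refl _
    · have := two_le_thr hC (i := j - 1) (by omega)
      omega
  have h1 : IsPi 1 (fun x : ℕ => 1 ≤ G x) := by
    apply isPi_true
    intro x
    show (1 : ℕ∞) ≤ ((lev C (cntA A (changes C).ncard x) : ℕ) : ℕ∞)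
    exact_mod_cast hlev1 _ (hle x)
  have h2 : IsSigma 2 (fun p : ℕ × ℕ => ((p.2 + 2 : ℕ) : ℕ∞) ≤ G p.1) := by
    have h3 : ∀ d, d ≤ (changes C).ncard →
        IsSigma 2 (fun p : ℕ × ℕ => ∃ i < d, p.1 ∈ A i ∧ p.2 + 2 ≤ thr C i) := by
      intro d
      induction d with
      | zero => intro _; exact isSigma_false (fun a => by simp)
      | succ d ih =>
        intro hd
        have h4 : IsSigma 2 (fun p : ℕ × ℕ => p.1 ∈ A d ∧ p.2 + 2 ≤ thr C d) := by
          refine IsSigma.and ((hA d).comp (f := fun p : ℕ × ℕ => p.1) Computable.fst) ?_
          refine ComputablePred.sigma ?_ 2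
          apply PrimrecPred.computablePred
          exact Primrec.nat_le.comp (Primrec.succ.comp (Primrec.succ.comp Primrec.snd))
            (Primrec.const _)
        refine ((ih (by omega)).or h4).of_eq (fun p => ?_)
        constructor
        · rintro (⟨i, hi, h⟩ | h)
          · exact ⟨i, by omega, h⟩
          · exact ⟨d, by omega, h⟩
        · rintro ⟨i, hi, h⟩
          rcases Nat.lt_succ_iff_lt_or_eq.1 hi with h5 | h5
          · exact Or.inl ⟨i, h5, h⟩
          · subst h5; exact Or.inr h
    refine (h3 _ le_rfl).of_eq (fun p => ?_)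
    simp only [G, Nat.cast_le]
    set J := cntA A (changes C).ncard p.1 with hJ
    constructor
    · rintro ⟨i, hi, hpi, hk⟩
      have h4 : i < J := (hcnt p.1 i hi).1 hpi
      unfold lev
      rw [if_neg (by omega)]
      have h5 : J ≤ (changes C).ncard := hle p.1
      exact hk.trans (thr_mono hC (by omega) (by omega))
    · intro h
      unfold lev at h
      split_ifs at h with h0
      · omega
      · have h5 : J ≤ (changes C).ncard := hle p.1
        exact ⟨J - 1, by omega, (hcnt p.1 _ (by omega)).2 (by omega), h⟩
  obtain ⟨f, hf, hfG⟩ := exists_card_eq hπ G h1 h2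
  refine ⟨f, hf, fun x => ?_⟩
  rw [mem_indexI, hfG]
  have h4 : (∃ c ∈ C, G x = (c : ℕ∞)) ↔ lev C (cntA A (changes C).ncard x) ∈ C := by
    constructor
    · rintro ⟨c, hc, h⟩
      have h' : ((lev C (cntA A (changes C).ncard x) : ℕ) : ℕ∞) = (c : ℕ∞) := h
      have : lev C (cntA A (changes C).ncard x) = c := by exact_mod_cast h'
      rw [this]; exact hc
    · intro h; exact ⟨_, h, rfl⟩
  rw [h4, lev_mem_iff hC (hle x), Nat.not_even_iff_odd]
  rfl

end Pool.Agent.H80
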