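import Pool.Agent.H80.IndexSigma
import Pool.Agent.H80.IndexEnum

/-! Assembly of the classification. -/

namespace Pool.Agent.H80

open Encodable Denumerable
open Nat.Partrec (Code)

/-- `Σ⁰₁` means computably enumerable. -/
theorem isSigma_one_iff {α : Type} [Primcodable α] {p : α → Prop} : IsSigma 1 p ↔ REPred p := by
  classical
  constructor
  · rintro ⟨q, hq, h⟩
    have hq' : ComputablePred (fun z => ¬ q z) := hq
    have hq2 : ComputablePred q := hq'.not.of_eq (fun z => not_not)
    obtain ⟨g, hg, rfl⟩ := ComputablePred.computable_iff.1 hq2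
    have h1 : Partrec (fun a : α => Nat.rfind (fun n => (Part.some (g (a, n)) : Part Bool))) := by
      refine Partrec.rfind (p := fun a n => (Part.some (g (a, n)) : Part Bool)) ?_
      exact hg.partrec
    refine h1.dom_re.of_eq (fun a => ?_)
    rw [h a]
    refine Iff.trans (Nat.rfind_dom (p := fun n => (Part.some (g (a, n)) : Part Bool))) ?_
    constructor
    · rintro ⟨n, hn, _⟩
      exact ⟨n, (Part.mem_some_iff.1 hn).symm⟩
    · rintro ⟨n, hn⟩
      refine ⟨n, Part.mem_some_iff.2 hn.symm, fun _ => trivial⟩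
  · intro h
    obtain ⟨c, hc⟩ := Code.exists_code.1 h
    have h1 : ComputablePred (fun z : α × ℕ => (Code.evaln z.2 c (encode z.1)).isSome = true) := by
      apply PrimrecPred.computablePred
      refine Primrec.eq.comp (Primrec.option_isSome.comp
        (Code.primrec_evaln.comp ((Primrec.snd.pair (Primrec.const c)).pair
          (Primrec.encode.comp Primrec.fst)))) (Primrec.const true)
    refine ⟨fun z => (Code.evaln z.2 c (encode z.1)).isSome = true, h1.not, fun a => ?_⟩
    have h2 : p a ↔ (Code.eval c (encode a)).Dom := by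
      rw [hc]
      simp [Part.assert]
    rw [h2]
    constructor
    · intro hd
      obtain ⟨k, hk⟩ := Code.evaln_complete.1 (Part.get_mem hd)
      exact ⟨k, Option.isSome_iff_exists.2 ⟨_, hk⟩⟩
    · rintro ⟨k, hk⟩
      obtain ⟨y, hy⟩ := Option.isSome_iff_exists.1 hk
      have := Code.evaln_complete.2 ⟨k, hy⟩
      exact Part.dom_iff_mem.2 ⟨y, this⟩

theorem gamma_complete {π : ℕ → List ℕ → Bool} (hπ : EffectiveEnum π) (C : Set ℕ) :
    CompleteFor (GammaC C) (indexI π C) := by
  constructor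
  · exact ⟨card π, isPi_one_le_card hπ, isSigma_add_two_le_card hπ, fun x => mem_indexI⟩
  · rintro Y ⟨G, h1, h2, hY⟩
    obtain ⟨f, hf, hfG⟩ := exists_card_eq hπ G h1 h2
    refine ⟨f, hf, fun x => ?_⟩
    beta_reduce
    rw [mem_indexI, hfG]
    exact hY x

theorem index_empty {π : ℕ → List ℕ → Bool} : indexI π ∅ = ∅ := by
  ext e
  rw [mem_indexI]
  simp

theorem complete_zero {π : ℕ → List ℕ → Bool} (hπ : EffectiveEnum π) :
    CompleteFor (fun X => IsSigma 1 (fun x => x ∈ X)) (indexI π {0}) := by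
  classical
  constructor
  · have h : IsSigma 1 (fun e : ℕ => ¬ 1 ≤ card π e) := (isPi_one_le_card hπ).sigma_not
    refine h.of_eq (fun e => ?_)
    rw [mem_indexI, Order.one_le_iff_ne_zero, not_not]
    constructor
    · intro h; exact ⟨0, rfl, by rw [h]; rfl⟩
    · rintro ⟨c, hc, h⟩
      have h0 : c = 0 := hc
      rw [h, h0]; rfl
  · intro Y hY
    obtain ⟨f, hf, hfG⟩ := exists_card_eq hπ (fun x => if x ∈ Y then 0 else 1) (by
      have h : IsPi 1 (fun x : ℕ => ¬ x ∈ Y) := IsSigma.pi_not hY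
      refine h.of_eq (fun x => ?_)
      split_ifs with hx <;> simp [hx]) (by
      refine isSigma_false (fun p => ?_)
      split_ifs with hx
      · simp
      · rw [not_le]
        have : (1 : ℕ) < p.2 + 2 := by omega
        exact_mod_cast this)
    refine ⟨f, hf, fun x => ?_⟩
    beta_reduce
    rw [mem_indexI, hfG]
    constructor
    · intro hx
      exact ⟨0, rfl, by rw [if_pos hx]; rfl⟩
    · rintro ⟨c, hc, h⟩
      by_contra hx
      have h0 : c = 0 := hc
      rw [if_neg hx, h0] at h
      exact absurd h (by norm_num)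

theorem complete_finite_not {π : ℕ → List ℕ → Bool} (hπ : EffectiveEnum π) {C : Set ℕ}
    (hC : C.Finite) (hC0 : ¬ C ⊆ {0}) (h1 : 1 ∉ C) :
    CompleteFor (IsDiff 2 (changes C).ncard) (indexI π C) := by
  constructor
  · have h := isDiff_status hπ hC hC0
    have h2 : {e | ¬ (e ∈ indexI π C ↔ 1 ∈ C)} = indexI π C := by
      ext e
      rw [Set.mem_ofPred_eq]
      tauto
    rw [h2] at h
    exact h
  · intro Y hY
    obtain ⟨f, hf, h⟩ := hard_status hπ hC hY
    refine ⟨f, hf, fun x => ?_⟩
    beta_reduce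
    rw [h x]
    tauto

theorem complete_finite_mem {π : ℕ → List ℕ → Bool} (hπ : EffectiveEnum π) {C : Set ℕ}
    (hC : C.Finite) (h1 : 1 ∈ C) :
    CompleteFor (fun X => IsDiff 2 (changes C).ncard Xᶜ) (indexI π C) := by
  constructor
  · have hC0 : ¬ C ⊆ {0} := fun h => absurd (h h1) (by simp)
    have h := isDiff_status hπ hC hC0
    have h2 : {e | ¬ (e ∈ indexI π C ↔ 1 ∈ C)} = (indexI π C)ᶜ := by
      ext e
      rw [Set.mem_ofPred_eq, Set.mem_compl_iff]
      tauto
    rw [h2] at h
    exact h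
  · intro Y hY
    obtain ⟨f, hf, h⟩ := hard_status hπ hC hY
    refine ⟨f, hf, fun x => ?_⟩
    beta_reduce
    have h3 := h x
    rw [Set.mem_compl_iff] at h3
    tauto

theorem complete_sigma_iff {π : ℕ → List ℕ → Bool} (hπ : EffectiveEnum π) (C : Set ℕ) :
    CompleteFor (fun X => IsSigma 3 (fun x => x ∈ X)) (indexI π C) ↔
      IsSigma 3 (fun x => x ∈ C) ∧ HasSelection C := by
  constructor
  · rintro ⟨h1, h2⟩
    exact ⟨(isSigma_index_iff hπ C le_rfl).1 h1, selection_of_hard hπ h2⟩
  · rintro ⟨h1, h2⟩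
    exact ⟨(isSigma_index_iff hπ C le_rfl).2 h1, fun Y hY => hard_of_selection hπ h2 hY⟩

theorem complete_infinite {π : ℕ → List ℕ → Bool} (hπ : EffectiveEnum π) {C : Set ℕ}
    (hC : C.Infinite) (h : IsSigma 2 (fun x => x ∈ C) ∨ IsPi 2 (fun x => x ∈ C)) :
    CompleteFor (fun X => IsSigma 3 (fun x => x ∈ X)) (indexI π C) := by
  rw [complete_sigma_iff hπ]
  rcases h with h | h
  · exact ⟨h.succ, selection_of_sigma_two hC h⟩
  · exact ⟨h.sigma_succ, selection_of_pi_two hC h⟩

end Pool.Agent.H80
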