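import Pool.Agent.H80.IndexDiff

/-! Infinite `C`: completeness for `Σ⁰₃`. -/

namespace Pool.Agent.H80

open Encodable Denumerable
open Nat.Partrec (Code)

theorem isSigma_card_eq {π : ℕ → List ℕ → Bool} (hπ : EffectiveEnum π) :
    IsSigma 3 (fun p : ℕ × ℕ => card π p.1 = (p.2 : ℕ∞)) := by
  have h1 := isSigma_le_card hπ
  have h2 : IsSigma 3 (fun p : ℕ × ℕ => ¬ ((p.2 + 1 : ℕ) : ℕ∞) ≤ card π p.1) := by
    have h3 : IsSigma 2 (fun p : ℕ × ℕ => ((p.2 + 1 : ℕ) : ℕ∞) ≤ card π p.1) :=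
      h1.comp (f := fun p : ℕ × ℕ => (p.1, p.2 + 1))
        (Computable.fst.pair (Computable.succ.comp Computable.snd))
    exact h3.pi_not.sigma_succ
  refine (h1.succ.and h2).of_eq (fun p => ?_)
  rw [not_le]
  constructor
  · rintro ⟨h3, h4⟩
    apply le_antisymm _ h3
    have h5 : card π p.1 < (p.2 : ℕ∞) + 1 := by exact_mod_cast h4
    exact ENat.lt_natCast_add_one_iff.1 h5
  · intro h
    rw [h]
    exact ⟨le_refl _, by exact_mod_cast Nat.lt_succ_self _⟩

theorem isPi_card_eq {π : ℕ → List ℕ → Bool} (hπ : EffectiveEnum π) :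
    IsPi 3 (fun p : ℕ × ℕ => card π p.1 = (p.2 : ℕ∞)) := by
  have h1 := isSigma_le_card hπ
  have h2 : IsPi 3 (fun p : ℕ × ℕ => ¬ ((p.2 + 1 : ℕ) : ℕ∞) ≤ card π p.1) := by
    have h3 : IsSigma 2 (fun p : ℕ × ℕ => ((p.2 + 1 : ℕ) : ℕ∞) ≤ card π p.1) :=
      h1.comp (f := fun p : ℕ × ℕ => (p.1, p.2 + 1))
        (Computable.fst.pair (Computable.succ.comp Computable.snd))
    exact h3.pi_not.succ
  refine ((h1.pi_succ).and h2).of_eq (fun p => ?_)
  rw [not_le]
  constructor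
  · rintro ⟨h3, h4⟩
    apply le_antisymm _ h3
    have h5 : card π p.1 < (p.2 : ℕ∞) + 1 := by exact_mod_cast h4
    exact ENat.lt_natCast_add_one_iff.1 h5
  · intro h
    rw [h]
    exact ⟨le_refl _, by exact_mod_cast Nat.lt_succ_self _⟩

/-- `C ≤ₘ I_C`, for every `C` -/
theorem reducible_index {π : ℕ → List ℕ → Bool} (hπ : EffectiveEnum π) (C : Set ℕ) :
    (fun n => n ∈ C) ≤₀ (fun n => n ∈ indexI π C) := by
  obtain ⟨f, hf, hfG⟩ := exists_card_eq hπ (fun n => (n : ℕ∞)) (by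
      have : IsPi 1 (fun x : ℕ => 1 ≤ x) := by
        refine ComputablePred.pi ?_ 1
        apply PrimrecPred.computablePred
        exact Primrec.nat_le.comp (Primrec.const 1) Primrec.id
      exact this.of_eq (fun x => by
        show 1 ≤ x ↔ (1 : ℕ∞) ≤ (x : ℕ∞)
        exact_mod_cast Iff.rfl)) (by
      have : IsSigma 2 (fun p : ℕ × ℕ => p.2 + 2 ≤ p.1) := by
        refine ComputablePred.sigma ?_ 2
        apply PrimrecPred.computablePred
        exact Primrec.nat_le.comp (Primrec.succ.comp (Primrec.succ.comp Primrec.snd)) Primrec.fst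
      exact this.of_eq (fun x => by
        show x.2 + 2 ≤ x.1 ↔ ((x.2 + 2 : ℕ) : ℕ∞) ≤ (x.1 : ℕ∞)
        exact (Nat.cast_le).symm))
  refine ⟨f, hf, fun n => ?_⟩
  beta_reduce
  rw [mem_indexI, hfG]
  constructor
  · intro h; exact ⟨n, h, rfl⟩
  · rintro ⟨c, hc, h⟩
    have h' : (n : ℕ∞) = (c : ℕ∞) := h
    have : n = c := by exact_mod_cast h'
    show n ∈ C
    rw [this]; exact hc

theorem IsSigma.of_reducible {n : ℕ} {X Y : Set ℕ} (h : (fun n => n ∈ X) ≤₀ (fun n => n ∈ Y))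
    (hY : IsSigma n (fun x => x ∈ Y)) : IsSigma n (fun x => x ∈ X) := by
  obtain ⟨f, hf, hfx⟩ := h
  exact (hY.comp hf).of_eq (fun a => (hfx a).symm)

theorem IsPi.of_reducible {n : ℕ} {X Y : Set ℕ} (h : (fun n => n ∈ X) ≤₀ (fun n => n ∈ Y))
    (hY : IsPi n (fun x => x ∈ Y)) : IsPi n (fun x => x ∈ X) := by
  obtain ⟨f, hf, hfx⟩ := h
  exact (hY.comp hf).of_eq (fun a => (hfx a).symm)

theorem isSigma_index_iff {π : ℕ → List ℕ → Bool} (hπ : EffectiveEnum π) (C : Set ℕ) {n : ℕ}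
    (hn : 3 ≤ n) : IsSigma n (fun x => x ∈ indexI π C) ↔ IsSigma n (fun x => x ∈ C) := by
  constructor
  · exact IsSigma.of_reducible (reducible_index hπ C)
  · intro h
    obtain ⟨m, rfl⟩ : ∃ m, n = m + 1 := ⟨n - 1, by omega⟩
    have h1 : IsSigma (m + 1) (fun p : ℕ × ℕ => p.2 ∈ C) :=
      h.comp (f := fun p : ℕ × ℕ => p.2) Computable.snd
    have h2 : IsSigma (m + 1) (fun p : ℕ × ℕ => card π p.1 = (p.2 : ℕ∞)) :=
      (isSigma_card_eq hπ).mono hn
    refine (h1.and h2).ex.of_eq (fun e => ?_)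
    rw [mem_indexI]

theorem isPi_index_iff {π : ℕ → List ℕ → Bool} (hπ : EffectiveEnum π) (C : Set ℕ) {n : ℕ}
    (hn : 4 ≤ n) : IsPi n (fun x => x ∈ indexI π C) ↔ IsPi n (fun x => x ∈ C) := by
  constructor
  · exact IsPi.of_reducible (reducible_index hπ C)
  · intro h
    obtain ⟨m, rfl⟩ : ∃ m, n = m + 1 := ⟨n - 1, by omega⟩
    have h1 : IsPi (m + 1) (fun p : ℕ × ℕ => p.2 ∈ C) :=
      h.comp (f := fun p : ℕ × ℕ => p.2) Computable.snd
    have h2 : IsPi (m + 1) (fun p : ℕ × ℕ => ¬ card π p.1 = (p.2 : ℕ∞)) :=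
      (((isSigma_card_eq hπ).mono (by omega : 3 ≤ m + 1)).pi_not)
    have h3 : IsPi (m + 1) (fun e : ℕ => ∃ c : ℕ, card π e = (c : ℕ∞)) := by
      have h4 : IsSigma 3 (fun e : ℕ => ∃ c : ℕ, card π e = (c : ℕ∞)) := (isSigma_card_eq hπ).ex
      exact h4.pi_succ.mono (by omega)
    refine (h3.and (h2.or h1).all).of_eq (fun e => ?_)
    rw [mem_indexI]
    constructor
    · rintro ⟨⟨c, hc⟩, hall⟩
      exact ⟨c, (hall c).resolve_left (fun h => h hc), hc⟩
    · rintro ⟨c, hc, hce⟩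
      refine ⟨⟨c, hce⟩, fun c' => ?_⟩
      by_cases h5 : card π e = (c' : ℕ∞)
      · right
        have h6 : (c : ℕ∞) = (c' : ℕ∞) := hce.symm.trans h5
        have h7 : c = c' := by exact_mod_cast h6
        show c' ∈ C
        rw [← h7]; exact hc
      · exact Or.inl h5

/-- `Σ⁰₃`-hardness from a selection -/
theorem hard_of_selection {π : ℕ → List ℕ → Bool} (hπ : EffectiveEnum π) {C : Set ℕ}
    (hsel : HasSelection C) {Y : Set ℕ} (hY : IsSigma 3 (fun x => x ∈ Y)) :
    (fun n => n ∈ Y) ≤₀ (fun n => n ∈ indexI π C) := by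
  classical
  obtain ⟨v, hv, hvS⟩ := hsel
  obtain ⟨q, hq, hYq⟩ := hY
  have hq' : IsSigma 2 (fun z : ℕ × ℕ => ¬ q z) := hq
  let S : ℕ → Set ℕ := fun x => {n | ∀ a < n, ¬ q (x, a)}
  let G : ℕ → ℕ∞ := fun x => ⨆ n : S x, (v ((n : ℕ) + 1) : ℕ∞)
  have hle : ∀ x (k : ℕ), ((k + 1 : ℕ) : ℕ∞) ≤ G x ↔ ∃ n, (∀ a < n, ¬ q (x, a)) ∧ k + 1 ≤ v (n + 1) := by
    intro x k
    constructor
    · intro h
      have h1 : (k : ℕ∞) < G x := lt_of_lt_of_le (by exact_mod_cast Nat.lt_succ_self k) h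
      obtain ⟨⟨n, hn⟩, hlt⟩ := lt_iSup_iff.1 h1
      refine ⟨n, hn, ?_⟩
      have : k < v (n + 1) := by exact_mod_cast hlt
      exact this
    · rintro ⟨n, hn, h⟩
      have h1 : ((v (n + 1) : ℕ) : ℕ∞) ≤ G x :=
        le_iSup (fun n : S x => (v ((n : ℕ) + 1) : ℕ∞)) ⟨n, hn⟩
      exact le_trans (Nat.cast_le.2 h) h1
  have h1 : IsPi 1 (fun x : ℕ => 1 ≤ G x) := by
    apply isPi_true
    intro x
    have h2 := (hle x 0).2 ⟨0, fun a ha => absurd ha (by omega), (hv 1).2⟩
    simpa using h2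
  have h2 : IsSigma 2 (fun p : ℕ × ℕ => ((p.2 + 2 : ℕ) : ℕ∞) ≤ G p.1) := by
    have h3 : IsSigma 2 (fun z : (ℕ × ℕ) × ℕ => ∀ a < z.2, ¬ q (z.1.1, a)) := by
      refine IsSigma.ball (p := fun w : ((ℕ × ℕ) × ℕ) × ℕ => ¬ q (w.1.1.1, w.2)) ?_ Computable.snd
      exact hq'.comp (f := fun w : ((ℕ × ℕ) × ℕ) × ℕ => (w.1.1.1, w.2))
        ((Computable.fst.comp (Computable.fst.comp Computable.fst)).pair Computable.snd)
    have h4 : IsSigma 2 (fun z : (ℕ × ℕ) × ℕ => z.1.2 + 2 ≤ v (z.2 + 1)) :=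
      hvS.comp (f := fun z : (ℕ × ℕ) × ℕ => (z.2 + 1, z.1.2 + 2))
        ((Computable.succ.comp Computable.snd).pair
          (Computable.succ.comp (Computable.succ.comp (Computable.snd.comp Computable.fst))))
    refine (h3.and h4).ex.of_eq (fun p => ?_)
    exact (hle p.1 (p.2 + 1)).symm
  obtain ⟨f, hf, hfG⟩ := exists_card_eq hπ G h1 h2
  refine ⟨f, hf, fun x => ?_⟩
  beta_reduce
  rw [mem_indexI, hfG]
  constructor
  · intro hx
    have hex : ∃ a, q (x, a) := (hYq x).1 hx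
    let a := Nat.find hex
    have ha : q (x, a) := Nat.find_spec hex
    have hmin : ∀ b < a, ¬ q (x, b) := fun b hb => Nat.find_min hex hb
    have hS : ∀ n, n ∈ S x ↔ n ≤ a := by
      intro n
      constructor
      · intro hn
        by_contra hcon
        exact hn a (by omega) ha
      · intro hn b hb
        exact hmin b (by omega)
    obtain ⟨m, hm, hmax⟩ := Finset.exists_max_image (Finset.range (a + 1)) (fun n => v (n + 1))
      ⟨0, by simp⟩
    refine ⟨v (m + 1), (hv _).1, ?_⟩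
    apply le_antisymm
    · apply iSup_le
      rintro ⟨n, hn⟩
      have h3 := hmax n (Finset.mem_range.2 (by have := (hS n).1 hn; omega))
      exact Nat.cast_le.2 h3
    · exact le_iSup (fun n : S x => (v ((n : ℕ) + 1) : ℕ∞))
        ⟨m, (hS m).2 (by have := Finset.mem_range.1 hm; omega)⟩
  · rintro ⟨c, hc, h⟩
    by_contra hx
    have hall : ∀ a, ¬ q (x, a) := by
      intro a ha
      exact hx ((hYq x).2 ⟨a, ha⟩)
    have h3 := (hle x c).2 ⟨c, fun a _ => hall a, (hv _).2⟩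
    have h4 : G x = (c : ℕ∞) := h
    rw [h4] at h3
    have : c + 1 ≤ c := by exact_mod_cast h3
    omega

/-- uniformisation: turning a `Π⁰₁` search for candidates into a selection -/
theorem selection_of_search {C : Set ℕ} (T : ℕ × ℕ → Prop) (hT : IsPi 1 T) (val : ℕ → ℕ)
    (hval : IsSigma 2 (fun p : ℕ × ℕ => p.2 ≤ val p.1))
    (hgood : ∀ n p, T (n, p) → val p ∈ C ∧ n ≤ val p) (hex : ∀ n, ∃ p, T (n, p)) :
    HasSelection C := by
  classical
  refine ⟨fun n => val (Nat.find (hex n)), fun n => hgood n _ (Nat.find_spec (hex n)), ?_⟩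
  have h1 : IsSigma 2 (fun z : (ℕ × ℕ) × ℕ => T (z.1.1, z.2)) :=
    (hT.comp (f := fun z : (ℕ × ℕ) × ℕ => (z.1.1, z.2))
      ((Computable.fst.comp Computable.fst).pair Computable.snd)).sigma_succ
  have h2 : IsSigma 2 (fun z : (ℕ × ℕ) × ℕ => ∀ p < z.2, ¬ T (z.1.1, p)) := by
    have h3 : IsSigma 1 (fun w : ((ℕ × ℕ) × ℕ) × ℕ => ¬ T (w.1.1.1, w.2)) :=
      (hT.comp (f := fun w : ((ℕ × ℕ) × ℕ) × ℕ => (w.1.1.1, w.2))
        ((Computable.fst.comp (Computable.fst.comp Computable.fst)).pair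
          Computable.snd)).sigma_not
    exact (IsSigma.ball h3 Computable.snd).succ
  have h4 : IsSigma 2 (fun z : (ℕ × ℕ) × ℕ => z.1.2 ≤ val z.2) :=
    hval.comp (f := fun z : (ℕ × ℕ) × ℕ => (z.2, z.1.2))
      (Computable.snd.pair (Computable.snd.comp Computable.fst))
  refine ((h1.and h2).and h4).ex.of_eq (fun z => ?_)
  constructor
  · rintro ⟨p, ⟨hp, hmin⟩, hle⟩
    have : Nat.find (hex z.1) = p := by
      rw [Nat.find_eq_iff]
      exact ⟨hp, hmin⟩
    show z.2 ≤ val (Nat.find (hex z.1))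
    rw [this]; exact hle
  · intro h
    exact ⟨Nat.find (hex z.1), ⟨Nat.find_spec (hex z.1), fun p hp => Nat.find_min (hex z.1) hp⟩, h⟩

theorem selection_of_sigma_two {C : Set ℕ} (hC : C.Infinite) (h : IsSigma 2 (fun x => x ∈ C)) :
    HasSelection C := by
  obtain ⟨q, hq, hCq⟩ := h
  have hq' : IsPi 1 q := hq
  refine selection_of_search (fun z => q (z.2.unpair.1, z.2.unpair.2) ∧ z.1 ≤ z.2.unpair.1) ?_
    (fun p => p.unpair.1) ?_ ?_ ?_
  · have h1 : IsPi 1 (fun z : ℕ × ℕ => q (z.2.unpair.1, z.2.unpair.2)) :=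
      hq'.comp (f := fun z : ℕ × ℕ => (z.2.unpair.1, z.2.unpair.2))
        ((Computable.fst.comp (Computable.unpair.comp Computable.snd)).pair
          (Computable.snd.comp (Computable.unpair.comp Computable.snd)))
    have h2 : IsPi 1 (fun z : ℕ × ℕ => z.1 ≤ z.2.unpair.1) := by
      refine ComputablePred.pi ?_ 1
      apply PrimrecPred.computablePred
      exact Primrec.nat_le.comp Primrec.fst (Primrec.fst.comp (Primrec.unpair.comp Primrec.snd))
    exact h1.and h2
  · refine ComputablePred.sigma ?_ 2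
    apply PrimrecPred.computablePred
    exact Primrec.nat_le.comp Primrec.snd (Primrec.fst.comp (Primrec.unpair.comp Primrec.fst))
  · rintro n p ⟨h1, h2⟩
    exact ⟨(hCq _).2 ⟨_, h1⟩, h2⟩
  · intro n
    obtain ⟨m, hm, hnm⟩ := hC.exists_gt n
    obtain ⟨a, ha⟩ := (hCq m).1 hm
    exact ⟨Nat.pair m a, by simpa using ha, by simpa using hnm.le⟩

theorem selection_of_pi_two {C : Set ℕ} (hC : C.Infinite) (h : IsPi 2 (fun x => x ∈ C)) :
    HasSelection C := by
  classical
  have hex : ∀ n, ∃ m, n ≤ m ∧ m ∈ C := by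
    intro n
    obtain ⟨m, hm, hnm⟩ := hC.exists_gt n
    exact ⟨m, hnm.le, hm⟩
  refine ⟨fun n => Nat.find (hex n), fun n => ⟨(Nat.find_spec (hex n)).2,
    (Nat.find_spec (hex n)).1⟩, ?_⟩
  have h1 : IsSigma 2 (fun w : (ℕ × ℕ) × ℕ => ¬ w.2 ∈ C) :=
    (h.comp (f := fun w : (ℕ × ℕ) × ℕ => w.2) Computable.snd).sigma_not
  have h2 : IsSigma 2 (fun w : (ℕ × ℕ) × ℕ => ¬ w.1.1 ≤ w.2) := by
    refine ComputablePred.sigma ?_ 2
    apply PrimrecPred.computablePred
    exact (Primrec.nat_le.comp (Primrec.fst.comp Primrec.fst) Primrec.snd).not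
  have h3 := IsSigma.ball (f := fun z : ℕ × ℕ => z.2) (h2.or h1) Computable.snd
  refine h3.of_eq (fun z => ?_)
  show _ ↔ z.2 ≤ Nat.find (hex z.1)
  rw [Nat.le_find_iff]
  constructor
  · intro H m hm hcon
    rcases H m hm with h4 | h4
    · exact h4 hcon.1
    · exact h4 hcon.2
  · intro H m hm
    by_cases h5 : z.1 ≤ m
    · right; exact fun h6 => H m hm ⟨h5, h6⟩
    · left; exact h5

/-- the converse: `Σ⁰₃`-hardness gives a selection (by the recursion theorem) -/
theorem selection_of_hard {π : ℕ → List ℕ → Bool} (hπ : EffectiveEnum π) {C : Set ℕ}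
    (hhard : ∀ Y : Set ℕ, IsSigma 3 (fun x => x ∈ Y) →
      (fun n => n ∈ Y) ≤₀ (fun n => n ∈ indexI π C)) : HasSelection C := by
  classical
  -- difference of the cardinalities is `Σ⁰₃`
  have hne : IsSigma 3 (fun w : ℕ × ℕ => card π w.1 ≠ card π w.2) := by
    have ha : IsSigma 2 (fun z : (ℕ × ℕ) × ℕ => (z.2 : ℕ∞) ≤ card π z.1.1) :=
      (isSigma_le_card hπ).comp (f := fun z : (ℕ × ℕ) × ℕ => (z.1.1, z.2))
        ((Computable.fst.comp Computable.fst).pair Computable.snd)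
    have hb : IsSigma 2 (fun z : (ℕ × ℕ) × ℕ => (z.2 : ℕ∞) ≤ card π z.1.2) :=
      (isSigma_le_card hπ).comp (f := fun z : (ℕ × ℕ) × ℕ => (z.1.2, z.2))
        ((Computable.snd.comp Computable.fst).pair Computable.snd)
    have h1 := (ha.succ.and hb.pi_not.sigma_succ).or (hb.succ.and ha.pi_not.sigma_succ)
    refine h1.ex.of_eq (fun w => ?_)
    constructor
    · rintro ⟨k, hk⟩ heq
      simp only at hk
      rw [heq] at hk
      tauto
    · intro h
      by_contra hcon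
      push Not at hcon
      apply h
      apply ENat.eq_of_forall_natCast_le_iff
      intro a
      have := hcon a
      simp only at this
      tauto
  -- the set used for the recursion theorem
  let Q : (ℕ × ℕ) × ℕ → Prop := fun w => ∃ u : ℕ × ℕ × ℕ,
    (Code.evaln u.1 (ofNat Code w.1.1) w.1.2 = some u.2.1 ∧
      Code.evaln u.1 (ofNat Code w.1.1) w.2 = some u.2.2) ∧ card π u.2.1 ≠ card π u.2.2
  have hQ : IsSigma 3 Q := by
    have h1 : IsSigma 3 (fun z : ((ℕ × ℕ) × ℕ) × ℕ × ℕ × ℕ =>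
        (Code.evaln z.2.1 (ofNat Code z.1.1.1) z.1.1.2 = some z.2.2.1 ∧
          Code.evaln z.2.1 (ofNat Code z.1.1.1) z.1.2 = some z.2.2.2) ∧
            card π z.2.2.1 ≠ card π z.2.2.2) := by
      have hu1 : Primrec (fun z : ((ℕ × ℕ) × ℕ) × ℕ × ℕ × ℕ => z.2.1) :=
        Primrec.fst.comp Primrec.snd
      have hu2 : Primrec (fun z : ((ℕ × ℕ) × ℕ) × ℕ × ℕ × ℕ => z.2.2.1) :=
        Primrec.fst.comp (Primrec.snd.comp Primrec.snd)
      have hu3 : Primrec (fun z : ((ℕ × ℕ) × ℕ) × ℕ × ℕ × ℕ => z.2.2.2) :=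
        Primrec.snd.comp (Primrec.snd.comp Primrec.snd)
      have hc : Primrec (fun z : ((ℕ × ℕ) × ℕ) × ℕ × ℕ × ℕ => ofNat Code z.1.1.1) :=
        (Primrec.ofNat Code).comp (Primrec.fst.comp (Primrec.fst.comp Primrec.fst))
      have hj : Primrec (fun z : ((ℕ × ℕ) × ℕ) × ℕ × ℕ × ℕ => z.1.1.2) :=
        Primrec.snd.comp (Primrec.fst.comp Primrec.fst)
      have hi : Primrec (fun z : ((ℕ × ℕ) × ℕ) × ℕ × ℕ × ℕ => z.1.2) :=
        Primrec.snd.comp Primrec.fst
      have he1 : PrimrecPred (fun z : ((ℕ × ℕ) × ℕ) × ℕ × ℕ × ℕ =>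
          Code.evaln z.2.1 (ofNat Code z.1.1.1) z.1.1.2 = some z.2.2.1) :=
        Primrec.eq.comp (Code.primrec_evaln.comp ((hu1.pair hc).pair hj))
          (Primrec.option_some.comp hu2)
      have he2 : PrimrecPred (fun z : ((ℕ × ℕ) × ℕ) × ℕ × ℕ × ℕ =>
          Code.evaln z.2.1 (ofNat Code z.1.1.1) z.1.2 = some z.2.2.2) :=
        Primrec.eq.comp (Code.primrec_evaln.comp ((hu1.pair hc).pair hi))
          (Primrec.option_some.comp hu3)
      refine (ComputablePred.sigma (he1.and he2).computablePred 3).and ?_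
      exact hne.comp (f := fun z : ((ℕ × ℕ) × ℕ) × ℕ × ℕ × ℕ => (z.2.2.1, z.2.2.2))
        (hu2.pair hu3).to_comp
    exact h1.ex_type
  have hS : IsSigma 3 (fun w : ℕ => w ∈ {w : ℕ | ∀ i < w.unpair.2, Q (w.unpair, i)}) := by
    have h1 := hQ.ball (f := fun w : ℕ × ℕ => w.2) Computable.snd
    exact (h1.comp (f := fun w : ℕ => w.unpair) Computable.unpair).of_eq (fun w => Iff.rfl)
  obtain ⟨r, hr, hrS⟩ := hhard _ hS
  obtain ⟨c, hc⟩ := Code.fixed_point₂ (f := fun c j => Part.some (r (Nat.pair (encode c) j))) (by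
    have : Computable (fun p : Code × ℕ => r (Nat.pair (encode p.1) p.2)) :=
      hr.comp ((Primrec₂.natPair.to_comp).comp (Computable.encode.comp Computable.fst)
        Computable.snd)
    exact this.partrec)
  let e : ℕ → ℕ := fun j => r (Nat.pair (encode c) j)
  have heval : ∀ j, Code.eval c j = Part.some (e j) := fun j => by rw [hc]
  have hQe : ∀ i j, Q ((encode c, j), i) ↔ card π (e j) ≠ card π (e i) := by
    intro i j
    constructor
    · rintro ⟨⟨s, y, z⟩, ⟨h1, h2⟩, h3⟩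
      simp only [ofNat_encode] at h1 h2 h3
      have h4 := Code.evaln_sound h1
      have h5 := Code.evaln_sound h2
      rw [heval, Part.mem_some_iff] at h4 h5
      rw [h4, h5] at h3
      exact h3
    · intro h
      have h4 : e j ∈ Code.eval c j := by rw [heval]; exact Part.mem_some _
      have h5 : e i ∈ Code.eval c i := by rw [heval]; exact Part.mem_some _
      obtain ⟨s, hs⟩ := Code.evaln_complete.1 h4
      obtain ⟨t, ht⟩ := Code.evaln_complete.1 h5
      refine ⟨⟨max s t, e j, e i⟩, ⟨?_, ?_⟩, h⟩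
      · simp only [ofNat_encode]
        exact Code.evaln_mono (le_max_left s t) hs
      · simp only [ofNat_encode]
        exact Code.evaln_mono (le_max_right s t) ht
  have hmem : ∀ j, e j ∈ indexI π C ↔ ∀ i < j, card π (e j) ≠ card π (e i) := by
    intro j
    have h1 := hrS (Nat.pair (encode c) j)
    have h2 : (e j ∈ indexI π C) ↔ (∀ i < j, Q ((encode c, j), i)) := by
      show (r (Nat.pair (encode c) j) ∈ indexI π C) ↔ _
      refine h1.symm.trans ?_
      show (∀ i < (Nat.pair (encode c) j).unpair.2, Q ((Nat.pair (encode c) j).unpair, i)) ↔ _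
      rw [Nat.unpair_pair]
    rw [h2]
    exact forall_congr' (fun i => forall_congr' (fun _ => hQe i j))
  have hall : ∀ j, e j ∈ indexI π C := by
    intro j
    induction j using Nat.strong_induction_on with
    | _ j ih =>
      by_contra hcon
      have h1 : ¬ ∀ i < j, card π (e j) ≠ card π (e i) := fun h => hcon ((hmem j).2 h)
      push Not at h1
      obtain ⟨i, hi, heq⟩ := h1
      apply hcon
      obtain ⟨c', hc', h⟩ := mem_indexI.1 (ih i hi)
      exact mem_indexI.2 ⟨c', hc', heq.trans h⟩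
  have hdist : ∀ i j, i < j → card π (e j) ≠ card π (e i) := fun i j hij =>
    (hmem j).1 (hall j) i hij
  have hw : ∀ j, ∃ w ∈ C, card π (e j) = (w : ℕ∞) := fun j => mem_indexI.1 (hall j)
  choose w hwC hwe using hw
  have hinj : Function.Injective w := by
    intro i j hij
    by_contra hne'
    have h1 : card π (e i) = card π (e j) := by rw [hwe, hwe, hij]
    rcases lt_or_gt_of_ne hne' with h | h
    · exact hdist i j h h1.symm
    · exact hdist j i h h1
  have hwS : IsSigma 2 (fun p : ℕ × ℕ => p.2 ≤ w p.1) := by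
    have hecomp : Computable e :=
      hr.comp ((Primrec₂.natPair.to_comp).comp (Computable.const _) Computable.id)
    refine ((isSigma_le_card hπ).comp (f := fun p : ℕ × ℕ => (e p.1, p.2))
      ((hecomp.comp Computable.fst).pair Computable.snd)).of_eq (fun p => ?_)
    simp only
    rw [hwe]
    exact Nat.cast_le
  have hunb : ∀ n, ∃ j, n ≤ w j := by
    intro n
    by_contra hcon
    push Not at hcon
    have : Set.Infinite (Set.range w) := Set.infinite_range_of_injective hinj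
    apply this
    refine (Set.finite_Iio n).subset ?_
    rintro _ ⟨j, rfl⟩
    exact hcon j
  -- uniformise
  obtain ⟨q, hq, hwq⟩ := hwS
  have hq' : IsPi 1 q := hq
  refine selection_of_search (fun z => q ((z.2.unpair.1, z.1), z.2.unpair.2)) ?_
    (fun p => w p.unpair.1) ?_ ?_ ?_
  · exact hq'.comp (f := fun z : ℕ × ℕ => ((z.2.unpair.1, z.1), z.2.unpair.2))
      (((Computable.fst.comp (Computable.unpair.comp Computable.snd)).pair Computable.fst).pair
          (Computable.snd.comp (Computable.unpair.comp Computable.snd)))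
  · have h1 : IsSigma 2 (fun p : ℕ × ℕ => p.2 ≤ w p.1) := ⟨q, hq, hwq⟩
    exact h1.comp (f := fun p : ℕ × ℕ => (p.1.unpair.1, p.2))
      ((Computable.fst.comp (Computable.unpair.comp Computable.fst)).pair Computable.snd)
  · intro n p h
    exact ⟨hwC _, (hwq (p.unpair.1, n)).2 ⟨_, h⟩⟩
  · intro n
    obtain ⟨j, hj⟩ := hunb n
    obtain ⟨a, ha⟩ := (hwq (j, n)).1 hj
    exact ⟨Nat.pair j a, by simpa using ha⟩

end Pool.Agent.H80
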