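import Pool.Agent.H80.IndexBound

/-! Universality: every function with the right bounds is of the form `card π (f x)`. -/

namespace Pool.Agent.H80

open Encodable Denumerable

/-! ### Primitive recursive matrices -/

theorem pi_one_matrix {α : Type} [Primcodable α] {p : α → Prop} (hp : IsPi 1 p) :
    ∃ R : α → ℕ → Bool, Primrec₂ R ∧ ∀ a, p a ↔ ∀ x, R a x = true := by
  classical
  obtain ⟨q, hq, h⟩ := hp
  have hq' : ComputablePred (fun z : α × ℕ => ¬ q z) := hq
  have hq2 : ComputablePred q := (hq'.not).of_eq (fun a => not_not)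
  obtain ⟨g, hg, rfl⟩ := ComputablePred.computable_iff.1 hq2
  obtain ⟨c, hc⟩ := Nat.Partrec.Code.exists_code.1 hg
  let R : α → ℕ → Bool := fun a y =>
    !decide (Nat.Partrec.Code.evaln y.unpair.2 c (encode (a, y.unpair.1)) = some (encode true))
  refine ⟨R, ?_, ?_⟩
  · show Primrec (fun p : α × ℕ => R p.1 p.2)
    refine Primrec.not.comp ?_
    apply PrimrecPred.decide
    refine Primrec.eq.comp ?_ (Primrec.const _)
    have h1 : Primrec (fun p : α × ℕ => ((p.2.unpair.2, c), encode (p.1, p.2.unpair.1))) := by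
      refine Primrec.pair (Primrec.pair (Primrec.snd.comp (Primrec.unpair.comp Primrec.snd))
        (Primrec.const c)) ?_
      exact Primrec.encode.comp (Primrec.fst.pair (Primrec.fst.comp
        (Primrec.unpair.comp Primrec.snd)))
    exact Nat.Partrec.Code.primrec_evaln.comp h1
  · intro a
    have key : ∀ x, (g (a, x) = true ↔ ∃ t, Nat.Partrec.Code.evaln t c (encode (a, x)) =
        some (encode true)) := by
      intro x
      have h1 : Nat.Partrec.Code.eval c (encode (a, x)) = Part.some (encode (g (a, x))) := by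
        rw [hc]; simp
      constructor
      · intro h2
        have h3 : encode true ∈ Nat.Partrec.Code.eval c (encode (a, x)) := by
          rw [h1, h2]; exact Part.mem_some _
        obtain ⟨t, ht⟩ := Nat.Partrec.Code.evaln_complete.1 h3
        exact ⟨t, ht⟩
      · rintro ⟨t, ht⟩
        have h3 := Nat.Partrec.Code.evaln_complete.2 ⟨t, ht⟩
        rw [h1, Part.mem_some_iff] at h3
        exact (encode_injective h3).symm
    have h' : p a ↔ ∀ x, ¬ g (a, x) = true := by
      have := h a
      constructor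
      · intro hpa x hx; exact this.2 ⟨x, hx⟩ hpa
      · intro hx; by_contra hcon
        obtain ⟨x, hx2⟩ := this.1 hcon
        exact hx x hx2
    rw [h']
    constructor
    · intro hx y
      have h2 := hx y.unpair.1
      rw [key] at h2
      push Not at h2
      simp only [R, Bool.not_eq_true', decide_eq_false_iff_not]
      exact h2 _
    · intro hx x hcon
      obtain ⟨t, ht⟩ := (key x).1 hcon
      have h2 := hx (Nat.pair x t)
      simp only [R, Nat.unpair_pair, Bool.not_eq_true', decide_eq_false_iff_not] at h2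
      exact h2 ht

theorem sigma_two_matrix {α : Type} [Primcodable α] {p : α → Prop} (hp : IsSigma 2 p) :
    ∃ R : α × ℕ → ℕ → Bool, Primrec₂ R ∧ ∀ a, p a ↔ ∃ x, ∀ y, R (a, x) y = true := by
  obtain ⟨q, hq, h⟩ := hp
  obtain ⟨R, hR, h2⟩ := pi_one_matrix (p := q) hq
  refine ⟨R, hR, fun a => ?_⟩
  rw [h]
  exact exists_congr (fun x => h2 (a, x))

/-! ### Primitive recursive bounded quantifiers with parameters -/

theorem pp_forall_lt {α : Type} [Primcodable α] {p : α × ℕ → Prop} {f : α → ℕ}
    (hp : PrimrecPred p) (hf : Primrec f) : PrimrecPred (fun a => ∀ i < f a, p (a, i)) := by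
  have h1 : PrimrecRel (fun (x : ℕ) (y : α) => p (y, x)) :=
    PrimrecPred.comp (f := fun z : ℕ × α => (z.2, z.1)) hp (Primrec.snd.pair Primrec.fst)
  -- use the list form
  have h2 : PrimrecRel (fun (L : List ℕ) (b : α) => ∀ a ∈ L, p (b, a)) :=
    PrimrecRel.forall_mem_list (R := fun (x : ℕ) (y : α) => p (y, x)) h1
  have h3 : PrimrecPred (fun a : α => ∀ i ∈ List.range (f a), p (a, i)) :=
    PrimrecRel.comp (R := fun (L : List ℕ) (b : α) => ∀ a ∈ L, p (b, a))
      (f := fun a : α => List.range (f a)) (g := fun a => a) h2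
      (Primrec.list_range.comp hf) Primrec.id
  exact h3.of_eq (fun a => by simp)

/-! ### The construction -/

section construction

variable (R0 : ℕ → ℕ → Bool) (R1 : (ℕ × ℕ) × ℕ → ℕ → Bool)

/-- `t` lists the least counterexamples for the candidates below `t.length` -/
def Valid (x k : ℕ) (t : List ℕ) : Prop :=
  ∀ i < t.length, R1 ((x, k), i) ((t[i]?).getD 0) = false ∧
    ∀ b < (t[i]?).getD 0, R1 ((x, k), i) b = true

/-- codes of the successful candidates -/
def Good (x : ℕ) (z : ℕ × List ℕ) : Prop :=
  Valid R1 x z.1 z.2 ∧ ∀ b, R1 ((x, z.1), z.2.length) b = true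

theorem good_unique {x k : ℕ} {t t' : List ℕ} (h : Good R1 x (k, t)) (h' : Good R1 x (k, t')) :
    t = t' := by
  have key : ∀ {t t' : List ℕ}, Good R1 x (k, t) → Good R1 x (k, t') → t.length ≤ t'.length := by
    intro t t' h h'
    by_contra hcon
    push Not at hcon
    have h1 := (h.1 _ hcon).1
    rw [h'.2] at h1
    exact Bool.noConfusion h1
  have hlen : t.length = t'.length := le_antisymm (key h h') (key h' h)
  apply List.ext_getElem hlen
  intro i hi hi'
  have h1 := h.1 i hi
  have h2 := h'.1 i hi'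
  simp only [List.getElem?_eq_getElem hi, List.getElem?_eq_getElem hi', Option.getD_some] at h1 h2
  rcases lt_trichotomy t[i] t'[i] with h3 | h3 | h3
  · have := h2.2 _ h3
    rw [h1.1] at this
    exact Bool.noConfusion this
  · exact h3
  · have := h1.2 _ h3
    rw [h2.1] at this
    exact Bool.noConfusion this

theorem good_exists {x k : ℕ} (h : ∃ a, ∀ b, R1 ((x, k), a) b = true) :
    ∃ t, Good R1 x (k, t) := by
  classical
  let a := Nat.find h
  have ha : ∀ b, R1 ((x, k), a) b = true := Nat.find_spec h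
  have hlt : ∀ i, i < a → ∃ b, R1 ((x, k), i) b = false := by
    intro i hi
    have := Nat.find_min h hi
    push Not at this
    obtain ⟨b, hb⟩ := this
    exact ⟨b, by simpa using hb⟩
  let w : ℕ → ℕ := fun i => if hi : i < a then Nat.find (hlt i hi) else 0
  refine ⟨(List.range a).map w, ?_, ?_⟩
  · intro i hi
    have hi' : i < a := by simpa using hi
    have h1 : (((List.range a).map w)[i]?).getD 0 = w i := by simp [hi']
    rw [h1]
    have h2 : w i = Nat.find (hlt i hi') := by simp only [w]; rw [dif_pos hi']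
    rw [h2]
    refine ⟨Nat.find_spec (hlt i hi'), fun b hb => ?_⟩
    have := Nat.find_min (hlt i hi') hb
    simpa using this
  · simpa using ha

theorem exists_good_iff {x k : ℕ} :
    (∃ t, Good R1 x (k, t)) ↔ ∃ a, ∀ b, R1 ((x, k), a) b = true :=
  ⟨fun ⟨_, ht⟩ => ⟨_, ht.2⟩, good_exists R1⟩

/-- the infinite sequence with a single `1` at place `m` -/
def delta (m : ℕ) : ℕ → ℕ := fun j => if j = m then 1 else 0

/-- acceptance condition for a string -/
def Acc (x : ℕ) (σ : List ℕ) : Prop :=
  (∀ y < σ.length, R0 x y = true) ∧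
  σ = (List.range σ.length).map (delta (σ.idxOf 1)) ∧
  (σ.idxOf 1 < σ.length →
    Valid R1 x (ofNat (ℕ × List ℕ) (σ.idxOf 1)).1 (ofNat (ℕ × List ℕ) (σ.idxOf 1)).2 ∧
    ∀ b < σ.length, R1 ((x, (ofNat (ℕ × List ℕ) (σ.idxOf 1)).1),
      (ofNat (ℕ × List ℕ) (σ.idxOf 1)).2.length) b = true)

variable {R0 R1}

theorem primrec_acc (hR0 : Primrec₂ R0) (hR1 : Primrec₂ R1) :
    PrimrecPred (fun z : ℕ × List ℕ => Acc R0 R1 z.1 z.2) := by
  have hlen : Primrec (fun z : ℕ × List ℕ => z.2.length) := Primrec.list_length.comp Primrec.snd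
  have hidx : Primrec (fun z : ℕ × List ℕ => z.2.idxOf 1) :=
    Primrec.list_idxOf.comp (Primrec.const 1) Primrec.snd
  have hof : Primrec (fun z : ℕ × List ℕ => ofNat (ℕ × List ℕ) (z.2.idxOf 1)) :=
    (Primrec.ofNat (ℕ × List ℕ)).comp hidx
  -- first part
  have h1 : PrimrecPred (fun z : ℕ × List ℕ => ∀ y < z.2.length, R0 z.1 y = true) := by
    refine pp_forall_lt (p := fun w : (ℕ × List ℕ) × ℕ => R0 w.1.1 w.2 = true) ?_ hlen
    exact Primrec.eq.comp (hR0.comp (Primrec.fst.comp Primrec.fst) Primrec.snd)
      (Primrec.const true)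
  -- second part
  have h2 : PrimrecPred (fun z : ℕ × List ℕ =>
      z.2 = (List.range z.2.length).map (delta (z.2.idxOf 1))) := by
    refine Primrec.eq.comp Primrec.snd ?_
    refine Primrec.list_map (f := fun z : ℕ × List ℕ => List.range z.2.length)
      (g := fun (z : ℕ × List ℕ) (j : ℕ) => delta (z.2.idxOf 1) j)
      (Primrec.list_range.comp hlen) ?_
    exact Primrec.ite (Primrec.eq.comp Primrec.snd (hidx.comp Primrec.fst)) (Primrec.const 1)
      (Primrec.const 0)
  -- third part
  have hget : ∀ {α : Type} [Primcodable α] {l : α → List ℕ} {j : α → ℕ}, Primrec l → Primrec j →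
      Primrec (fun a => ((l a)[j a]?).getD 0) := by
    intro α _ l j hl hj
    exact Primrec.option_getD.comp (Primrec.list_getElem?.comp hl hj) (Primrec.const 0)
  have hV : PrimrecPred (fun w : ℕ × ℕ × List ℕ => Valid R1 w.1 w.2.1 w.2.2) := by
    have hval : Primrec (fun u : (ℕ × ℕ × List ℕ) × ℕ => ((u.1.2.2)[u.2]?).getD 0) :=
      hget (Primrec.snd.comp (Primrec.snd.comp Primrec.fst)) Primrec.snd
    have hxk : Primrec (fun u : (ℕ × ℕ × List ℕ) × ℕ => ((u.1.1, u.1.2.1), u.2)) :=
      ((Primrec.fst.comp Primrec.fst).pair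
        (Primrec.fst.comp (Primrec.snd.comp Primrec.fst))).pair Primrec.snd
    refine pp_forall_lt (p := fun u : (ℕ × ℕ × List ℕ) × ℕ =>
      R1 ((u.1.1, u.1.2.1), u.2) (((u.1.2.2)[u.2]?).getD 0) = false ∧
        ∀ b < ((u.1.2.2)[u.2]?).getD 0, R1 ((u.1.1, u.1.2.1), u.2) b = true)
      (f := fun w : ℕ × ℕ × List ℕ => w.2.2.length) ?_
      (Primrec.list_length.comp (Primrec.snd.comp Primrec.snd))
    refine PrimrecPred.and ?_ ?_
    · exact Primrec.eq.comp (hR1.comp hxk hval) (Primrec.const false)
    · refine pp_forall_lt (p := fun v : ((ℕ × ℕ × List ℕ) × ℕ) × ℕ =>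
        R1 ((v.1.1.1, v.1.1.2.1), v.1.2) v.2 = true) ?_ hval
      exact Primrec.eq.comp (hR1.comp (hxk.comp Primrec.fst) Primrec.snd) (Primrec.const true)
  have h3 : PrimrecPred (fun z : ℕ × List ℕ => Valid R1 z.1 (ofNat (ℕ × List ℕ) (z.2.idxOf 1)).1
      (ofNat (ℕ × List ℕ) (z.2.idxOf 1)).2) :=
    PrimrecPred.comp (f := fun z : ℕ × List ℕ => (z.1, ofNat (ℕ × List ℕ) (z.2.idxOf 1))) hV
      (Primrec.fst.pair hof)
  have h4 : PrimrecPred (fun z : ℕ × List ℕ => ∀ b < z.2.length,
      R1 ((z.1, (ofNat (ℕ × List ℕ) (z.2.idxOf 1)).1),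
        (ofNat (ℕ × List ℕ) (z.2.idxOf 1)).2.length) b = true) := by
    refine pp_forall_lt (p := fun w : (ℕ × List ℕ) × ℕ =>
      R1 ((w.1.1, (ofNat (ℕ × List ℕ) (w.1.2.idxOf 1)).1),
        (ofNat (ℕ × List ℕ) (w.1.2.idxOf 1)).2.length) w.2 = true) ?_ hlen
    refine Primrec.eq.comp (hR1.comp ?_ Primrec.snd) (Primrec.const true)
    exact ((Primrec.fst.comp Primrec.fst).pair (Primrec.fst.comp (hof.comp Primrec.fst))).pair
      (Primrec.list_length.comp (Primrec.snd.comp (hof.comp Primrec.fst)))
  have h5 : PrimrecPred (fun z : ℕ × List ℕ => z.2.idxOf 1 < z.2.length) :=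
    Primrec.nat_lt.comp hidx hlen
  have h6 := h1.and (h2.and ((h5.not).or (h3.and h4)))
  refine h6.of_eq (fun z => ?_)
  unfold Acc
  constructor
  · rintro ⟨a, b, c⟩
    exact ⟨a, b, fun h => c.resolve_left (fun h' => h' h)⟩
  · rintro ⟨a, b, c⟩
    refine ⟨a, b, ?_⟩
    by_cases h : z.2.idxOf 1 < z.2.length
    · exact Or.inr (c h)
    · exact Or.inl h

theorem idxOf_range_map_delta {m n : ℕ} (h : m < n) :
    ((List.range n).map (delta m)).idxOf 1 = m := by
  have h1 : (1 : ℕ) ∈ (List.range n).map (delta m) :=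
    List.mem_map.2 ⟨m, List.mem_range.2 h, by simp [delta]⟩
  have h2 := List.idxOf_lt_length_of_mem h1
  have h3 : ((List.range n).map (delta m))[((List.range n).map (delta m)).idxOf 1] = 1 :=
    List.getElem_idxOf h2
  simp only [List.getElem_map, List.getElem_range, delta] at h3
  by_contra hcon
  rw [if_neg (by simpa [delta] using hcon)] at h3
  exact absurd h3 (by norm_num)

theorem idxOf_range_map_of_forall {X : ℕ → ℕ} {n : ℕ} (h : ∀ j < n, X j ≠ 1) :
    ((List.range n).map X).idxOf 1 = n := by
  have h1 : (1 : ℕ) ∉ (List.range n).map X := by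
    intro h2
    obtain ⟨j, hj, hj2⟩ := List.mem_map.1 h2
    exact h j (List.mem_range.1 hj) hj2
  rw [List.idxOf_of_notMem h1]
  simp

/-- the paths -/
theorem path_iff {x : ℕ} {X : ℕ → ℕ} :
    (∀ n, Acc R0 R1 x ((List.range n).map X)) ↔
      (∀ y, R0 x y = true) ∧ (X = (fun _ => 0) ∨
        ∃ m, Good R1 x (ofNat (ℕ × List ℕ) m) ∧ X = delta m) := by
  constructor
  · intro H
    have hR : ∀ y, R0 x y = true := by
      intro y
      have := (H (y + 1)).1 y (by simp)
      exact this
    refine ⟨hR, ?_⟩
    have key : ∀ n, ∀ j < n, X j = delta (((List.range n).map X).idxOf 1) j := by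
      intro n j hj
      have h1 := (H n).2.1
      have h2 : ((List.range n).map X)[j]'(by simpa using hj) = X j := by simp
      rw [← h2]
      have h3 : ((List.range n).map X)[j]'(by simpa using hj) =
        ((List.range ((List.range n).map X).length).map
          (delta (((List.range n).map X).idxOf 1)))[j]'(by simpa using hj) := by
        congr 1
      rw [h3]
      simp
    by_cases hex : ∃ m, X m = 1
    · right
      obtain ⟨m, hm⟩ := hex
      have hidx : ∀ n, m < n → ((List.range n).map X).idxOf 1 = m := by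
        intro n hn
        have h1 := key n m hn
        rw [hm] at h1
        by_contra hcon
        unfold delta at h1
        rw [if_neg (Ne.symm hcon)] at h1
        exact absurd h1 (by norm_num)
      have hX : X = delta m := by
        funext j
        have h1 := key (max j m + 1) j (by omega)
        rw [hidx (max j m + 1) (by omega)] at h1
        exact h1
      refine ⟨m, ?_, hX⟩
      refine ⟨?_, ?_⟩
      · have h1 := (H (m + 1)).2.2
        rw [hidx (m + 1) (by omega)] at h1
        exact (h1 (by simp)).1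
      · intro b
        have h1 := (H (max b m + 1)).2.2
        rw [hidx (max b m + 1) (by omega)] at h1
        exact (h1 (by simp)).2 b (by simp)
    · left
      push Not at hex
      funext j
      have h1 := key (j + 1) j (by omega)
      unfold delta at h1
      split_ifs at h1 with h2
      · exact absurd h1 (hex j)
      · exact h1
  · rintro ⟨hR, h⟩ n
    refine ⟨fun y _ => hR y, ?_⟩
    rcases h with rfl | ⟨m, hm, rfl⟩
    · have h1 : ((List.range n).map (fun _ : ℕ => 0)).idxOf 1 = n :=
        idxOf_range_map_of_forall (X := fun _ => 0) (by intro j _; norm_num)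
      rw [h1]
      refine ⟨?_, fun h => absurd h (by simp)⟩
      have h2 : ((List.range n).map (fun _ : ℕ => 0)).length = n := by simp
      rw [h2]
      apply List.map_congr_left
      intro j hj
      have := List.mem_range.1 hj
      simp only [delta]
      rw [if_neg (by omega)]
    · by_cases hmn : m < n
      · rw [idxOf_range_map_delta hmn]
        refine ⟨by simp, fun _ => ⟨hm.1, fun b _ => hm.2 b⟩⟩
      · have h1 : ((List.range n).map (delta m)).idxOf 1 = n := by
          apply idxOf_range_map_of_forall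
          intro j hj
          simp only [delta]
          rw [if_neg (by omega)]
          norm_num
        rw [h1]
        refine ⟨?_, fun h => absurd h (by simp)⟩
        have h2 : ((List.range n).map (delta m)).length = n := by simp
        rw [h2]
        apply List.map_congr_left
        intro j hj
        have := List.mem_range.1 hj
        simp only [delta]
        rw [if_neg (by omega), if_neg (by omega)]

end construction

theorem delta_injective : Function.Injective delta := by
  intro a b h
  have := congrFun h a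
  simp only [delta, if_true] at this
  by_contra hcon
  rw [if_neg hcon] at this
  exact absurd this (by norm_num)

theorem delta_mem_cantor (m : ℕ) : delta m ∈ cantor := by
  intro j; unfold delta; split_ifs <;> simp

theorem encard_add_two_le (g : ℕ∞) (hg : 1 ≤ g) :
    {k : ℕ | ((k + 2 : ℕ) : ℕ∞) ≤ g}.encard + 1 = g := by
  induction g using ENat.recTopCoe with
  | top =>
    have : {k : ℕ | ((k + 2 : ℕ) : ℕ∞) ≤ ⊤} = Set.univ := by ext k; simp
    rw [this, Set.encard_univ]
    simp
  | coe n =>
    have hn : 1 ≤ n := by exact_mod_cast hg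
    have : {k : ℕ | ((k + 2 : ℕ) : ℕ∞) ≤ (n : ℕ∞)} = ((Finset.range (n - 1) : Finset ℕ) : Set ℕ) := by
      ext k
      simp only [Set.mem_ofPred_eq, Nat.cast_le, Finset.coe_range, Set.mem_Iio]
      omega
    rw [this, Set.encard_coe_eq_coe_finsetCard, Finset.card_range]
    have : ((n - 1 : ℕ) : ℕ∞) + 1 = ((n - 1 + 1 : ℕ) : ℕ∞) := by push_cast; rfl
    rw [this]
    congr 1
    omega

/-- **Universality.** -/
theorem exists_card_eq {π : ℕ → List ℕ → Bool} (hπ : EffectiveEnum π) (G : ℕ → ℕ∞)
    (h1 : IsPi 1 (fun x : ℕ => 1 ≤ G x))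
    (h2 : IsSigma 2 (fun p : ℕ × ℕ => ((p.2 + 2 : ℕ) : ℕ∞) ≤ G p.1)) :
    ∃ f : ℕ → ℕ, Computable f ∧ ∀ x, card π (f x) = G x := by
  classical
  obtain ⟨R0, hR0, h1'⟩ := pi_one_matrix h1
  obtain ⟨R1, hR1, h2'⟩ := sigma_two_matrix h2
  obtain ⟨f, hf, hfg⟩ := hπ.smn (fun x σ => decide (Acc R0 R1 x σ))
    (primrec_acc hR0 hR1).decide
  refine ⟨f, hf, fun x => ?_⟩
  have hmem : ∀ X, X ∈ classP π (f x) ↔ ∀ n, Acc R0 R1 x ((List.range n).map X) := by
    intro X
    constructor
    · intro H n
      have := H n _ (List.prefix_refl _)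
      rw [hfg] at this
      simpa using this
    · intro H n τ hτ
      rw [hfg]
      have h3 : τ = (List.range τ.length).map X := by
        have h4 := List.prefix_iff_eq_take.1 hτ
        have h5 : τ.length ≤ n := by simpa using hτ.length_le
        conv_lhs => rw [h4]
        rw [← List.map_take, List.take_range, min_eq_left h5]
      rw [h3]
      simpa using H τ.length
  unfold card
  by_cases hx : 1 ≤ G x
  · have hR := (h1' x).1 hx
    let A : Set ℕ := {m | Good R1 x (ofNat (ℕ × List ℕ) m)}
    have hset : classP π (f x) ∩ cantor = insert (fun _ => 0) (delta '' A) := by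
      ext X
      rw [Set.mem_inter_iff, hmem, path_iff]
      constructor
      · rintro ⟨⟨_, rfl | ⟨m, hm, rfl⟩⟩, _⟩
        · exact Set.mem_insert _ _
        · exact Set.mem_insert_of_mem _ ⟨m, hm, rfl⟩
      · intro hX
        rcases Set.mem_insert_iff.1 hX with rfl | ⟨m, hm, rfl⟩
        · exact ⟨⟨hR, Or.inl rfl⟩, fun _ => Or.inl rfl⟩
        · exact ⟨⟨hR, Or.inr ⟨m, hm, rfl⟩⟩, delta_mem_cantor m⟩
    have hnot : (fun _ => 0 : ℕ → ℕ) ∉ delta '' A := by
      rintro ⟨m, _, hm⟩
      have := congrFun hm m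
      simp [delta] at this
    rw [hset, Set.encard_insert_of_notMem hnot, delta_injective.encard_image]
    have hA : A.encard = {k : ℕ | ((k + 2 : ℕ) : ℕ∞) ≤ G x}.encard := by
      have himg : (fun m => (ofNat (ℕ × List ℕ) m).1) '' A =
          {k : ℕ | ((k + 2 : ℕ) : ℕ∞) ≤ G x} := by
        ext k
        constructor
        · rintro ⟨m, hm, rfl⟩
          exact (h2' (x, _)).2 ((exists_good_iff R1).1 ⟨_, hm⟩)
        · intro hk
          obtain ⟨t, ht⟩ := good_exists R1 ((h2' (x, k)).1 hk)
          refine ⟨encode (k, t), ?_, ?_⟩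
          · show Good R1 x (ofNat (ℕ × List ℕ) (encode (k, t)))
            rw [ofNat_encode]; exact ht
          · simp only [ofNat_encode]
      rw [← himg]
      symm
      apply Set.InjOn.encard_image
      intro a ha b hb hab
      simp only at hab
      have ha' : Good R1 x ((ofNat (ℕ × List ℕ) a).1, (ofNat (ℕ × List ℕ) a).2) := ha
      have hb' : Good R1 x ((ofNat (ℕ × List ℕ) b).1, (ofNat (ℕ × List ℕ) b).2) := hb
      rw [← hab] at hb'
      have h3 := good_unique R1 ha' hb'
      have h4 : ofNat (ℕ × List ℕ) a = ofNat (ℕ × List ℕ) b := Prod.ext hab h3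
      have h5 := congrArg encode h4
      simpa using h5
    rw [hA]
    exact encard_add_two_le (G x) hx
  · have hG : G x = 0 := by
      by_contra hcon
      exact hx (Order.one_le_iff_ne_zero.2 hcon)
    rw [hG, Set.encard_eq_zero, Set.eq_empty_iff_forall_notMem]
    rintro X ⟨hX, _⟩
    rw [hmem, path_iff] at hX
    exact hx ((h1' x).2 hX.1)

end Pool.Agent.H80
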