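import Pool.Agent.H80.VNTensor

set_option autoImplicit false
set_option linter.unusedSectionVars false

/-!
# The final contradiction
-/

universe u v w

namespace H80VN

open scoped ComplexOrder Topology
open Filter Finset

attribute [local instance] CStarAlgebra.spectralOrder CStarAlgebra.spectralOrderedRing

variable {M : Type u} [CStarAlgebra M] [TracialVN M]
variable {N : Type v} [CStarAlgebra N] [TracialVN N]
variable {R : Type w} [CStarAlgebra R] [TracialVN R]

theorem map_unitary' (i : N →⋆ₐ[ℂ] M) {f : N} (hf : f ∈ unitary N) : i f ∈ unitary M := by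
  rw [Unitary.mem_iff] at hf ⊢
  rw [← map_star, ← map_mul, ← map_mul, hf.1, hf.2, map_one]
  exact ⟨rfl, rfl⟩

theorem n2_one_sub_left {v : M} : n2 (1 - v * star v) = n2 (1 - star v * v) := by
  have h : ∀ w : M, n2 (1 - w * star w) ^ 2 = 1 - 2 * rt (w * star w) + rt (w * star w * (w * star w)) := by
    intro w
    rw [n2_sq_sub_sa (by simp) (by simp), one_mul, one_mul, rt_one]
  have h1 := h v
  have h2 := h (star v)
  rw [star_star] at h2
  have h3 : rt (v * star v * (v * star v)) = rt (star v * v * (star v * v)) := by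
    calc rt (v * star v * (v * star v)) = rt (v * (star v * v * star v)) := by
          simp only [mul_assoc]
      _ = rt (star v * v * star v * v) := by rw [rt_comm]
      _ = _ := by simp only [mul_assoc]
  rw [h3, rt_comm v (star v)] at h1
  have h4 : n2 (1 - v * star v) ^ 2 = n2 (1 - star v * v) ^ 2 := by rw [h1, h2]
  have := n2_nonneg (1 - v * star v)
  have := n2_nonneg (1 - star v * v)
  exact (sq_eq_sq₀ (n2_nonneg _) (n2_nonneg _)).1 h4

/-- Commutators are controlled by the distance to a commuting element. -/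
theorem n2_comm_le_of_near {x y r : M} (hx : ‖x‖ ≤ 1) (hr : r * x = x * r) {ε : ℝ}
    (h : n2 (y - r) ≤ ε) : n2 (y * x - x * y) ≤ 2 * ε := by
  have e : y * x - x * y = (y - r) * x - x * (y - r) := by
    rw [sub_mul, mul_sub, hr]; abel
  rw [e]
  have h1 := n2_sub_le ((y - r) * x) (x * (y - r))
  have h2 := n2_mul_le_of_norm_le_one_right (y - r) hx
  have h3 := n2_mul_le_of_norm_le_one_left hx (y - r)
  linarith

set_option maxHeartbeats 1000000 in
/-- The main contradiction. -/
theorem main_contradiction (hM : IsFactor M) (hN : IsFactor N) (hNinf : ¬ FiniteDimensional ℂ N)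
    (hG : ¬ Gamma N) {i : N →⋆ₐ[ℂ] M} {j : R →⋆ₐ[ℂ] M}
    {φ : (k : ℕ) → Matrix (Fin (2 ^ k)) (Fin (2 ^ k)) ℂ →⋆ₐ[ℂ] R} (h : Split i j φ)
    (hec : ∀ (F : Finset M) (ε : ℝ), 0 < ε → ∃ v : M, ‖v‖ ≤ 1 ∧ n2 (1 - star v * v) ≤ ε ∧
      ∀ f ∈ F, ∀ g ∈ F, n2 (v * f * star v * g - g * (v * f * star v)) ≤ ε) : False := by
  classical
  obtain ⟨F, K, hF, hK, hgap⟩ := gap_of_not_gamma hN hNinf hG
  obtain ⟨ε₀, hε₀, hgap0⟩ := h.gap F hF hK hgap (show (0 : ℝ) < 1 / 100 by norm_num)
  obtain ⟨ε₁, hε₁, hgap1⟩ := h.gap F hF hK hgap (show (0 : ℝ) < ε₀ / 8 by positivity)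
  set ε : ℝ := min ε₁ (min (ε₀ / 8) (1 / 100)) with hε
  have hεpos : 0 < ε := lt_min hε₁ (lt_min (by positivity) (by norm_num))
  have hεa : ε ≤ ε₁ := min_le_left _ _
  have hεb : ε ≤ ε₀ / 8 := (min_le_right _ _).trans (min_le_left _ _)
  have hεc : ε ≤ 1 / 100 := (min_le_right _ _).trans (min_le_right _ _)
  obtain ⟨v, hv, hvv, hvc⟩ := hec (F.image i) ε hεpos
  have hvs : ‖star v‖ ≤ 1 := by rw [norm_star]; exact hv
  have hvv' : n2 (1 - v * star v) ≤ ε := by rw [n2_one_sub_left]; exact hvv
  -- `v f v*` is close to a matrix algebra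
  have hex : ∀ f ∈ F, ∃ k m, n2 (v * i f * star v - h.psi k m) ≤ ε₀ / 8 := by
    intro f hf
    refine hgap1 _ fun g hg => ?_
    exact (hvc (i f) (Finset.mem_image_of_mem _ hf) (i g) (Finset.mem_image_of_mem _ hg)).trans hεa
  choose! kk mm hkm using hex
  set k := F.sup kk with hk
  have hex2 : ∀ f ∈ F, ∃ b, n2 (v * i f * star v - h.psi k b) ≤ ε₀ / 8 := by
    intro f hf
    obtain ⟨b, hb⟩ := h.mono' (Finset.le_sup (f := kk) hf) (mm f)
    refine ⟨b, ?_⟩
    have := hkm f hf
    have e : h.psi (kk f) (mm f) = h.psi k b := congrArg j hb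
    rwa [e] at this
  choose! b hb using hex2
  -- conjugates by `v*` of the relative commutant are close to `R`
  have hz : ∀ y : M, ‖y‖ ≤ 1 → (∀ m, y * h.psi k m = h.psi k m * y) →
      ∃ k' m', n2 (star v * y * v - h.psi k' m') ≤ 1 / 100 := by
    intro y hy hyc
    refine hgap0 _ fun f hf => ?_
    have hfu : i f ∈ unitary M := map_unitary' i (hF f hf)
    have hfn : ‖i f‖ ≤ 1 := (norm_unitary hfu).le
    set B := h.psi k (b f) with hB
    have hb' := hb f hf
    have h1 : n2 (v * i f - B * v) ≤ ε₀ / 4 := by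
      have e : v * i f - B * v = v * i f * (1 - star v * v) + (v * i f * star v - B) * v := by
        noncomm_ring
      rw [e]
      have e1 := n2_add_le (v * i f * (1 - star v * v)) ((v * i f * star v - B) * v)
      have e2 : n2 (v * i f * (1 - star v * v)) ≤ n2 (1 - star v * v) := by
        refine n2_mul_le_of_norm_le_one_left ?_ _
        refine (norm_mul_le _ _).trans ?_
        exact mul_le_one₀ hv (norm_nonneg _) hfn
      have e3 := n2_mul_le_of_norm_le_one_right (v * i f * star v - B) hv
      linarith only [hεb, hvv, hb', e1, e2, e3]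
    have h2 : n2 (i f * star v - star v * B) ≤ ε₀ / 4 := by
      have e : i f * star v - star v * B =
          (1 - star v * v) * (i f * star v) + star v * (v * i f * star v - B) := by
        noncomm_ring
      rw [e]
      have e1 := n2_add_le ((1 - star v * v) * (i f * star v)) (star v * (v * i f * star v - B))
      have e2 : n2 ((1 - star v * v) * (i f * star v)) ≤ n2 (1 - star v * v) := by
        refine n2_mul_le_of_norm_le_one_right _ ?_
        refine (norm_mul_le _ _).trans ?_
        exact mul_le_one₀ hfn (norm_nonneg _) hvs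
      have e3 := n2_mul_le_of_norm_le_one_left hvs (v * i f * star v - B)
      linarith only [hεb, hvv, hb', e1, e2, e3]
    have e : star v * y * v * i f - i f * (star v * y * v) =
        star v * y * (v * i f - B * v) - (i f * star v - star v * B) * (y * v) := by
      have hyB : y * B = B * y := hyc _
      have e1 : star v * y * (B * v) = star v * B * (y * v) := by
        calc star v * y * (B * v) = star v * (y * B) * v := by simp only [mul_assoc]
          _ = _ := by rw [hyB]; simp only [mul_assoc]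
      rw [mul_sub, sub_mul, e1]
      simp only [mul_assoc]
      abel
    rw [e]
    have e1 := n2_sub_le (star v * y * (v * i f - B * v)) ((i f * star v - star v * B) * (y * v))
    have e2 : n2 (star v * y * (v * i f - B * v)) ≤ n2 (v * i f - B * v) := by
      refine n2_mul_le_of_norm_le_one_left ?_ _
      refine (norm_mul_le _ _).trans ?_
      exact mul_le_one₀ hvs (norm_nonneg _) hy
    have e3 : n2 ((i f * star v - star v * B) * (y * v)) ≤ n2 (i f * star v - star v * B) := by
      refine n2_mul_le_of_norm_le_one_right _ ?_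
      refine (norm_mul_le _ _).trans ?_
      exact mul_le_one₀ hy (norm_nonneg _) hv
    linarith only [hεpos, hεb, h1, h2, e1, e2, e3]
  -- `v x v*` almost commutes with the relative commutant
  have hcomm : ∀ x : N, ‖i x‖ ≤ 1 → ∀ y : M, ‖y‖ ≤ 1 → (∀ m, y * h.psi k m = h.psi k m * y) →
      n2 (y * (v * i x * star v) - v * i x * star v * y) ≤ 4 / 100 := by
    intro x hx y hy hyc
    obtain ⟨k', m', hkm'⟩ := hz y hy hyc
    set z := star v * y * v with hzdef
    have h1 : n2 (z * i x - i x * z) ≤ 2 * (1 / 100) :=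
      n2_comm_le_of_near hx (h.comm x _).symm hkm'
    have e : y * (v * i x * star v) - v * i x * star v * y =
        (1 - v * star v) * (y * (v * i x * star v)) - v * i x * star v * y * (1 - v * star v) +
          v * (z * i x - i x * z) * star v := by
      rw [hzdef]
      noncomm_ring
    have hc : ‖v * i x * star v‖ ≤ 1 := by
      refine (norm_mul_le _ _).trans (mul_le_one₀ ?_ (norm_nonneg _) hvs)
      exact (norm_mul_le _ _).trans (mul_le_one₀ hv (norm_nonneg _) hx)
    rw [e]
    have e1 := n2_add_le ((1 - v * star v) * (y * (v * i x * star v)) -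
      v * i x * star v * y * (1 - v * star v)) (v * (z * i x - i x * z) * star v)
    have e2 := n2_sub_le ((1 - v * star v) * (y * (v * i x * star v)))
      (v * i x * star v * y * (1 - v * star v))
    have e3 : n2 ((1 - v * star v) * (y * (v * i x * star v))) ≤ n2 (1 - v * star v) :=
      n2_mul_le_of_norm_le_one_right _ ((norm_mul_le _ _).trans (mul_le_one₀ hy (norm_nonneg _) hc))
    have e4 : n2 (v * i x * star v * y * (1 - v * star v)) ≤ n2 (1 - v * star v) :=
      n2_mul_le_of_norm_le_one_left ((norm_mul_le _ _).trans (mul_le_one₀ hc (norm_nonneg _) hy)) _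
    have e5 : n2 (v * (z * i x - i x * z) * star v) ≤ n2 (z * i x - i x * z) :=
      (n2_mul_le_of_norm_le_one_right _ hvs).trans (n2_mul_le_of_norm_le_one_left hv _)
    linarith only [hεc, hvv', h1, e1, e2, e3, e4, e5]
  -- hence it is close to the matrix algebra
  have hnear : ∀ x : N, ‖i x‖ ≤ 1 → ∃ m, n2 (v * i x * star v - h.psi k m) ≤ 4 / 100 := by
    intro x hx
    let G : Set M := {u | u ∈ unitary M ∧ ∀ m, u * h.psi k m = h.psi k m * u}
    obtain ⟨b', _, hb'c, hb'n⟩ := exists_commuting G (fun u hu => hu.1) (by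
      rintro u ⟨hu, huc⟩ w ⟨hw, hwc⟩
      refine ⟨mul_mem (Unitary.star_mem hu) hw, fun m => ?_⟩
      have h1 : star u * h.psi k m = h.psi k m * star u := by
        have := congrArg star (huc (star m))
        rw [star_mul, star_mul, ← map_star, star_star] at this
        exact this.symm
      rw [mul_assoc, hwc, ← mul_assoc, h1, mul_assoc]) ⟨one_mem _, fun m => by simp⟩
      (v * i x * star v) (4 / 100) (fun u hu => hcomm x hx u (norm_unitary hu.1).le hu.2)
    obtain ⟨m, hm⟩ := mem_range_of_comm (h.psi k) hM (b := b') fun y hy =>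
      comm_of_comm_unitaries (h.psi k) (fun u hu hum => hb'c u ⟨hu, hum⟩) y hy
    exact ⟨m, by rw [hm]; exact hb'n⟩
  -- dimension count
  let V : Submodule ℂ (L2 M) :=
    LinearMap.range ((toL2 : M ≃ₗ[ℂ] L2 M).toLinearMap ∘ₗ (h.psi k).toAlgHom.toLinearMap)
  have hVfin : FiniteDimensional ℂ V := inferInstance
  set D := Module.finrank ℂ V with hD
  let ob := stdOrthonormalBasis ℂ V
  obtain ⟨r, hr1, hr2⟩ := exists_orthonormal hN hNinf (2 * D + 1)
  have hir : ∀ l, ‖i (r l)‖ ≤ 1 := fun l =>
    (NonUnitalStarAlgHom.norm_apply_le i.toNonUnitalStarAlgHom (r l)).trans (hr1 l)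
  set ξ : Fin (2 * D + 1) → L2 M := fun l => toL2 (v * i (r l) * star v) with hξ
  have hon : Orthonormal ℂ fun l => (toL2 (i (r l)) : L2 M) := by
    rw [orthonormal_iff_ite]
    intro l l'
    rw [inner_toL2, ← map_star, ← map_mul, h.tr_i, hr2]
  -- lower bound
  have hlow : ∀ l, 1 / 2 ≤ ∑ d, ‖inner ℂ ((ob d : V) : L2 M) (ξ l)‖ ^ 2 := by
    intro l
    obtain ⟨m, hm⟩ := hnear (r l) (hir l)
    have h1 : 1 - 2 / 100 ≤ ‖ξ l‖ ^ 2 := by
      rw [hξ]
      show 1 - 2 / 100 ≤ ‖toL2 (v * i (r l) * star v)‖ ^ 2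
      rw [norm_toL2, ← rt_ssm]
      set x := i (r l) with hx
      have hx1 : n2 x ≤ 1 := (n2_le_norm x).trans (hir l)
      have hxx : rt (star x * x) = 1 := by
        unfold rt
        rw [hx, ← map_star, ← map_mul, h.tr_i, hr2, if_pos rfl]
        rfl
      have e1 : star (v * x * star v) * (v * x * star v) = v * (star x * (star v * v) * x) * star v := by
        simp only [star_mul, star_star, mul_assoc]
      have e2 : rt (v * (star x * (star v * v) * x) * star v) =
          rt (star x * (star v * v) * x * (star v * v)) := by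
        rw [mul_assoc v, rt_comm, mul_assoc (star x * (star v * v) * x)]
      have e3 : rt (star x * x) - rt (star x * (star v * v) * x * (star v * v)) =
          rt (star x * ((1 - star v * v) * x)) + rt ((star x * (star v * v) * x) * (1 - star v * v)) := by
        rw [← rt_sub, ← rt_add]
        congr 1
        noncomm_ring
      have e4 : rt (star x * ((1 - star v * v) * x)) ≤ 1 / 100 := by
        refine (le_abs_self _).trans ((abs_rt_le _ _).trans ?_)
        rw [n2_star]
        have := n2_mul_le_of_norm_le_one_right (1 - star v * v) (hir l)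
        have := n2_nonneg ((1 - star v * v) * x)
        have := n2_nonneg x
        nlinarith
      have e5 : rt ((star x * (star v * v) * x) * (1 - star v * v)) ≤ 1 / 100 := by
        refine (le_abs_self _).trans ((abs_rt_le _ _).trans ?_)
        have a1 : ‖star v * v‖ ≤ 1 := (norm_mul_le _ _).trans (mul_le_one₀ hvs (norm_nonneg _) hv)
        have a2 : ‖star x * (star v * v)‖ ≤ 1 := by
          refine (norm_mul_le _ _).trans (mul_le_one₀ ?_ (norm_nonneg _) a1)
          rw [norm_star]; exact hir l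
        have a3 : n2 (star x * (star v * v) * x) ≤ 1 :=
          (n2_mul_le_of_norm_le_one_left a2 x).trans hx1
        have := n2_nonneg (star x * (star v * v) * x)
        have := n2_nonneg (1 - star v * v)
        nlinarith
      rw [e1, e2]
      linarith only [hxx, e3, e4, e5]
    have h2 : ‖ξ l - V.starProjection (ξ l)‖ ≤ 4 / 100 := by
      have h3 : ‖ξ l - V.starProjection (ξ l)‖ ≤ ‖ξ l - toL2 (h.psi k m)‖ := by
        rw [Submodule.starProjection_minimal]
        exact ciInf_le ⟨0, by rintro _ ⟨w, rfl⟩; exact norm_nonneg _⟩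
          (⟨toL2 (h.psi k m), ⟨m, rfl⟩⟩ : V)
      refine h3.trans ?_
      rw [hξ, ← map_sub, norm_toL2]
      exact hm
    have h3 : ‖ξ l‖ ^ 2 = ‖V.starProjection (ξ l)‖ ^ 2 + ‖ξ l - V.starProjection (ξ l)‖ ^ 2 := by
      have h4 : inner ℂ (V.starProjection (ξ l)) (ξ l - V.starProjection (ξ l)) = 0 := by
        rw [← inner_conj_symm,
          Submodule.starProjection_inner_eq_zero (ξ l) (V.starProjection (ξ l)) (by simp), map_zero]
      have h5 := norm_add_sq_eq_norm_sq_add_norm_sq_of_inner_eq_zero _ _ h4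
      rw [add_sub_cancel] at h5
      simp only [sq]
      exact h5
    have h4 : ‖V.starProjection (ξ l)‖ ^ 2 = ∑ d, ‖inner ℂ ((ob d : V) : L2 M) (ξ l)‖ ^ 2 := by
      have h5 := ob.sum_sq_norm_inner_right (V.orthogonalProjectionOnto (ξ l))
      have h6 : ‖V.starProjection (ξ l)‖ = ‖V.orthogonalProjectionOnto (ξ l)‖ := rfl
      rw [h6, ← h5]
      refine Finset.sum_congr rfl fun d _ => ?_
      congr 2
      exact (V.inner_orthogonalProjectionOnto_eq_of_mem_left (ob d) (ξ l))
    rw [← h4]
    have h5 : ‖ξ l - V.starProjection (ξ l)‖ ^ 2 ≤ (4 / 100) ^ 2 := by gcongr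
    linarith only [h1, h3, h5]
  -- upper bound
  have hupp : ∀ d, ∑ l, ‖inner ℂ ((ob d : V) : L2 M) (ξ l)‖ ^ 2 ≤ 1 := by
    intro d
    obtain ⟨w, hw⟩ : ∃ w : M, toL2 w = ((ob d : V) : L2 M) := ⟨_, LinearEquiv.apply_symm_apply _ _⟩
    have hwn : n2 w = 1 := by
      rw [← norm_toL2, hw]
      exact ob.orthonormal.1 d
    have h1 : ∀ l, inner ℂ ((ob d : V) : L2 M) (ξ l) =
        inner ℂ (toL2 (star v * w * v)) (toL2 (i (r l))) := by
      intro l
      rw [← hw, hξ, inner_toL2, inner_toL2]
      simp only [star_mul, star_star]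
      rw [← mul_assoc, tr_comm]
      simp only [mul_assoc]
    have h2 := hon.sum_inner_products_le (toL2 (star v * w * v)) (s := Finset.univ)
    have h3 : ∀ l, ‖inner ℂ ((ob d : V) : L2 M) (ξ l)‖ ^ 2 =
        ‖inner ℂ (toL2 (i (r l))) (toL2 (star v * w * v))‖ ^ 2 := by
      intro l
      rw [h1, norm_inner_symm]
    rw [Finset.sum_congr rfl (fun l _ => h3 l)]
    refine h2.trans ?_
    rw [norm_toL2]
    have h4 : n2 (star v * w * v) ≤ 1 := by
      rw [← hwn]
      exact (n2_mul_le_of_norm_le_one_right _ hv).trans (n2_mul_le_of_norm_le_one_left hvs _)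
    have := n2_nonneg (star v * w * v)
    nlinarith only [h4, this]
  have htot : ∑ l, ∑ d, ‖inner ℂ ((ob d : V) : L2 M) (ξ l)‖ ^ 2 ≤ D := by
    rw [Finset.sum_comm]
    calc _ ≤ ∑ d : Fin (Module.finrank ℂ V), (1 : ℝ) := Finset.sum_le_sum fun d _ => hupp d
      _ = D := by simp [hD]
  have htot2 : ((2 * D + 1 : ℕ) : ℝ) * (1 / 2) ≤
      ∑ l, ∑ d, ‖inner ℂ ((ob d : V) : L2 M) (ξ l)‖ ^ 2 := by
    calc ((2 * D + 1 : ℕ) : ℝ) * (1 / 2) = ∑ l : Fin (2 * D + 1), (1 / 2 : ℝ) := by
          rw [Finset.sum_const, Finset.card_univ, Fintype.card_fin, nsmul_eq_mul]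
      _ ≤ _ := Finset.sum_le_sum fun l _ => hlow l
  push_cast at htot2
  linarith only [htot, htot2]

end H80VN
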