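import Pool.Agent.H80.VNBridge
import Pool.Agent.H80.VNContra

set_option autoImplicit false
set_option linter.unusedSectionVars false

/-!
# Using existential closedness
-/

universe u v w

namespace H80VN

open scoped ComplexOrder Topology InnerProductSpace
open Filter Stmt

section terms

variable {A : Type u} {n : ℕ}

/-- `t⋆ t`. -/
def sqT (t : Term A n) : Term A n := .mul (.star t) t

/-- `s - t`. -/
noncomputable def subT (s t : Term A n) : Term A n := .add s (.smul (-1) t)

/-- Sum of a list of terms (starting with `z`). -/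
def sumT (z : Term A n) (l : List (Term A n)) : Term A n := l.foldr .add z

variable {Q : Type u} [CStarAlgebra Q] (σ : Q →ₗ[ℂ] ℂ) (ι : A → Q) (v : Fin n → Q)

theorem eval_sqT (t : Term A n) : (sqT t).eval ι v = star (t.eval ι v) * t.eval ι v := rfl

theorem eval_subT (s t : Term A n) : (subT s t).eval ι v = s.eval ι v - t.eval ι v := by
  show s.eval ι v + (-1 : ℂ) • t.eval ι v = _
  rw [neg_one_smul, sub_eq_add_neg]

theorem eval_sumT_cons (z t : Term A n) (l : List (Term A n)) :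
    (σ ((sumT z (t :: l)).eval ι v)).re =
        (σ (t.eval ι v)).re + (σ ((sumT z l).eval ι v)).re := by
  show (σ (t.eval ι v + (sumT z l).eval ι v)).re = _
  rw [map_add, Complex.add_re]

theorem eval_sumT_nonneg (z : Term A n) (l : List (Term A n))
    (hz : 0 ≤ (σ (z.eval ι v)).re) (hl : ∀ t ∈ l, 0 ≤ (σ (t.eval ι v)).re) :
    0 ≤ (σ ((sumT z l).eval ι v)).re := by
  induction l with
  | nil => exact hz
  | cons t l ih =>
    rw [eval_sumT_cons]
    exact add_nonneg (hl t (by simp)) (ih fun t ht => hl t (by simp [ht]))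

theorem eval_sumT_zero (z : Term A n) (l : List (Term A n))
    (hz : (σ (z.eval ι v)).re = 0) (hl : ∀ t ∈ l, (σ (t.eval ι v)).re = 0) :
    (σ ((sumT z l).eval ι v)).re = 0 := by
  induction l with
  | nil => exact hz
  | cons t l ih =>
    rw [eval_sumT_cons, hl t (by simp), ih fun t ht => hl t (by simp [ht]), add_zero]

theorem le_eval_sumT (z : Term A n) (l : List (Term A n))
    (hz : 0 ≤ (σ (z.eval ι v)).re) (hl : ∀ t ∈ l, 0 ≤ (σ (t.eval ι v)).re) :
    (σ (z.eval ι v)).re ≤ (σ ((sumT z l).eval ι v)).re ∧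
    ∀ t ∈ l, (σ (t.eval ι v)).re ≤ (σ ((sumT z l).eval ι v)).re := by
  induction l with
  | nil => exact ⟨le_rfl, by simp⟩
  | cons t l ih =>
    have hl' : ∀ t ∈ l, 0 ≤ (σ (t.eval ι v)).re := fun t ht => hl t (by simp [ht])
    obtain ⟨h2, h3⟩ := ih hl'
    have h4 := hl t (by simp)
    have h5 := eval_sumT_nonneg σ ι v z l hz hl'
    rw [eval_sumT_cons]
    refine ⟨by linarith, fun s hs => ?_⟩
    rcases List.mem_cons.1 hs with rfl | hs
    · linarith
    · have := h3 s hs
      linarith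

end terms

/-- The term `1 - v⋆ v`. -/
noncomputable def unitT {A : Type u} (one : A) : Term A 1 :=
  subT (.const one) (.mul (.star (.var 0)) (.var 0))

/-- The term `v f v⋆ g - g v f v⋆`. -/
noncomputable def commT {A : Type u} (f g : A) : Term A 1 :=
  subT (.mul (.mul (.mul (.var 0) (.const f)) (.star (.var 0))) (.const g))
    (.mul (.const g) (.mul (.mul (.var 0) (.const f)) (.star (.var 0))))

/-- The quantifier-free formula used. -/
noncomputable def theFormula {A : Type u} (one : A) (F : Finset A) : QFFormula A 1 where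
  k := 1
  term := fun _ => sumT (sqT (unitT one)) ((F.toList.product F.toList).map fun p => sqT (commT p.1 p.2))
  fn := fun z => (z 0).re
  cont := Complex.continuous_re.comp (continuous_apply 0)

section

variable {Q : Type u} [CStarAlgebra Q] {σ : Q →ₗ[ℂ] ℂ}

theorem theFormula_eval {A : Type u} (one : A) (F : Finset A) (ι : A → Q)
    (v : Fin 1 → Q) : (theFormula one F).eval σ ι v =
      (σ ((sumT (sqT (unitT one)) ((F.toList.product F.toList).map fun p =>
        sqT (commT p.1 p.2))).eval ι v)).re := rfl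

theorem tr_sqT_nonneg {A : Type u} {n : ℕ} (hσ : ∀ x, 0 ≤ σ (star x * x)) (ι : A → Q)
    (v : Fin n → Q) (t : Term A n) : 0 ≤ (σ ((sqT t).eval ι v)).re :=
  (Complex.le_def.1 (hσ _)).1

theorem theFormula_nonneg {A : Type u} (hσ : ∀ x, 0 ≤ σ (star x * x)) (one : A) (F : Finset A)
    (ι : A → Q) (v : Fin 1 → Q) : 0 ≤ (theFormula one F).eval σ ι v := by
  rw [theFormula_eval]
  refine eval_sumT_nonneg _ _ _ _ _ (tr_sqT_nonneg hσ _ _ _) fun t ht => ?_
  obtain ⟨p, _, rfl⟩ := List.mem_map.1 ht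
  exact tr_sqT_nonneg hσ _ _ _

theorem theFormula_zero {A : Type u} (one : A) (F : Finset A) (ι : A → Q)
    (v : Fin 1 → Q) (h1 : ι one = 1) (h2 : star (v 0) * v 0 = 1)
    (h3 : ∀ f g, (v 0 * ι f * star (v 0)) * ι g = ι g * (v 0 * ι f * star (v 0))) :
    (theFormula one F).eval σ ι v = 0 := by
  rw [theFormula_eval]
  refine eval_sumT_zero _ _ _ _ _ ?_ fun t ht => ?_
  · rw [eval_sqT]
    have : (unitT one).eval ι v = 0 := by
      unfold unitT
      rw [eval_subT]
      show ι one - star (v 0) * v 0 = 0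
      rw [h1, h2, sub_self]
    rw [this]
    simp
  · obtain ⟨p, _, rfl⟩ := List.mem_map.1 ht
    rw [eval_sqT]
    have : (commT p.1 p.2).eval ι v = 0 := by
      unfold commT
      rw [eval_subT]
      show (v 0 * ι p.1 * star (v 0)) * ι p.2 - ι p.2 * (v 0 * ι p.1 * star (v 0)) = 0
      rw [h3, sub_self]
    rw [this]
    simp

end

section

variable {M : Type u} [CStarAlgebra M] {τ : M →ₗ[ℂ] ℂ}

theorem le_theFormula (hτ : ∀ x, 0 ≤ τ (star x * x)) (F : Finset M) (v : Fin 1 → M) :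
    norm2 τ (1 - star (v 0) * v 0) ^ 2 ≤ (theFormula 1 F).eval τ id v ∧
    ∀ f ∈ F, ∀ g ∈ F, norm2 τ (v 0 * f * star (v 0) * g - g * (v 0 * f * star (v 0))) ^ 2 ≤
      (theFormula 1 F).eval τ id v := by
  rw [theFormula_eval]
  have hsq : ∀ x : M, norm2 τ x ^ 2 = (τ (star x * x)).re := fun x =>
    Real.sq_sqrt (Complex.le_def.1 (hτ x)).1
  obtain ⟨h1, h2⟩ := le_eval_sumT τ id v (sqT (unitT 1)) ((F.toList.product F.toList).map fun p =>
        sqT (commT p.1 p.2)) (tr_sqT_nonneg hτ _ _ _) (fun t ht => by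
      obtain ⟨p, _, rfl⟩ := List.mem_map.1 ht
      exact tr_sqT_nonneg hτ _ _ _)
  refine ⟨?_, fun f hf g hg => ?_⟩
  · refine le_trans (le_of_eq ?_) h1
    rw [hsq, eval_sqT]
    have : (unitT 1).eval id v = 1 - star (v 0) * v 0 := by
      unfold unitT
      rw [eval_subT]
      rfl
    rw [this]
  · refine le_trans (le_of_eq ?_) (h2 (sqT (commT f g)) (List.mem_map.2 ⟨(f, g), ?_, rfl⟩))
    · rw [hsq, eval_sqT]
      have : (commT f g).eval id v =
          v 0 * f * star (v 0) * g - g * (v 0 * f * star (v 0)) := by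
        unfold commT
        rw [eval_subT]
        rfl
      rw [this]
    · exact List.mem_product.2 ⟨Finset.mem_toList.2 hf, Finset.mem_toList.2 hg⟩

/-- What existential closedness gives, given a suitable extension. -/
theorem hec_of_isEC (hτ : ∀ x, 0 ≤ τ (star x * x)) (hM : IsEC τ) {Q : Type u} [CStarAlgebra Q]
    {σ : Q →ₗ[ℂ] ℂ} (hσ : IsTracialVN σ) (hσ' : ∀ x, 0 ≤ σ (star x * x)) {ι : M →⋆ₐ[ℂ] Q} {u : Q}
    (h1 : ∀ x, σ (ι x) = τ x) (h2 : ‖u‖ ≤ 1) (h3 : star u * u = 1)
    (h4 : ∀ x y, (u * ι x * star u) * ι y = ι y * (u * ι x * star u))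
    (F : Finset M) (ε : ℝ) (hε : 0 < ε) : ∃ v : M, ‖v‖ ≤ 1 ∧
      norm2 τ (1 - star v * v) ≤ ε ∧
      ∀ f ∈ F, ∀ g ∈ F, norm2 τ (v * f * star v * g - g * (v * f * star v)) ≤ ε := by
  have hinf := hM Q σ hσ ι h1 1 (theFormula 1 F)
  have hQ : (theFormula (1 : M) F).inf σ ι ≤ 0 := by
    have h5 : (theFormula (1 : M) F).eval σ ι (fun _ => u) = 0 :=
      theFormula_zero 1 F ι (fun _ => u) (map_one ι) h3 h4
    rw [← h5]
    exact ciInf_le (f := fun v : {v : Fin 1 → Q // ∀ i, ‖v i‖ ≤ 1} =>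
        (theFormula (1 : M) F).eval σ ι v.1)
      ⟨0, by rintro _ ⟨w, rfl⟩; exact theFormula_nonneg hσ' _ _ _ _⟩ ⟨fun _ => u, fun _ => h2⟩
  rw [← hinf] at hQ
  have hlt : (theFormula (1 : M) F).inf τ id < ε ^ 2 := lt_of_le_of_lt hQ (by positivity)
  have : Nonempty {v : Fin 1 → M // ∀ i, ‖v i‖ ≤ 1} := ⟨⟨fun _ => 0, fun _ => by simp⟩⟩
  obtain ⟨⟨v, hv⟩, hv2⟩ := exists_lt_of_ciInf_lt hlt
  obtain ⟨h5, h6⟩ := le_theFormula hτ F v
  refine ⟨v 0, hv 0, ?_, fun f hf g hg => ?_⟩
  · have h7 : norm2 τ (1 - star (v 0) * v 0) ^ 2 < ε ^ 2 := lt_of_le_of_lt h5 hv2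
    exact (lt_of_pow_lt_pow_left₀ 2 hε.le h7).le
  · have h7 := lt_of_le_of_lt (h6 f hf g hg) hv2
    exact (lt_of_pow_lt_pow_left₀ 2 hε.le h7).le

theorem main (hM : IsII1Factor τ) (hec : IsEC τ) : ¬ StronglyMcDuff τ := by
  rintro ⟨N, R, _, _, ρ, σ, hN, -, hG, ⟨hR, φ, hmono, hdense'⟩, ⟨i, j, hcomm, htr, hdense⟩⟩
  letI : TracialVN M := toTracialVN hM.1
  letI : TracialVN N := toTracialVN hN.1
  letI : TracialVN R := toTracialVN hR
  have hS : Split i j φ :=
    { comm := hcomm
      trace := htr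
      dense := hdense
      mono := hmono
      dense' := hdense' }
  have hneM : IsFactor M := hM.2.1
  have hneN : IsFactor N := hN.2.1
  set ψ := j.comp (φ 1) with hψ
  let p : M := mu ψ 0 0
  let p' : M := mu ψ 1 1
  let w : M := mu ψ 0 1 + mu ψ 1 0
  have h01 : (0 : Fin (2 ^ 1)) ≠ 1 := by decide
  have h10 : (1 : Fin (2 ^ 1)) ≠ 0 := by decide
  obtain ⟨Q, ι, u, h1, h2, h3, h4⟩ := exists_extension (A := M) (p := p) (p' := p') (w := w)
    (by simp only [p, mu_mul]; simp) (by simp only [p', mu_mul]; simp)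
    (by simp only [p, p', mu_mul]; simp) (by simp only [p, p', mu_mul]; simp)
    (by simp only [p, star_mu]) (by simp only [p', star_mu])
    (by
      have := sum_mu ψ
      rw [show (Finset.univ : Finset (Fin (2 ^ 1))) = {0, 1} from rfl, Finset.sum_pair h01] at this
      exact this)
    (by simp only [w, star_add, star_mu]; exact add_comm _ _)
    (by
      have := sum_mu ψ
      rw [show (Finset.univ : Finset (Fin (2 ^ 1))) = {0, 1} from rfl, Finset.sum_pair h01] at this
      simp only [w, add_mul, mul_add, mu_mul]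
      rw [add_comm] at this
      simpa using this)
    (by simp only [w, p, p', add_mul, mul_add, mu_mul]; simp [mu_mul])
    (by simp only [w, p, p', add_mul, mul_add, mu_mul]; simp [mu_mul])
  exact main_contradiction hneM hneN hN.2.2 hG hS
    (fun F ε hε => hec_of_isEC (τ := τ) (tr_nonneg (M := M)) hec Q.isTracialVN Q.nonneg
      h1 h2 h3 h4 F ε hε)

end

end H80VN
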