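import Pool.Agent.H80.VNConv

set_option autoImplicit false
set_option linter.unusedSectionVars false

/-!
# Averaging
-/

universe u v

namespace H80VN

open scoped ComplexOrder Topology
open Filter

attribute [local instance] CStarAlgebra.spectralOrder CStarAlgebra.spectralOrderedRing

variable {M : Type u} [CStarAlgebra M] [TracialVN M]

theorem par (x y : M) : n2 (x - y) ^ 2 + n2 (x + y) ^ 2 = 2 * (n2 x ^ 2 + n2 y ^ 2) := by
  have := parallelogram_law_with_norm ℂ (toL2 x) (toL2 y)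
  rw [← map_sub, ← map_add] at this
  simp only [norm_toL2] at this
  linarith

theorem nontrivial_M (M : Type u) [CStarAlgebra M] [TracialVN M] : Nontrivial M := by
  refine ⟨1, 0, fun h => ?_⟩
  have := tr_one (M := M)
  rw [h, map_zero] at this
  exact zero_ne_one this

theorem norm_unitary {u : M} (hu : u ∈ unitary M) : ‖u‖ = 1 := by
  have := nontrivial_M M
  exact CStarRing.norm_of_mem_unitary hu

theorem n2_unitary_mul {u : M} (hu : u ∈ unitary M) (x : M) : n2 (u * x) = n2 x := by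
  unfold n2
  rw [star_mul, mul_assoc, ← mul_assoc (star u), Unitary.star_mul_self_of_mem hu, one_mul]

theorem n2_mul_unitary {u : M} (hu : u ∈ unitary M) (x : M) : n2 (x * u) = n2 x := by
  have := n2_unitary_mul (Unitary.star_mem hu) (star x)
  rw [← star_mul, n2_star, n2_star] at this
  exact this

theorem n2_conj {u : M} (hu : u ∈ unitary M) (x : M) : n2 (u * x * star u) = n2 x := by
  rw [n2_mul_unitary (Unitary.star_mem hu), n2_unitary_mul hu]

theorem exists_min {K : Set M} (hne : K.Nonempty) (hcv : Convex ℝ K) {C : ℝ}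
    (hC : ∀ x ∈ K, ‖x‖ ≤ C) (hcl : ∀ (x : ℕ → M) (y : M), (∀ n, x n ∈ K) → T2 x y → y ∈ K) :
    ∃ b ∈ K, ∀ y ∈ K, n2 y ≤ n2 b → y = b := by
  set d := sInf (n2 '' K) with hd
  have hbd : BddBelow (n2 '' K) := ⟨0, by rintro _ ⟨x, _, rfl⟩; exact n2_nonneg _⟩
  have hd0 : 0 ≤ d := le_csInf (hne.image _) (by rintro _ ⟨x, _, rfl⟩; exact n2_nonneg _)
  have hdle : ∀ x ∈ K, d ≤ n2 x := fun x hx => csInf_le hbd ⟨x, hx, rfl⟩
  have hmid : ∀ x ∈ K, ∀ y ∈ K, n2 (x - y) ^ 2 ≤ 2 * (n2 x ^ 2 + n2 y ^ 2) - 4 * d ^ 2 := by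
    intro x hx y hy
    have h1 : (1 / 2 : ℝ) • x + (1 / 2 : ℝ) • y ∈ K :=
      hcv hx hy (by norm_num) (by norm_num) (by norm_num)
    have h2 := hdle _ h1
    rw [← smul_add, n2_rsmul, abs_of_pos (by norm_num : (0 : ℝ) < 1 / 2)] at h2
    have h3 := par x y
    nlinarith [n2_nonneg (x + y)]
  have hex : ∀ n : ℕ, ∃ x ∈ K, n2 x < d + 1 / ((n : ℝ) + 1) := by
    intro n
    have h1 : d < d + 1 / ((n : ℝ) + 1) := lt_add_of_pos_right _ (by positivity)
    obtain ⟨_, ⟨x, hx, rfl⟩, hx'⟩ := exists_lt_of_csInf_lt (hne.image _) h1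
    exact ⟨x, hx, hx'⟩
  choose x hx hxd using hex
  have hlim0 : Tendsto (fun n : ℕ => 1 / ((n : ℝ) + 1)) atTop (𝓝 0) :=
    tendsto_one_div_add_atTop_nhds_zero_nat
  have hcau : ∀ ε : ℝ, 0 < ε → ∃ N, ∀ m ≥ N, ∀ n ≥ N, n2 (x m - x n) < ε := by
    intro ε hε
    -- choose N with 8 d a + 4 a^2 < ε^2
    have h1 : Tendsto (fun n : ℕ => 8 * d * (1 / ((n : ℝ) + 1)) + 4 * (1 / ((n : ℝ) + 1)) ^ 2) atTop
        (𝓝 0) := by
      have := (hlim0.const_mul (8 * d)).add ((hlim0.pow 2).const_mul 4)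
      simpa using this
    obtain ⟨N, hN⟩ := (h1.eventually (gt_mem_nhds (show (0 : ℝ) < ε ^ 2 by positivity))).exists
    refine ⟨N, fun m hm n hn => ?_⟩
    have ha : ∀ k ≥ N, n2 (x k) ≤ d + 1 / ((N : ℝ) + 1) := by
      intro k hk
      refine (hxd k).le.trans ?_
      have : (N : ℝ) ≤ k := by exact_mod_cast hk
      gcongr
    have h2 := hmid _ (hx m) _ (hx n)
    have h3 := ha m hm
    have h4 := ha n hn
    have h5 : n2 (x m - x n) ^ 2 < ε ^ 2 := by
      have e1 : n2 (x m) ^ 2 ≤ (d + 1 / ((N : ℝ) + 1)) ^ 2 := by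
        gcongr
        exact n2_nonneg _
      have e2 : n2 (x n) ^ 2 ≤ (d + 1 / ((N : ℝ) + 1)) ^ 2 := by
        gcongr
        exact n2_nonneg _
      nlinarith
    exact (sq_lt_sq₀ (n2_nonneg _) hε.le).1 h5
  obtain ⟨b, _, hb⟩ := exists_lim (fun n => hC _ (hx n)) hcau
  have hbK : b ∈ K := hcl x b hx hb
  have hbd' : n2 b ≤ d := by
    have h1 : Tendsto (fun n : ℕ => d + 1 / ((n : ℝ) + 1)) atTop (𝓝 (d + 0)) :=
      tendsto_const_nhds.add hlim0
    rw [add_zero] at h1
    exact le_of_tendsto_of_tendsto' hb.n2 h1 fun n => (hxd n).le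
  refine ⟨b, hbK, fun y hy hyb => ?_⟩
  have h1 := hmid _ hy _ hbK
  have h2 : n2 (y - b) ^ 2 ≤ 0 := by
    have e1 : n2 y ^ 2 ≤ d ^ 2 := by
      have := n2_nonneg y
      have := hyb.trans hbd'
      gcongr
    have e2 : n2 b ^ 2 ≤ d ^ 2 := by
      have := n2_nonneg b
      gcongr
    linarith
  have h3 : n2 (y - b) = 0 := by
    have := n2_nonneg (y - b)
    nlinarith
  exact sub_eq_zero.1 (n2_eq_zero.1 h3)

/-- A convex set bounded in norm and closed in the 2-norm, invariant under conjugation by the unitaries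
in `G`, contains an element commuting with `G`. -/
theorem exists_fixed {K : Set M} (hne : K.Nonempty) (hcv : Convex ℝ K) {C : ℝ}
    (hC : ∀ x ∈ K, ‖x‖ ≤ C) (hcl : ∀ (x : ℕ → M) (y : M), (∀ n, x n ∈ K) → T2 x y → y ∈ K)
    (G : Set M) (hG : ∀ u ∈ G, u ∈ unitary M) (hinv : ∀ u ∈ G, ∀ x ∈ K, u * x * star u ∈ K) :
    ∃ b ∈ K, ∀ u ∈ G, u * b = b * u := by
  obtain ⟨b, hb, hb'⟩ := exists_min hne hcv hC hcl
  refine ⟨b, hb, fun u hu => ?_⟩
  have h1 := hb' _ (hinv u hu b hb) (by rw [n2_conj (hG u hu)])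
  calc u * b = u * b * (star u * u) := by
        rw [Unitary.star_mul_self_of_mem (hG u hu), mul_one]
    _ = (u * b * star u) * u := by simp only [mul_assoc]
    _ = b * u := by rw [h1]

theorem convex_n2_ball (a : M) (c : ℝ) : Convex ℝ {y : M | n2 (y - a) ≤ c} := by
  intro x hx y hy s t hs ht hst
  simp only [Set.mem_ofPred_eq] at hx hy ⊢
  have h1 : s • x + t • y - a = s • (x - a) + t • (y - a) := by
    rw [smul_sub, smul_sub]
    have : a = s • a + t • a := by rw [← add_smul, hst, one_smul]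
    nth_rw 1 [this]
    abel
  rw [h1]
  refine (n2_add_le _ _).trans ?_
  rw [n2_rsmul, n2_rsmul, abs_of_nonneg hs, abs_of_nonneg ht]
  calc s * n2 (x - a) + t * n2 (y - a) ≤ s * c + t * c := by gcongr
    _ = c := by rw [← add_mul, hst, one_mul]

theorem convex_norm_ball (c : ℝ) : Convex ℝ {y : M | ‖y‖ ≤ c} := by
  have : {y : M | ‖y‖ ≤ c} = Metric.closedBall 0 c := by
    ext y
    simp
  rw [this]
  exact convex_closedBall 0 c

/-- If `x` almost commutes with a group `G` of unitaries then it is close to an element commuting with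
`G`. -/
theorem exists_commuting (G : Set M) (hG : ∀ u ∈ G, u ∈ unitary M)
    (hG' : ∀ u ∈ G, ∀ w ∈ G, star u * w ∈ G) (h1 : (1 : M) ∈ G) (x : M) (c : ℝ)
    (hx : ∀ u ∈ G, n2 (u * x - x * u) ≤ c) :
    ∃ b, ‖b‖ ≤ ‖x‖ ∧ (∀ u ∈ G, u * b = b * u) ∧ n2 (x - b) ≤ c := by
  let K : Set M := {y | ‖y‖ ≤ ‖x‖} ∩ ⋂ u ∈ G, {y | n2 (y - u * x * star u) ≤ c}
  have hmem : ∀ y, y ∈ K ↔ ‖y‖ ≤ ‖x‖ ∧ ∀ u ∈ G, n2 (y - u * x * star u) ≤ c := by
    intro y
    simp [K]
  have hstar : ∀ u ∈ G, star u ∈ G := by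
    intro u hu
    have := hG' u hu 1 h1
    rwa [mul_one] at this
  obtain ⟨b, hb, hb'⟩ := exists_fixed (K := K) (C := ‖x‖) ⟨x, (hmem x).2 ⟨le_rfl, fun u hu => by
      have h2 : x - u * x * star u = (x * u - u * x) * star u := by
        rw [sub_mul, mul_assoc x u, Unitary.mul_star_self_of_mem (hG u hu), mul_one]
      rw [h2, n2_mul_unitary (Unitary.star_mem (hG u hu)), n2_sub_comm]
      exact hx u hu⟩⟩
    ((convex_norm_ball _).inter (convex_iInter₂ fun u _ => convex_n2_ball _ _))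
    (fun y hy => ((hmem y).1 hy).1)
    (by
      intro y z hy hyz
      rw [hmem]
      refine ⟨hyz.norm_le fun n => ((hmem _).1 (hy n)).1, fun u hu => ?_⟩
      have h3 := (hyz.sub (T2.const (u * x * star u))).n2
      exact le_of_tendsto' h3 fun n => ((hmem _).1 (hy n)).2 u hu)
    G hG (by
      intro u hu y hy
      rw [hmem] at hy ⊢
      refine ⟨?_, fun w hw => ?_⟩
      · refine (norm_mul_le _ _).trans ?_
        have e1 : ‖star u‖ ≤ 1 := by
          rw [norm_star]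
          exact (norm_unitary (hG u hu)).le
        have e2 : ‖u‖ ≤ 1 := (norm_unitary (hG u hu)).le
        calc ‖u * y‖ * ‖star u‖ ≤ ‖u * y‖ * 1 := by gcongr
          _ ≤ ‖u‖ * ‖y‖ := by rw [mul_one]; exact norm_mul_le _ _
          _ ≤ 1 * ‖y‖ := by gcongr
          _ ≤ ‖x‖ := by rw [one_mul]; exact hy.1
      · have h4 := hy.2 _ (hG' u hu w hw)
        have h5 : u * y * star u - w * x * star w =
            u * (y - star u * w * x * star (star u * w)) * star u := by
          have hu1 := Unitary.mul_star_self_of_mem (hG u hu)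
          rw [star_mul, star_star, mul_sub, sub_mul]
          congr 1
          calc w * x * star w = (u * star u) * w * x * star w * (u * star u) := by
                rw [hu1, one_mul, mul_one]
            _ = _ := by simp only [mul_assoc]
        rw [h5, n2_conj (hG u hu)]
        exact h4)
  refine ⟨b, ((hmem b).1 hb).1, hb', ?_⟩
  have := ((hmem b).1 hb).2 1 h1
  rw [one_mul, star_one, mul_one, n2_sub_comm] at this
  exact this

/-- A factor: only scalars commute with everything. -/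
def IsFactor (M : Type u) [CStarAlgebra M] : Prop :=
  ∀ z : M, (∀ y : M, z * y = y * z) → ∃ c : ℂ, z = c • (1 : M)

theorem comm_of_comm_unitary {b : M} (h : ∀ u ∈ unitary M, u * b = b * u) (y : M) :
    b * y = y * b := by
  obtain ⟨u, c, hy, _⟩ := CStarAlgebra.exists_sum_four_unitary y
  rw [hy, Finset.mul_sum, Finset.sum_mul]
  refine Finset.sum_congr rfl fun i _ => ?_
  rw [mul_smul_comm, smul_mul_assoc, h _ (u i).2]

theorem norm_conj_le {u : M} (hu : u ∈ unitary M) (x : M) : ‖u * x * star u‖ ≤ ‖x‖ := by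
  have e1 : ‖star u‖ ≤ 1 := by
    rw [norm_star]
    exact (norm_unitary hu).le
  have e2 : ‖u‖ ≤ 1 := (norm_unitary hu).le
  calc ‖u * x * star u‖ ≤ ‖u * x‖ * ‖star u‖ := norm_mul_le _ _
    _ ≤ ‖u * x‖ * 1 := by gcongr
    _ ≤ ‖u‖ * ‖x‖ := by rw [mul_one]; exact norm_mul_le _ _
    _ ≤ 1 * ‖x‖ := by gcongr
    _ = ‖x‖ := one_mul _

theorem tr_conj {u : M} (hu : u ∈ unitary M) (x : M) : tr (u * x * star u) = tr x := by
  rw [tr_comm, ← mul_assoc, Unitary.star_mul_self_of_mem hu, one_mul]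

/-- In a factor some average of the unitary conjugates of `x` is close to the trace of `x`. -/
theorem exists_average (hM : IsFactor M) (x : M) {ε : ℝ} (hε : 0 < ε) :
    ∃ (ι : Type) (t : Finset ι) (w : ι → ℝ) (u : ι → M), (∀ i ∈ t, 0 ≤ w i) ∧
      ∑ i ∈ t, w i = 1 ∧ (∀ i ∈ t, u i ∈ unitary M) ∧
      n2 (∑ i ∈ t, w i • (u i * x * star (u i)) - tr x • (1 : M)) < ε := by
  let O : Set M := {y | ∃ u ∈ unitary M, y = u * x * star u}
  let K₀ : Set M := convexHull ℝ O
  have hO : ∀ u ∈ unitary M, ∀ y ∈ O, u * y * star u ∈ O := by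
    rintro u hu _ ⟨w, hw, rfl⟩
    exact ⟨u * w, mul_mem hu hw, by rw [star_mul]; simp only [mul_assoc]⟩
  have hconj : ∀ u ∈ unitary M, ∀ y ∈ K₀, u * y * star u ∈ K₀ := by
    intro u hu y hy
    have h1 : K₀ ⊆ {y | u * y * star u ∈ K₀} := by
      apply convexHull_min
      · intro y hy
        exact subset_convexHull ℝ _ (hO u hu y hy)
      · intro y hy z hz a b ha hb hab
        simp only [Set.mem_ofPred_eq] at hy hz ⊢
        have := (convex_convexHull ℝ O) hy hz ha hb hab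
        convert! this using 1
        rw [mul_add, add_mul, mul_smul_comm, mul_smul_comm, smul_mul_assoc, smul_mul_assoc]
    exact h1 hy
  have hK₀norm : ∀ y ∈ K₀, ‖y‖ ≤ ‖x‖ := by
    intro y hy
    have h1 : K₀ ⊆ {y | ‖y‖ ≤ ‖x‖} := by
      apply convexHull_min
      · rintro _ ⟨u, hu, rfl⟩
        exact norm_conj_le hu x
      · exact convex_norm_ball _
    exact h1 hy
  let K : Set M := {y | ‖y‖ ≤ ‖x‖ ∧ ∀ δ : ℝ, 0 < δ → ∃ y' ∈ K₀, n2 (y - y') < δ}
  obtain ⟨b, hb, hb'⟩ := exists_fixed (K := K) (C := ‖x‖)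
    ⟨x, le_rfl, fun δ hδ => ⟨x, subset_convexHull ℝ _ ⟨1, one_mem _, by simp⟩, by
      rw [sub_self, n2_zero]; exact hδ⟩⟩
    (by
      rintro y ⟨hy, hy'⟩ z ⟨hz, hz'⟩ s t hs ht hst
      refine ⟨convex_norm_ball _ hy hz hs ht hst, fun δ hδ => ?_⟩
      obtain ⟨y', hy1, hy2⟩ := hy' δ hδ
      obtain ⟨z', hz1, hz2⟩ := hz' δ hδ
      refine ⟨s • y' + t • z', (convex_convexHull ℝ O) hy1 hz1 hs ht hst, ?_⟩
      have h1 : s • y + t • z - (s • y' + t • z') = s • (y - y') + t • (z - z') := by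
        rw [smul_sub, smul_sub]; abel
      rw [h1]
      refine (n2_add_le _ _).trans_lt ?_
      rw [n2_rsmul, n2_rsmul, abs_of_nonneg hs, abs_of_nonneg ht]
      rcases hs.eq_or_lt with hs0 | hs0
      · have : t = 1 := by linarith
        rw [← hs0, this]
        linarith
      · have h2 : s * n2 (y - y') < s * δ := by gcongr
        have h3 : t * n2 (z - z') ≤ t * δ := by gcongr
        calc s * n2 (y - y') + t * n2 (z - z') < s * δ + t * δ := by linarith
          _ = δ := by rw [← add_mul, hst, one_mul])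
    (fun y hy => hy.1)
    (by
      intro y z hy hyz
      refine ⟨hyz.norm_le fun n => (hy n).1, fun δ hδ => ?_⟩
      obtain ⟨n, hn⟩ := (hyz.eventually (gt_mem_nhds (show (0 : ℝ) < δ / 2 by positivity))).exists
      obtain ⟨y', hy1, hy2⟩ := (hy n).2 (δ / 2) (by positivity)
      refine ⟨y', hy1, ?_⟩
      have : z - y' = -(y n - z) + (y n - y') := by abel
      rw [this]
      refine (n2_add_le _ _).trans_lt ?_
      rw [n2_neg]
      linarith)
    (unitary M : Set M) (fun u hu => hu)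
    (by
      rintro u hu y ⟨hy, hy'⟩
      refine ⟨(norm_conj_le hu y).trans hy, fun δ hδ => ?_⟩
      obtain ⟨y', hy1, hy2⟩ := hy' δ hδ
      refine ⟨u * y' * star u, hconj u hu y' hy1, ?_⟩
      rw [← sub_mul, ← mul_sub, n2_conj hu]
      exact hy2)
  obtain ⟨c, hc⟩ := hM b (comm_of_comm_unitary hb')
  -- the trace of `b` is the trace of `x`
  have htr₀ : ∀ y ∈ K₀, tr y = tr x := by
    intro y hy
    have h1 : K₀ ⊆ {y | tr y = tr x} := by
      apply convexHull_min
      · rintro _ ⟨u, hu, rfl⟩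
        exact tr_conj hu x
      · intro y hy z hz a b _ _ hab
        simp only [Set.mem_ofPred_eq] at hy hz ⊢
        have e1 : a • y = (a : ℂ) • y := by simp
        have e2 : b • z = (b : ℂ) • z := by simp
        rw [e1, e2, map_add, map_smul, map_smul, hy, hz, ← add_smul, ← Complex.ofReal_add, hab]
        simp
    exact h1 hy
  have htr : tr b = tr x := by
    by_contra hne
    have h1 : 0 < ‖tr b - tr x‖ := norm_pos_iff.2 (sub_ne_zero.2 hne)
    obtain ⟨y', hy1, hy2⟩ := hb.2 _ h1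
    have h2 := norm_tr_le_n2 (b - y')
    rw [map_sub, htr₀ y' hy1] at h2
    linarith
  have hc' : c = tr x := by
    rw [← htr, hc, map_smul, tr_one]
    simp
  obtain ⟨y', hy1, hy2⟩ := hb.2 ε hε
  simp only [K₀, convexHull_eq] at hy1
  obtain ⟨ι, t, w, z, hw0, hw1, hz, hcm⟩ := hy1
  choose! u hu hzu using hz
  refine ⟨ι, t, w, u, hw0, hw1, hu, ?_⟩
  rw [Finset.centerMass_eq_of_sum_1 _ _ hw1] at hcm
  rw [← hc', ← hc]
  have : ∑ i ∈ t, w i • (u i * x * star (u i)) = y' := by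
    rw [← hcm]
    exact Finset.sum_congr rfl fun i hi => by rw [hzu i hi]
  rw [this, n2_sub_comm]
  exact hy2

end H80VN
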