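import Mathlib

set_option autoImplicit false
set_option linter.unusedSectionVars false

/-!
# Tracial von Neumann algebras: basic facts on the 2-norm
-/

universe u v

namespace H80VN

open scoped ComplexOrder

/-- A unital C⋆-algebra with a faithful tracial state whose operator norm unit ball is complete for
the 2-norm `‖x‖₂ = tr (x⋆ x) ^ (1/2)`. -/
class TracialVN (M : Type u) [CStarAlgebra M] where
  tr : M →ₗ[ℂ] ℂ
  tr_one : tr 1 = 1
  tr_nonneg : ∀ x, 0 ≤ tr (star x * x)
  tr_comm : ∀ x y, tr (x * y) = tr (y * x)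
  tr_faithful : ∀ x, tr (star x * x) = 0 → x = 0
  ball_complete : ∀ x : ℕ → M, (∀ n, ‖x n‖ ≤ 1) →
    (∀ ε : ℝ, 0 < ε → ∃ N, ∀ m ≥ N, ∀ n ≥ N, √(tr (star (x m - x n) * (x m - x n))).re < ε) →
    ∃ y, ‖y‖ ≤ 1 ∧ ∀ ε : ℝ, 0 < ε → ∃ N, ∀ n ≥ N, √(tr (star (x n - y) * (x n - y))).re < ε

export TracialVN (tr tr_one tr_nonneg tr_comm tr_faithful ball_complete)

attribute [local instance] CStarAlgebra.spectralOrder CStarAlgebra.spectralOrderedRing

section

variable {M : Type u} [CStarAlgebra M] [TracialVN M]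

/-- The 2-norm. -/
noncomputable def n2 (x : M) : ℝ := √(tr (star x * x)).re

theorem tr_ssm_re (x : M) : 0 ≤ (tr (star x * x)).re := (Complex.le_def.1 (tr_nonneg x)).1

theorem tr_ssm_im (x : M) : (tr (star x * x)).im = 0 := (Complex.le_def.1 (tr_nonneg x)).2.symm

theorem n2_nonneg (x : M) : 0 ≤ n2 x := Real.sqrt_nonneg _

theorem n2_sq (x : M) : n2 x ^ 2 = (tr (star x * x)).re := Real.sq_sqrt (tr_ssm_re x)

theorem tr_ssm (x : M) : tr (star x * x) = ((n2 x ^ 2 : ℝ) : ℂ) := by
  apply Complex.ext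
  · rw [n2_sq, Complex.ofReal_re]
  · rw [tr_ssm_im, Complex.ofReal_im]

theorem tr_star (x : M) : tr (star x) = star (tr x) := by
  -- use `(1 + x)`, `(1 + i x)`
  have h1 := tr_ssm_im (1 + x)
  have h2 := tr_ssm_im (1 + Complex.I • x)
  have h3 := tr_ssm_im x
  simp only [star_add, star_one, add_mul, one_mul, mul_add, mul_one, map_add, tr_one, star_smul,
    smul_mul_assoc, mul_smul_comm, map_smul, Complex.add_im, Complex.one_im, h3, smul_eq_mul] at h1 h2
  apply Complex.ext
  · simp at h1 h2 ⊢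
    rw [h3] at h2
    linarith
  · simp at h1 h2 ⊢
    linarith

theorem tr_nonneg' {x : M} (hx : 0 ≤ x) : 0 ≤ tr x := by
  obtain ⟨y, rfl⟩ := CStarAlgebra.nonneg_iff_eq_star_mul_self.1 hx
  exact tr_nonneg y

theorem tr_mono {x y : M} (h : x ≤ y) : tr x ≤ tr y := by
  have := tr_nonneg' (sub_nonneg.2 h)
  rw [map_sub] at this
  exact sub_nonneg.1 this

theorem tr_re_mono {x y : M} (h : x ≤ y) : (tr x).re ≤ (tr y).re :=
  (Complex.le_def.1 (tr_mono h)).1

/-- A type synonym for `M` with the 2-norm. -/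
def L2 (M : Type u) : Type u := M

end

namespace L2

variable (M : Type u) [CStarAlgebra M] [TracialVN M]

instance : AddCommGroup (L2 M) := inferInstanceAs (AddCommGroup M)
instance : Module ℂ (L2 M) := inferInstanceAs (Module ℂ M)

/-- The inner product. -/
noncomputable abbrev core : InnerProductSpace.Core ℂ (L2 M) where
  inner a b := tr (star (show M from a) * (show M from b))
  conj_inner_symm a b := by
    show star (tr (star (show M from b) * (show M from a))) =
      tr (star (show M from a) * (show M from b))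
    rw [← tr_star, star_mul, star_star]
  re_inner_nonneg a := tr_ssm_re (show M from a)
  add_left a b c := by
    show tr (star ((show M from a) + (show M from b)) * (show M from c)) = _
    rw [star_add, add_mul, map_add]
  smul_left a b r := by
    show tr (star (r • (show M from a)) * (show M from b)) = _
    rw [star_smul, smul_mul_assoc, map_smul]
    rfl
  definite a h := tr_faithful (show M from a) h

noncomputable instance : NormedAddCommGroup (L2 M) := (core M).toNormedAddCommGroup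
noncomputable instance : InnerProductSpace ℂ (L2 M) := InnerProductSpace.ofCore (core M).toCore

end L2

section

variable {M : Type u} [CStarAlgebra M] [TracialVN M]

/-- The identity map. -/
noncomputable def toL2 : M ≃ₗ[ℂ] L2 M := LinearEquiv.refl ℂ M

theorem inner_toL2 (x y : M) : inner ℂ (toL2 x) (toL2 y) = tr (star x * y) := rfl

theorem norm_toL2 (x : M) : ‖toL2 x‖ = n2 x := rfl

theorem toL2_symm_toL2 (x : M) : (toL2 : M ≃ₗ[ℂ] L2 M).symm (toL2 x) = x := rfl

theorem n2_zero : n2 (0 : M) = 0 := by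
  rw [← norm_toL2, map_zero, norm_zero]

theorem n2_add_le (x y : M) : n2 (x + y) ≤ n2 x + n2 y := by
  rw [← norm_toL2, map_add]
  exact norm_add_le _ _

theorem n2_sub_le (x y : M) : n2 (x - y) ≤ n2 x + n2 y := by
  rw [← norm_toL2, map_sub]
  exact norm_sub_le _ _

theorem n2_neg (x : M) : n2 (-x) = n2 x := by
  rw [← norm_toL2, map_neg, norm_neg, norm_toL2]

theorem n2_sub_comm (x y : M) : n2 (x - y) = n2 (y - x) := by
  rw [← n2_neg, neg_sub]

theorem n2_smul (c : ℂ) (x : M) : n2 (c • x) = ‖c‖ * n2 x := by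
  rw [← norm_toL2, map_smul, norm_smul, norm_toL2]

theorem n2_rsmul (c : ℝ) (x : M) : n2 (c • x) = |c| * n2 x := by
  have : c • x = (c : ℂ) • x := by simp
  rw [this, n2_smul, Complex.norm_real, Real.norm_eq_abs]

theorem n2_eq_zero {x : M} : n2 x = 0 ↔ x = 0 := by
  rw [← norm_toL2, norm_eq_zero]
  exact toL2.map_eq_zero_iff

theorem n2_pos {x : M} (h : x ≠ 0) : 0 < n2 x :=
  lt_of_le_of_ne (n2_nonneg x) fun h' => h (n2_eq_zero.1 h'.symm)

theorem n2_star (x : M) : n2 (star x) = n2 x := by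
  unfold n2
  rw [star_star, tr_comm]

theorem n2_one : n2 (1 : M) = 1 := by
  unfold n2
  simp [tr_one]

theorem cs (x y : M) : ‖tr (star x * y)‖ ≤ n2 x * n2 y := by
  rw [← inner_toL2, ← norm_toL2, ← norm_toL2]
  exact norm_inner_le_norm _ _

theorem cs' (x y : M) : ‖tr (x * y)‖ ≤ n2 x * n2 y := by
  have := cs (star x) y
  rwa [star_star, n2_star] at this

theorem norm_tr_le_n2 (x : M) : ‖tr x‖ ≤ n2 x := by
  have := cs' (1 : M) x
  rwa [one_mul, n2_one, one_mul] at this

theorem n2_mul_le_left (x y : M) : n2 (x * y) ≤ ‖x‖ * n2 y := by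
  have h1 : star y * (star x * x) * y ≤ star y * (‖x‖ ^ 2 • 1) * y := by
    have h2 : star x * x ≤ ‖x‖ ^ 2 • (1 : M) := by
      have := (IsSelfAdjoint.star_mul_self x).le_algebraMap_norm_self
      rwa [CStarRing.norm_star_mul_self, ← sq, Algebra.algebraMap_eq_smul_one] at this
    exact star_left_conjugate_le_conjugate h2 y
  have h3 := tr_re_mono h1
  have h4 : star y * (star x * x) * y = star (x * y) * (x * y) := by
    simp [mul_assoc]
  rw [h4, ← n2_sq, mul_smul_comm, mul_one, smul_mul_assoc] at h3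
  have h5 : (tr (‖x‖ ^ 2 • (star y * y))).re = (‖x‖ * n2 y) ^ 2 := by
    have : (‖x‖ ^ 2 • (star y * y) : M) = ((‖x‖ ^ 2 : ℝ) : ℂ) • (star y * y) := by
      rw [Complex.coe_smul]
    rw [this, map_smul, smul_eq_mul, Complex.re_ofReal_mul, ← n2_sq]
    ring
  rw [h5] at h3
  exact (sq_le_sq₀ (n2_nonneg _) (mul_nonneg (norm_nonneg _) (n2_nonneg _))).1 h3

theorem n2_mul_le_right (x y : M) : n2 (x * y) ≤ n2 x * ‖y‖ := by
  have := n2_mul_le_left (star y) (star x)
  rw [← star_mul, n2_star, n2_star, norm_star] at this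
  linarith

theorem n2_le_norm (x : M) : n2 x ≤ ‖x‖ := by
  have := n2_mul_le_left x 1
  rwa [mul_one, n2_one, mul_one] at this

end

end H80VN
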