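import Pool.Agent.H80.VNOrtho

set_option autoImplicit false
set_option linter.unusedSectionVars false

/-!
# A Cheeger type inequality for chains of projections
-/

universe u v

namespace H80VN

open scoped ComplexOrder Topology
open Filter Finset

attribute [local instance] CStarAlgebra.spectralOrder CStarAlgebra.spectralOrderedRing

variable {M : Type u} [CStarAlgebra M] [TracialVN M]

theorem rt_proj_mul_nonneg {p q : M} (hp : Proj p) (hq : Proj q) : 0 ≤ rt (p * q) := by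
  have h1 : rt (p * q) = n2 (p * q) ^ 2 := by
    rw [← rt_ssm, star_mul, hp.star_eq, hq.star_eq]
    calc rt (p * q) = rt (p * (q * q)) := by rw [hq.mul_self]
      _ = rt (q * (p * q)) := by rw [rt_comm, mul_assoc, rt_comm, ← mul_assoc]
      _ = rt (q * (p * p * q)) := by rw [hp.mul_self]
      _ = _ := by simp only [mul_assoc]
  rw [h1]
  positivity

theorem n2_sq_sub_sa {x y : M} (hx : star x = x) (hy : star y = y) :
    n2 (x - y) ^ 2 = rt (x * x) - 2 * rt (x * y) + rt (y * y) := by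
  rw [← rt_ssm, star_sub, hx, hy, sub_mul, mul_sub, mul_sub, rt_sub, rt_sub, rt_sub, rt_comm y x]
  ring

theorem sum_weights {ι : Type*} (s : Finset ι) (q r : ι → M) (hq : ∀ i ∈ s, Proj (q i))
    (hr : ∀ i ∈ s, Proj (r i)) (hqq : ∀ i ∈ s, ∀ j ∈ s, i ≠ j → q i * q j = 0)
    (hrr : ∀ i ∈ s, ∀ j ∈ s, i ≠ j → r i * r j = 0) (hq1 : ∑ i ∈ s, q i = 1)
    (hr1 : ∑ i ∈ s, r i = 1) (α β : ι → ℝ) :
    n2 (∑ i ∈ s, α i • q i - ∑ j ∈ s, β j • r j) ^ 2 =
      ∑ i ∈ s, ∑ j ∈ s, rt (q i * r j) * (α i - β j) ^ 2 := by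
  have hsa : ∀ (p : ι → M), (∀ i ∈ s, Proj (p i)) → ∀ γ : ι → ℝ,
      star (∑ i ∈ s, γ i • p i) = ∑ i ∈ s, γ i • p i := by
    intro p hp γ
    rw [star_sum]
    exact Finset.sum_congr rfl fun i hi => by rw [star_smul, (hp i hi).star_eq]; simp
  have hsq : ∀ (p : ι → M), (∀ i ∈ s, Proj (p i)) →
      (∀ i ∈ s, ∀ j ∈ s, i ≠ j → p i * p j = 0) → ∀ γ : ι → ℝ,
      rt ((∑ i ∈ s, γ i • p i) * (∑ i ∈ s, γ i • p i)) = ∑ i ∈ s, γ i ^ 2 * rt (p i) := by
    intro p hp hpp γ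
    rw [Finset.sum_mul_sum, rt_sum]
    refine Finset.sum_congr rfl fun i hi => ?_
    rw [rt_sum, Finset.sum_eq_single_of_mem i hi]
    · rw [smul_mul_smul_comm, (hp i hi).mul_self, rt_smul, sq]
    · intro j hj hji
      rw [smul_mul_smul_comm, hpp i hi j hj (Ne.symm hji), smul_zero, rt_zero]
  rw [n2_sq_sub_sa (hsa q hq α) (hsa r hr β), hsq q hq hqq α, hsq r hr hrr β]
  have h1 : ∀ i ∈ s, rt (q i) = ∑ j ∈ s, rt (q i * r j) := by
    intro i _
    rw [← rt_sum, ← Finset.mul_sum, hr1, mul_one]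
  have h2 : ∀ j ∈ s, rt (r j) = ∑ i ∈ s, rt (q i * r j) := by
    intro j _
    rw [← rt_sum, ← Finset.sum_mul, hq1, one_mul]
  have h3 : rt ((∑ i ∈ s, α i • q i) * (∑ j ∈ s, β j • r j)) =
      ∑ i ∈ s, ∑ j ∈ s, α i * β j * rt (q i * r j) := by
    rw [Finset.sum_mul_sum, rt_sum]
    refine Finset.sum_congr rfl fun i _ => ?_
    rw [rt_sum]
    refine Finset.sum_congr rfl fun j _ => ?_
    rw [smul_mul_smul_comm, rt_smul]
  have h4 : ∑ i ∈ s, α i ^ 2 * rt (q i) = ∑ i ∈ s, ∑ j ∈ s, α i ^ 2 * rt (q i * r j) := by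
    refine Finset.sum_congr rfl fun i hi => ?_
    rw [h1 i hi, Finset.mul_sum]
  have h5 : ∑ j ∈ s, β j ^ 2 * rt (r j) = ∑ i ∈ s, ∑ j ∈ s, β j ^ 2 * rt (q i * r j) := by
    rw [Finset.sum_comm]
    refine Finset.sum_congr rfl fun i hi => ?_
    rw [h2 i hi, Finset.mul_sum]
  rw [h3, h4, h5, Finset.mul_sum, ← Finset.sum_sub_distrib, ← Finset.sum_add_distrib]
  refine Finset.sum_congr rfl fun i _ => ?_
  rw [Finset.mul_sum, ← Finset.sum_sub_distrib, ← Finset.sum_add_distrib]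
  refine Finset.sum_congr rfl fun j _ => ?_
  ring

/-- A chain of projections `1 = e 0 ≥ e 1 ≥ ... ≥ e (n + 1) = 0`. -/
structure Chain (n : ℕ) (e : ℕ → M) : Prop where
  proj : ∀ i, Proj (e i)
  anti : ∀ i j, i ≤ j → e i * e j = e j
  zero : e 0 = 1
  last : e (n + 1) = 0

/-- The steps of a chain. -/
def stp (e : ℕ → M) (i : ℕ) : M := e i - e (i + 1)

variable {n : ℕ} {e : ℕ → M}

theorem Chain.anti' (he : Chain n e) {i j : ℕ} (h : i ≤ j) : e j * e i = e j := by
  have := congrArg star (he.anti i j h)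
  rwa [star_mul, (he.proj i).star_eq, (he.proj j).star_eq] at this

theorem Chain.stp_proj (he : Chain n e) (i : ℕ) : Proj (stp e i) :=
  (he.proj (i + 1)).sub (he.proj i) (he.anti' (Nat.le_succ i))

theorem Chain.stp_orth (he : Chain n e) {i j : ℕ} (h : i ≠ j) : stp e i * stp e j = 0 := by
  unfold stp
  rcases lt_or_gt_of_ne h with h | h
  · rw [sub_mul, mul_sub, mul_sub, he.anti i j h.le, he.anti i (j + 1) (by omega),
      he.anti (i + 1) j (by omega), he.anti (i + 1) (j + 1) (by omega)]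
    simp
  · rw [sub_mul, mul_sub, mul_sub, he.anti' (show j ≤ i by omega),
      he.anti' (show j + 1 ≤ i by omega),
      he.anti' (show j ≤ i + 1 by omega), he.anti' (show j + 1 ≤ i + 1 by omega)]
    simp

theorem sum_stp (e : ℕ → M) (m n : ℕ) (h : m ≤ n) : ∑ i ∈ Ico m n, stp e i = e m - e n := by
  unfold stp
  induction n, h using Nat.le_induction with
  | base => simp
  | succ k hk ih => rw [Finset.sum_Ico_succ_top hk, ih]; abel

theorem Chain.sum_one (he : Chain n e) : ∑ i ∈ range (n + 1), stp e i = 1 := by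
  rw [Finset.range_eq_Ico, sum_stp e 0 (n + 1) (by omega), he.zero, he.last, sub_zero]

/-- Summation by parts. -/
theorem Chain.abel (he : Chain n e) (s : ℕ → ℝ) :
    ∑ m ∈ Icc 1 n, s m • e m = ∑ i ∈ range (n + 1), (∑ m ∈ Icc 1 i, s m) • stp e i := by
  have h1 : ∀ m ∈ Icc 1 n, s m • e m = ∑ i ∈ range (n + 1), if m ≤ i then s m • stp e i else 0 := by
    intro m hm
    rw [Finset.mem_Icc] at hm
    rw [← Finset.sum_filter, ← Finset.smul_sum]
    have h2 : (range (n + 1)).filter (fun i => m ≤ i) = Ico m (n + 1) := by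
      ext i
      simp only [Finset.mem_filter, Finset.mem_range, Finset.mem_Ico]
      tauto
    rw [h2, sum_stp e m (n + 1) (by omega), he.last, sub_zero]
  rw [Finset.sum_congr rfl h1, Finset.sum_comm]
  refine Finset.sum_congr rfl fun i hi => ?_
  rw [Finset.mem_range] at hi
  rw [← Finset.sum_filter, Finset.sum_smul]
  refine Finset.sum_congr ?_ fun _ _ => rfl
  ext m
  simp only [Finset.mem_filter, Finset.mem_Icc]
  omega

theorem n2_comm_unitary {f : M} (hf : f ∈ unitary M) (x : M) :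
    n2 (x * f - f * x) = n2 (x - f * x * star f) := by
  have h1 : x * f - f * x = (x - f * x * star f) * f := by
    rw [sub_mul, mul_assoc (f * x), Unitary.star_mul_self_of_mem hf, mul_one]
  rw [h1, n2_mul_unitary hf]

theorem Chain.comm_formula (he : Chain n e) {f : M} (hf : f ∈ unitary M) (s : ℕ → ℝ) :
    n2 ((∑ m ∈ Icc 1 n, s m • e m) * f - f * ∑ m ∈ Icc 1 n, s m • e m) ^ 2 =
      ∑ i ∈ range (n + 1), ∑ j ∈ range (n + 1), rt (stp e i * (f * stp e j * star f)) *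
        (∑ m ∈ Icc 1 i, s m - ∑ m ∈ Icc 1 j, s m) ^ 2 := by
  have hff : star f * f = 1 := Unitary.star_mul_self_of_mem hf
  have hff' : f * star f = 1 := Unitary.mul_star_self_of_mem hf
  rw [n2_comm_unitary hf, he.abel s]
  have h1 : f * (∑ i ∈ range (n + 1), (∑ m ∈ Icc 1 i, s m) • stp e i) * star f =
      ∑ j ∈ range (n + 1), (∑ m ∈ Icc 1 j, s m) • (f * stp e j * star f) := by
    rw [Finset.mul_sum, Finset.sum_mul]
    exact Finset.sum_congr rfl fun j _ => by rw [mul_smul_comm, smul_mul_assoc]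
  rw [h1]
  refine sum_weights _ _ _ (fun i _ => he.stp_proj i) (fun i _ => (he.stp_proj i).conj hff)
    (fun i _ j _ h => he.stp_orth h) (fun i _ j _ h => ?_) he.sum_one ?_ _ _
  · calc f * stp e i * star f * (f * stp e j * star f) =
        f * (stp e i * (star f * f) * stp e j) * star f := by simp only [mul_assoc]
      _ = 0 := by rw [hff, mul_one, he.stp_orth h]; simp
  · rw [← Finset.sum_mul, ← Finset.mul_sum, he.sum_one, mul_one, hff']

theorem Chain.weight_nonneg (he : Chain n e) {f : M} (hf : f ∈ unitary M) (i j : ℕ) :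
    0 ≤ rt (stp e i * (f * stp e j * star f)) :=
  rt_proj_mul_nonneg (he.stp_proj i) ((he.stp_proj j).conj (Unitary.star_mul_self_of_mem hf))

/-- Comparison of commutators of functions on a chain. -/
theorem Chain.comm_le (he : Chain n e) {f : M} (hf : f ∈ unitary M) (s t : ℕ → ℝ)
    (hst : ∀ i j, |∑ m ∈ Icc 1 i, s m - ∑ m ∈ Icc 1 j, s m| ≤
      |∑ m ∈ Icc 1 i, t m - ∑ m ∈ Icc 1 j, t m|) :
    n2 ((∑ m ∈ Icc 1 n, s m • e m) * f - f * ∑ m ∈ Icc 1 n, s m • e m) ^ 2 ≤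
      n2 ((∑ m ∈ Icc 1 n, t m • e m) * f - f * ∑ m ∈ Icc 1 n, t m • e m) ^ 2 := by
  rw [he.comm_formula hf, he.comm_formula hf]
  refine Finset.sum_le_sum fun i _ => Finset.sum_le_sum fun j _ => ?_
  exact mul_le_mul_of_nonneg_left (sq_le_sq.2 (hst i j)) (he.weight_nonneg hf i j)

theorem sum_ind (m i : ℕ) (hm : 1 ≤ m) :
    ∑ k ∈ Icc 1 i, (if k = m then (1 : ℝ) else 0) = if m ≤ i then 1 else 0 := by
  rw [Finset.sum_ite_eq' (Icc 1 i) m]
  simp only [Finset.mem_Icc, hm, true_and]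

theorem sum_odd (i : ℕ) : ∑ m ∈ Icc 1 i, (2 * (m : ℝ) - 1) = (i : ℝ) ^ 2 := by
  induction i with
  | zero => simp
  | succ k ih => rw [Finset.sum_Icc_succ_top (by omega), ih]; push_cast; ring

theorem sum_odd_le (n i : ℕ) (hi : i ≤ n) :
    ∑ m ∈ Icc 1 n, (2 * (m : ℝ) - 1) * (if m ≤ i then 1 else 0) = (i : ℝ) ^ 2 := by
  rw [← sum_odd i]
  simp only [mul_ite, mul_one, mul_zero]
  rw [← Finset.sum_filter]
  refine Finset.sum_congr ?_ fun _ _ => rfl
  ext m
  simp only [Finset.mem_filter, Finset.mem_Icc]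
  omega

theorem Chain.n2_sum_sq (he : Chain n e) :
    n2 (∑ m ∈ Icc 1 n, e m) ^ 2 = ∑ m ∈ Icc 1 n, (2 * (m : ℝ) - 1) * rt (e m) := by
  have hsa : star (∑ m ∈ Icc 1 n, e m) = ∑ m ∈ Icc 1 n, e m := by
    rw [star_sum]
    exact Finset.sum_congr rfl fun m _ => (he.proj m).star_eq
  rw [← rt_ssm, hsa]
  have key : ∀ k, rt ((∑ m ∈ Icc 1 k, e m) * ∑ m ∈ Icc 1 k, e m) =
      ∑ m ∈ Icc 1 k, (2 * (m : ℝ) - 1) * rt (e m) := by
    intro k
    induction k with
    | zero => simp [rt_zero]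
    | succ k ih =>
      rw [Finset.sum_Icc_succ_top (by omega), Finset.sum_Icc_succ_top (by omega), add_mul, mul_add,
        mul_add, rt_add, rt_add, rt_add, ih]
      have h1 : (∑ m ∈ Icc 1 k, e m) * e (k + 1) = (k : ℝ) • e (k + 1) := by
        rw [Finset.sum_mul]
        have : ∀ m ∈ Icc 1 k, e m * e (k + 1) = e (k + 1) := fun m hm =>
          he.anti m (k + 1) (by rw [Finset.mem_Icc] at hm; omega)
        rw [Finset.sum_congr rfl this, Finset.sum_const, Nat.card_Icc]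
        simp [← Nat.cast_smul_eq_nsmul ℝ]
      rw [rt_comm (e (k + 1)), h1, rt_smul, (he.proj (k + 1)).mul_self]
      push_cast
      ring
  exact key n

theorem Chain.n2_sum_sq' (he : Chain n e) {f : M} (hf : f ∈ unitary M) :
    n2 (∑ m ∈ Icc 1 n, e m) ^ 2 = ∑ i ∈ range (n + 1), ∑ j ∈ range (n + 1),
      rt (stp e i * (f * stp e j * star f)) * (i : ℝ) ^ 2 ∧
    n2 (∑ m ∈ Icc 1 n, e m) ^ 2 = ∑ i ∈ range (n + 1), ∑ j ∈ range (n + 1),
      rt (stp e i * (f * stp e j * star f)) * (j : ℝ) ^ 2 := by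
  have hff : star f * f = 1 := Unitary.star_mul_self_of_mem hf
  have hff' : f * star f = 1 := Unitary.mul_star_self_of_mem hf
  have hA : ∀ i : ℕ, ∑ m ∈ Icc 1 i, (1 : ℝ) = i := fun i => by simp
  have h0 : ∑ m ∈ Icc 1 n, e m = ∑ i ∈ range (n + 1), (i : ℝ) • stp e i := by
    have := he.abel (fun _ => 1)
    simp only [one_smul, hA] at this
    exact this
  have hfs : ∑ j ∈ range (n + 1), f * stp e j * star f = 1 := by
    rw [← Finset.sum_mul, ← Finset.mul_sum, he.sum_one, mul_one, hff']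
  have horth : ∀ i j, i ≠ j → f * stp e i * star f * (f * stp e j * star f) = 0 := by
    intro i j h
    calc f * stp e i * star f * (f * stp e j * star f) =
        f * (stp e i * (star f * f) * stp e j) * star f := by simp only [mul_assoc]
      _ = 0 := by rw [hff, mul_one, he.stp_orth h]; simp
  constructor
  · have := sum_weights (range (n + 1)) (stp e) (fun j => f * stp e j * star f)
      (fun i _ => he.stp_proj i) (fun i _ => (he.stp_proj i).conj hff)
      (fun i _ j _ h => he.stp_orth h) (fun i _ j _ h => horth i j h) he.sum_one hfs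
      (fun i => (i : ℝ)) (fun _ => 0)
    simp only [zero_smul, Finset.sum_const_zero, sub_zero] at this
    rw [h0]
    exact this
  · have := sum_weights (range (n + 1)) (stp e) (fun j => f * stp e j * star f)
      (fun i _ => he.stp_proj i) (fun i _ => (he.stp_proj i).conj hff)
      (fun i _ j _ h => he.stp_orth h) (fun i _ j _ h => horth i j h) he.sum_one hfs
      (fun _ => 0) (fun i => (i : ℝ))
    simp only [zero_smul, Finset.sum_const_zero, zero_sub, n2_neg, neg_sq] at this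
    rw [← this]
    have h1 : ∑ j ∈ range (n + 1), (j : ℝ) • (f * stp e j * star f) =
        f * (∑ j ∈ range (n + 1), (j : ℝ) • stp e j) * star f := by
      rw [Finset.mul_sum, Finset.sum_mul]
      exact Finset.sum_congr rfl fun j _ => by rw [mul_smul_comm, smul_mul_assoc]
    rw [h1, n2_conj hf, h0]

/-- The weighted sweep inequality. -/
theorem Chain.sweep (he : Chain n e) {f : M} (hf : f ∈ unitary M) {θ : ℝ} (hθ : 0 < θ) :
    ∑ m ∈ Icc 1 n, (2 * (m : ℝ) - 1) * n2 (e m * f - f * e m) ^ 2 ≤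
      1 / (2 * θ) * n2 ((∑ m ∈ Icc 1 n, e m) * f - f * ∑ m ∈ Icc 1 n, e m) ^ 2 +
        2 * θ * n2 (∑ m ∈ Icc 1 n, e m) ^ 2 := by
  have hcomm : ∀ m ∈ Icc 1 n, n2 (e m * f - f * e m) ^ 2 =
      ∑ i ∈ range (n + 1), ∑ j ∈ range (n + 1), rt (stp e i * (f * stp e j * star f)) *
        ((if m ≤ i then (1 : ℝ) else 0) - (if m ≤ j then 1 else 0)) ^ 2 := by
    intro m hm
    have h1 := he.comm_formula hf (fun k => if k = m then 1 else 0)
    have h2 : ∑ k ∈ Icc 1 n, (if k = m then (1 : ℝ) else 0) • e k = e m := by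
      simp only [ite_smul, one_smul, zero_smul]
      rw [Finset.sum_ite_eq' (Icc 1 n) m, if_pos hm]
    simp only [h2, sum_ind m _ (Finset.mem_Icc.1 hm).1] at h1
    exact h1
  have hx := he.comm_formula hf (fun _ => 1)
  have hA : ∀ i : ℕ, ∑ m ∈ Icc 1 i, (1 : ℝ) = i := fun i => by simp
  simp only [one_smul, hA] at hx
  obtain ⟨hn1, hn2⟩ := he.n2_sum_sq' hf
  have hlhs : ∑ m ∈ Icc 1 n, (2 * (m : ℝ) - 1) * n2 (e m * f - f * e m) ^ 2 =
      ∑ i ∈ range (n + 1), ∑ j ∈ range (n + 1), rt (stp e i * (f * stp e j * star f)) *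
        ∑ m ∈ Icc 1 n, (2 * (m : ℝ) - 1) *
          ((if m ≤ i then (1 : ℝ) else 0) - (if m ≤ j then 1 else 0)) ^ 2 := by
    rw [Finset.sum_congr rfl (fun m hm => by rw [hcomm m hm])]
    simp only [Finset.mul_sum]
    rw [Finset.sum_comm]
    refine Finset.sum_congr rfl fun i _ => ?_
    rw [Finset.sum_comm]
    refine Finset.sum_congr rfl fun j _ => Finset.sum_congr rfl fun m _ => ?_
    ring
  have habs : ∀ i j : ℕ, i ≤ n → j ≤ n → ∑ m ∈ Icc 1 n, (2 * (m : ℝ) - 1) *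
      ((if m ≤ i then (1 : ℝ) else 0) - (if m ≤ j then 1 else 0)) ^ 2 ≤
      1 / (2 * θ) * ((i : ℝ) - j) ^ 2 + θ * ((i : ℝ) ^ 2 + (j : ℝ) ^ 2) := by
    have aux : ∀ i j : ℕ, i ≤ n → j ≤ i → ∑ m ∈ Icc 1 n, (2 * (m : ℝ) - 1) *
      ((if m ≤ i then (1 : ℝ) else 0) - (if m ≤ j then 1 else 0)) ^ 2 ≤
      1 / (2 * θ) * ((i : ℝ) - j) ^ 2 + θ * ((i : ℝ) ^ 2 + (j : ℝ) ^ 2) := by
      intro i j hi hji
      have h1 : ∑ m ∈ Icc 1 n, (2 * (m : ℝ) - 1) *
          ((if m ≤ i then (1 : ℝ) else 0) - (if m ≤ j then 1 else 0)) ^ 2 =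
          (i : ℝ) ^ 2 - (j : ℝ) ^ 2 := by
        rw [← sum_odd_le n i hi, ← sum_odd_le n j (by omega), ← Finset.sum_sub_distrib]
        refine Finset.sum_congr rfl fun m _ => ?_
        by_cases h1 : m ≤ j
        · rw [if_pos h1, if_pos (by omega)]; ring
        · by_cases h2 : m ≤ i
          · rw [if_neg h1, if_pos h2]; ring
          · rw [if_neg h1, if_neg h2]; ring
      rw [h1]
      set a : ℝ := (i : ℝ) - j with ha
      set b : ℝ := (i : ℝ) + j with hb
      have h2 : (i : ℝ) ^ 2 - (j : ℝ) ^ 2 = a * b := by rw [ha, hb]; ring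
      have h3 : b ^ 2 ≤ 2 * ((i : ℝ) ^ 2 + (j : ℝ) ^ 2) := by
        rw [hb]; nlinarith [sq_nonneg ((i : ℝ) - j)]
      have h4 : a * b ≤ 1 / (2 * θ) * a ^ 2 + θ / 2 * b ^ 2 := by
        have h5 : 0 ≤ 1 / (2 * θ) * (a - θ * b) ^ 2 := by positivity
        have h6 : 1 / (2 * θ) * (a - θ * b) ^ 2 =
            1 / (2 * θ) * a ^ 2 + θ / 2 * b ^ 2 - a * b := by
          field_simp
          ring
        linarith
      rw [h2]
      nlinarith
    intro i j hi hj
    rcases le_total j i with h | h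
    · exact aux i j hi h
    · have := aux j i hj h
      have e1 : ∑ m ∈ Icc 1 n, (2 * (m : ℝ) - 1) *
          ((if m ≤ i then (1 : ℝ) else 0) - (if m ≤ j then 1 else 0)) ^ 2 =
          ∑ m ∈ Icc 1 n, (2 * (m : ℝ) - 1) *
          ((if m ≤ j then (1 : ℝ) else 0) - (if m ≤ i then 1 else 0)) ^ 2 :=
        Finset.sum_congr rfl fun m _ => by ring
      rw [e1]
      have e2 : ((i : ℝ) - j) ^ 2 = ((j : ℝ) - i) ^ 2 := by ring
      rw [e2]
      linarith
  rw [hlhs]
  calc _ ≤ ∑ i ∈ range (n + 1), ∑ j ∈ range (n + 1), rt (stp e i * (f * stp e j * star f)) *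
        (1 / (2 * θ) * ((i : ℝ) - j) ^ 2 + θ * ((i : ℝ) ^ 2 + (j : ℝ) ^ 2)) := by
        refine Finset.sum_le_sum fun i hi => Finset.sum_le_sum fun j hj => ?_
        rw [Finset.mem_range] at hi hj
        exact mul_le_mul_of_nonneg_left (habs i j (by omega) (by omega)) (he.weight_nonneg hf i j)
    _ = 1 / (2 * θ) * (∑ i ∈ range (n + 1), ∑ j ∈ range (n + 1),
          rt (stp e i * (f * stp e j * star f)) * ((i : ℝ) - j) ^ 2) +
        θ * ((∑ i ∈ range (n + 1), ∑ j ∈ range (n + 1),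
          rt (stp e i * (f * stp e j * star f)) * (i : ℝ) ^ 2) +
          ∑ i ∈ range (n + 1), ∑ j ∈ range (n + 1),
          rt (stp e i * (f * stp e j * star f)) * (j : ℝ) ^ 2) := by
        simp only [Finset.mul_sum, ← Finset.sum_add_distrib]
        refine Finset.sum_congr rfl fun i _ => Finset.sum_congr rfl fun j _ => ?_
        ring
    _ = _ := by
        rw [← hx, ← hn1, ← hn2]
        ring

/-- The size of the commutators with a finite set. -/
noncomputable def cs2 (F : Finset M) (x : M) : ℝ := ∑ f ∈ F, n2 (x * f - f * x) ^ 2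

theorem cs2_nonneg (F : Finset M) (x : M) : 0 ≤ cs2 F x :=
  Finset.sum_nonneg fun _ _ => by positivity

theorem cs2_zero (F : Finset M) : cs2 F (0 : M) = 0 := by
  unfold cs2
  simp [n2_zero]

theorem cs2_mono {F G : Finset M} (h : F ⊆ G) (x : M) : cs2 F x ≤ cs2 G x :=
  Finset.sum_le_sum_of_subset_of_nonneg h fun _ _ _ => by positivity

theorem le_cs2 {F : Finset M} {f : M} (hf : f ∈ F) (x : M) :
    n2 (x * f - f * x) ^ 2 ≤ cs2 F x :=
  Finset.single_le_sum (f := fun f => n2 (x * f - f * x) ^ 2) (fun _ _ => by positivity) hf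

theorem Chain.cheeger (he : Chain n e) (F : Finset M) (hF : ∀ f ∈ F, f ∈ unitary M) {η : ℝ}
    (hη : 0 < η) (hx0 : ∑ m ∈ Icc 1 n, e m ≠ 0)
    (hx : cs2 F (∑ m ∈ Icc 1 n, e m) ≤ η * n2 (∑ m ∈ Icc 1 n, e m) ^ 2) :
    ∃ m ∈ Icc 1 n, e m ≠ 0 ∧ cs2 F (e m) ≤ √η * (1 / 2 + 2 * F.card) * rt (e m) := by
  by_contra hcon
  push Not at hcon
  have hθ : 0 < √η := Real.sqrt_pos.2 hη
  set κ := √η * (1 / 2 + 2 * F.card) with hκ
  set x := ∑ m ∈ Icc 1 n, e m with hxdef
  have h1 : ∑ m ∈ Icc 1 n, (2 * (m : ℝ) - 1) * cs2 F (e m) ≤ κ * n2 x ^ 2 := by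
    unfold cs2
    simp only [Finset.mul_sum]
    rw [Finset.sum_comm]
    calc _ ≤ ∑ f ∈ F, (1 / (2 * √η) * n2 (x * f - f * x) ^ 2 + 2 * √η * n2 x ^ 2) :=
          Finset.sum_le_sum fun f hf => he.sweep (hF f hf) hθ
      _ = 1 / (2 * √η) * cs2 F x + F.card * (2 * √η * n2 x ^ 2) := by
          rw [Finset.sum_add_distrib, ← Finset.mul_sum, Finset.sum_const, nsmul_eq_mul]
          rfl
      _ ≤ 1 / (2 * √η) * (η * n2 x ^ 2) + F.card * (2 * √η * n2 x ^ 2) := by gcongr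
      _ = κ * n2 x ^ 2 := by
          have h2 : 1 / (2 * √η) * η = √η * (1 / 2) := by
            have : η = √η * √η := (Real.mul_self_sqrt hη.le).symm
            field_simp
            rw [sq]; linarith
          rw [← mul_assoc, h2, hκ]; ring
  rw [he.n2_sum_sq, Finset.mul_sum] at h1
  obtain ⟨m₀, hm₀, hm₀'⟩ : ∃ m ∈ Icc 1 n, e m ≠ 0 := by
    by_contra h
    push Not at h
    exact hx0 (Finset.sum_eq_zero h)
  have h2 : ∑ m ∈ Icc 1 n, κ * ((2 * (m : ℝ) - 1) * rt (e m)) <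
      ∑ m ∈ Icc 1 n, (2 * (m : ℝ) - 1) * cs2 F (e m) := by
    have hpos : ∀ m ∈ Icc 1 n, 0 < 2 * (m : ℝ) - 1 := by
      intro m hm
      have : (1 : ℝ) ≤ m := by exact_mod_cast (Finset.mem_Icc.1 hm).1
      linarith
    refine Finset.sum_lt_sum (fun m hm => ?_) ⟨m₀, hm₀, ?_⟩
    · by_cases h0 : e m = 0
      · rw [h0, rt_zero, cs2_zero]; simp
      · have := hcon m hm h0
        have := hpos m hm
        nlinarith
    · have := hcon m₀ hm₀ hm₀'
      have := hpos m₀ hm₀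
      nlinarith
  linarith

end H80VN
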