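import Pool.Agent.H80.VNChain

set_option autoImplicit false
set_option linter.unusedSectionVars false

/-!
# From almost central vectors to almost central projections
-/

universe u v

namespace H80VN

open scoped ComplexOrder Topology
open Filter Finset

attribute [local instance] CStarAlgebra.spectralOrder CStarAlgebra.spectralOrderedRing

variable {M : Type u} [CStarAlgebra M] [TracialVN M]

/-- There is no spectral gap: some trace zero elements almost commute with a given finite set of
unitaries, relative to their size. -/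
def NoGap (M : Type u) [CStarAlgebra M] [TracialVN M] : Prop :=
  ∀ F : Finset M, (∀ f ∈ F, f ∈ unitary M) → ∀ η : ℝ, 0 < η →
    ∃ a : M, a ≠ 0 ∧ tr a = 0 ∧ cs2 F a ≤ η * n2 a ^ 2

theorem n2_add_sq_le (x y : M) : n2 (x + y) ^ 2 ≤ 2 * n2 x ^ 2 + 2 * n2 y ^ 2 := by
  have := par x y
  have := sq_nonneg (n2 (x - y))
  linarith

theorem comm_star (a f : M) : n2 (star a * f - f * star a) = n2 (a * star f - star f * a) := by
  rw [← n2_star, star_sub, star_mul, star_mul, star_star, n2_sub_comm]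

theorem cs2_star_le [DecidableEq M] (F : Finset M) (a : M) :
    cs2 F (star a) = cs2 (F.image star) a := by
  unfold cs2
  rw [Finset.sum_image (fun x _ y _ h => star_injective h)]
  exact Finset.sum_congr rfl fun f _ => by rw [comm_star]

theorem cs2_add_le (F : Finset M) (x y : M) : cs2 F (x + y) ≤ 2 * cs2 F x + 2 * cs2 F y := by
  unfold cs2
  rw [Finset.mul_sum, Finset.mul_sum, ← Finset.sum_add_distrib]
  refine Finset.sum_le_sum fun f _ => ?_
  have : (x + y) * f - f * (x + y) = (x * f - f * x) + (y * f - f * y) := by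
    rw [add_mul, mul_add]; abel
  rw [this]
  exact n2_add_sq_le _ _

theorem cs2_csmul (F : Finset M) (c : ℂ) (x : M) : cs2 F (c • x) = ‖c‖ ^ 2 * cs2 F x := by
  unfold cs2
  rw [Finset.mul_sum]
  refine Finset.sum_congr rfl fun f _ => ?_
  rw [smul_mul_assoc, mul_smul_comm, ← smul_sub, n2_smul, mul_pow]

theorem cs2_rsmul (F : Finset M) (c : ℝ) (x : M) : cs2 F (c • x) = c ^ 2 * cs2 F x := by
  have : c • x = (c : ℂ) • x := by simp
  rw [this, cs2_csmul, Complex.norm_real, Real.norm_eq_abs, sq_abs]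

/-- Without a spectral gap there are selfadjoint almost central elements. -/
theorem NoGap.sa (hg : NoGap M) (F : Finset M) (hF : ∀ f ∈ F, f ∈ unitary M) {η : ℝ} (hη : 0 < η) :
    ∃ h : M, star h = h ∧ h ≠ 0 ∧ tr h = 0 ∧ cs2 F h ≤ η * n2 h ^ 2 := by
  classical
  obtain ⟨a, ha0, hatr, ha⟩ := hg (F ∪ F.image star) (by
    intro f hf
    rw [Finset.mem_union, Finset.mem_image] at hf
    rcases hf with hf | ⟨f, hf, rfl⟩
    · exact hF f hf
    · exact Unitary.star_mem (hF f hf)) (η / 2) (by positivity)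
  have hn := n2_pos ha0
  have h1 : cs2 F a ≤ η / 2 * n2 a ^ 2 := (cs2_mono Finset.subset_union_left a).trans ha
  have h2 : cs2 F (star a) ≤ η / 2 * n2 a ^ 2 := by
    rw [cs2_star_le]
    exact (cs2_mono Finset.subset_union_right a).trans ha
  have hp := par a (star a)
  rw [n2_star] at hp
  rcases le_total (2 * n2 a ^ 2) (n2 (a + star a) ^ 2) with hle | hle
  · refine ⟨a + star a, by rw [star_add, star_star, add_comm], ?_, ?_, ?_⟩
    · intro h0
      rw [h0, n2_zero] at hle
      have : 0 < 2 * n2 a ^ 2 := by positivity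
      linarith only [hle, this]
    · rw [map_add, tr_star, hatr]; simp
    · have := cs2_add_le F a (star a)
      nlinarith
  · have hle' : 2 * n2 a ^ 2 ≤ n2 (a - star a) ^ 2 := by linarith only [hp, hle]
    refine ⟨Complex.I • (a - star a), ?_, ?_, ?_, ?_⟩
    · rw [star_smul, star_sub, star_star]
      simp only [Complex.star_def, Complex.conj_I, neg_smul]
      rw [← smul_neg, neg_sub]
    · intro h0
      have : n2 (Complex.I • (a - star a)) = 0 := by rw [h0, n2_zero]
      rw [n2_smul] at this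
      simp only [Complex.norm_I, one_mul] at this
      rw [this] at hle'
      have : 0 < 2 * n2 a ^ 2 := by positivity
      linarith only [hle', this]
    · rw [map_smul, map_sub, tr_star, hatr]; simp
    · rw [cs2_csmul, n2_smul]
      simp only [Complex.norm_I, one_mul, one_pow]
      have := cs2_add_le F a (-star a)
      have e : cs2 F (-star a) = cs2 F (star a) := by
        have := cs2_csmul F (-1) (star a)
        simpa using this
      rw [← sub_eq_add_neg, e] at this
      nlinarith only [hη, h1, h2, hp, hle, this]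

theorem spec_anti {h : M} {a b : ℝ} (hab : a ≤ b) {E F : M} (hE : IsSpec h a E)
    (hF : IsSpec h b F) : E * F = F := by
  have h1 : ∀ n, cfc (ramp b n) h * E = cfc (ramp b n) h := fun n =>
    hE.le₀ (continuous_ramp b n) fun t ht => ramp_eq_zero' (ht.trans hab)
  have h2 := hF.lim.mul_right E
  simp only [h1] at h2
  have h3 : F * E = F := h2.unique hF.lim
  exact hF.proj.comm_of_le hE.proj h3

theorem stair {φ : ℝ → ℝ} (h0 : ∀ y, 0 ≤ φ y) (h1 : ∀ y, φ y ≤ 1) (hφ1 : ∀ y, 1 ≤ y → φ y = 1)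
    (hφ0 : ∀ y, y ≤ 0 → φ y = 0) (n : ℕ) (x : ℝ) (hx0 : 0 ≤ x) (hx : x ≤ n + 1) :
    |x - ∑ i ∈ Icc 1 n, φ (x - i)| ≤ 2 := by
  induction n with
  | zero =>
    simp only [Nat.cast_zero, zero_add] at hx
    simp only [Finset.Icc_eq_empty_of_lt (show 0 < 1 by norm_num), Finset.sum_empty, sub_zero]
    rw [abs_le]; constructor <;> linarith
  | succ k ih =>
    rw [Finset.sum_Icc_succ_top (by omega)]
    rcases le_total x (k + 1) with hk | hk
    · rw [hφ0 (x - (k + 1 : ℕ)) (by push_cast; linarith), add_zero]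
      exact ih hk
    · have h2 : ∀ i ∈ Icc 1 k, φ (x - i) = 1 := by
        intro i hi
        apply hφ1
        have : (i : ℝ) ≤ k := by exact_mod_cast (Finset.mem_Icc.1 hi).2
        linarith only [hk, this]
      rw [Finset.sum_congr rfl h2]
      simp only [Finset.sum_const, Nat.card_Icc, Nat.add_sub_cancel, nsmul_eq_mul, mul_one]
      push_cast at hx ⊢
      have h3 := h0 (x - (k + 1))
      have h4 := h1 (x - (k + 1))
      rw [abs_le]; constructor <;> linarith only [hk, h4, hx, h3]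

theorem fc_norm_le' {f : ℝ → ℝ} {c : ℝ} (hc : 0 ≤ c) (h : M) (hf : ∀ t, |t| ≤ ‖h‖ → |f t| ≤ c) :
    ‖cfc f h‖ ≤ c :=
  norm_cfc_le hc fun t ht => hf t (spec_abs_le ht)

theorem fc_sum {ι : Type*} (s : Finset ι) {f : ι → ℝ → ℝ} (hf : ∀ i ∈ s, Continuous (f i)) (h : M) :
    cfc (fun t => ∑ i ∈ s, f i t) h = ∑ i ∈ s, cfc (f i) h := by
  classical
  induction s using Finset.induction_on with
  | empty => simp
  | insert a s ha ih =>
    simp only [Finset.sum_insert ha]
    rw [fc_add (hf a (Finset.mem_insert_self _ _))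
      (continuous_finsetSum _ fun i hi => hf i (Finset.mem_insert_of_mem hi)),
      ih fun i hi => hf i (Finset.mem_insert_of_mem hi)]

theorem fc_cmul {f : ℝ → ℝ} (hf : Continuous f) (c : ℝ) (h : M) :
    cfc (fun t => c * f t) h = c • cfc f h :=
  cfc_const_mul c f h hf.continuousOn

/-- Discretization of selfadjoint elements. -/
theorem exists_discretization {h : M} (hh : star h = h) {δ : ℝ} (hδ : 0 < δ) :
    ∃ (n : ℕ) (e : ℕ → M) (c : ℝ), Chain n e ∧
      n2 (h - (c • (1 : M) + δ • ∑ m ∈ Icc 1 n, e m)) ≤ 2 * δ := by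
  choose E hE using fun a => exists_spec h a
  set c₀ := ‖h‖ with hc₀
  obtain ⟨n, hn⟩ := exists_nat_ge (2 * c₀ / δ)
  rw [div_le_iff₀ hδ] at hn
  set e : ℕ → M := fun i => if i = 0 then 1 else if i ≤ n then E (-c₀ + i * δ) else 0 with he
  have he1 : ∀ m ∈ Icc 1 n, e m = E (-c₀ + m * δ) := by
    intro m hm
    rw [Finset.mem_Icc] at hm
    simp only [he]
    rw [if_neg (by omega), if_pos hm.2]
  have hchain : Chain n e := by
    refine ⟨fun i => ?_, fun i j hij => ?_, by simp [he], by simp [he]⟩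
    · simp only [he]
      split_ifs
      · exact Proj.one
      · exact (hE _).proj
      · exact Proj.zero
    · rcases Nat.eq_zero_or_pos i with rfl | hi
      · simp [he]
      · simp only [he]
        rw [if_neg (show i ≠ 0 by omega), if_neg (show j ≠ 0 by omega)]
        by_cases hj : j ≤ n
        · rw [if_pos hj, if_pos (show i ≤ n by omega)]
          refine spec_anti ?_ (hE _) (hE _)
          have : (i : ℝ) ≤ j := by exact_mod_cast hij
          nlinarith only [hδ, this]
        · rw [if_neg hj, mul_zero]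
  refine ⟨n, e, -c₀, hchain, ?_⟩
  have hlim : T2 (fun N => h - ((-c₀) • (1 : M) + (δ : ℂ) •
      ∑ m ∈ Icc 1 n, cfc (ramp (-c₀ + m * δ) N) h))
      (h - ((-c₀) • (1 : M) + (δ : ℂ) • ∑ m ∈ Icc 1 n, E (-c₀ + m * δ))) :=
    (T2.const h).sub ((T2.const _).add ((T2.sum _ fun m _ => (hE _).lim).smul _))
  have hδ' : ∀ y : M, (δ : ℂ) • y = δ • y := fun y => by simp
  rw [Finset.sum_congr rfl he1, ← hδ']
  obtain ⟨N₀, hN₀⟩ := exists_pow_lt_of_lt_one (show 0 < δ / 2 by positivity)
      (show (1 / 2 : ℝ) < 1 by norm_num)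
  refine le_of_tendsto hlim.n2 ?_
  filter_upwards [eventually_ge_atTop N₀] with N hN
  refine (n2_le_norm _).trans ?_
  have hNδ : 2 ≤ 2 ^ N * δ := by
    have h4 : (2 : ℝ) ^ N * (1 / 2) ^ N = 1 := by rw [← mul_pow]; norm_num
    have h5 : (1 / 2 : ℝ) ^ N ≤ (1 / 2) ^ N₀ :=
      pow_le_pow_of_le_one (by norm_num) (by norm_num) hN
    have h6 : 2 * (1 / 2 : ℝ) ^ N ≤ δ := by linarith
    calc (2 : ℝ) = 2 ^ N * (2 * (1 / 2 : ℝ) ^ N) := by
          rw [← mul_assoc, mul_comm _ (2 : ℝ), mul_assoc, h4, mul_one]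
      _ ≤ 2 ^ N * δ := by gcongr
  have hfun : h - ((-c₀) • (1 : M) + (δ : ℂ) • ∑ m ∈ Icc 1 n, cfc (ramp (-c₀ + m * δ) N) h) =
      cfc (fun t : ℝ => t - (-c₀ + δ * ∑ m ∈ Icc 1 n, ramp (-c₀ + m * δ) N t)) h := by
    have hcs : Continuous fun t : ℝ => ∑ m ∈ Icc 1 n, ramp (-c₀ + m * δ) N t :=
      continuous_finsetSum _ fun m _ => continuous_ramp _ _
    rw [fc_sub (f := fun t : ℝ => t) continuous_id' (by fun_prop),
      fc_add (f := fun _ : ℝ => -c₀) continuous_const (by fun_prop), fc_cmul hcs, fc_id hh,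
      fc_const hh, fc_sum _ (fun m _ => continuous_ramp _ _), hδ']
  rw [hfun]
  refine fc_norm_le' (by positivity) h fun t ht => ?_
  rw [abs_le] at ht
  set x : ℝ := (t + c₀) / δ with hx
  have hxt : t = -c₀ + δ * x := by rw [hx]; field_simp; ring
  have hx0 : 0 ≤ x := by rw [hx]; exact div_nonneg (by linarith only [ht.1]) hδ.le
  have hxn : x ≤ n + 1 := by
    rw [hx, div_le_iff₀ hδ]
    nlinarith only [hδ, hn, ht.2]
  set φ : ℝ → ℝ := fun y => max 0 (min 1 (2 ^ N * (δ * y) - 1)) with hφ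
  have hstair := stair (φ := φ) (fun y => le_max_left _ _)
    (fun y => max_le zero_le_one (min_le_left _ _))
    (fun y hy => by
      simp only [hφ]
      have : 2 ≤ 2 ^ N * (δ * y) := by
        calc (2 : ℝ) ≤ 2 ^ N * δ := hNδ
          _ ≤ 2 ^ N * (δ * y) := by
            gcongr
            nlinarith only [hδ, hy]
      rw [min_eq_left (by linarith only [this]), max_eq_right zero_le_one])
    (fun y hy => by
      simp only [hφ]
      have : 2 ^ N * (δ * y) ≤ 0 :=
        mul_nonpos_of_nonneg_of_nonpos (by positivity) (mul_nonpos_of_nonneg_of_nonpos hδ.le hy)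
      rw [max_eq_left]
      exact (min_le_right _ _).trans (by linarith only [this])) n x hx0 hxn
  have hr : ∀ m ∈ Icc 1 n, ramp (-c₀ + m * δ) N t = φ (x - m) := by
    intro m _
    unfold ramp
    simp only [hφ]
    congr 3
    rw [hxt]
    ring
  rw [Finset.sum_congr rfl hr]
  have : t - (-c₀ + δ * ∑ m ∈ Icc 1 n, φ (x - m)) = δ * (x - ∑ m ∈ Icc 1 n, φ (x - m)) := by
    nth_rw 1 [hxt]
    ring
  rw [this, abs_mul, abs_of_pos hδ]
  nlinarith only [hδ, hstair]

theorem lip_of_unit {s : ℕ → ℝ} (h0 : ∀ m, 0 ≤ s m) (h1 : ∀ m, s m ≤ 1) (i j : ℕ) :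
    |∑ m ∈ Icc 1 i, s m - ∑ m ∈ Icc 1 j, s m| ≤
      |∑ m ∈ Icc 1 i, (1 : ℝ) - ∑ m ∈ Icc 1 j, (1 : ℝ)| := by
  have aux : ∀ i j : ℕ, j ≤ i → 0 ≤ ∑ m ∈ Icc 1 i, s m - ∑ m ∈ Icc 1 j, s m ∧
      ∑ m ∈ Icc 1 i, s m - ∑ m ∈ Icc 1 j, s m ≤ (i : ℝ) - j := by
    intro i j hij
    induction i, hij using Nat.le_induction with
    | base => simp
    | succ k hk ih =>
      rw [Finset.sum_Icc_succ_top (by omega)]
      have := h0 (k + 1)
      have := h1 (k + 1)
      push_cast
      constructor <;> linarith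
  have e1 : ∀ i : ℕ, ∑ m ∈ Icc 1 i, (1 : ℝ) = i := fun i => by simp
  rw [e1, e1]
  rcases le_total j i with h | h
  · have := aux i j h
    rw [abs_of_nonneg this.1, abs_of_nonneg (this.1.trans this.2)]
    exact this.2
  · have := aux j i h
    rw [abs_sub_comm, abs_of_nonneg this.1, abs_sub_comm, abs_of_nonneg (this.1.trans this.2)]
    exact this.2

theorem Chain.cs2_le {n : ℕ} {e : ℕ → M} (he : Chain n e) (F : Finset M)
    (hF : ∀ f ∈ F, f ∈ unitary M) (s : ℕ → ℝ) (h0 : ∀ m, 0 ≤ s m) (h1 : ∀ m, s m ≤ 1) :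
    cs2 F (∑ m ∈ Icc 1 n, s m • e m) ≤ cs2 F (∑ m ∈ Icc 1 n, e m) := by
  unfold cs2
  refine Finset.sum_le_sum fun f hf => ?_
  have := he.comm_le (hF f hf) s (fun _ => 1) (lip_of_unit h0 h1)
  simpa only [one_smul] using this

theorem Chain.final {n : ℕ} {e : ℕ → M} (he : Chain n e) (F : Finset M)
    (hF : ∀ f ∈ F, f ∈ unitary M) {η : ℝ} (hη : 0 < η) (hx0 : ∑ m ∈ Icc 1 n, e m ≠ 0)
    (hx : cs2 F (∑ m ∈ Icc 1 n, e m) ≤ η * n2 (∑ m ∈ Icc 1 n, e m) ^ 2) (hhalf : rt (e 1) ≤ 1 / 2) :
    ∃ p, Proj p ∧ p ≠ 0 ∧ rt p ≤ 1 / 2 ∧ cs2 F p ≤ √η * (1 / 2 + 2 * F.card) * rt p := by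
  obtain ⟨m, hm, hm0, hm'⟩ := he.cheeger F hF hη hx0 hx
  refine ⟨e m, he.proj m, hm0, ?_, hm'⟩
  exact ((he.proj m).rt_le_of_le (he.proj 1) (he.anti' (Finset.mem_Icc.1 hm).1)).trans hhalf

theorem cs2_add_scalar (F : Finset M) (c : ℝ) (x : M) : cs2 F (c • (1 : M) + x) = cs2 F x := by
  unfold cs2
  refine Finset.sum_congr rfl fun f _ => ?_
  congr 2
  rw [add_mul, mul_add, smul_mul_assoc, mul_smul_comm, one_mul, mul_one]
  abel

set_option maxHeartbeats 2000000 in
/-- Without a spectral gap there are almost central nonzero projections of trace at most `1/2`. -/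
theorem NoGap.proj (hg : NoGap M) (F : Finset M) (hF : ∀ f ∈ F, f ∈ unitary M) {κ : ℝ}
    (hκ : 0 < κ) : ∃ p, Proj p ∧ p ≠ 0 ∧ rt p ≤ 1 / 2 ∧ cs2 F p ≤ κ * rt p := by
  classical
  -- choice of `η`
  set C : ℝ := 1 / 2 + 2 * F.card with hC
  have hC0 : 0 < C := by positivity
  set η : ℝ := (κ / C / 4) ^ 2 with hηdef
  have hη : 0 < η := by positivity
  obtain ⟨h, hh, hh0, htr, hcs⟩ := hg.sa F hF hη
  have hN : 0 < n2 h := n2_pos hh0
  -- choice of `δ`
  set δ : ℝ := min (n2 h / 16) (n2 h * √(η / (32 * (F.card + 1)))) with hδdef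
  have hδ : 0 < δ := by
    refine lt_min (by positivity) ?_
    have : 0 < √(η / (32 * (F.card + 1))) := Real.sqrt_pos.2 (by positivity)
    positivity
  have hδ1 : δ ≤ n2 h / 16 := min_le_left _ _
  have hδ2 : 32 * F.card * δ ^ 2 ≤ η * n2 h ^ 2 := by
    have h1 : δ ^ 2 ≤ (n2 h * √(η / (32 * (F.card + 1)))) ^ 2 := by
      have := min_le_right (n2 h / 16) (n2 h * √(η / (32 * (F.card + 1))))
      gcongr
    rw [mul_pow, Real.sq_sqrt (by positivity)] at h1
    calc 32 * (F.card : ℝ) * δ ^ 2 ≤ 32 * (F.card + 1) * (n2 h ^ 2 * (η / (32 * (F.card + 1)))) := by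
          gcongr
          linarith only []
      _ = η * n2 h ^ 2 := by field_simp
  obtain ⟨n, e, c, he, happ⟩ := exists_discretization hh hδ
  set S : M := ∑ m ∈ Icc 1 n, e m with hS
  -- commutators of the discretization
  have hcsS : δ ^ 2 * cs2 F S ≤ 3 * η * n2 h ^ 2 := by
    have h1 : cs2 F (c • (1 : M) + δ • S) = δ ^ 2 * cs2 F S := by
      rw [cs2_add_scalar, cs2_rsmul]
    rw [← h1]
    have h2 : c • (1 : M) + δ • S = h + (c • (1 : M) + δ • S - h) := by abel
    rw [h2]
    have h3 : cs2 F (c • (1 : M) + δ • S - h) ≤ 16 * F.card * δ ^ 2 := by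
      unfold cs2
      calc _ ≤ ∑ f ∈ F, (4 * δ) ^ 2 := by
            refine Finset.sum_le_sum fun f hf => ?_
            have h4 := n2_sub_le ((c • (1 : M) + δ • S - h) * f) (f * (c • (1 : M) + δ • S - h))
            rw [n2_mul_unitary (hF f hf), n2_unitary_mul (hF f hf), n2_sub_comm (c • (1 : M) + δ • S)]
              at h4
            have h5 : n2 ((c • (1 : M) + δ • S - h) * f - f * (c • (1 : M) + δ • S - h)) ≤ 4 * δ := by
              linarith only [happ, h4]
            have h6 := n2_nonneg ((c • (1 : M) + δ • S - h) * f - f * (c • (1 : M) + δ • S - h))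
            gcongr
        _ = 16 * F.card * δ ^ 2 := by
            rw [Finset.sum_const, nsmul_eq_mul]; ring
    have := cs2_add_le F h (c • (1 : M) + δ • S - h)
    nlinarith only [hcs, hδ2, h3, this]
  -- the median
  have hex : ∃ k, rt (e k) ≤ 1 / 2 := ⟨n + 1, by rw [he.last, rt_zero]; norm_num⟩
  set k := Nat.find hex with hk
  have hk1 : rt (e k) ≤ 1 / 2 := Nat.find_spec hex
  have hkpos : 1 ≤ k := by
    rcases Nat.eq_zero_or_pos k with h0 | h0
    · rw [h0, he.zero, rt_one] at hk1; norm_num at hk1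
    · exact h0
  have hkn : k ≤ n + 1 := Nat.find_min' hex (by rw [he.last, rt_zero]; norm_num)
  have hk2 : 1 / 2 < rt (e (k - 1)) := by
    have := Nat.find_min hex (m := k - 1) (by omega)
    push Not at this
    exact this
  set U : M := ∑ m ∈ Icc k n, e m with hU
  set D : M := ∑ m ∈ Ico 1 k, (1 - e m) with hD
  have hsplit : S = U + ∑ m ∈ Ico 1 k, e m := by
    rw [hS, hU, add_comm]
    have : Icc 1 n = Ico 1 k ∪ Icc k n := by
      ext m
      simp only [Finset.mem_Icc, Finset.mem_union, Finset.mem_Ico]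
      omega
    rw [this, Finset.sum_union]
    rw [Finset.disjoint_left]
    intro m hm hm'
    rw [Finset.mem_Ico] at hm
    rw [Finset.mem_Icc] at hm'
    omega
  have hDe : ∑ m ∈ Ico 1 k, e m = ((k : ℝ) - 1) • (1 : M) - D := by
    rw [hD, Finset.sum_sub_distrib]
    simp only [Finset.sum_const, Nat.card_Ico]
    rw [← Nat.cast_smul_eq_nsmul ℝ, Nat.cast_sub hkpos]
    simp
  have hUD : c • (1 : M) + δ • S - (c + δ * (k - 1)) • (1 : M) = δ • (U - D) := by
    rw [hsplit, hDe]
    module
  have hbig : n2 h ≤ n2 (h - (c + δ * (k - 1)) • (1 : M)) := by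
    set l : ℝ := c + δ * (k - 1) with hl
    have h1 : n2 (h - l • (1 : M)) ^ 2 = n2 h ^ 2 + l ^ 2 := by
      rw [n2_sq_sub_sa hh (by rw [star_smul]; simp), mul_smul_comm, mul_one, rt_smul, smul_mul_smul_comm,
        mul_one, rt_smul, rt_one]
      have h2 : rt h = 0 := by unfold rt; rw [htr]; rfl
      rw [h2, ← rt_ssm, hh]
      ring
    have h3 := n2_nonneg (h - l • (1 : M))
    nlinarith only [h1, h3]
  have hUDn : 7 / 8 * n2 h ≤ δ * (n2 U + n2 D) := by
    have h1 : h - (c + δ * (k - 1)) • (1 : M) =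
        (h - (c • (1 : M) + δ • S)) + δ • (U - D) := by
      rw [← hUD]; abel
    rw [h1] at hbig
    have h2 := n2_add_le (h - (c • (1 : M) + δ • S)) (δ • (U - D))
    rw [n2_rsmul, abs_of_pos hδ] at h2
    have h3 := n2_sub_le U D
    have h4 : δ * n2 (U - D) ≤ δ * (n2 U + n2 D) := by gcongr
    linarith only [hδ1, happ, hbig, h2, h4]
  have hsqrt : √(16 * η) * C ≤ κ := by
    have h1 : 16 * η = (κ / C) ^ 2 := by rw [hηdef]; ring
    rw [h1, Real.sqrt_sq (by positivity)]
    field_simp
    exact le_rfl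
  have hfin : ∀ X : M, 7 / 16 * n2 h ≤ δ * n2 X → cs2 F X ≤ cs2 F S →
      X ≠ 0 ∧ cs2 F X ≤ 16 * η * n2 X ^ 2 := by
    intro X h1 h2
    constructor
    · rintro rfl
      rw [n2_zero] at h1
      linarith only [hδ, hδ1, h1]
    · have h3 : (7 / 16 * n2 h) ^ 2 ≤ (δ * n2 X) ^ 2 := by gcongr
      have h4 : δ ^ 2 * cs2 F X ≤ 3 * η * n2 h ^ 2 := by
        have := mul_le_mul_of_nonneg_left h2 (sq_nonneg δ)
        linarith only [hcsS, this]
      have h5 : δ ^ 2 * cs2 F X ≤ δ ^ 2 * (16 * η * n2 X ^ 2) := by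
        have : 3 * η * n2 h ^ 2 ≤ 16 * η * (δ * n2 X) ^ 2 := by nlinarith only [hηdef, h3]
        calc _ ≤ _ := h4
          _ ≤ _ := this
          _ = _ := by ring
      exact le_of_mul_le_mul_left h5 (by positivity)
  rcases le_total (n2 D) (n2 U) with hle | hle
  · -- upper chain
    have hcsU : cs2 F U ≤ cs2 F S := by
      have h1 := he.cs2_le F hF (fun m => if k ≤ m then 1 else 0)
        (fun m => by split_ifs <;> norm_num) (fun m => by split_ifs <;> norm_num)
      have h2 : ∑ m ∈ Icc 1 n, (if k ≤ m then (1 : ℝ) else 0) • e m = U := by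
        simp only [ite_smul, one_smul, zero_smul]
        rw [← Finset.sum_filter, hU]
        refine Finset.sum_congr ?_ fun _ _ => rfl
        ext m
        simp only [Finset.mem_filter, Finset.mem_Icc]
        omega
      rwa [h2] at h1
    have hle2 : δ * (n2 U + n2 D) ≤ δ * (n2 U + n2 U) := by gcongr
    obtain ⟨hX0, hX⟩ := hfin U (by linarith only [hUDn, hle2]) hcsU
    set g : ℕ → M := fun j => if j = 0 then 1 else e (k - 1 + j) with hgdef
    have hchain : Chain (n + 1 - k) g := by
      refine ⟨fun i => ?_, fun i j hij => ?_, by simp [hgdef], ?_⟩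
      · simp only [hgdef]
        split_ifs
        · exact Proj.one
        · exact he.proj _
      · simp only [hgdef]
        by_cases hi : i = 0
        · simp [hi]
        · rw [if_neg hi, if_neg (show j ≠ 0 by omega)]
          exact he.anti _ _ (by omega)
      · simp only [hgdef]
        rw [if_neg (by omega)]
        have : k - 1 + (n + 1 - k + 1) = n + 1 := by omega
        rw [this, he.last]
    have hsum : ∑ m ∈ Icc 1 (n + 1 - k), g m = U := by
      rw [hU]
      refine Finset.sum_bij' (fun j _ => k - 1 + j) (fun m _ => m - (k - 1)) ?_ ?_ ?_ ?_ ?_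
      · intro j hj; rw [Finset.mem_Icc] at hj ⊢; omega
      · intro j hj; rw [Finset.mem_Icc] at hj ⊢; omega
      · intro j hj; rw [Finset.mem_Icc] at hj; omega
      · intro j hj; rw [Finset.mem_Icc] at hj; omega
      · intro j hj
        rw [Finset.mem_Icc] at hj
        simp only [hgdef]
        rw [if_neg (by omega)]
    obtain ⟨p, hp, hp0, hp1, hp2⟩ := hchain.final F hF (show 0 < 16 * η by positivity)
      (by rw [hsum]; exact hX0) (by rw [hsum]; exact hX) (by
        simp only [hgdef]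
        rw [if_neg (by norm_num), show k - 1 + 1 = k by omega]
        exact hk1)
    refine ⟨p, hp, hp0, hp1, hp2.trans ?_⟩
    have := hp.rt_nonneg
    gcongr
  · -- lower chain
    have hcsD : cs2 F D ≤ cs2 F S := by
      have h1 := he.cs2_le F hF (fun m => if m < k then 1 else 0)
        (fun m => by split_ifs <;> norm_num) (fun m => by split_ifs <;> norm_num)
      have h2 : ∑ m ∈ Icc 1 n, (if m < k then (1 : ℝ) else 0) • e m = ∑ m ∈ Ico 1 k, e m := by
        simp only [ite_smul, one_smul, zero_smul]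
        rw [← Finset.sum_filter]
        refine Finset.sum_congr ?_ fun _ _ => rfl
        ext m
        simp only [Finset.mem_filter, Finset.mem_Icc, Finset.mem_Ico]
        omega
      rw [h2, hDe] at h1
      have h3 : cs2 F (((k : ℝ) - 1) • (1 : M) - D) = cs2 F D := by
        rw [sub_eq_add_neg, cs2_add_scalar]
        have := cs2_rsmul F (-1) D
        simpa using this
      rwa [h3] at h1
    have hle2 : δ * (n2 U + n2 D) ≤ δ * (n2 D + n2 D) := by gcongr
    obtain ⟨hX0, hX⟩ := hfin D (by linarith only [hUDn, hle2]) hcsD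
    set g : ℕ → M := fun j => if j = 0 then 1 else 1 - e (k - j) with hgdef
    have hchain : Chain (k - 1) g := by
      refine ⟨fun i => ?_, fun i j hij => ?_, by simp [hgdef], ?_⟩
      · simp only [hgdef]
        split_ifs
        · exact Proj.one
        · exact (he.proj _).one_sub
      · simp only [hgdef]
        by_cases hi : i = 0
        · simp [hi]
        · rw [if_neg hi, if_neg (show j ≠ 0 by omega)]
          have h1 := he.anti' (show k - j ≤ k - i by omega)
          rw [sub_mul, one_mul, mul_sub, mul_one, h1]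
          abel
      · simp only [hgdef]
        rw [if_neg (by omega)]
        have : k - (k - 1 + 1) = 0 := by omega
        rw [this, he.zero, sub_self]
    have hsum : ∑ m ∈ Icc 1 (k - 1), g m = D := by
      rw [hD]
      refine Finset.sum_bij' (fun j _ => k - j) (fun m _ => k - m) ?_ ?_ ?_ ?_ ?_
      · intro j hj; rw [Finset.mem_Icc] at hj; rw [Finset.mem_Ico]; omega
      · intro j hj; rw [Finset.mem_Ico] at hj; rw [Finset.mem_Icc]; omega
      · intro j hj; rw [Finset.mem_Icc] at hj; omega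
      · intro j hj; rw [Finset.mem_Ico] at hj; omega
      · intro j hj
        rw [Finset.mem_Icc] at hj
        simp only [hgdef]
        rw [if_neg (by omega)]
    obtain ⟨p, hp, hp0, hp1, hp2⟩ := hchain.final F hF (show 0 < 16 * η by positivity)
      (by rw [hsum]; exact hX0) (by rw [hsum]; exact hX) (by
        simp only [hgdef]
        rw [if_neg (by norm_num), rt_sub, rt_one]
        linarith only [hk2])
    refine ⟨p, hp, hp0, hp1, hp2.trans ?_⟩
    have := hp.rt_nonneg
    gcongr

end H80VN
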