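import Pool.Agent.H80.VNBase

set_option autoImplicit false
set_option linter.unusedSectionVars false

/-!
# Convergence in the 2-norm
-/

universe u v

namespace H80VN

open scoped ComplexOrder Topology
open Filter

attribute [local instance] CStarAlgebra.spectralOrder CStarAlgebra.spectralOrderedRing

variable {M : Type u} [CStarAlgebra M] [TracialVN M]

/-- Convergence in the 2-norm. -/
def T2 (x : ℕ → M) (y : M) : Prop := Tendsto (fun n => n2 (x n - y)) atTop (𝓝 0)

theorem T2.iff_toL2 {x : ℕ → M} {y : M} :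
    T2 x y ↔ Tendsto (fun n => toL2 (x n)) atTop (𝓝 (toL2 y)) := by
  rw [tendsto_iff_norm_sub_tendsto_zero]
  rfl

theorem T2.const (y : M) : T2 (fun _ => y) y := by
  rw [T2.iff_toL2]
  exact tendsto_const_nhds

theorem T2.unique {x : ℕ → M} {y z : M} (h : T2 x y) (h' : T2 x z) : y = z := by
  rw [T2.iff_toL2] at h h'
  exact toL2.injective (tendsto_nhds_unique h h')

theorem T2.comp {x : ℕ → M} {y : M} (h : T2 x y) {φ : ℕ → ℕ} (hφ : Tendsto φ atTop atTop) :
    T2 (fun n => x (φ n)) y := by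
  have := Tendsto.comp h hφ
  exact this

theorem T2.add {x x' : ℕ → M} {y y' : M} (h : T2 x y) (h' : T2 x' y') :
    T2 (fun n => x n + x' n) (y + y') := by
  rw [T2.iff_toL2] at h h' ⊢
  simpa using h.add h'

theorem T2.sub {x x' : ℕ → M} {y y' : M} (h : T2 x y) (h' : T2 x' y') :
    T2 (fun n => x n - x' n) (y - y') := by
  rw [T2.iff_toL2] at h h' ⊢
  simpa using h.sub h'

theorem T2.smul {x : ℕ → M} {y : M} (h : T2 x y) (c : ℂ) :
    T2 (fun n => c • x n) (c • y) := by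
  rw [T2.iff_toL2] at h ⊢
  simpa using h.const_smul c

theorem T2.of_le {x : ℕ → M} {y : M} {b : ℕ → ℝ} (hb : Tendsto b atTop (𝓝 0))
    (h : ∀ n, n2 (x n - y) ≤ b n) : T2 x y :=
  squeeze_zero (fun _ => n2_nonneg _) h hb

theorem T2.star {x : ℕ → M} {y : M} (h : T2 x y) : T2 (fun n => star (x n)) (star y) := by
  refine T2.of_le h fun n => ?_
  rw [← star_sub, n2_star]

theorem T2.mul_left {x : ℕ → M} {y : M} (h : T2 x y) (a : M) :
    T2 (fun n => a * x n) (a * y) := by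
  refine T2.of_le (b := fun n => ‖a‖ * n2 (x n - y)) ?_ fun n => ?_
  · simpa using Tendsto.const_mul ‖a‖ h
  · rw [← mul_sub]
    exact n2_mul_le_left _ _

theorem T2.mul_right {x : ℕ → M} {y : M} (h : T2 x y) (a : M) :
    T2 (fun n => x n * a) (y * a) := by
  refine T2.of_le (b := fun n => n2 (x n - y) * ‖a‖) ?_ fun n => ?_
  · simpa using Tendsto.mul_const ‖a‖ h
  · rw [← sub_mul]
    exact n2_mul_le_right _ _

theorem T2.mul {x x' : ℕ → M} {y y' : M} {C : ℝ} (hC : ∀ n, ‖x n‖ ≤ C) (h : T2 x y)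
    (h' : T2 x' y') : T2 (fun n => x n * x' n) (y * y') := by
  have h1 := h.mul_right y'
  refine T2.of_le (b := fun n => C * n2 (x' n - y') + n2 (x n * y' - y * y')) ?_ fun n => ?_
  · simpa using (Tendsto.const_mul C h').add h1
  · have : x n * x' n - y * y' = x n * (x' n - y') + (x n * y' - y * y') := by
      rw [mul_sub]; abel
    rw [this]
    refine (n2_add_le _ _).trans ?_
    gcongr
    refine (n2_mul_le_left _ _).trans ?_
    gcongr
    · exact n2_nonneg _
    · exact hC n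

theorem T2.tr {x : ℕ → M} {y : M} (h : T2 x y) :
    Tendsto (fun n => tr (x n)) atTop (𝓝 (H80VN.tr y)) := by
  rw [tendsto_iff_norm_sub_tendsto_zero]
  refine squeeze_zero (fun _ => norm_nonneg _) (fun n => ?_) h
  rw [← map_sub]
  exact norm_tr_le_n2 _

theorem T2.tr_re {x : ℕ → M} {y : M} (h : T2 x y) :
    Tendsto (fun n => (H80VN.tr (x n)).re) atTop (𝓝 (H80VN.tr y).re) :=
  (Complex.continuous_re.tendsto _).comp h.tr

theorem T2.n2 {x : ℕ → M} {y : M} (h : T2 x y) :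
    Tendsto (fun n => H80VN.n2 (x n)) atTop (𝓝 (H80VN.n2 y)) := by
  rw [T2.iff_toL2] at h
  exact h.norm

theorem T2.sum {ι : Type*} (s : Finset ι) {x : ι → ℕ → M} {y : ι → M} (h : ∀ i ∈ s, T2 (x i) (y i)) :
    T2 (fun n => ∑ i ∈ s, x i n) (∑ i ∈ s, y i) := by
  classical
  induction s using Finset.induction_on with
  | empty => simpa using T2.const (0 : M)
  | insert a s ha ih =>
    simp only [Finset.sum_insert ha]
    exact (h a (Finset.mem_insert_self _ _)).add
      (ih fun i hi => h i (Finset.mem_insert_of_mem hi))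

theorem exists_lim {x : ℕ → M} {C : ℝ} (hC : ∀ n, ‖x n‖ ≤ C)
    (h : ∀ ε : ℝ, 0 < ε → ∃ N, ∀ m ≥ N, ∀ n ≥ N, n2 (x m - x n) < ε) :
    ∃ y, ‖y‖ ≤ C ∧ T2 x y := by
  have hC0 : 0 ≤ C := (norm_nonneg _).trans (hC 0)
  rcases hC0.eq_or_lt with hC0 | hC0
  · refine ⟨0, by simp [← hC0], ?_⟩
    have : x = fun _ => 0 := by
      funext n
      have := hC n
      rw [← hC0] at this
      exact norm_le_zero_iff.1 this
    rw [this]
    exact T2.const 0
  · obtain ⟨y, hy, hy'⟩ := ball_complete (fun n => ((C⁻¹ : ℝ) : ℂ) • x n) (fun n => by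
      rw [norm_smul, Complex.norm_real, Real.norm_eq_abs, abs_of_pos (inv_pos.2 hC0),
        inv_mul_le_iff₀ hC0, mul_one]
      exact hC n) (by
      intro ε hε
      obtain ⟨N, hN⟩ := h (C * ε) (by positivity)
      refine ⟨N, fun m hm n hn => ?_⟩
      have h1 := hN m hm n hn
      show n2 (((C⁻¹ : ℝ) : ℂ) • x m - ((C⁻¹ : ℝ) : ℂ) • x n) < ε
      rw [← smul_sub, n2_smul, Complex.norm_real, Real.norm_eq_abs, abs_of_pos (inv_pos.2 hC0),
        inv_mul_lt_iff₀ hC0]
      exact h1)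
    have h1 : T2 (fun n => ((C⁻¹ : ℝ) : ℂ) • x n) y := by
      unfold T2
      rw [Metric.tendsto_atTop]
      intro ε hε
      obtain ⟨N, hN⟩ := hy' ε hε
      refine ⟨N, fun n hn => ?_⟩
      rw [dist_zero_right, Real.norm_eq_abs, abs_of_nonneg (n2_nonneg _)]
      exact hN n hn
    refine ⟨(C : ℂ) • y, ?_, ?_⟩
    · rw [norm_smul, Complex.norm_real, Real.norm_eq_abs, abs_of_pos hC0]
      exact mul_le_of_le_one_right hC0.le hy
    · have := h1.smul (C : ℂ)
      have h2 : (fun n => (C : ℂ) • ((C⁻¹ : ℝ) : ℂ) • x n) = x := by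
        funext n
        rw [smul_smul, ← Complex.ofReal_mul, mul_inv_cancel₀ hC0.ne', Complex.ofReal_one, one_smul]
      rwa [h2] at this

theorem T2.norm_le {x : ℕ → M} {y : M} {C : ℝ} (h : T2 x y) (hC : ∀ n, ‖x n‖ ≤ C) : ‖y‖ ≤ C := by
  obtain ⟨z, hz, hz'⟩ := exists_lim hC (by
    rw [T2.iff_toL2] at h
    have := h.cauchySeq
    rw [Metric.cauchySeq_iff] at this
    intro ε hε
    obtain ⟨N, hN⟩ := this ε hε
    refine ⟨N, fun m hm n hn => ?_⟩
    have := hN m hm n hn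
    rwa [dist_eq_norm, ← map_sub, norm_toL2] at this)
  rwa [h.unique hz']

/-- A sequence that is Cauchy with a monotone bounded control function converges. -/
theorem exists_lim_of_mono {x : ℕ → M} {C : ℝ} (hC : ∀ n, ‖x n‖ ≤ C) {φ : ℕ → ℝ} (hφ : Monotone φ)
    {B : ℝ} (hB : ∀ n, φ n ≤ B) (h : ∀ m n, m ≤ n → n2 (x n - x m) ^ 2 ≤ φ n - φ m) :
    ∃ y, ‖y‖ ≤ C ∧ T2 x y := by
  refine exists_lim hC fun ε hε => ?_
  have hb : BddAbove (Set.range φ) := ⟨B, by rintro _ ⟨n, rfl⟩; exact hB n⟩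
  have hlim := tendsto_atTop_ciSup hφ hb
  have hc := hlim.cauchySeq
  rw [Metric.cauchySeq_iff] at hc
  obtain ⟨N, hN⟩ := hc (ε ^ 2) (by positivity)
  have key : ∀ m ≥ N, ∀ n ≥ N, m ≤ n → n2 (x n - x m) < ε := by
    intro m hm n hn hmn
    have h1 := hN n hn m hm
    rw [Real.dist_eq] at h1
    have h2 := h m n hmn
    have h3 : n2 (x n - x m) ^ 2 < ε ^ 2 := lt_of_le_of_lt (h2.trans (le_abs_self _)) h1
    exact (sq_lt_sq₀ (n2_nonneg _) hε.le).1 h3
  refine ⟨N, fun m hm n hn => ?_⟩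
  rcases le_total m n with hmn | hmn
  · rw [n2_sub_comm]
    exact key m hm n hn hmn
  · exact key n hn m hm hmn

end H80VN
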