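import Mathlib

set_option autoImplicit false

/-!
# Concrete tracial von Neumann algebras (auxiliary)
-/

universe u

namespace H80VN

open scoped InnerProductSpace ComplexOrder

/-- A von Neumann algebra on a Hilbert space `H` together with a faithful normal tracial state. -/
structure TracialVNA : Type (u + 1) where
  H : Type u
  [normed : NormedAddCommGroup H]
  [innerProd : InnerProductSpace ℂ H]
  [complete : CompleteSpace H]
  alg : VonNeumannAlgebra H
  tr : alg.toStarSubalgebra →ₗ[ℂ] ℂ
  tr_one : tr 1 = 1
  nonneg : ∀ x, 0 ≤ tr (star x * x)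
  tracial : ∀ x y, tr (x * y) = tr (y * x)
  faithful : ∀ x, tr (star x * x) = 0 → x = 0
  normal : ∃ ξ : ℕ → H, Summable (fun n => ‖ξ n‖ ^ 2) ∧
    ∀ x : alg.toStarSubalgebra, HasSum (fun n => ⟪ξ n, (x : H →L[ℂ] H) (ξ n)⟫_ℂ) (tr x)

attribute [instance] TracialVNA.normed TracialVNA.innerProd TracialVNA.complete

namespace TracialVNA

/-- The elements of `M`. -/
abbrev El (M : TracialVNA.{u}) : Type u := M.alg.toStarSubalgebra

end TracialVNA

end H80VN
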