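import Pool.Agent.H80.VNPI

set_option autoImplicit false
set_option linter.unusedSectionVars false

/-!
# Diffuseness of infinite dimensional factors
-/

universe u v

namespace H80VN

open scoped ComplexOrder Topology
open Filter

attribute [local instance] CStarAlgebra.spectralOrder CStarAlgebra.spectralOrderedRing

variable {M : Type u} [CStarAlgebra M] [TracialVN M]

theorem spec_abs_le {h : M} {t : ℝ} (ht : t ∈ spectrum ℝ h) : |t| ≤ ‖h‖ := by
  have := nontrivial_M M
  exact spectrum.norm_le_norm_of_mem ht

theorem IsSpec.eq_zero {h : M} {a : ℝ} {E : M} (hE : IsSpec h a E)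
    (ha : ‖h‖ ≤ a) : E = 0 := by
  have h1 : (fun n => cfc (ramp a n) h) = fun _ => (0 : M) := by
    funext n
    have h2 : cfc (ramp a n) h = cfc (fun _ : ℝ => (0 : ℝ)) h :=
      cfc_congr fun t ht => ramp_eq_zero' ((le_abs_self t).trans ((spec_abs_le ht).trans ha))
    rw [h2, cfc_const_zero]
  have h3 := hE.lim
  rw [h1] at h3
  exact h3.unique (T2.const _)

theorem IsSpec.eq_one {h : M} (hh : star h = h) {a : ℝ} {E : M} (hE : IsSpec h a E)
    (ha : a < -‖h‖) : E = 1 := by
  obtain ⟨N, hN⟩ := exists_pow_lt_of_lt_one (show 0 < (-‖h‖ - a) / 2 by linarith)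
      (show (1 / 2 : ℝ) < 1 by norm_num)
  have h1 : ∀ n, cfc (ramp a (n + N)) h = 1 := by
    intro n
    have h2 : cfc (ramp a (n + N)) h = cfc (fun _ : ℝ => (1 : ℝ)) h := by
      refine cfc_congr fun t ht => ramp_eq_one ?_
      have h3 : -‖h‖ ≤ t := (neg_le_neg (spec_abs_le ht)).trans (neg_abs_le t)
      have h4 : (2 : ℝ) ^ (n + N) * (1 / 2) ^ (n + N) = 1 := by rw [← mul_pow]; norm_num
      have h5 : (1 / 2 : ℝ) ^ (n + N) ≤ (1 / 2) ^ N :=
        pow_le_pow_of_le_one (by norm_num) (by norm_num) (by omega)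
      have h6 : 2 * (1 / 2 : ℝ) ^ (n + N) ≤ t - a := by linarith
      calc (2 : ℝ) = 2 ^ (n + N) * (2 * (1 / 2 : ℝ) ^ (n + N)) := by
            rw [← mul_assoc, mul_comm _ (2 : ℝ), mul_assoc, h4, mul_one]
        _ ≤ 2 ^ (n + N) * (t - a) := by gcongr
    rw [h2, fc_const hh, one_smul]
  have h3 := hE.lim.comp (φ := fun n => n + N)
    (tendsto_atTop_mono (fun n => by show n ≤ n + N; omega) tendsto_id)
  simp only [h1] at h3
  exact h3.unique (T2.const _)

/-- If all subprojections of `q` are trivial then selfadjoint elements of `q M q` are scalar. -/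
theorem scalar_of_minimal_sa {q : M} (hq : Proj q)
    (hmin : ∀ r, Proj r → r * q = r → r = 0 ∨ r = q) {h : M} (hh : star h = h) (hhq : h * q = h) :
    ∃ c : ℝ, h = c • q := by
  have hqh : q * h = h := by
    have := congrArg star hhq
    rwa [star_mul, hq.star_eq, hh] at this
  choose E hE using fun a => exists_spec h a
  have hEq : ∀ a, E a * q = q * E a := fun a => (hE a).comm (by rw [hhq, hqh])
  have hEqp : ∀ a, Proj (E a * q) := by
    intro a
    refine ⟨?_, by rw [star_mul, (hE a).proj.star_eq, hq.star_eq, hEq]⟩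
    calc E a * q * (E a * q) = E a * (q * E a) * q := by simp only [mul_assoc]
      _ = (E a * E a) * (q * q) := by rw [← hEq]; simp only [mul_assoc]
      _ = E a * q := by rw [(hE a).proj.mul_self, hq.mul_self]
  have hdich : ∀ a, E a * q = 0 ∨ E a * q = q := fun a =>
    hmin _ (hEqp a) (by rw [mul_assoc, hq.mul_self])
  rcases eq_or_ne q 0 with hq0 | hq0
  · exact ⟨0, by rw [← hhq, hq0]; simp⟩
  let S : Set ℝ := {a | E a * q = q}
  have hSne : S.Nonempty := ⟨-‖h‖ - 1, by
    show E _ * q = q
    rw [(hE _).eq_one hh (by linarith), one_mul]⟩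
  have hSb : BddAbove S := by
    refine ⟨‖h‖, fun a (ha : E a * q = q) => ?_⟩
    by_contra hlt
    push Not at hlt
    rw [(hE a).eq_zero hlt.le, zero_mul] at ha
    exact hq0 ha.symm
  set c := sSup S with hc
  refine ⟨c, ?_⟩
  have key : ∀ ε : ℝ, 0 < ε → n2 (h - c • q) ≤ ε := by
    intro ε hε
    obtain ⟨a, ha, hac⟩ := exists_lt_of_lt_csSup hSne (show c - ε < sSup S by rw [← hc]; linarith)
    have hac' : a ≤ c := le_csSup hSb ha
    have hb : E (c + ε) * q = 0 := by
      rcases hdich (c + ε) with h0 | h0
      · exact h0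
      · have : c + ε ≤ c := le_csSup hSb h0
        linarith
    have ha' : E a * q = q := ha
    -- clamp
    have e1 : h * q = cfc (fun t : ℝ => max t a) h * q := by
      have := (hE a).ge (f := fun t => t) (g := fun t => max t a) continuous_id' (by fun_prop)
        (fun t ht => by rw [max_eq_left ht])
      rw [fc_id hh] at this
      calc h * q = h * (E a * q) := by rw [ha']
        _ = cfc (fun t : ℝ => max t a) h * E a * q := by rw [← mul_assoc, this]
        _ = cfc (fun t : ℝ => max t a) h * q := by rw [mul_assoc, ha']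
    have e2 : cfc (fun t : ℝ => max t a) h * q =
        cfc (fun t : ℝ => min (max t a) (c + ε)) h * q := by
      have := (hE (c + ε)).le (f := fun t => max t a) (g := fun t => min (max t a) (c + ε))
        (by fun_prop) (by fun_prop)
        (fun t ht => by rw [min_eq_left]; exact max_le ht (by linarith))
      have hq' : (1 - E (c + ε)) * q = q := by rw [sub_mul, one_mul, hb, sub_zero]
      calc cfc (fun t : ℝ => max t a) h * q
          = cfc (fun t : ℝ => max t a) h * (1 - E (c + ε)) * q := by rw [mul_assoc, hq']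
        _ = cfc (fun t : ℝ => min (max t a) (c + ε)) h * (1 - E (c + ε)) * q := by rw [this]
        _ = _ := by rw [mul_assoc, hq']
    have e3 : h - c • q = cfc (fun t : ℝ => min (max t a) (c + ε) - c) h * q := by
      rw [fc_sub (f := fun t => min (max t a) (c + ε)) (by fun_prop) continuous_const,
        fc_const hh, sub_mul, ← e2, ← e1, hhq, smul_mul_assoc, one_mul]
    rw [e3]
    refine (n2_le_norm _).trans ((norm_mul_le _ _).trans ?_)
    have e4 : ‖cfc (fun t : ℝ => min (max t a) (c + ε) - c) h‖ ≤ ε := by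
      refine fc_norm_le hε.le (fun t => ?_) h
      rw [abs_le]
      constructor
      · have : a ≤ min (max t a) (c + ε) := le_min (le_max_right _ _) (by linarith)
        linarith
      · have : min (max t a) (c + ε) ≤ c + ε := min_le_right _ _
        linarith
    have := hq.norm_le
    nlinarith [norm_nonneg q, norm_nonneg (cfc (fun t : ℝ => min (max t a) (c + ε) - c) h)]
  have h0 : n2 (h - c • q) = 0 :=
    le_antisymm (le_of_forall_pos_le_add fun ε hε => by rw [zero_add]; exact key ε hε) (n2_nonneg _)
  exact sub_eq_zero.1 (n2_eq_zero.1 h0)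

theorem scalar_of_minimal {q : M} (hq : Proj q)
    (hmin : ∀ r, Proj r → r * q = r → r = 0 ∨ r = q) (x : M) :
    ∃ c : ℂ, q * x * q = c • q := by
  have key : ∀ y : M, star y = y → ∃ c : ℝ, q * y * q = c • q := fun y hy =>
    scalar_of_minimal_sa hq hmin (by simp [hq.star_eq, hy, mul_assoc])
      (by rw [mul_assoc, hq.mul_self])
  obtain ⟨a, ha⟩ := key (realPart x : M) (realPart x).2
  obtain ⟨b, hb⟩ := key (imaginaryPart x : M) (imaginaryPart x).2
  refine ⟨a + Complex.I * b, ?_⟩
  have hx := realPart_add_I_smul_imaginaryPart x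
  rw [← hx, mul_add, add_mul, ha, mul_smul_comm, smul_mul_assoc, hb, add_smul, mul_smul]
  simp

/-- An infinite dimensional factor has no minimal projections. -/
theorem exists_sub_proj (hM : IsFactor M) (hinf : ¬ FiniteDimensional ℂ M) {q : M} (hq : Proj q)
    (hq0 : q ≠ 0) : ∃ r, Proj r ∧ r * q = r ∧ r ≠ 0 ∧ r ≠ q := by
  by_contra hcon
  push Not at hcon
  have hmin : ∀ r, Proj r → r * q = r → r = 0 ∨ r = q := by
    intro r hr hrq
    by_cases h0 : r = 0
    · exact Or.inl h0
    · exact Or.inr (hcon r hr hrq h0)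
  have hrt := hq.rt_pos hq0
  let W : Submodule ℂ (L2 M) :=
    LinearMap.range ((toL2 : M ≃ₗ[ℂ] L2 M).toLinearMap ∘ₗ LinearMap.mulRight ℂ q)
  have hW : ∀ w ∈ W, ∃ x : M, w = toL2 x ∧ x * q = x := by
    rintro _ ⟨y, rfl⟩
    refine ⟨y * q, rfl, by rw [mul_assoc, hq.mul_self]⟩
  -- orthonormal families in `W` are small
  have hsmall : ∀ n : ℕ, (n : Cardinal) ≤ Module.rank ℂ W → (n : ℝ) * rt q ≤ 1 := by
    intro n hn
    obtain ⟨f, hf⟩ := exists_linearIndependent_of_le_rank hn
    have hon := InnerProductSpace.gramSchmidtNormed_orthonormal (𝕜 := ℂ) hf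
    set g := InnerProductSpace.gramSchmidtNormed ℂ f with hg
    choose x hx hxq using fun i => hW (g i).1 (g i).2
    have hip : ∀ i j, tr (star (x i) * x j) = if i = j then 1 else 0 := by
      intro i j
      rw [← inner_toL2, ← hx, ← hx]
      have := orthonormal_iff_ite.1 hon i j
      exact this
    have hqx : ∀ i, q * star (x i) = star (x i) := by
      intro i
      have := congrArg star (hxq i)
      rwa [star_mul, hq.star_eq] at this
    have hprod : ∀ i j, star (x i) * x j = if i = j then ((rt q)⁻¹ : ℝ) • q else 0 := by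
      intro i j
      obtain ⟨c, hc⟩ := scalar_of_minimal hq hmin (star (x i) * x j)
      have h1 : q * (star (x i) * x j) * q = star (x i) * x j := by
        rw [← mul_assoc, hqx, mul_assoc, hxq]
      rw [h1] at hc
      have h2 := hip i j
      rw [hc, map_smul, smul_eq_mul, tr_eq_rt hq.star_eq] at h2
      have hne : (rt q : ℂ) ≠ 0 := by exact_mod_cast hrt.ne'
      rw [hc]
      split_ifs at h2 ⊢ with hij
      · have h3 : c = ((rt q)⁻¹ : ℝ) := by
          rw [Complex.ofReal_inv]
          exact eq_inv_of_mul_eq_one_left h2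
        rw [h3, Complex.coe_smul]
      · have h3 : c = 0 := by
          rcases mul_eq_zero.1 h2 with h4 | h4
          · exact h4
          · exact absurd h4 hne
        rw [h3, zero_smul]
    set y := ∑ i, x i * star (x i) with hy
    have hyy : y * y = ((rt q)⁻¹ : ℝ) • y := by
      rw [hy, Finset.sum_mul_sum, Finset.smul_sum]
      refine Finset.sum_congr rfl fun i _ => ?_
      rw [Finset.sum_eq_single i]
      · calc x i * star (x i) * (x i * star (x i)) = x i * (star (x i) * x i) * star (x i) := by
              simp only [mul_assoc]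
          _ = _ := by
              rw [hprod, if_pos rfl, mul_smul_comm, smul_mul_assoc, hxq]
      · intro j _ hji
        calc x i * star (x i) * (x j * star (x j)) = x i * (star (x i) * x j) * star (x j) := by
              simp only [mul_assoc]
          _ = 0 := by rw [hprod, if_neg (Ne.symm hji)]; simp
      · simp
    have hys : star y = y := by
      rw [hy, star_sum]
      exact Finset.sum_congr rfl fun i _ => by rw [star_mul, star_star]
    have hp : Proj (rt q • y) := by
      refine ⟨?_, by rw [star_smul, hys]; simp⟩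
      rw [smul_mul_smul_comm, hyy, smul_smul, mul_assoc, mul_inv_cancel₀ hrt.ne', mul_one]
    have h1 := hp.rt_le_one
    rw [rt_smul, hy, rt_sum] at h1
    have h2 : ∀ i, rt (x i * star (x i)) = 1 := by
      intro i
      rw [rt_comm]
      unfold rt
      rw [hip, if_pos rfl]
      simp
    simp only [h2, Finset.sum_const, Finset.card_univ, Fintype.card_fin, nsmul_eq_mul, mul_one] at h1
    linarith
  have hWfin : FiniteDimensional ℂ W := by
    refine Module.rank_lt_aleph0_iff.1 ?_
    by_contra hge
    push Not at hge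
    obtain ⟨n, hn⟩ := exists_nat_gt (1 / rt q)
    have h1 := hsmall n ((Cardinal.natCast_lt_aleph0 (n := n)).le.trans hge)
    rw [div_lt_iff₀ hrt] at hn
    linarith
  -- `M` embeds into the maps from a basis of `W` to `W`
  apply hinf
  let b := Module.finBasis ℂ W
  have hmul : ∀ (x : M) (w : W), toL2 (x * (toL2 : M ≃ₗ[ℂ] L2 M).symm w.1) ∈ W := by
    rintro x ⟨_, ⟨y, rfl⟩⟩
    exact ⟨x * y, by
      show toL2 (x * y * q) = toL2 (x * (y * q))
      rw [mul_assoc]⟩
  let Φ : M →ₗ[ℂ] (Fin (Module.finrank ℂ W) → W) :=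
    { toFun := fun x i => ⟨_, hmul x (b i)⟩
      map_add' := fun x y => by
        funext i
        apply Subtype.ext
        show toL2 ((x + y) * _) = toL2 (x * _) + toL2 (y * _)
        rw [add_mul, map_add]
      map_smul' := fun c x => by
        funext i
        apply Subtype.ext
        show toL2 ((c • x) * _) = c • toL2 (x * _)
        rw [smul_mul_assoc, map_smul] }
  have hΦ : Function.Injective Φ := by
    rw [← LinearMap.ker_eq_bot, LinearMap.ker_eq_bot']
    intro x hx
    by_contra hx0
    obtain ⟨u, hu⟩ := exists_mul_ne_zero hM hx0 hq hq0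
    apply hu
    -- the set of `w ∈ W` with `x w = 0` is everything
    have h1 : ∀ w : W, x * (toL2 : M ≃ₗ[ℂ] L2 M).symm w.1 = 0 := by
      intro w
      have hw : w ∈ Submodule.span ℂ (Set.range b) := by rw [b.span_eq]; trivial
      induction hw using Submodule.span_induction with
      | mem w hw =>
        obtain ⟨i, rfl⟩ := hw
        have := congrArg Subtype.val (congrFun hx i)
        exact toL2.map_eq_zero_iff.1 this
      | zero => simp
      | add v w _ _ hv hw =>
        have e : ((v + w : W) : L2 M) = (v : L2 M) + (w : L2 M) := rfl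
        rw [e, map_add, mul_add, hv, hw, add_zero]
      | smul c w _ hw =>
        have e : ((c • w : W) : L2 M) = c • (w : L2 M) := rfl
        rw [e, map_smul, mul_smul_comm, hw, smul_zero]
    have h2 := h1 ⟨toL2 (u * q), ⟨u, rfl⟩⟩
    rw [mul_assoc]
    exact h2
  exact FiniteDimensional.of_injective Φ hΦ

theorem Proj.rt_le_of_le {p q : M} (hp : Proj p) (hq : Proj q) (h : p * q = p) : rt p ≤ rt q := by
  have := (hp.sub hq h).rt_nonneg
  rw [rt_sub] at this
  linarith

theorem exists_small_proj (hM : IsFactor M) (hinf : ¬ FiniteDimensional ℂ M) {q : M} (hq : Proj q)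
    (hq0 : q ≠ 0) (n : ℕ) : ∃ r, Proj r ∧ r * q = r ∧ r ≠ 0 ∧ rt r ≤ (1 / 2) ^ n * rt q := by
  induction n with
  | zero => exact ⟨q, hq, hq.mul_self, hq0, by simp⟩
  | succ n ih =>
    obtain ⟨r, hr, hrq, hr0, hle⟩ := ih
    obtain ⟨s, hs, hsr, hs0, hsr'⟩ := exists_sub_proj hM hinf hr hr0
    have hsub := hs.sub hr hsr
    have hsum : rt s + rt (r - s) = rt r := by rw [rt_sub]; ring
    have hrs : r * s = s := hs.comm_of_le hr hsr
    rcases le_total (rt s) (rt (r - s)) with hle' | hle'
    · refine ⟨s, hs, ?_, hs0, ?_⟩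
      · calc s * q = s * r * q := by rw [hsr]
          _ = s * (r * q) := by rw [mul_assoc]
          _ = s := by rw [hrq, hsr]
      · rw [pow_succ]; linarith
    · refine ⟨r - s, hsub, ?_, sub_ne_zero.2 (Ne.symm hsr'), ?_⟩
      · have : s * q = s := by
          calc s * q = s * r * q := by rw [hsr]
            _ = s * (r * q) := by rw [mul_assoc]
            _ = s := by rw [hrq, hsr]
        rw [sub_mul, hrq, this]
      · rw [pow_succ]; linarith

theorem ext_proj {p r : M} (hp : Proj p) : Ext p r ↔ r * p = p := by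
  unfold Ext
  rw [hp.star_eq, hp.mul_self]

/-- Every projection has subprojections of every smaller trace. -/
theorem exists_darboux (hM : IsFactor M) (hinf : ¬ FiniteDimensional ℂ M) {q : M} (hq : Proj q)
    {t : ℝ} (ht0 : 0 ≤ t) (ht : t ≤ rt q) : ∃ p, Proj p ∧ p * q = p ∧ rt p = t := by
  obtain ⟨p, ⟨hp, hpq, hpt⟩, _, hmax⟩ := exists_maximal_pi
    (fun p : M => Proj p ∧ p * q = p ∧ rt p ≤ t) (fun p h => h.1.pi)
    (by
      intro x y hx hxy hy
      have hys : star y = y := by
        have h1 := hxy.star
        simp only [fun n => (hx n).1.star_eq] at h1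
        exact h1.unique hxy
      refine ⟨⟨?_, hys⟩, ?_, ?_⟩
      · have h1 : T2 (fun n => x n * x n) (y * y) :=
          T2.mul (C := 1) (fun n => (hx n).1.norm_le) hxy hxy
        simp only [fun n => (hx n).1.mul_self] at h1
        exact h1.unique hxy
      · have := hxy.mul_right q
        simp only [fun n => (hx n).2.1] at this
        exact this.unique hxy
      · exact le_of_tendsto' hxy.tr_re fun n => (hx n).2.2) 0
    ⟨Proj.zero, by simp, by rw [rt_zero]; exact ht0⟩
  refine ⟨p, hp, hpq, ?_⟩
  by_contra hne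
  have hlt : rt p < t := lt_of_le_of_ne hpt hne
  have hd := hp.sub hq hpq
  have hd0 : q - p ≠ 0 := by
    intro h0
    have : rt (q - p) = 0 := by rw [h0, rt_zero]
    rw [rt_sub] at this
    linarith
  obtain ⟨n, hn⟩ := exists_pow_lt_of_lt_one (show 0 < t - rt p by linarith)
    (show (1 / 2 : ℝ) < 1 by norm_num)
  obtain ⟨r, hr, hrd, hr0, hrn⟩ := exists_small_proj hM hinf hd hd0 n
  have hrt1 := hd.rt_le_one
  have hrt0 := hd.rt_nonneg
  have hrle : rt r ≤ t - rt p := by
    have : (1 / 2 : ℝ) ^ n * rt (q - p) ≤ (1 / 2) ^ n * 1 := by gcongr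
    linarith
  have hqp : q * p = p := hp.comm_of_le hq hpq
  have hrp : r * p = 0 := by
    rw [← hrd, mul_assoc, sub_mul, hqp, hp.mul_self, sub_self, mul_zero]
  have hpr : p * r = 0 := by
    have := congrArg star hrp
    rwa [star_mul, hr.star_eq, hp.star_eq, star_zero] at this
  have hrq : r * q = r := by
    rw [← hrd, mul_assoc, sub_mul, hq.mul_self, hpq]
  have h1 := hmax (p + r) ⟨hp.add hr hpr, by rw [add_mul, hpq, hrq], by rw [rt_add]; linarith⟩
    ((ext_proj hp).2 (by rw [add_mul, hp.mul_self, hrp, add_zero]))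
  exact hr0 (by simpa using h1)

end H80VN
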