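import Pool.Agent.H80.VNHilb

set_option autoImplicit false
set_option linter.unusedSectionVars false

/-!
# Commutants with a tracial vector
-/

universe u v w

namespace H80VN

open scoped ComplexOrder Topology InnerProductSpace
open Filter

variable {H : Type u} [NormedAddCommGroup H] [InnerProductSpace ℂ H] [CompleteSpace H]

/-- The commutant of a ⋆-closed set of operators. -/
noncomputable def commutantVN (S : Set (H →L[ℂ] H)) : VonNeumannAlgebra H where
  toStarSubalgebra := StarSubalgebra.centralizer ℂ S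
  centralizer_centralizer' := by
    show Set.centralizer (Set.centralizer (StarSubalgebra.centralizer ℂ S : Set (H →L[ℂ] H))) =
      (StarSubalgebra.centralizer ℂ S : Set (H →L[ℂ] H))
    rw [StarSubalgebra.coe_centralizer, Set.centralizer_centralizer_centralizer]

theorem mem_commutantVN {S : Set (H →L[ℂ] H)} (hS : ∀ s ∈ S, star s ∈ S) {x : H →L[ℂ] H} :
    x ∈ (commutantVN S).toStarSubalgebra ↔ ∀ s ∈ S, s * x = x * s := by
  show x ∈ StarSubalgebra.centralizer ℂ S ↔ _
  rw [StarSubalgebra.mem_centralizer_iff]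
  exact ⟨fun h s hs => (h s hs).1, fun h s hs => ⟨h s hs, h _ (hS s hs)⟩⟩

section

variable {S : Set (H →L[ℂ] H)} (hS : ∀ s ∈ S, star s ∈ S) {Ω : H} {J : H → H}
  (hJ : ∀ x y, ⟪J x, J y⟫_ℂ = ⟪y, x⟫_ℂ) (hJS : ∀ s ∈ S, J (s Ω) = star s Ω)
  (hd : Dense (Submodule.span ℂ {ζ | ∃ s ∈ S, ζ = s Ω} : Set H))

include hS hJ hJS hd

theorem star_vec {x : H →L[ℂ] H} (hx : ∀ s ∈ S, s * x = x * s) : star x Ω = J (x Ω) := by
  refine hd.eq_of_inner_left (𝕜 := ℂ) fun v hv => ?_
  induction hv using Submodule.span_induction with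
  | mem v hv =>
    obtain ⟨s, hs, rfl⟩ := hv
    have h1 : ⟪star x Ω, s Ω⟫_ℂ = ⟪star s Ω, x Ω⟫_ℂ := by
      rw [ContinuousLinearMap.star_eq_adjoint, ContinuousLinearMap.star_eq_adjoint,
        ContinuousLinearMap.adjoint_inner_left, ContinuousLinearMap.adjoint_inner_left]
      have := congrArg (fun T : H →L[ℂ] H => T Ω) (hx s hs)
      simp only [mul_apply_eq_comp] at this
      rw [this]
    have h2 : ⟪J (x Ω), s Ω⟫_ℂ = ⟪star s Ω, x Ω⟫_ℂ := by
      have h3 : s Ω = J (star s Ω) := by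
        rw [hJS (star s) (hS s hs), star_star]
      rw [h3, hJ]
    rw [h1, h2]
  | zero => simp
  | add a b _ _ ha hb => rw [inner_add_right, inner_add_right, ha, hb]
  | smul c a _ ha => rw [inner_smul_right, inner_smul_right, ha]

theorem vec_tracial {x y : H →L[ℂ] H} (hx : ∀ s ∈ S, s * x = x * s) (hy : ∀ s ∈ S, s * y = y * s) :
    ⟪Ω, (x * y) Ω⟫_ℂ = ⟪Ω, (y * x) Ω⟫_ℂ := by
  have hxs : ∀ s ∈ S, s * star x = star x * s := by
    intro s hs
    have := congrArg star (hx (star s) (hS s hs))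
    rw [star_mul, star_mul, star_star] at this
    exact this.symm
  have h1 : ⟪Ω, (x * y) Ω⟫_ℂ = ⟪star x Ω, y Ω⟫_ℂ := by
    rw [ContinuousLinearMap.star_eq_adjoint, ContinuousLinearMap.adjoint_inner_left]
    rfl
  have h2 : ⟪Ω, (y * x) Ω⟫_ℂ = ⟪star y Ω, x Ω⟫_ℂ := by
    rw [ContinuousLinearMap.star_eq_adjoint, ContinuousLinearMap.adjoint_inner_left]
    rfl
  have h3 := star_vec hS hJ hJS hd hy
  have h4 := star_vec hS hJ hJS hd hxs
  rw [star_star] at h4
  rw [h1, h2, h3, h4, hJ]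

theorem vec_faithful {x : H →L[ℂ] H} (hx : ∀ s ∈ S, s * x = x * s) (h0 : x Ω = 0) : x = 0 := by
  ext ζ
  have hcl : IsClosed {ζ : H | x ζ = 0} := isClosed_eq x.continuous continuous_const
  have hsub : (Submodule.span ℂ {ζ | ∃ s ∈ S, ζ = s Ω} : Set H) ⊆ {ζ : H | x ζ = 0} := by
    intro v hv
    have hv' : v ∈ Submodule.span ℂ {ζ | ∃ s ∈ S, ζ = s Ω} := hv
    show x v = 0
    clear hv
    induction hv' using Submodule.span_induction with
    | mem v hv =>
      obtain ⟨s, hs, rfl⟩ := hv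
      have := congrArg (fun T : H →L[ℂ] H => T Ω) (hx s hs)
      simp only [mul_apply_eq_comp] at this
      rw [← this, h0, map_zero]
    | zero => simp
    | add a b _ _ ha hb => rw [map_add, ha, hb, add_zero]
    | smul c a _ ha => rw [map_smul, ha, smul_zero]
  have := hcl.closure_subset_iff.2 hsub (hd ζ)
  exact this

/-- The commutant of `S` with the vector state given by `Ω`. -/
noncomputable def ofCommutant (hΩ : ‖Ω‖ = 1) : TracialVNA.{u} where
  H := H
  alg := commutantVN S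
  tr :=
    { toFun := fun x => ⟪Ω, (x : H →L[ℂ] H) Ω⟫_ℂ
      map_add' := fun x y => by
        show ⟪Ω, (x : H →L[ℂ] H) Ω + (y : H →L[ℂ] H) Ω⟫_ℂ = _
        rw [inner_add_right]
      map_smul' := fun c x => by
        show ⟪Ω, c • ((x : H →L[ℂ] H) Ω)⟫_ℂ = c • ⟪Ω, (x : H →L[ℂ] H) Ω⟫_ℂ
        rw [inner_smul_right]
        rfl }
  tr_one := by
    show ⟪Ω, Ω⟫_ℂ = 1
    rw [inner_self_eq_norm_sq_to_K, hΩ]
    simp
  nonneg := fun x => by
    show 0 ≤ ⟪Ω, ContinuousLinearMap.adjoint (x : H →L[ℂ] H) ((x : H →L[ℂ] H) Ω)⟫_ℂ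
    rw [ContinuousLinearMap.adjoint_inner_right, Complex.le_def]
    exact ⟨inner_self_nonneg (𝕜 := ℂ), (inner_self_im (𝕜 := ℂ) _).symm⟩
  tracial := fun x y =>
    vec_tracial hS hJ hJS hd ((mem_commutantVN hS).1 x.2) ((mem_commutantVN hS).1 y.2)
  faithful := fun x hx => by
    apply Subtype.ext
    refine vec_faithful hS hJ hJS hd ((mem_commutantVN hS).1 x.2) ?_
    have h1 : ⟪Ω, ContinuousLinearMap.adjoint (x : H →L[ℂ] H) ((x : H →L[ℂ] H) Ω)⟫_ℂ = 0 := hx
    rw [ContinuousLinearMap.adjoint_inner_right, inner_self_eq_zero] at h1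
    exact h1
  normal := by
    refine ⟨fun n => if n = 0 then Ω else 0, ?_, fun x => ?_⟩
    · refine summable_of_ne_finset_zero (s := {0}) fun n hn => ?_
      rw [Finset.mem_singleton] at hn
      simp [hn]
    · have h1 := hasSum_single (f := fun n : ℕ => ⟪(if n = 0 then Ω else 0 : H),
        (x : H →L[ℂ] H) (if n = 0 then Ω else 0)⟫_ℂ) 0 (fun n hn => by simp [hn])
      simpa using h1

end

end H80VN
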