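import Pool.Agent.H80.VNCheeger

set_option autoImplicit false
set_option linter.unusedSectionVars false

/-!
# Gluing almost central projections
-/

universe u v

namespace H80VN

open scoped ComplexOrder Topology
open Filter Finset

attribute [local instance] CStarAlgebra.spectralOrder CStarAlgebra.spectralOrderedRing

variable {M : Type u} [CStarAlgebra M] [TracialVN M]

theorem n2_mul_le_of_norm_le_one_left {x : M} (hx : ‖x‖ ≤ 1) (y : M) : n2 (x * y) ≤ n2 y := by
  have h := n2_mul_le_left x y
  have h2 := n2_nonneg y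
  nlinarith

theorem n2_mul_le_of_norm_le_one_right (x : M) {y : M} (hy : ‖y‖ ≤ 1) : n2 (x * y) ≤ n2 x := by
  have h := n2_mul_le_right x y
  have h2 := n2_nonneg x
  nlinarith

theorem T2.cs2 {x : ℕ → M} {y : M} (h : T2 x y) (F : Finset M) :
    Tendsto (fun n => cs2 F (x n)) atTop (𝓝 (H80VN.cs2 F y)) := by
  unfold H80VN.cs2
  exact tendsto_finsetSum _ fun f _ => (((h.mul_right f).sub (h.mul_left f)).n2).pow 2

/-- A projection near an almost projection. -/
theorem near_proj {x : M} (hx : star x = x) {E : M} (hE : IsSpec x (1 / 2) E) :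
    n2 (E - x) ≤ 4 * n2 (x - x * x) := by
  have hsq : cfc (fun t : ℝ => t - t * t) x = x - x * x := by
    rw [fc_sub (f := fun t : ℝ => t) (g := fun t : ℝ => t * t) continuous_id' (by fun_prop),
      fc_mul continuous_id' continuous_id', fc_id hx]
  have hEx : E * x = x * E := hE.comm rfl
  have h1 : E - x = (1 - x) * E - x * (1 - E) := by
    rw [sub_mul, mul_sub, one_mul, mul_one]; abel
  have hc1 : Continuous (fun t : ℝ => 1 / max t (1 / 2)) := by
    refine Continuous.div continuous_const (by fun_prop) fun t => ?_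
    have : (0 : ℝ) < max t (1 / 2) := lt_max_of_lt_right (by norm_num)
    exact this.ne'
  have hc2 : Continuous (fun t : ℝ => 1 / max (1 - t) (1 / 2)) := by
    refine Continuous.div continuous_const (by fun_prop) fun t => ?_
    have : (0 : ℝ) < max (1 - t) (1 / 2) := lt_max_of_lt_right (by norm_num)
    exact this.ne'
  have hb : ∀ s : ℝ, |1 / max s (1 / 2)| ≤ 2 := by
    intro s
    have h0 : (1 / 2 : ℝ) ≤ max s (1 / 2) := le_max_right _ _
    rw [abs_of_pos (by positivity), div_le_iff₀ (by linarith)]
    linarith only [h0]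
  have e1 : (1 - x) * E = cfc (fun t : ℝ => 1 / max t (1 / 2)) x * (x - x * x) * E := by
    rw [← hsq, ← fc_mul hc1 (by fun_prop)]
    rw [← hE.ge (f := fun t : ℝ => 1 - t) (g := fun t : ℝ => 1 / max t (1 / 2) * (t - t * t))
      (by fun_prop) (hc1.mul (by fun_prop)) (fun t ht => by
      rw [max_eq_left ht]
      have : t ≠ 0 := by linarith only [ht]
      field_simp)]
    rw [fc_sub (f := fun _ : ℝ => 1) continuous_const continuous_id', fc_const hx, one_smul,
      fc_id hx]
  have e2 : x * (1 - E) = cfc (fun t : ℝ => 1 / max (1 - t) (1 / 2)) x * (x - x * x) * (1 - E) := by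
    rw [← hsq, ← fc_mul hc2 (by fun_prop)]
    rw [← hE.le (f := fun t : ℝ => t)
      (g := fun t : ℝ => 1 / max (1 - t) (1 / 2) * (t - t * t))
      (by fun_prop) (hc2.mul (by fun_prop)) (fun t ht => by
      rw [max_eq_left (by linarith only [ht])]
      have : 1 - t ≠ 0 := by linarith only [ht]
      field_simp)]
    rw [fc_id hx]
  rw [h1]
  refine (n2_sub_le _ _).trans ?_
  have h3 : n2 ((1 - x) * E) ≤ 2 * n2 (x - x * x) := by
    rw [e1]
    refine (n2_mul_le_of_norm_le_one_right _ hE.proj.norm_le).trans ?_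
    refine (n2_mul_le_left _ _).trans ?_
    have := fc_norm_le (c := 2) (by norm_num) (fun t => hb t) x
    have := n2_nonneg (x - x * x)
    gcongr
  have h4 : n2 (x * (1 - E)) ≤ 2 * n2 (x - x * x) := by
    rw [e2]
    refine (n2_mul_le_of_norm_le_one_right _ hE.proj.one_sub.norm_le).trans ?_
    refine (n2_mul_le_left _ _).trans ?_
    have := fc_norm_le (f := fun t : ℝ => 1 / max (1 - t) (1 / 2)) (c := 2) (by norm_num)
      (fun t => hb (1 - t)) x
    have := n2_nonneg (x - x * x)
    gcongr
  linarith only [h3, h4]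

theorem sub_one_unitary {p : M} (hp : Proj p) : (2 : ℝ) • p - 1 ∈ unitary M := by
  have hs : star ((2 : ℝ) • p - 1) = (2 : ℝ) • p - 1 := by
    rw [star_sub, star_smul, hp.star_eq, star_one]; simp
  have hm : ((2 : ℝ) • p - 1) * ((2 : ℝ) • p - 1) = 1 := by
    rw [sub_mul, mul_sub, mul_sub, smul_mul_smul_comm, hp.mul_self, mul_one, one_mul, mul_one]
    module
  rw [Unitary.mem_iff, hs]
  exact ⟨hm, hm⟩

theorem n2_comm_proj {f : M} (hf : f ∈ unitary M) {q : M} (hq : Proj q) :
    n2 (q * f - f * q) ^ 2 = 2 * (rt q - rt (q * (f * q * star f))) := by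
  have hqf := hq.conj (Unitary.star_mul_self_of_mem hf)
  rw [n2_comm_unitary hf, n2_sq_sub_sa hq.star_eq hqf.star_eq, hq.mul_self, hqf.mul_self]
  have : rt (f * q * star f) = rt q := by
    unfold rt
    rw [tr_conj hf]
  rw [this]
  ring

set_option maxHeartbeats 1000000 in
/-- Without a spectral gap there are almost central projections of trace between `1/16` and `1/2`. -/
theorem NoGap.proj_big (hM : IsFactor M) (hg : NoGap M) (F : Finset M)
    (hF : ∀ f ∈ F, f ∈ unitary M) {η : ℝ} (hη : 0 < η) :
    ∃ p, Proj p ∧ 1 / 16 ≤ rt p ∧ rt p ≤ 1 / 2 ∧ cs2 F p ≤ η * rt p := by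
  classical
  by_contra hcon
  push Not at hcon
  have hsmall : ∀ p, Proj p → rt p ≤ 1 / 2 → cs2 F p ≤ η * rt p → rt p < 1 / 16 := by
    intro p hp h1 h2
    by_contra h3
    push Not at h3
    have := hcon p hp h3 h1
    linarith only [h2, this]
  obtain ⟨p, ⟨hp, hp2, hpc⟩, _, hmax⟩ := exists_maximal_pi
    (fun p : M => Proj p ∧ rt p ≤ 1 / 2 ∧ cs2 F p ≤ η * rt p) (fun p h => h.1.pi)
    (by
      intro x y hx hxy hy
      have hys : star y = y := by
        have h1 := hxy.star
        simp only [fun n => (hx n).1.star_eq] at h1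
        exact h1.unique hxy
      refine ⟨⟨?_, hys⟩, ?_, ?_⟩
      · have h1 : T2 (fun n => x n * x n) (y * y) :=
          T2.mul (C := 1) (fun n => (hx n).1.norm_le) hxy hxy
        simp only [fun n => (hx n).1.mul_self] at h1
        exact h1.unique hxy
      · exact le_of_tendsto' hxy.tr_re fun n => (hx n).2.1
      · exact le_of_tendsto_of_tendsto' (hxy.cs2 F) (hxy.tr_re.const_mul η) fun n => (hx n).2.2) 0
    ⟨Proj.zero, by rw [rt_zero]; norm_num, by rw [rt_zero, cs2_zero]; simp⟩
  have hp16 := hsmall p hp hp2 hpc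
  obtain ⟨w, hw, hpw⟩ := exists_swap hM hp hp2
  -- parameters
  set κ : ℝ := min (1 / 100) √(η / (1000 * (F.card + 1))) with hκdef
  have hκ0 : 0 < κ := lt_min (by norm_num) (Real.sqrt_pos.2 (by positivity))
  have hκ1 : κ ≤ 1 / 100 := min_le_left _ _
  have hκ2 : κ ^ 2 ≤ η / (1000 * (F.card + 1)) := by
    have h1 : κ ^ 2 ≤ √(η / (1000 * (F.card + 1))) ^ 2 := by
      have := min_le_right (1 / 100) √(η / (1000 * ((F.card : ℝ) + 1)))
      gcongr
    rwa [Real.sq_sqrt (by positivity)] at h1
  have hκ3 : κ ^ 2 ≤ η := by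
    refine hκ2.trans ?_
    rw [div_le_iff₀ (by positivity)]
    have : (0 : ℝ) ≤ F.card := by positivity
    nlinarith only [hη]
  have hκ4 : F.card * (242 * κ ^ 2) ≤ η / 4 := by
    rw [le_div_iff₀ (by positivity)] at hκ2
    have : (0 : ℝ) ≤ κ ^ 2 := by positivity
    nlinarith only [hκ2]
  set F' : Finset M := insert w (insert ((2 : ℝ) • p - 1) F) with hF'
  obtain ⟨e, he, he0, he2, hec⟩ := hg.proj F' (by
    intro f hf
    rw [hF', Finset.mem_insert, Finset.mem_insert] at hf
    rcases hf with rfl | rfl | hf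
    · exact hw
    · exact sub_one_unitary hp
    · exact hF f hf) (show 0 < κ ^ 2 by positivity)
  set N := n2 e with hN
  have hN0 : 0 < N := n2_pos he0
  have hNe : N ^ 2 = rt e := he.n2_sq
  have hcomm : ∀ f ∈ F', n2 (e * f - f * e) ≤ κ * N := by
    intro f hf
    have h1 := (le_cs2 hf e).trans hec
    rw [← hNe, ← mul_pow] at h1
    exact (sq_le_sq₀ (n2_nonneg _) (by positivity)).1 h1
  have he16 : rt e < 1 / 16 := by
    refine hsmall e he he2 ?_
    have h1 : cs2 F e ≤ cs2 F' e := cs2_mono (by
      rw [hF']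
      exact (Finset.subset_insert _ _).trans (Finset.subset_insert _ _)) e
    have := he.rt_nonneg
    nlinarith only [hκ3, hec, hNe, h1]
  have hew : n2 (e * w - w * e) ≤ κ * N := hcomm w (by rw [hF']; exact Finset.mem_insert_self _ _)
  have hep : n2 (e * p - p * e) ≤ κ * N := by
    have h1 := hcomm ((2 : ℝ) • p - 1) (by
      rw [hF']; exact Finset.mem_insert_of_mem (Finset.mem_insert_self _ _))
    have h2 : e * ((2 : ℝ) • p - 1) - ((2 : ℝ) • p - 1) * e = (2 : ℝ) • (e * p - p * e) := by
      rw [mul_sub, sub_mul, mul_smul_comm, smul_mul_assoc, mul_one, one_mul]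
      module
    rw [h2, n2_rsmul, abs_of_pos (by norm_num : (0 : ℝ) < 2)] at h1
    have := n2_nonneg (e * p - p * e)
    linarith only [h1, this]
  have hef : ∀ f ∈ F, n2 (e * f - f * e) ≤ κ * N := fun f hf =>
    hcomm f (by rw [hF']; exact Finset.mem_insert_of_mem (Finset.mem_insert_of_mem hf))
  -- the compression
  have hp' := hp.one_sub
  set x : M := (1 - p) * e * (1 - p) with hx
  have hxs : star x = x := by
    rw [hx, star_mul, star_mul, hp'.star_eq, he.star_eq, mul_assoc]
  have hppe : n2 (p * e * (1 - p)) ≤ κ * N := by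
    have h1 : p * e * (1 - p) = p * (-(e * p - p * e)) := by
      rw [mul_sub, mul_one, neg_sub, mul_sub, ← mul_assoc, ← mul_assoc, hp.mul_self, mul_assoc]
    rw [h1]
    refine (n2_mul_le_of_norm_le_one_left hp.norm_le _).trans ?_
    rw [n2_neg]; exact hep
  have hppe' : n2 ((1 - p) * e * p) ≤ κ * N := by
    have h1 : (1 - p) * e * p = star (p * e * (1 - p)) := by
      rw [star_mul, star_mul, hp'.star_eq, he.star_eq, hp.star_eq, mul_assoc]
    rw [h1, n2_star]; exact hppe
  have hxx : n2 (x - x * x) ≤ κ * N := by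
    have h1 : x - x * x = (1 - p) * e * (p * e * (1 - p)) := by
      have h2 : x * x = (1 - p) * e * (1 - p) * e * (1 - p) := by
        calc x * x = (1 - p) * e * ((1 - p) * (1 - p)) * e * (1 - p) := by
              rw [hx]; simp only [mul_assoc]
          _ = _ := by rw [hp'.mul_self]
      have h3 : x = (1 - p) * e * e * (1 - p) := by rw [mul_assoc (1 - p) e e, he.mul_self]
      rw [h2, h3]
      noncomm_ring
    rw [h1]
    have h2 : ‖(1 - p) * e‖ ≤ 1 := by
      refine (norm_mul_le _ _).trans ?_
      have := hp'.norm_le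
      have := he.norm_le
      have := norm_nonneg (1 - p)
      have := norm_nonneg e
      nlinarith
    exact (n2_mul_le_of_norm_le_one_left h2 _).trans hppe
  obtain ⟨E, hE⟩ := exists_spec x (1 / 2)
  have hEp := hE.proj
  have hEx : n2 (E - x) ≤ 4 * (κ * N) := by
    have := near_proj hxs hE
    linarith only [hxx, this]
  have hE1 : n2 (E - (1 - p) * e) ≤ 5 * (κ * N) := by
    have h1 : E - (1 - p) * e = (E - x) - (1 - p) * e * p := by
      rw [hx]; noncomm_ring
    rw [h1]
    have := n2_sub_le (E - x) ((1 - p) * e * p)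
    linarith only [hppe', hEx, this]
  have hE2 : n2 (E - e * (1 - p)) ≤ 5 * (κ * N) := by
    have h1 : E - e * (1 - p) = star (E - (1 - p) * e) := by
      rw [star_sub, star_mul, hp'.star_eq, he.star_eq, hEp.star_eq]
    rw [h1, n2_star]; exact hE1
  have hpE : p * E = 0 := by
    have h1 := fc_self_spec hxs (by norm_num : (0 : ℝ) < 1 / 2) hE
    have h2 : p * x = 0 := by
      calc p * x = (p * (1 - p)) * e * (1 - p) := by rw [hx]; simp only [mul_assoc]
        _ = 0 := by
          rw [show p * (1 - p) = 0 by rw [mul_sub, mul_one, hp.mul_self, sub_self]]; simp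
    rw [← h1, ← mul_assoc, ← mul_assoc, h2, zero_mul, zero_mul]
  have hEp0 : E * p = 0 := by
    have := congrArg star hpE
    rwa [star_mul, hEp.star_eq, hp.star_eq, star_zero] at this
  have hNE : n2 E ≤ 2 * N := by
    have h1 : E = (E - (1 - p) * e) + (1 - p) * e := by abel
    have h2 := n2_add_le (E - (1 - p) * e) ((1 - p) * e)
    rw [← h1] at h2
    have h3 := n2_mul_le_of_norm_le_one_left hp'.norm_le e
    nlinarith only [hκ1, hN0, hE1, h2, h3]
  -- lower bound for the trace of `E`
  have hlow : (1 / 2 - κ) * N ^ 2 ≤ rt (e * (1 - p)) := by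
    have hww : star w * w = 1 := Unitary.star_mul_self_of_mem hw
    set g : M := w * p * star w with hg'
    have hgp : Proj g := hp.conj hww
    set e₁ : M := w * e * star w with he₁
    have he₁p : Proj e₁ := he.conj hww
    have hn1 : n2 e₁ = N := by rw [he₁, n2_conj hw]
    have hd : n2 (e₁ - e) ≤ κ * N := by
      have h1 := n2_comm_unitary hw e
      rw [n2_sub_comm, he₁, ← h1]; exact hew
    have h1 : rt (e * p) = rt (e₁ * g) := by
      have h2 : e₁ * g = w * (e * p) * star w := by
        calc e₁ * g = w * e * (star w * w) * p * star w := by rw [he₁, hg']; simp only [mul_assoc]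
          _ = _ := by rw [hww]; simp only [mul_one, mul_assoc]
      rw [h2]
      unfold rt
      rw [tr_conj hw]
    have h3 : rt (e₁ * g) - rt (e * g) ≤ 2 * (κ * N) * N := by
      rw [← rt_sub, ← sub_mul]
      have h4 : (e₁ - e) * g = e₁ * ((e₁ - e) * g) + (e₁ - e) * (e * g) := by
        have h5 : e₁ - e = e₁ * (e₁ - e) + (e₁ - e) * e := by
          rw [mul_sub, sub_mul, he₁p.mul_self, he.mul_self]; abel
        calc (e₁ - e) * g = (e₁ * (e₁ - e) + (e₁ - e) * e) * g := by rw [← h5]
          _ = _ := by rw [add_mul, mul_assoc e₁, mul_assoc (e₁ - e)]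
      rw [h4, rt_add]
      have h5 : rt (e₁ * ((e₁ - e) * g)) ≤ N * (κ * N) := by
        refine (le_abs_self _).trans ((abs_rt_le _ _).trans ?_)
        rw [hn1]
        have h6 := n2_mul_le_of_norm_le_one_right (e₁ - e) hgp.norm_le
        gcongr
        exact h6.trans hd
      have h6 : rt ((e₁ - e) * (e * g)) ≤ (κ * N) * N := by
        refine (le_abs_self _).trans ((abs_rt_le _ _).trans ?_)
        have h7 := n2_mul_le_of_norm_le_one_right e hgp.norm_le
        exact mul_le_mul hd h7 (n2_nonneg (e * g)) (mul_nonneg hκ0.le hN0.le)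
      linarith only [h5, h6]
    have h7 : rt (e * g) ≤ rt (e * (1 - p)) := by
      have hg1 : g * (1 - p) = g := by
        have : g * p = 0 := by
          have := congrArg star hpw
          rwa [star_mul, hp.star_eq, star_zero, hgp.star_eq] at this
        rw [mul_sub, mul_one, this, sub_zero]
      have h8 := rt_proj_mul_nonneg he (hgp.sub hp' hg1)
      rw [mul_sub, rt_sub] at h8
      linarith only [h8]
    have h9 : rt e = rt (e * p) + rt (e * (1 - p)) := by
      rw [← rt_add, ← mul_add, add_sub_cancel, mul_one]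
    rw [← hNe] at h9
    nlinarith only [h1, h3, h7, h9]
  have hNE' : 1 / 2 * N ≤ n2 E := by
    have h1 : n2 ((1 - p) * e) ^ 2 = rt (e * (1 - p)) := by
      rw [← rt_ssm, star_mul, hp'.star_eq, he.star_eq]
      calc rt (e * (1 - p) * ((1 - p) * e)) = rt (e * ((1 - p) * (1 - p)) * e) := by
            simp only [mul_assoc]
        _ = rt (e * (e * (1 - p))) := by rw [hp'.mul_self, rt_comm]
        _ = _ := by rw [← mul_assoc, he.mul_self]
    have h2 : (3 / 5 * N) ^ 2 ≤ n2 ((1 - p) * e) ^ 2 := by
      rw [h1]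
      have : 0 ≤ N ^ 2 := by positivity
      nlinarith only [hκ1, hlow]
    have h3 : 3 / 5 * N ≤ n2 ((1 - p) * e) := (sq_le_sq₀ (by positivity) (n2_nonneg _)).1 h2
    have h4 : (1 - p) * e = E - (E - (1 - p) * e) := by abel
    have h5 := n2_sub_le E (E - (1 - p) * e)
    rw [← h4] at h5
    nlinarith only [hκ1, hN0, hE1, h3, h5]
  -- the new projection
  set q := p + E with hq
  have hqp : Proj q := hp.add hEp hpE
  have hrtE : rt E = n2 E ^ 2 := hEp.n2_sq.symm
  have hrq : rt q ≤ 1 / 2 := by
    rw [hq, rt_add, hrtE]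
    have := n2_nonneg E
    nlinarith only [hp16, hNe, he16, hNE, hNE']
  have hcsq : cs2 F q ≤ η * rt q := by
    have key : ∀ f ∈ F, n2 (q * f - f * q) ^ 2 ≤ n2 (p * f - f * p) ^ 2 + 242 * κ ^ 2 * N ^ 2 := by
      intro f hf
      have hfu := hF f hf
      have hff : star f * f = 1 := Unitary.star_mul_self_of_mem hfu
      have hff' : f * star f = 1 := Unitary.mul_star_self_of_mem hfu
      rw [n2_comm_proj hfu hqp, n2_comm_proj hfu hp]
      have h1 : rt (q * (f * q * star f)) = rt (p * (f * p * star f)) + rt (p * (f * E * star f)) +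
          rt (E * (f * q * star f)) := by
        rw [← rt_add, ← rt_add, hq]
        congr 1
        noncomm_ring
      have h2 : 0 ≤ rt (p * (f * E * star f)) := rt_proj_mul_nonneg hp (hEp.conj hff)
      have hrp : Proj (1 - q) := hqp.one_sub
      have h3 : rt E - rt (E * (f * q * star f)) = n2 ((1 - q) * star f * E) ^ 2 := by
        rw [← rt_ssm, star_mul, star_mul, star_star, hrp.star_eq, hEp.star_eq, ← rt_sub]
        have h4 : E * (f * (1 - q)) * ((1 - q) * star f * E) =
            E * ((f * (1 - q) * star f) * E) := by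
          calc _ = E * f * ((1 - q) * (1 - q)) * star f * E := by simp only [mul_assoc]
            _ = _ := by rw [hrp.mul_self]; simp only [mul_assoc]
        rw [h4]
        have h5 : f * (1 - q) * star f = 1 - f * q * star f := by
          rw [mul_sub, mul_one, sub_mul, hff']
        have h6 : rt (E * (f * (1 - q) * star f * E)) = rt (E * (f * (1 - q) * star f)) := by
          rw [rt_comm E, mul_assoc (f * (1 - q) * star f), hEp.mul_self, rt_comm]
        rw [h6, h5, mul_sub, mul_one]
      have h4 : n2 ((1 - q) * star f * E) ≤ 11 * (κ * N) := by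
        have e1 : (1 - q) * star f * E = (1 - q) * star f * (E - e * (1 - p)) +
            (1 - q) * (star f * e - e * star f) * (1 - p) +
            ((1 - q) * e) * (star f * (1 - p)) := by
          noncomm_ring
        have hsf : ‖star f‖ ≤ 1 := (norm_unitary (Unitary.star_mem hfu)).le
        have b1 : n2 ((1 - q) * star f * (E - e * (1 - p))) ≤ 5 * (κ * N) := by
          rw [mul_assoc]
          refine (n2_mul_le_of_norm_le_one_left hrp.norm_le _).trans ?_
          exact (n2_mul_le_of_norm_le_one_left hsf _).trans hE2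
        have b2 : n2 ((1 - q) * (star f * e - e * star f) * (1 - p)) ≤ κ * N := by
          refine (n2_mul_le_of_norm_le_one_right _ hp'.norm_le).trans ?_
          refine (n2_mul_le_of_norm_le_one_left hrp.norm_le _).trans ?_
          have h5 := comm_star e f
          rw [he.star_eq] at h5
          rw [n2_sub_comm, ← h5]
          exact hef f hf
        have b3 : n2 (((1 - q) * e) * (star f * (1 - p))) ≤ 5 * (κ * N) := by
          have hn : ‖star f * (1 - p)‖ ≤ 1 := by
            refine (norm_mul_le _ _).trans ?_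
            have := hp'.norm_le
            have := norm_nonneg (1 - p)
            have := norm_nonneg (star f)
            nlinarith
          refine (n2_mul_le_of_norm_le_one_right _ hn).trans ?_
          have h5 : (1 - q) * e = -((E - (1 - p) * e) * e) := by
            rw [hq, sub_mul (E), mul_assoc (1 - p), he.mul_self]
            noncomm_ring
          rw [h5, n2_neg]
          exact (n2_mul_le_of_norm_le_one_right _ he.norm_le).trans hE1
        rw [e1]
        have c1 := n2_add_le ((1 - q) * star f * (E - e * (1 - p)) +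
            (1 - q) * (star f * e - e * star f) * (1 - p)) (((1 - q) * e) * (star f * (1 - p)))
        have c2 := n2_add_le ((1 - q) * star f * (E - e * (1 - p)))
            ((1 - q) * (star f * e - e * star f) * (1 - p))
        linarith only [b1, b2, b3, c1, c2]
      have h5 : n2 ((1 - q) * star f * E) ^ 2 ≤ (11 * (κ * N)) ^ 2 := by
        have := n2_nonneg ((1 - q) * star f * E)
        gcongr
      have h6 : rt q = rt p + rt E := by rw [hq, rt_add]
      rw [h1, h6]
      nlinarith only [h2, h3, h5]
    have h1 : cs2 F q ≤ cs2 F p + F.card * (242 * κ ^ 2 * N ^ 2) := by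
      unfold cs2
      calc _ ≤ ∑ f ∈ F, (n2 (p * f - f * p) ^ 2 + 242 * κ ^ 2 * N ^ 2) :=
            Finset.sum_le_sum key
        _ = _ := by rw [Finset.sum_add_distrib, Finset.sum_const, nsmul_eq_mul]
    have h2 : (1 / 2 * N) ^ 2 ≤ rt E := by
      rw [hrtE]
      gcongr
    have h3 : F.card * (242 * κ ^ 2 * N ^ 2) ≤ η / 4 * N ^ 2 := by
      have : 0 ≤ N ^ 2 := by positivity
      nlinarith only [hκ4]
    have h4 : rt q = rt p + rt E := by rw [hq, rt_add]
    rw [h4]
    nlinarith only [hη, hpc, h1, h2, h3]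
  have h1 := hmax q ⟨hqp, hrq, hcsq⟩ ((ext_proj hp).2 (by rw [hq, add_mul, hp.mul_self, hEp0, add_zero]))
  have h2 : E = 0 := by
    rw [hq] at h1
    simpa using h1
  rw [h2, n2_zero] at hNE'
  linarith only [hN0, hNE']

end H80VN
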