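import Pool.Agent.H80.VNDef
import Pool.Agent.H80.VNContra

set_option autoImplicit false
set_option linter.unusedSectionVars false

/-!
# Von Neumann algebras on Hilbert spaces with a tracial state
-/

universe u v w

namespace H80VN

open scoped ComplexOrder Topology InnerProductSpace
open Filter

section sot

variable {H : Type u} [NormedAddCommGroup H] [InnerProductSpace ℂ H] [CompleteSpace H]

theorem isClosed_vn (Q : VonNeumannAlgebra H) : IsClosed (Q.toStarSubalgebra : Set (H →L[ℂ] H)) := by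
  have h : (Q.toStarSubalgebra : Set (H →L[ℂ] H)) =
      ⋂ s ∈ Set.centralizer (Q.toStarSubalgebra : Set (H →L[ℂ] H)), {x | s * x = x * s} := by
    have h1 := Q.centralizer_centralizer'
    ext x
    simp only [Set.mem_iInter, Set.mem_ofPred_eq]
    constructor
    · intro hx s hs
      exact (hs x hx).symm
    · intro hx
      have : x ∈ Set.centralizer (Set.centralizer Q.carrier) := fun s hs => hx s hs
      rw [h1] at this
      exact this
  rw [h]
  exact isClosed_biInter fun s _ => isClosed_eq (by fun_prop) (by fun_prop)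

theorem mem_vn_of_comm (Q : VonNeumannAlgebra H) {x : H →L[ℂ] H}
    (hx : ∀ s, (∀ y ∈ Q.toStarSubalgebra, y * s = s * y) → s * x = x * s) :
    x ∈ Q.toStarSubalgebra := by
  have h1 := Q.centralizer_centralizer'
  have : x ∈ Set.centralizer (Set.centralizer Q.carrier) := fun s hs => hx s hs
  rw [h1] at this
  exact this

/-- Strong limits of sequences in the unit ball of a von Neumann algebra. -/
theorem sot_limit (Q : VonNeumannAlgebra H) (x : ℕ → H →L[ℂ] H)
    (hx : ∀ n, x n ∈ Q.toStarSubalgebra) (h1 : ∀ n, ‖x n‖ ≤ 1) (D : Set H)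
    (hD : Dense (Submodule.span ℂ D : Set H)) (hc : ∀ ζ ∈ D, CauchySeq fun n => x n ζ) :
    ∃ y ∈ Q.toStarSubalgebra, ‖y‖ ≤ 1 ∧ ∀ ζ, Tendsto (fun n => x n ζ) atTop (𝓝 (y ζ)) := by
  have hspan : ∀ ζ ∈ Submodule.span ℂ D, CauchySeq fun n => x n ζ := by
    intro ζ hζ
    induction hζ using Submodule.span_induction with
    | mem ζ hζ => exact hc ζ hζ
    | zero => simp [cauchySeq_const]
    | add a b _ _ ha hb =>
      obtain ⟨l, hl⟩ := cauchySeq_tendsto_of_complete ha
      obtain ⟨l', hl'⟩ := cauchySeq_tendsto_of_complete hb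
      refine Tendsto.cauchySeq (x := l + l') ?_
      simpa using hl.add hl'
    | smul c a _ ha =>
      obtain ⟨l, hl⟩ := cauchySeq_tendsto_of_complete ha
      refine Tendsto.cauchySeq (x := c • l) ?_
      simpa using hl.const_smul c
  have hall : ∀ ζ, CauchySeq fun n => x n ζ := by
    intro ζ
    rw [Metric.cauchySeq_iff]
    intro ε hε
    obtain ⟨ζ', hζ', hd⟩ := Metric.dense_iff.1 hD ζ (ε / 3) (by positivity)
    obtain ⟨N, hN⟩ := Metric.cauchySeq_iff.1 (hspan ζ' hd) (ε / 3) (by positivity)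
    refine ⟨N, fun m hm n hn => ?_⟩
    have h2 : ∀ k, dist (x k ζ) (x k ζ') ≤ dist ζ ζ' := by
      intro k
      rw [dist_eq_norm, dist_eq_norm, ← map_sub]
      exact ((x k).le_opNorm _).trans (by
        have := norm_nonneg (ζ - ζ')
        have := h1 k
        nlinarith)
    have h3 := hN m hm n hn
    have h4 := h2 m
    have h5 := h2 n
    have h6 : dist ζ ζ' < ε / 3 := by
      rw [dist_comm]; exact hζ'
    calc dist (x m ζ) (x n ζ) ≤ dist (x m ζ) (x m ζ') + dist (x m ζ') (x n ζ') +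
          dist (x n ζ') (x n ζ) := dist_triangle4 _ _ _ _
      _ < ε := by
        rw [dist_comm (x n ζ')]
        linarith
  choose f hf using fun ζ => cauchySeq_tendsto_of_complete (hall ζ)
  let y : H →L[ℂ] H := LinearMap.mkContinuous
    { toFun := f
      map_add' := fun a b => by
        refine tendsto_nhds_unique (hf (a + b)) ?_
        simpa using (hf a).add (hf b)
      map_smul' := fun c a => by
        refine tendsto_nhds_unique (hf (c • a)) ?_
        simpa using (hf a).const_smul c } 1 (fun ζ => by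
      refine le_of_tendsto' (hf ζ).norm fun n => ?_
      exact ((x n).le_opNorm ζ).trans (mul_le_mul_of_nonneg_right (h1 n) (norm_nonneg _)))
  have hy : ∀ ζ, Tendsto (fun n => x n ζ) atTop (𝓝 (y ζ)) := hf
  refine ⟨y, mem_vn_of_comm Q fun s hs => ?_, LinearMap.mkContinuous_norm_le _ zero_le_one _, hy⟩
  ext ζ
  have a1 : Tendsto (fun n => s (x n ζ)) atTop (𝓝 (s (y ζ))) := (s.continuous.tendsto _).comp (hy ζ)
  have a2 : Tendsto (fun n => x n (s ζ)) atTop (𝓝 (y (s ζ))) := hy (s ζ)
  have a3 : (fun n => s (x n ζ)) = fun n => x n (s ζ) := by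
    funext n
    have := hs (x n) (hx n)
    exact (congrArg (fun T : H →L[ℂ] H => T ζ) this).symm
  rw [a3] at a1
  exact tendsto_nhds_unique a1 a2

end sot

namespace TracialVNA

variable (M : TracialVNA.{u})

/-- A sequence of vectors implementing the trace. -/
theorem exists_vectors : ∃ ξ : ℕ → M.H, Summable (fun n => ‖ξ n‖ ^ 2) ∧
    (∀ x : M.El, HasSum (fun n => ‖(x : M.H →L[ℂ] M.H) (ξ n)‖ ^ 2) (M.tr (star x * x)).re) ∧
    Dense (Submodule.span ℂ {ζ | ∃ (s : M.H →L[ℂ] M.H) (n : ℕ),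
      (∀ y ∈ M.alg.toStarSubalgebra, y * s = s * y) ∧ ζ = s (ξ n)} : Set M.H) := by
  obtain ⟨ξ, hξ, hsum⟩ := M.normal
  have hsq : ∀ x : M.El, HasSum (fun n => ‖(x : M.H →L[ℂ] M.H) (ξ n)‖ ^ 2)
      (M.tr (star x * x)).re := by
    intro x
    have h1 := Complex.hasSum_re (hsum (star x * x))
    have h2 : (fun n => (⟪ξ n, ((star x * x : M.El) : M.H →L[ℂ] M.H) (ξ n)⟫_ℂ).re) =
        fun n => ‖(x : M.H →L[ℂ] M.H) (ξ n)‖ ^ 2 := by
      funext n
      have h3 : ((star x * x : M.El) : M.H →L[ℂ] M.H) (ξ n) =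
          ContinuousLinearMap.adjoint (x : M.H →L[ℂ] M.H) ((x : M.H →L[ℂ] M.H) (ξ n)) := rfl
      rw [h3, ContinuousLinearMap.adjoint_inner_right]
      exact (norm_sq_eq_re_inner (𝕜 := ℂ) _).symm
    rw [h2] at h1
    exact h1
  refine ⟨ξ, hξ, hsq, ?_⟩
  set D : Set M.H := {ζ | ∃ (s : M.H →L[ℂ] M.H) (n : ℕ),
      (∀ y ∈ M.alg.toStarSubalgebra, y * s = s * y) ∧ ζ = s (ξ n)} with hD
  set V : Submodule ℂ M.H := (Submodule.span ℂ D).topologicalClosure with hV
  have hVcl : IsClosed (V : Set M.H) := Submodule.isClosed_topologicalClosure _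
  have : CompleteSpace V := hVcl.completeSpace_coe
  have hinv : ∀ s : M.H →L[ℂ] M.H, (∀ y ∈ M.alg.toStarSubalgebra, y * s = s * y) →
      ∀ ζ ∈ V, s ζ ∈ V := by
    intro s hs ζ hζ
    have h1 : ∀ ζ ∈ Submodule.span ℂ D, s ζ ∈ Submodule.span ℂ D := by
      intro ζ hζ
      induction hζ using Submodule.span_induction with
      | mem ζ hζ =>
        obtain ⟨s', n, hs', rfl⟩ := hζ
        refine Submodule.subset_span ⟨s * s', n, fun y hy => ?_, rfl⟩
        rw [← mul_assoc, hs y hy, mul_assoc, hs' y hy, mul_assoc]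
      | zero => simp
      | add a b _ _ ha hb => rw [map_add]; exact add_mem ha hb
      | smul c a _ ha => rw [map_smul]; exact Submodule.smul_mem _ _ ha
    exact map_mem_closure s.continuous hζ h1
  set p : M.H →L[ℂ] M.H := V.starProjection with hp
  have hpV : ∀ ζ ∈ V, p ζ = ζ := fun ζ hζ => Submodule.starProjection_eq_self_iff.2 hζ
  have hpsa : star p = p := (isStarProjection_starProjection (U := V)).isSelfAdjoint.star_eq
  have hpp : p * p = p := (isStarProjection_starProjection (U := V)).isIdempotentElem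
  have hps : ∀ s : M.H →L[ℂ] M.H, (∀ y ∈ M.alg.toStarSubalgebra, y * s = s * y) →
      p * s * p = s * p := by
    intro s hs
    ext ζ
    exact hpV _ (hinv s hs _ (Submodule.starProjection_apply_mem V ζ))
  have hpM : p ∈ M.alg.toStarSubalgebra := by
    refine mem_vn_of_comm M.alg fun s hs => ?_
    have hs' : ∀ y ∈ M.alg.toStarSubalgebra, y * star s = star s * y := by
      intro y hy
      have := congrArg star (hs (star y) (star_mem hy))
      rw [star_mul, star_mul, star_star] at this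
      exact this.symm
    have h1 := hps s hs
    have h2 := congrArg star (hps (star s) hs')
    rw [star_mul, star_mul, star_mul, star_star, hpsa] at h2
    rw [← h1, mul_assoc, h2]
  -- the complement has trace zero
  set q : M.El := ⟨1 - p, sub_mem (one_mem _) hpM⟩ with hq
  have hqtr : M.tr (star q * q) = 0 := by
    have h1 := hsum (star q * q)
    have h2 : ∀ n, ((star q * q : M.El) : M.H →L[ℂ] M.H) (ξ n) = 0 := by
      intro n
      have h3 : (q : M.H →L[ℂ] M.H) (ξ n) = 0 := by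
        show (1 - p) (ξ n) = 0
        have h4 : ξ n ∈ V := by
          refine Submodule.le_topologicalClosure _ (Submodule.subset_span ⟨1, n, fun y _ => ?_, rfl⟩)
          rw [mul_one, one_mul]
        rw [sub_apply, hpV _ h4]
        exact sub_self _
      show (star (q : M.H →L[ℂ] M.H)) ((q : M.H →L[ℂ] M.H) (ξ n)) = 0
      rw [h3, map_zero]
    simp only [h2, inner_zero_right] at h1
    exact h1.unique hasSum_zero
  have hq0 := M.faithful q hqtr
  have hp1 : p = 1 := by
    have := congrArg Subtype.val hq0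
    simp only [hq] at this
    exact (sub_eq_zero.1 this).symm
  rw [dense_iff_closure_eq]
  ext ζ
  simp only [Set.mem_univ, iff_true]
  have h1 : ζ ∈ V := by
    rw [← Submodule.starProjection_eq_self_iff, ← hp, hp1]
    rfl
  exact h1

theorem ball_complete' (x : ℕ → M.El) (hx : ∀ n, ‖(x n : M.H →L[ℂ] M.H)‖ ≤ 1)
    (hc : ∀ ε : ℝ, 0 < ε → ∃ N, ∀ m ≥ N, ∀ n ≥ N,
      √(M.tr (star (x m - x n) * (x m - x n))).re < ε) :
    ∃ y : M.El, ‖(y : M.H →L[ℂ] M.H)‖ ≤ 1 ∧ ∀ ε : ℝ, 0 < ε → ∃ N, ∀ n ≥ N,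
      √(M.tr (star (x n - y) * (x n - y))).re < ε := by
    obtain ⟨ξ, hξ, hsq, hD⟩ := M.exists_vectors
    set D : Set M.H := {ζ | ∃ (s : M.H →L[ℂ] M.H) (n : ℕ),
      (∀ y ∈ M.alg.toStarSubalgebra, y * s = s * y) ∧ ζ = s (ξ n)} with hDdef
    have hnn : ∀ y : M.El, 0 ≤ (M.tr (star y * y)).re := fun y =>
      (Complex.le_def.1 (M.nonneg y)).1
    have hle : ∀ (y : M.El) (k : ℕ), ‖(y : M.H →L[ℂ] M.H) (ξ k)‖ ≤ √(M.tr (star y * y)).re := by
      intro y k
      refine Real.le_sqrt_of_sq_le ?_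
      exact le_hasSum (hsq y) k fun _ _ => by positivity
    have hcau : ∀ ζ ∈ D, CauchySeq fun n => ((x n : M.El) : M.H →L[ℂ] M.H) ζ := by
      rintro _ ⟨s, k, hs, rfl⟩
      rw [Metric.cauchySeq_iff]
      intro ε hε
      obtain ⟨N, hN⟩ := hc (ε / (‖s‖ + 1)) (by positivity)
      refine ⟨N, fun m hm n hn => ?_⟩
      have h1 : ((x m : M.El) : M.H →L[ℂ] M.H) (s (ξ k)) - ((x n : M.El) : M.H →L[ℂ] M.H) (s (ξ k)) =
          s (((x m - x n : M.El) : M.H →L[ℂ] M.H) (ξ k)) := by
        have e1 : ∀ y : M.El, (y : M.H →L[ℂ] M.H) (s (ξ k)) = s ((y : M.H →L[ℂ] M.H) (ξ k)) :=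
          fun y => congrArg (fun T : M.H →L[ℂ] M.H => T (ξ k)) (hs y y.2)
        rw [e1, e1, ← map_sub]
        rfl
      rw [dist_eq_norm, h1]
      have h2 := hN m hm n hn
      have h3 := hle (x m - x n) k
      have h4 := s.le_opNorm (((x m - x n : M.El) : M.H →L[ℂ] M.H) (ξ k))
      have h5 : ‖((x m - x n : M.El) : M.H →L[ℂ] M.H) (ξ k)‖ < ε / (‖s‖ + 1) := h3.trans_lt h2
      have h6 : 0 < ‖s‖ + 1 := by positivity
      rw [lt_div_iff₀ h6] at h5
      have h7 := norm_nonneg (((x m - x n : M.El) : M.H →L[ℂ] M.H) (ξ k))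
      nlinarith only [h4, h5, h7]
    obtain ⟨y, hy, hy1, hlim⟩ := sot_limit M.alg (fun n => ((x n : M.El) : M.H →L[ℂ] M.H))
      (fun n => (x n).2) hx D hD hcau
    set Y : M.El := ⟨y, hy⟩ with hY
    refine ⟨Y, hy1, fun ε hε => ?_⟩
    obtain ⟨N, hN⟩ := hc (ε / 2) (by positivity)
    refine ⟨N, fun n hn => ?_⟩
    have h1 : (M.tr (star (x n - Y) * (x n - Y))).re ≤ (ε / 2) ^ 2 := by
      have hs := hsq (x n - Y)
      refine hasSum_le_of_sum_le hs fun s => ?_
      have h2 : Tendsto (fun m => ∑ k ∈ s, ‖((x n - x m : M.El) : M.H →L[ℂ] M.H) (ξ k)‖ ^ 2) atTop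
          (𝓝 (∑ k ∈ s, ‖((x n - Y : M.El) : M.H →L[ℂ] M.H) (ξ k)‖ ^ 2)) := by
        refine tendsto_finsetSum _ fun k _ => ?_
        have h3 : Tendsto (fun m => ((x n : M.El) : M.H →L[ℂ] M.H) (ξ k) -
            ((x m : M.El) : M.H →L[ℂ] M.H) (ξ k)) atTop
            (𝓝 (((x n : M.El) : M.H →L[ℂ] M.H) (ξ k) - y (ξ k))) :=
          tendsto_const_nhds.sub (hlim (ξ k))
        exact h3.norm.pow 2
      refine le_of_tendsto h2 ?_
      filter_upwards [eventually_ge_atTop N] with m hm
      have h3 := hN n hn m hm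
      have h4 := sum_le_hasSum s (fun _ _ => by positivity) (hsq (x n - x m))
      refine h4.trans ?_
      have h5 := Real.sqrt_nonneg (M.tr (star (x n - x m) * (x n - x m))).re
      have h6 := Real.sq_sqrt (hnn (x n - x m))
      rw [← h6]
      gcongr
    have h2 : √(M.tr (star (x n - Y) * (x n - Y))).re ≤ ε / 2 :=
      Real.sqrt_le_iff.2 ⟨by positivity, h1⟩
    exact h2.trans_lt (by linarith only [hε])

noncomputable instance : CStarAlgebra M.El :=
  StarSubalgebra.cstarAlgebra _ (h_closed := isClosed_vn M.alg)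

theorem norm_coe (x : M.El) : ‖(x : M.H →L[ℂ] M.H)‖ = ‖x‖ := rfl

noncomputable instance : TracialVN M.El where
  tr := M.tr
  tr_one := M.tr_one
  tr_nonneg := M.nonneg
  tr_comm := M.tracial
  tr_faithful := M.faithful
  ball_complete := M.ball_complete'

theorem tr_def (x : M.El) : H80VN.tr x = M.tr x := rfl

end TracialVNA

end H80VN
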