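import Pool.Agent.H80.VNGamma

set_option autoImplicit false
set_option linter.unusedSectionVars false

/-!
# Matrix units and the relative commutant
-/

universe u v

namespace H80VN

open scoped ComplexOrder Topology
open Filter Finset

attribute [local instance] CStarAlgebra.spectralOrder CStarAlgebra.spectralOrderedRing

variable {M : Type u} [CStarAlgebra M] [TracialVN M]

section units

variable {n : ℕ} (ψ : Matrix (Fin n) (Fin n) ℂ →⋆ₐ[ℂ] M)

/-- Matrix units. -/
noncomputable def mu (a b : Fin n) : M := ψ (Matrix.single a b 1)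

theorem mu_mul (a b c d : Fin n) : mu ψ a b * mu ψ c d = if b = c then mu ψ a d else 0 := by
  unfold mu
  rw [← map_mul]
  split_ifs with h
  · rw [h, Matrix.single_mul_single_same, mul_one]
  · rw [Matrix.single_mul_single_of_ne _ _ _ _ h, map_zero]

theorem sum_mu : ∑ a, mu ψ a a = 1 := by
  unfold mu
  rw [← map_sum, ← map_one ψ]
  congr 1
  ext i j
  rw [Matrix.sum_apply, Matrix.one_apply]
  by_cases h : i = j
  · subst h
    rw [Finset.sum_eq_single i]
    · simp
    · intro b _ hb
      rw [Matrix.single_apply_of_ne]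
      tauto
    · simp
  · rw [if_neg h]
    refine Finset.sum_eq_zero fun b _ => ?_
    rw [Matrix.single_apply_of_ne]
    rintro ⟨rfl, rfl⟩
    exact h rfl

theorem star_mu (a b : Fin n) : star (mu ψ a b) = mu ψ b a := by
  unfold mu
  rw [← map_star, Matrix.star_eq_conjTranspose, Matrix.conjTranspose_single, star_one]

theorem psi_eq (m : Matrix (Fin n) (Fin n) ℂ) : ψ m = ∑ a, ∑ b, m a b • mu ψ a b := by
  unfold mu
  conv_lhs => rw [Matrix.matrix_eq_sum_single m]
  rw [map_sum]
  refine Finset.sum_congr rfl fun a _ => ?_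
  rw [map_sum]
  refine Finset.sum_congr rfl fun b _ => ?_
  rw [← map_smul, Matrix.smul_single, smul_eq_mul, mul_one]

theorem tr_mu (a b : Fin n) : tr (mu ψ a b) = if a = b then (1 / n : ℂ) else 0 := by
  have hn : (n : ℂ) ≠ 0 := by
    have : 0 < n := a.pos
    exact_mod_cast this.ne'
  split_ifs with h
  · subst h
    have h1 : ∀ b, tr (mu ψ b b) = tr (mu ψ a a) := by
      intro b
      have e1 : mu ψ a a = mu ψ a b * mu ψ b a := by rw [mu_mul, if_pos rfl]
      have e2 : mu ψ b b = mu ψ b a * mu ψ a b := by rw [mu_mul, if_pos rfl]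
      rw [e1, e2, tr_comm]
    have h2 : tr (∑ b, mu ψ b b) = 1 := by rw [sum_mu, tr_one]
    rw [map_sum, Finset.sum_congr rfl (fun b _ => h1 b), Finset.sum_const, Finset.card_univ,
      Fintype.card_fin, nsmul_eq_mul] at h2
    rw [eq_div_iff hn, mul_comm]
    exact h2
  · have e1 : mu ψ a b = mu ψ a a * mu ψ a b := by rw [mu_mul, if_pos rfl]
    rw [e1, tr_comm, mu_mul, if_neg (Ne.symm h), map_zero]

theorem comm_of_comm_mu {y : M} (h : ∀ a b, y * mu ψ a b = mu ψ a b * y)
    (m : Matrix (Fin n) (Fin n) ℂ) : y * ψ m = ψ m * y := by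
  rw [psi_eq, Finset.mul_sum, Finset.sum_mul]
  refine Finset.sum_congr rfl fun a _ => ?_
  rw [Finset.mul_sum, Finset.sum_mul]
  refine Finset.sum_congr rfl fun b _ => ?_
  rw [mul_smul_comm, smul_mul_assoc, h]

/-- The coefficients of an element over matrix units. -/
noncomputable def coef (x : M) (a c : Fin n) : M := ∑ d, mu ψ d a * x * mu ψ c d

theorem coef_comm (x : M) (a c p q : Fin n) :
    coef ψ x a c * mu ψ p q = mu ψ p q * coef ψ x a c := by
  unfold coef
  rw [Finset.sum_mul, Finset.mul_sum, Finset.sum_eq_single p, Finset.sum_eq_single q]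
  · rw [mul_assoc, mu_mul, if_pos rfl, ← mul_assoc, ← mul_assoc, mu_mul, if_pos rfl]
  · intro d _ hd
    rw [← mul_assoc, ← mul_assoc, mu_mul, if_neg (Ne.symm hd)]; simp
  · simp
  · intro d _ hd
    rw [mul_assoc, mu_mul, if_neg hd, mul_zero]
  · simp

theorem sum_coef (x : M) : ∑ a, ∑ c, coef ψ x a c * mu ψ a c = x := by
  unfold coef
  have h1 : ∀ a c, (∑ d, mu ψ d a * x * mu ψ c d) * mu ψ a c = mu ψ a a * x * mu ψ c c := by
    intro a c
    rw [Finset.sum_mul, Finset.sum_eq_single a]
    · rw [mul_assoc, mu_mul, if_pos rfl]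
    · intro d _ hd
      rw [mul_assoc, mu_mul, if_neg hd, mul_zero]
    · simp
  simp only [h1]
  have h2 : ∀ a, ∑ c, mu ψ a a * x * mu ψ c c = mu ψ a a * x := by
    intro a
    rw [← Finset.mul_sum, sum_mu, mul_one]
  simp only [h2]
  rw [← Finset.sum_mul, sum_mu, one_mul]

/-- The bicommutant of a matrix algebra in a factor. -/
theorem mem_range_of_comm (hM : IsFactor M) {b : M}
    (hb : ∀ y : M, (∀ m, y * ψ m = ψ m * y) → b * y = y * b) : ∃ m, ψ m = b := by
  have hcoef : ∀ a c, ∃ β : ℂ, coef ψ b a c = β • (1 : M) := by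
    intro a c
    apply hM
    have h1 : ∀ y : M, (∀ m, y * ψ m = ψ m * y) → coef ψ b a c * y = y * coef ψ b a c := by
      intro y hy
      unfold coef
      rw [Finset.sum_mul, Finset.mul_sum]
      refine Finset.sum_congr rfl fun d _ => ?_
      have e1 : ∀ p q, y * mu ψ p q = mu ψ p q * y := fun p q => hy _
      calc mu ψ d a * b * mu ψ c d * y = mu ψ d a * b * (mu ψ c d * y) := by rw [mul_assoc]
        _ = mu ψ d a * (b * y) * mu ψ c d := by rw [← e1]; simp only [mul_assoc]
        _ = (mu ψ d a * y) * b * mu ψ c d := by rw [hb y hy]; simp only [mul_assoc]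
        _ = y * (mu ψ d a * b * mu ψ c d) := by rw [← e1]; simp only [mul_assoc]
    intro m
    have h2 : ∀ p q, coef ψ b a c * (coef ψ m p q * mu ψ p q) =
        coef ψ m p q * mu ψ p q * coef ψ b a c := by
      intro p q
      rw [← mul_assoc, h1 _ (fun m' => comm_of_comm_mu ψ (fun p' q' => coef_comm ψ m p q p' q') m'),
        mul_assoc, coef_comm, mul_assoc]
    rw [← sum_coef ψ m, Finset.mul_sum, Finset.sum_mul]
    refine Finset.sum_congr rfl fun p _ => ?_
    rw [Finset.mul_sum, Finset.sum_mul]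
    exact Finset.sum_congr rfl fun q _ => h2 p q
  choose β hβ using hcoef
  refine ⟨Matrix.of β, ?_⟩
  rw [psi_eq]
  conv_rhs => rw [← sum_coef ψ b]
  refine Finset.sum_congr rfl fun a _ => Finset.sum_congr rfl fun c _ => ?_
  rw [hβ, smul_mul_assoc, one_mul]
  rfl

/-- The relative commutant of a matrix algebra is spanned by its unitaries. -/
theorem comm_of_comm_unitaries {b : M}
    (hb : ∀ u ∈ unitary M, (∀ m, u * ψ m = ψ m * u) → u * b = b * u) (y : M)
    (hy : ∀ m, y * ψ m = ψ m * y) : b * y = y * b := by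
  let S : StarSubalgebra ℂ M := StarSubalgebra.centralizer ℂ (Set.range ψ)
  have hS : ∀ x, x ∈ S ↔ ∀ m, ψ m * x = x * ψ m := by
    intro x
    rw [StarSubalgebra.mem_centralizer_iff]
    constructor
    · intro h m
      exact (h _ ⟨m, rfl⟩).1
    · rintro h _ ⟨m, rfl⟩
      refine ⟨h m, ?_⟩
      rw [← map_star]
      exact h _
  have hcl : IsClosed (S : Set M) := by
    have : (S : Set M) = ⋂ m, {x | ψ m * x = x * ψ m} := by
      ext x
      simp only [Set.mem_iInter, Set.mem_ofPred_eq, SetLike.mem_coe]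
      exact hS x
    rw [this]
    exact isClosed_iInter fun m => isClosed_eq (by fun_prop) (by fun_prop)
  let _ : CStarAlgebra S := StarSubalgebra.cstarAlgebra S (h_closed := hcl)
  obtain ⟨u, c, hyu, _⟩ := CStarAlgebra.exists_sum_four_unitary
    (⟨y, (hS y).2 fun m => (hy m).symm⟩ : S)
  have h1 : y = ∑ i, c i • ((u i : S) : M) := by
    have := congrArg (fun z : S => (z : M)) hyu
    simp only at this
    rw [this]
    have e1 : ∀ s : Finset (Fin 4), ((∑ i ∈ s, c i • (u i : S) : S) : M) =
        ∑ i ∈ s, c i • ((u i : S) : M) := by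
      intro s
      induction s using Finset.induction_on with
      | empty => rfl
      | insert a s ha ih =>
        rw [Finset.sum_insert ha, Finset.sum_insert ha, ← ih]
        rfl
    exact e1 _
  have h2 : ∀ i, ((u i : S) : M) ∈ unitary M := by
    intro i
    have := (u i).2
    rw [Unitary.mem_iff] at this ⊢
    exact ⟨congrArg Subtype.val this.1, congrArg Subtype.val this.2⟩
  rw [h1, Finset.mul_sum, Finset.sum_mul]
  refine Finset.sum_congr rfl fun i _ => ?_
  rw [mul_smul_comm, smul_mul_assoc,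
    hb _ (h2 i) fun m => ((hS _).1 (u i : S).2 m).symm]

end units

end H80VN
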