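import Pool.Agent.H80.VNDiffuse

set_option autoImplicit false
set_option linter.unusedSectionVars false

/-!
# Bounded orthonormal families
-/

universe u v

namespace H80VN

open scoped ComplexOrder Topology
open Filter

attribute [local instance] CStarAlgebra.spectralOrder CStarAlgebra.spectralOrderedRing

variable {M : Type u} [CStarAlgebra M] [TracialVN M]

theorem proj_sum {ι : Type*} (s : Finset ι) (p : ι → M) (hp : ∀ i ∈ s, Proj (p i))
    (hpq : ∀ i ∈ s, ∀ j ∈ s, i ≠ j → p i * p j = 0) : Proj (∑ i ∈ s, p i) := by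
  refine ⟨?_, ?_⟩
  · rw [Finset.sum_mul_sum]
    refine Finset.sum_congr rfl fun i hi => ?_
    rw [Finset.sum_eq_single_of_mem i hi, (hp i hi).mul_self]
    intro j hj hji
    exact hpq i hi j hj (Ne.symm hji)
  · rw [star_sum]
    exact Finset.sum_congr rfl fun i hi => (hp i hi).star_eq

theorem exists_partition (hM : IsFactor M) (hinf : ¬ FiniteDimensional ℂ M) {L : ℕ} (hL : 0 < L)
    (n : ℕ) (hn : n ≤ L) : ∃ p : Fin n → M, (∀ i, Proj (p i)) ∧
      (∀ i j, i ≠ j → p i * p j = 0) ∧ ∀ i, rt (p i) = 1 / L := by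
  induction n with
  | zero => exact ⟨Fin.elim0, fun i => i.elim0, fun i => i.elim0, fun i => i.elim0⟩
  | succ n ih =>
    obtain ⟨p, hp, hpq, hrt⟩ := ih (by omega)
    have hL' : (0 : ℝ) < L := by exact_mod_cast hL
    set s := ∑ i, p i with hs
    have hsp : Proj s := proj_sum _ _ (fun i _ => hp i) (fun i _ j _ h => hpq i j h)
    have hrs : rt (1 - s) = 1 - n / L := by
      rw [rt_sub, rt_one, hs, rt_sum]
      simp only [hrt, Finset.sum_const, Finset.card_univ, Fintype.card_fin, nsmul_eq_mul]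
      ring
    obtain ⟨r, hr, hrs', hrr⟩ := exists_darboux hM hinf hsp.one_sub (t := 1 / L) (by positivity) (by
      rw [hrs]
      have h1 : ((n : ℝ) + 1) ≤ L := by exact_mod_cast hn
      rw [le_sub_iff_add_le, ← add_div, div_le_one hL']
      linarith)
    have hrp : ∀ i, r * p i = 0 := by
      intro i
      have h1 : s * p i = p i := by
        rw [hs, Finset.sum_mul, Finset.sum_eq_single i, (hp i).mul_self]
        · intro j _ hji
          exact hpq j i hji
        · simp
      rw [← hrs', mul_assoc, sub_mul, one_mul, h1, sub_self, mul_zero]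
    have hpr : ∀ i, p i * r = 0 := by
      intro i
      have := congrArg star (hrp i)
      rwa [star_mul, hr.star_eq, (hp i).star_eq, star_zero] at this
    refine ⟨Fin.snoc (α := fun _ => M) p r, ?_, ?_, ?_⟩
    · intro i
      refine Fin.lastCases ?_ (fun i => ?_) i
      · rw [Fin.snoc_last]; exact hr
      · rw [Fin.snoc_castSucc]; exact hp i
    · intro i j
      refine Fin.lastCases ?_ (fun i => ?_) i <;> refine Fin.lastCases ?_ (fun j => ?_) j
      · intro h; exact absurd rfl h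
      · intro _; rw [Fin.snoc_last, Fin.snoc_castSucc]; exact hrp j
      · intro _; rw [Fin.snoc_last, Fin.snoc_castSucc]; exact hpr i
      · intro h
        rw [Fin.snoc_castSucc, Fin.snoc_castSucc]
        exact hpq i j fun h' => h (by rw [h'])
    · intro i
      refine Fin.lastCases ?_ (fun i => ?_) i
      · rw [Fin.snoc_last]; exact hrr
      · rw [Fin.snoc_castSucc]; exact hrt i

theorem exists_orthonormal (hM : IsFactor M) (hinf : ¬ FiniteDimensional ℂ M) (L : ℕ) :
    ∃ r : Fin L → M, (∀ i, ‖r i‖ ≤ 1) ∧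
      ∀ i j, tr (star (r i) * r j) = if i = j then 1 else 0 := by
  rcases Nat.eq_zero_or_pos L with rfl | hL
  · exact ⟨Fin.elim0, fun i => i.elim0, fun i => i.elim0⟩
  obtain ⟨p, hp, hpq, hrt⟩ := exists_partition hM hinf hL L le_rfl
  have hL' : (L : ℂ) ≠ 0 := by exact_mod_cast hL.ne'
  set ζ : ℂ := Complex.exp (2 * Real.pi * Complex.I / L) with hζ
  have hprim : IsPrimitiveRoot ζ L := Complex.isPrimitiveRoot_exp L hL.ne'
  have hζ1 : star ζ = ζ⁻¹ := by
    rw [Complex.star_def, ← Complex.inv_eq_conj]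
    exact hprim.norm'_eq_one hL.ne'
  have hζ0 : ζ ≠ 0 := hprim.ne_zero hL.ne'
  set r : Fin L → M := fun k => ∑ j : Fin L, (ζ ^ ((j : ℕ) * (k : ℕ))) • p j with hr
  have hmul : ∀ k l, star (r k) * r l =
      ∑ j : Fin L, ((ζ ^ (k : ℕ))⁻¹ * ζ ^ (l : ℕ)) ^ (j : ℕ) • p j := by
    intro k l
    simp only [hr, star_sum, star_smul, (hp _).star_eq]
    rw [Finset.sum_mul_sum]
    refine Finset.sum_congr rfl fun i _ => ?_
    rw [Finset.sum_eq_single i]
    · rw [smul_mul_smul_comm, (hp i).mul_self, star_pow, hζ1]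
      congr 1
      rw [mul_pow, ← pow_mul, inv_pow, inv_pow, ← pow_mul]
      congr 2 <;> ring
    · intro j _ hji
      rw [smul_mul_smul_comm, hpq i j (Ne.symm hji), smul_zero]
    · simp
  refine ⟨r, fun k => ?_, fun k l => ?_⟩
  · have h1 : star (r k) * r k = ∑ j, p j := by
      rw [hmul]
      refine Finset.sum_congr rfl fun j _ => ?_
      rw [inv_mul_cancel₀ (pow_ne_zero _ hζ0), one_pow, one_smul]
    have h2 : Proj (star (r k) * r k) := by
      rw [h1]
      exact proj_sum _ _ (fun i _ => hp i) (fun i _ j _ h => hpq i j h)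
    have h3 := h2.norm_le
    rw [CStarRing.norm_star_mul_self] at h3
    nlinarith [norm_nonneg (r k)]
  · rw [hmul, map_sum]
    have h1 : ∀ j : Fin L, tr (((ζ ^ (k : ℕ))⁻¹ * ζ ^ (l : ℕ)) ^ (j : ℕ) • p j) =
        ((ζ ^ (k : ℕ))⁻¹ * ζ ^ (l : ℕ)) ^ (j : ℕ) * (1 / L) := by
      intro j
      rw [map_smul, tr_eq_rt (hp j).star_eq, hrt]
      simp
    simp only [h1]
    rw [← Finset.sum_mul, Fin.sum_univ_eq_sum_range (fun j => ((ζ ^ (k : ℕ))⁻¹ * ζ ^ (l : ℕ)) ^ j)]
    split_ifs with hkl
    · rw [hkl, inv_mul_cancel₀ (pow_ne_zero _ hζ0)]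
      simp [hL']
    · set z := (ζ ^ (k : ℕ))⁻¹ * ζ ^ (l : ℕ) with hz
      have hz1 : z ≠ 1 := by
        intro h
        rw [hz, inv_mul_eq_one₀ (pow_ne_zero _ hζ0)] at h
        exact hkl (Fin.ext (hprim.pow_inj k.2 l.2 h))
      have hzL : z ^ L = 1 := by
        rw [hz, mul_pow, inv_pow, ← pow_mul, ← pow_mul, mul_comm (k : ℕ), mul_comm (l : ℕ), pow_mul,
          pow_mul, hprim.pow_eq_one, one_pow, one_pow]
        simp
      rw [geom_sum_eq hz1, hzL, sub_self, zero_div, zero_mul]

end H80VN
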