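import Pool.Agent.H80.VNSpec

set_option autoImplicit false
set_option linter.unusedSectionVars false

/-!
# Projections, partial isometries, a maximum principle and comparison
-/

universe u v

namespace H80VN

open scoped ComplexOrder Topology
open Filter

attribute [local instance] CStarAlgebra.spectralOrder CStarAlgebra.spectralOrderedRing

/-- The Brezis–Browder maximum principle. -/
theorem brezis_browder {S : Type*} (r : S → S → Prop) (hrefl : ∀ s, r s s)
    (htrans : ∀ a b c, r a b → r b c → r a c) (φ : S → ℝ) (hφ : ∀ a b, r a b → φ a ≤ φ b) (B : ℝ)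
    (hB : ∀ s, φ s ≤ B)
    (hub : ∀ s : ℕ → S, (∀ m n, m ≤ n → r (s m) (s n)) → ∃ t, ∀ n, r (s n) t) (s₀ : S) :
    ∃ s, r s₀ s ∧ ∀ t, r s t → φ t ≤ φ s := by
  have hbdd : ∀ s, BddAbove {x | ∃ t, r s t ∧ x = φ t} := fun s =>
    ⟨B, by rintro _ ⟨t, _, rfl⟩; exact hB t⟩
  have hne : ∀ s, {x | ∃ t, r s t ∧ x = φ t}.Nonempty := fun s => ⟨φ s, s, hrefl s, rfl⟩
  have hstep : ∀ (n : ℕ) (s : S), ∃ s', r s s' ∧ ∀ t, r s t → φ t ≤ φ s' + (1 / 2) ^ n := by
    intro n s
    have h1 : sSup {x | ∃ t, r s t ∧ x = φ t} - (1 / 2) ^ n < sSup {x | ∃ t, r s t ∧ x = φ t} :=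
      sub_lt_self _ (by positivity)
    obtain ⟨_, ⟨s', hs', rfl⟩, hlt⟩ := exists_lt_of_lt_csSup (hne s) h1
    refine ⟨s', hs', fun t ht => ?_⟩
    have := le_csSup (hbdd s) ⟨t, ht, rfl⟩
    linarith
  choose nxt hnxt hnxt' using hstep
  let s : ℕ → S := fun n => Nat.rec s₀ (fun n s => nxt n s) n
  have hs : ∀ n, s (n + 1) = nxt n (s n) := fun n => rfl
  have hmono : ∀ m n, m ≤ n → r (s m) (s n) := by
    intro m n hmn
    induction n, hmn using Nat.le_induction with
    | base => exact hrefl _
    | succ n _ ih => exact htrans _ _ _ ih (by rw [hs]; exact hnxt n (s n))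
  obtain ⟨t, ht⟩ := hub s hmono
  refine ⟨t, ht 0, fun t' ht' => ?_⟩
  refine le_of_forall_pos_le_add fun ε hε => ?_
  obtain ⟨n, hn⟩ := exists_pow_lt_of_lt_one hε (show (1 / 2 : ℝ) < 1 by norm_num)
  have h1 := hnxt' n (s n) t' (htrans _ _ _ (ht n) ht')
  have h2 := hφ _ _ (ht (n + 1))
  rw [hs] at h2
  linarith

section

variable {M : Type u} [CStarAlgebra M] [TracialVN M]

/-- The real part of the trace. -/
noncomputable def rt (x : M) : ℝ := (tr x).re

theorem rt_add (x y : M) : rt (x + y) = rt x + rt y := by simp [rt]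
theorem rt_sub (x y : M) : rt (x - y) = rt x - rt y := by simp [rt]
theorem rt_neg (x : M) : rt (-x) = -rt x := by simp [rt]
theorem rt_zero : rt (0 : M) = 0 := by simp [rt]
theorem rt_one : rt (1 : M) = 1 := by simp [rt, tr_one]
theorem rt_comm (x y : M) : rt (x * y) = rt (y * x) := by simp [rt, tr_comm x y]
theorem rt_sum {ι : Type*} (s : Finset ι) (f : ι → M) : rt (∑ i ∈ s, f i) = ∑ i ∈ s, rt (f i) := by
  simp [rt]
theorem rt_smul (c : ℝ) (x : M) : rt (c • x) = c * rt x := by
  unfold rt
  have : c • x = (c : ℂ) • x := by simp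
  rw [this, map_smul]
  simp
theorem rt_ssm (x : M) : rt (star x * x) = n2 x ^ 2 := (n2_sq x).symm
theorem abs_rt_le (x y : M) : |rt (x * y)| ≤ n2 x * n2 y :=
  (Complex.abs_re_le_norm _).trans (cs' x y)
theorem abs_rt_le' (x : M) : |rt x| ≤ n2 x :=
  (Complex.abs_re_le_norm _).trans (norm_tr_le_n2 x)

theorem tr_eq_rt {x : M} (hx : star x = x) : tr x = (rt x : ℂ) := by
  have := tr_star x
  rw [hx] at this
  exact (Complex.conj_eq_iff_re.1 this.symm).symm

theorem Proj.zero : Proj (0 : M) := ⟨by simp, by simp⟩
theorem Proj.one : Proj (1 : M) := ⟨by simp, by simp⟩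

theorem Proj.one_sub {p : M} (hp : Proj p) : Proj (1 - p) := by
  refine ⟨?_, by rw [star_sub, star_one, hp.star_eq]⟩
  rw [sub_mul, mul_sub, one_mul, mul_sub, mul_one, hp.mul_self]
  simp

theorem Proj.n2_sq {p : M} (hp : Proj p) : n2 p ^ 2 = rt p := by
  rw [← rt_ssm, hp.star_eq, hp.mul_self]

theorem Proj.rt_nonneg {p : M} (hp : Proj p) : 0 ≤ rt p := by
  rw [← hp.n2_sq]; positivity

theorem Proj.rt_le_one {p : M} (hp : Proj p) : rt p ≤ 1 := by
  have := hp.one_sub.rt_nonneg
  rw [rt_sub, rt_one] at this
  linarith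

theorem Proj.rt_pos {p : M} (hp : Proj p) (h : p ≠ 0) : 0 < rt p := by
  rw [← hp.n2_sq]
  have := n2_pos h
  positivity

theorem Proj.eq_zero {p : M} (hp : Proj p) (h : rt p ≤ 0) : p = 0 := by
  by_contra h'
  have := hp.rt_pos h'
  linarith

theorem Proj.norm_le {p : M} (hp : Proj p) : ‖p‖ ≤ 1 := by
  have h := CStarRing.norm_star_mul_self (x := p)
  rw [hp.star_eq, hp.mul_self] at h
  by_contra h'
  push Not at h'
  nlinarith [norm_nonneg p]

theorem Proj.n2_le_one {p : M} (hp : Proj p) : n2 p ≤ 1 := (n2_le_norm p).trans hp.norm_le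

theorem Proj.comm_of_le {p q : M} (hp : Proj p) (hq : Proj q) (h : p * q = p) : q * p = p := by
  have := congrArg star h
  rwa [star_mul, hp.star_eq, hq.star_eq] at this

theorem Proj.sub {p q : M} (hp : Proj p) (hq : Proj q) (h : p * q = p) : Proj (q - p) := by
  have h' := hp.comm_of_le hq h
  refine ⟨?_, by rw [star_sub, hp.star_eq, hq.star_eq]⟩
  rw [sub_mul, mul_sub, mul_sub, hq.mul_self, hp.mul_self, h, h']
  simp

theorem Proj.add {p q : M} (hp : Proj p) (hq : Proj q) (h : p * q = 0) : Proj (p + q) := by
  have h' : q * p = 0 := by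
    have := congrArg star h
    rwa [star_mul, hp.star_eq, hq.star_eq, star_zero] at this
  refine ⟨?_, by rw [star_add, hp.star_eq, hq.star_eq]⟩
  rw [add_mul, mul_add, mul_add, hq.mul_self, hp.mul_self, h, h']
  simp

theorem Proj.conj {p w : M} (hp : Proj p) (hw : star w * w = 1) : Proj (w * p * star w) := by
  refine ⟨?_, by simp [mul_assoc, hp.star_eq]⟩
  calc w * p * star w * (w * p * star w) = w * p * (star w * w) * p * star w := by
        simp only [mul_assoc]
    _ = w * (p * p) * star w := by rw [hw]; simp only [mul_assoc, one_mul]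
    _ = _ := by rw [hp.mul_self]

theorem eq_zero_of_ssm {x : M} (h : star x * x = 0) : x = 0 :=
  CStarRing.star_mul_self_eq_zero_iff x |>.1 h

/-- Partial isometries. -/
def PI (v : M) : Prop := v * star v * v = v

theorem PI.proj_right {v : M} (hv : PI v) : Proj (star v * v) := by
  refine ⟨?_, by rw [star_mul, star_star]⟩
  rw [mul_assoc, ← mul_assoc v]
  rw [hv]

theorem PI.proj_left {v : M} (hv : PI v) : Proj (v * star v) := by
  refine ⟨?_, by rw [star_mul, star_star]⟩
  rw [← mul_assoc, hv]

theorem PI.norm_le {v : M} (hv : PI v) : ‖v‖ ≤ 1 := by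
  have h := CStarRing.norm_star_mul_self (x := v)
  have h1 := hv.proj_right.norm_le
  nlinarith [norm_nonneg v]

theorem Proj.pi {p : M} (hp : Proj p) : PI p := by
  unfold PI
  rw [hp.star_eq, hp.mul_self, hp.mul_self]

/-- Extension of partial isometries. -/
def Ext (v w : M) : Prop := w * (star v * v) = v

theorem Ext.refl {v : M} (hv : PI v) : Ext v v := by
  unfold Ext
  rw [← mul_assoc]; exact hv

theorem Ext.le {v w : M} (hv : PI v) (hw : PI w) (h : Ext v w) :
    (star w * w) * (star v * v) = star v * v := by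
  set e := star v * v with he
  set f := star w * w with hf
  have hep : Proj e := hv.proj_right
  have hfp : Proj f := hw.proj_right
  have h1 : e = e * f * e := by
    have h2 : star (w * e) * (w * e) = star v * v := by
      rw [show w * e = v from h]
    rw [star_mul, hep.star_eq] at h2
    rw [← he] at h2
    calc e = e * star w * (w * e) := h2.symm
      _ = e * f * e := by rw [hf]; simp only [mul_assoc]
  have h3 : (1 - f) * e = 0 := by
    apply eq_zero_of_ssm
    rw [star_mul, hep.star_eq, hfp.one_sub.star_eq]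
    calc e * (1 - f) * ((1 - f) * e) = e * ((1 - f) * (1 - f)) * e := by simp only [mul_assoc]
      _ = e * e - e * f * e := by
          rw [hfp.one_sub.mul_self, mul_sub, mul_one, sub_mul]
      _ = 0 := by rw [hep.mul_self, ← h1, sub_self]
  rw [sub_mul, one_mul, sub_eq_zero] at h3
  exact h3.symm

theorem Ext.trans {v w z : M} (hv : PI v) (hw : PI w) (h : Ext v w) (h' : Ext w z) : Ext v z := by
  unfold Ext at *
  calc z * (star v * v) = z * ((star w * w) * (star v * v)) := by rw [Ext.le hv hw h]
    _ = z * (star w * w) * (star v * v) := by simp only [mul_assoc]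
    _ = v := by rw [h', h]

theorem Ext.n2_sub {v w : M} (hv : PI v) (hw : PI w) (h : Ext v w) :
    n2 (w - v) ^ 2 = n2 w ^ 2 - n2 v ^ 2 := by
  have h1 := Ext.le hv hw h
  have hep : Proj (star v * v) := hv.proj_right
  have hfp : Proj (star w * w) := hw.proj_right
  have h2 : star w * v = star v * v := by
    nth_rw 1 [← (show w * (star v * v) = v from h)]
    rw [← mul_assoc]; exact h1
  have h3 : star v * w = star v * v := by
    have := congrArg star h2
    rwa [star_mul, star_star, star_mul, star_star] at this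
  rw [← rt_ssm, ← rt_ssm, ← rt_ssm, ← rt_sub]
  congr 1
  rw [star_sub, sub_mul, mul_sub, mul_sub, h2, h3]
  simp

/-- The maximum principle for sets of partial isometries closed in the 2-norm. -/
theorem exists_maximal_pi (P : M → Prop) (hP : ∀ v, P v → PI v)
    (hcl : ∀ (x : ℕ → M) (y : M), (∀ n, P (x n)) → T2 x y → PI y → P y) (v₀ : M) (hv₀ : P v₀) :
    ∃ v, P v ∧ Ext v₀ v ∧ ∀ w, P w → Ext v w → w = v := by
  obtain ⟨v, h1, h2⟩ := brezis_browder (S := {v : M // P v}) (fun v w => Ext v.1 w.1)
    (fun v => Ext.refl (hP _ v.2)) (fun a b c hab hbc => Ext.trans (hP _ a.2) (hP _ b.2) hab hbc)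
    (fun v => n2 v.1 ^ 2)
    (fun a b hab => by
      have := Ext.n2_sub (hP _ a.2) (hP _ b.2) hab
      have h2 : 0 ≤ n2 (b.1 - a.1) ^ 2 := by positivity
      linarith) 1
    (fun v => by
      have h1 := (n2_le_norm v.1).trans (hP _ v.2).norm_le
      have h2 := n2_nonneg v.1
      nlinarith)
    (by
      intro s hs
      obtain ⟨y, hy, hlim⟩ := exists_lim_of_mono (x := fun n => (s n).1) (C := 1)
        (fun n => (hP _ (s n).2).norm_le) (φ := fun n => n2 (s n).1 ^ 2)
        (fun m n hmn => by
          have := Ext.n2_sub (hP _ (s m).2) (hP _ (s n).2) (hs m n hmn)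
          have h2 : 0 ≤ n2 ((s n).1 - (s m).1) ^ 2 := by positivity
          show n2 (s m).1 ^ 2 ≤ n2 (s n).1 ^ 2
          linarith) (B := 1)
        (fun n => by
          have h1 := (n2_le_norm (s n).1).trans (hP _ (s n).2).norm_le
          have h2 := n2_nonneg (s n).1
          show n2 (s n).1 ^ 2 ≤ 1
          nlinarith)
        (fun m n hmn => (Ext.n2_sub (hP _ (s m).2) (hP _ (s n).2) (hs m n hmn)).le)
      have hyPI : PI y := by
        have h1 : T2 (fun n => (s n).1 * star (s n).1 * (s n).1) (y * star y * y) := by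
          refine T2.mul (C := 1) (fun n => ?_) (T2.mul (C := 1) (fun n => ?_) hlim hlim.star) hlim
          · exact (hP _ (s n).2).proj_left.norm_le
          · exact (hP _ (s n).2).norm_le
        have h2 : (fun n => (s n).1 * star (s n).1 * (s n).1) = fun n => (s n).1 := by
          funext n
          exact hP _ (s n).2
        rw [h2] at h1
        exact h1.unique hlim
      refine ⟨⟨y, hcl _ y (fun n => (s n).2) hlim hyPI⟩, fun n => ?_⟩
      show y * (star (s n).1 * (s n).1) = (s n).1
      have h1 : T2 (fun m => (s (m + n)).1 * (star (s n).1 * (s n).1))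
          (y * (star (s n).1 * (s n).1)) := by
        refine T2.mul_right (hlim.comp (φ := fun m => m + n) ?_) _
        exact tendsto_atTop_mono (fun m => by show m ≤ m + n; omega) tendsto_id
      have h2 : (fun m => (s (m + n)).1 * (star (s n).1 * (s n).1)) = fun _ => (s n).1 := by
        funext m
        exact hs n (m + n) (by omega)
      rw [h2] at h1
      exact h1.unique (T2.const _))
    ⟨v₀, hv₀⟩
  refine ⟨v.1, v.2, h1, fun w hw hvw => ?_⟩
  have h3 := h2 ⟨w, hw⟩ hvw
  have h4 := Ext.n2_sub (hP _ v.2) (hP _ hw) hvw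
  have h5 : n2 (w - v.1) = 0 := by
    have := n2_nonneg (w - v.1)
    simp only at h3
    nlinarith
  exact sub_eq_zero.1 (n2_eq_zero.1 h5)

theorem exists_mul_ne_zero (hM : IsFactor M) {x q : M} (hx : x ≠ 0) (hq : Proj q) (hq0 : q ≠ 0) :
    ∃ u : M, x * u * q ≠ 0 := by
  by_contra hcon
  push Not at hcon
  have hrt := hq.rt_pos hq0
  have hn := n2_pos hx
  have hxn : 0 < ‖x‖ := norm_pos_iff.2 hx
  obtain ⟨ι, t, w, u, hw0, hw1, hu, hlt⟩ := exists_average hM q
    (show 0 < rt q * n2 x / ‖x‖ by positivity)
  have h1 : x * (∑ i ∈ t, w i • (u i * q * star (u i))) = 0 := by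
    rw [Finset.mul_sum]
    refine Finset.sum_eq_zero fun i _ => ?_
    rw [mul_smul_comm, ← mul_assoc, ← mul_assoc, hcon (u i), zero_mul, smul_zero]
  have h2 : n2 (x * (∑ i ∈ t, w i • (u i * q * star (u i)) - tr q • (1 : M))) <
      rt q * n2 x := by
    refine (n2_mul_le_left _ _).trans_lt ?_
    calc ‖x‖ * n2 (∑ i ∈ t, w i • (u i * q * star (u i)) - tr q • (1 : M)) <
          ‖x‖ * (rt q * n2 x / ‖x‖) := by gcongr
      _ = _ := by field_simp
  rw [mul_sub, h1, zero_sub, n2_neg, mul_smul_comm, mul_one, n2_smul, tr_eq_rt hq.star_eq,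
    Complex.norm_real, Real.norm_eq_abs, abs_of_pos hrt] at h2
  exact lt_irrefl _ h2

theorem fc_self_spec {h : M} (hh : star h = h) {a : ℝ} (ha : 0 < a) {E : M} (hE : IsSpec h a E) :
    h * cfc (fun t : ℝ => 1 / max t a) h * E = E := by
  have hc : Continuous (fun t : ℝ => 1 / max t a) := by
    refine Continuous.div continuous_const (by fun_prop) fun t => ?_
    have : 0 < max t a := lt_max_of_lt_right ha
    exact this.ne'
  have h1 : h * cfc (fun t : ℝ => 1 / max t a) h = cfc (fun t : ℝ => t * (1 / max t a)) h := by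
    rw [fc_mul continuous_id' hc, fc_id hh]
  rw [h1, hE.ge (f := fun t : ℝ => t * (1 / max t a)) (g := fun _ => 1) (continuous_id'.mul hc)
    continuous_const, fc_const hh, one_smul, one_mul]
  intro t ht
  rw [max_eq_left ht, mul_one_div, div_self (by linarith)]

/-- A nonzero element gives a nonzero partial isometry with smaller support and range. -/
theorem exists_pi_of_ne_zero {x p q : M} (hx : x ≠ 0) (hxp : x * p = x)
    (hqx : q * x = x) (hp : Proj p) : ∃ w : M, PI w ∧ w ≠ 0 ∧ w * p = w ∧ q * w = w := by
  set h := star x * x with hh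
  have hsa : star h = h := by rw [hh, star_mul, star_star]
  have hnn : 0 ≤ h := star_mul_self_nonneg x
  have hh0 : h ≠ 0 := fun h0 => hx (eq_zero_of_ssm h0)
  have hn : 0 < ‖h‖ := norm_pos_iff.2 hh0
  set a := ‖h‖ / 2 with ha
  have ha0 : 0 < a := by positivity
  obtain ⟨E, hE⟩ := exists_spec h a
  have hE0 : E ≠ 0 := by
    intro h0
    have h1 := hE.le (f := fun t => t) (g := fun t => min t a) continuous_id (by fun_prop)
      (fun t ht => by rw [min_eq_left ht])
    rw [h0, sub_zero, mul_one, mul_one, fc_id hsa] at h1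
    have h2 : ‖cfc (fun t : ℝ => min t a) h‖ ≤ a := by
      refine norm_cfc_le ha0.le fun t ht => ?_
      have ht0 : 0 ≤ t := spectrum_nonneg_of_nonneg hnn ht
      rw [Real.norm_eq_abs, abs_of_nonneg (le_min ht0 ha0.le)]
      exact min_le_right _ _
    rw [← h1] at h2
    linarith
  set k : ℝ → ℝ := fun t => 1 / √(max t a) with hk
  have hkc : Continuous k := by
    refine Continuous.div continuous_const (by fun_prop) fun t => ?_
    have : 0 < max t a := lt_max_of_lt_right ha0
    exact (Real.sqrt_pos.2 this).ne'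
  have hhp : h * p = p * h := by
    have e1 : h * p = h := by rw [hh, mul_assoc, hxp]
    have e2 : p * h = h := by
      have := congrArg star e1
      rwa [star_mul, hp.star_eq, hsa] at this
    rw [e1, e2]
  have hkp : cfc k h * p = p * cfc k h := Commute.cfc_real (show Commute h p from hhp) k
  have hEp : E * p = p * E := hE.comm hhp
  have hEk : E * cfc k h = cfc k h * E := hE.comm_fc k
  have hww : star (x * cfc k h * E) * (x * cfc k h * E) = E := by
    rw [star_mul, star_mul, fc_sa, hE.proj.star_eq]
    calc E * (cfc k h * star x) * (x * cfc k h * E) = E * (cfc k h * h * cfc k h * E) := by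
          rw [hh]; simp only [mul_assoc]
      _ = E * (cfc (fun t : ℝ => k t * t * k t) h * E) := by
          rw [fc_mul (f := fun t => k t * t) (hkc.mul continuous_id') hkc,
            fc_mul hkc continuous_id', fc_id hsa]
      _ = E * (cfc (fun _ : ℝ => 1) h * E) := by
          rw [hE.ge (f := fun t : ℝ => k t * t * k t) (g := fun _ => 1)
            ((hkc.mul continuous_id').mul hkc) continuous_const]
          intro t ht
          have ht0 : 0 < t := lt_of_lt_of_le ha0 ht
          simp only [hk, max_eq_left ht]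
          rw [one_div_mul_eq_div, div_mul_div_comm, mul_one, Real.mul_self_sqrt ht0.le,
            div_self ht0.ne']
      _ = E := by rw [fc_const hsa, one_smul, one_mul, hE.proj.mul_self]
  refine ⟨x * cfc k h * E, ?_, ?_, ?_, ?_⟩
  · show x * cfc k h * E * star (x * cfc k h * E) * (x * cfc k h * E) = _
    rw [mul_assoc, hww, mul_assoc, hE.proj.mul_self]
  · intro h0
    rw [h0, mul_zero] at hww
    exact hE0 hww.symm
  · calc x * cfc k h * E * p = x * cfc k h * (E * p) := by simp only [mul_assoc]
      _ = x * (cfc k h * p) * E := by rw [hEp]; simp only [mul_assoc]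
      _ = x * p * cfc k h * E := by rw [hkp]; simp only [mul_assoc]
      _ = _ := by rw [hxp]
  · rw [← mul_assoc, ← mul_assoc, hqx]

/-- Comparison of projections in a factor. -/
theorem exists_comparison (hM : IsFactor M) {p q : M} (hp : Proj p) (hq : Proj q)
    (hpq : rt p ≤ rt q) : ∃ v : M, star v * v = p ∧ q * v = v := by
  obtain ⟨v, ⟨hv, hvp, hqv⟩, _, hmax⟩ := exists_maximal_pi
    (fun v : M => PI v ∧ v * p = v ∧ q * v = v) (fun v h => h.1)
    (by
      intro x y hx hxy hy
      refine ⟨hy, ?_, ?_⟩
      · have := hxy.mul_right p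
        simp only [fun n => (hx n).2.1] at this
        exact this.unique hxy
      · have := hxy.mul_left q
        simp only [fun n => (hx n).2.2] at this
        exact this.unique hxy) 0 ⟨by simp [PI], by simp, by simp⟩
  refine ⟨v, ?_, hqv⟩
  have hep := hv.proj_right
  have hfp := hv.proj_left
  have hle : star v * v * p = star v * v := by rw [mul_assoc, hvp]
  have hle' : v * star v * q = v * star v := by
    have := congrArg star hqv
    rw [star_mul, hq.star_eq] at this
    rw [mul_assoc, this]
  have hp' : Proj (p - star v * v) := hep.sub hp hle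
  have hq' : Proj (q - v * star v) := hfp.sub hq hle'
  by_contra hne
  have hp0 : p - star v * v ≠ 0 := fun h => hne (sub_eq_zero.1 h).symm
  have hrt : 0 < rt (p - star v * v) := hp'.rt_pos hp0
  have hq0 : q - v * star v ≠ 0 := by
    intro h
    have h1 : rt (q - v * star v) = 0 := by rw [h, rt_zero]
    rw [rt_sub] at hrt h1
    rw [rt_comm] at h1
    linarith
  obtain ⟨u, hu⟩ := exists_mul_ne_zero hM hq0 hp' hp0
  obtain ⟨w, hw, hw0, hwp, hqw⟩ := exists_pi_of_ne_zero (p := p - star v * v)
    (q := q - v * star v) hu (by rw [mul_assoc, hp'.mul_self])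
    (by rw [← mul_assoc, ← mul_assoc, hq'.mul_self]) hp'
  -- `v + w` is a larger partial isometry
  have e1 : w * star v = 0 := by
    rw [← hwp, mul_assoc, sub_mul]
    have : p * star v = star v := by
      have := congrArg star hvp
      rwa [star_mul, hp.star_eq] at this
    rw [this]
    have h2 : star v * v * star v = star v := by
      have := congrArg star (show v * star v * v = v from hv)
      rwa [star_mul, star_mul, star_star, ← mul_assoc] at this
    rw [h2, sub_self, mul_zero]
  have e2 : star v * w = 0 := by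
    rw [← hqw, ← mul_assoc, mul_sub]
    have h1 : star v * q = star v := by
      have := congrArg star hqv
      rwa [star_mul, hq.star_eq] at this
    have h2 : star v * (v * star v) = star v := by
      have := congrArg star (show v * star v * v = v from hv)
      rwa [star_mul, star_mul, star_star] at this
    rw [h1, h2, sub_self, zero_mul]
  have e1' : v * star w = 0 := by
    have := congrArg star e1
    rwa [star_mul, star_star, star_zero] at this
  have e2' : star w * v = 0 := by
    have := congrArg star e2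
    rwa [star_mul, star_star, star_zero] at this
  have hsum : star (v + w) * (v + w) = star v * v + star w * w := by
    rw [star_add, add_mul, mul_add, mul_add, e2, e2']
    abel
  have hPI : PI (v + w) := by
    show (v + w) * star (v + w) * (v + w) = v + w
    rw [mul_assoc, hsum, add_mul, mul_add, mul_add]
    rw [← mul_assoc w, e1, ← mul_assoc v (star w), e1', ← mul_assoc, ← mul_assoc,
      show v * star v * v = v from hv, show w * star w * w = w from hw]
    simp
  have hwp' : w * p = w := by
    have : (p - star v * v) * p = p - star v * v := by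
      rw [sub_mul, hp.mul_self, hle]
    rw [← hwp, mul_assoc, this]
  have hqw' : q * w = w := by
    have : q * (q - v * star v) = q - v * star v := by
      rw [mul_sub, hq.mul_self, ← mul_assoc, hqv]
    rw [← hqw, ← mul_assoc, this]
  have := hmax (v + w) ⟨hPI, by rw [add_mul, hvp, hwp'], by rw [mul_add, hqv, hqw']⟩ (by
    show (v + w) * (star v * v) = v
    rw [add_mul, ← mul_assoc w, e1, zero_mul, add_zero, ← mul_assoc]
    exact hv)
  exact hw0 (by simpa using this)

/-- A projection of trace at most `1/2` is conjugate to an orthogonal one. -/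
theorem exists_swap (hM : IsFactor M) {p : M} (hp : Proj p) (h : rt p ≤ 1 / 2) :
    ∃ w ∈ unitary M, p * (w * p * star w) = 0 := by
  obtain ⟨v, hv, hv'⟩ := exists_comparison hM hp hp.one_sub (by rw [rt_sub, rt_one]; linarith)
  have hvp : v * p = v := by
    -- `v (1 - p) = 0`
    have h1 : v * (1 - p) = 0 := by
      apply eq_zero_of_ssm
      rw [star_mul, hp.one_sub.star_eq]
      calc (1 - p) * star v * (v * (1 - p)) = (1 - p) * (star v * v) * (1 - p) := by
            simp only [mul_assoc]
        _ = 0 := by
          rw [hv, sub_mul, one_mul, hp.mul_self, sub_self, zero_mul]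
    rw [mul_sub, mul_one, sub_eq_zero] at h1
    exact h1.symm
  have hpv : p * v = 0 := by
    have : p * ((1 - p) * v) = 0 := by
      rw [← mul_assoc, mul_sub, mul_one, hp.mul_self, sub_self, zero_mul]
    rwa [hv'] at this
  have hvv : v * v = 0 := by
    calc v * v = v * p * v := by rw [hvp]
      _ = v * (p * v) := by rw [mul_assoc]
      _ = 0 := by rw [hpv, mul_zero]
  have hsvp : star v * p = 0 := by
    have := congrArg star hpv
    rwa [star_mul, hp.star_eq, star_zero] at this
  have hpsv : p * star v = star v := by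
    have := congrArg star hvp
    rwa [star_mul, hp.star_eq] at this
  have hsvsv : star v * star v = 0 := by
    have := congrArg star hvv
    rwa [star_mul, star_zero] at this
  have hvsvv : v * star v * v = v := by rw [mul_assoc, hv, hvp]
  set c := 1 - p - v * star v with hc
  have hcs : star c = c := by
    rw [hc, star_sub, star_sub, star_one, hp.star_eq, star_mul, star_star]
  have hcv : c * v = 0 := by
    rw [hc, sub_mul, sub_mul, one_mul, hpv, hvsvv]; simp
  have hvc : v * c = 0 := by
    rw [hc, mul_sub, mul_sub, mul_one, hvp, ← mul_assoc, hvv]; simp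
  have hcp : c * p = 0 := by
    rw [hc, sub_mul, sub_mul, one_mul, hp.mul_self, mul_assoc, hsvp]; simp
  have hcc : c * c = c := by
    nth_rw 2 [hc]
    rw [mul_sub, mul_sub, mul_one, hcp, ← mul_assoc, hcv]; simp
  have hcsv : c * star v = 0 := by
    have := congrArg star hvc
    rwa [star_mul, hcs, star_zero] at this
  have hsvc : star v * c = 0 := by
    have := congrArg star hcv
    rwa [star_mul, hcs, star_zero] at this
  set w := v + star v + c with hw
  have hws : star w = w := by
    rw [hw, star_add, star_add, star_star, hcs]; abel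
  have hww : w * w = 1 := by
    rw [hw, add_mul, add_mul, mul_add, mul_add, mul_add, mul_add, mul_add, mul_add, hvv, hvc,
      hsvsv, hsvc, hcv, hcsv, hcc, hv, hc]
    abel
  have hwp : w * p = v := by
    rw [hw, add_mul, add_mul, hvp, hsvp, hcp]; simp
  refine ⟨w, ?_, ?_⟩
  · rw [Unitary.mem_iff, hws]
    exact ⟨hww, hww⟩
  · rw [hwp, ← mul_assoc, hpv, zero_mul]

end

end H80VN
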