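import Pool.Agent.H80.VNAvg

set_option autoImplicit false
set_option linter.unusedSectionVars false

/-!
# Spectral projections
-/

universe u v

namespace H80VN

open scoped ComplexOrder Topology
open Filter

attribute [local instance] CStarAlgebra.spectralOrder CStarAlgebra.spectralOrderedRing

/-- Projections. -/
structure Proj {M : Type u} [Mul M] [Star M] (p : M) : Prop where
  mul_self : p * p = p
  star_eq : star p = p

/-- Continuous approximations of the indicator function of `(a, ∞)`. -/
noncomputable def ramp (a : ℝ) (n : ℕ) (t : ℝ) : ℝ := max 0 (min 1 (2 ^ n * (t - a) - 1))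

theorem continuous_ramp (a : ℝ) (n : ℕ) : Continuous (ramp a n) := by
  unfold ramp
  fun_prop

theorem ramp_nonneg (a : ℝ) (n : ℕ) (t : ℝ) : 0 ≤ ramp a n t := le_max_left _ _

theorem ramp_le_one (a : ℝ) (n : ℕ) (t : ℝ) : ramp a n t ≤ 1 :=
  max_le zero_le_one (min_le_left _ _)

theorem ramp_eq_zero {a : ℝ} {n : ℕ} {t : ℝ} (h : 2 ^ n * (t - a) ≤ 1) : ramp a n t = 0 := by
  unfold ramp
  rw [max_eq_left]
  exact (min_le_right _ _).trans (by linarith)

theorem ramp_eq_zero' {a : ℝ} {n : ℕ} {t : ℝ} (h : t ≤ a) : ramp a n t = 0 := by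
  apply ramp_eq_zero
  have : (2 : ℝ) ^ n * (t - a) ≤ 0 := mul_nonpos_of_nonneg_of_nonpos (by positivity) (by linarith)
  linarith

theorem ramp_eq_one {a : ℝ} {n : ℕ} {t : ℝ} (h : 2 ≤ 2 ^ n * (t - a)) : ramp a n t = 1 := by
  unfold ramp
  rw [min_eq_left (by linarith), max_eq_right zero_le_one]

theorem ramp_mono {a : ℝ} {m n : ℕ} (h : m ≤ n) (t : ℝ) : ramp a m t ≤ ramp a n t := by
  rcases le_total t a with hta | hta
  · rw [ramp_eq_zero' hta, ramp_eq_zero' hta]
  · unfold ramp
    have h0 : 0 ≤ t - a := by linarith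
    have h1 : (2 : ℝ) ^ m * (t - a) ≤ 2 ^ n * (t - a) := by
      gcongr
      norm_num
    gcongr

theorem ramp_mul_ramp {a : ℝ} {m n : ℕ} (h : m < n) (t : ℝ) : ramp a m t * ramp a n t = ramp a m t := by
  rcases le_total (2 ^ m * (t - a)) 1 with h1 | h1
  · rw [ramp_eq_zero h1, zero_mul]
  · rw [ramp_eq_one (n := n), mul_one]
    have h2 : (2 : ℝ) ^ (m + 1) * (t - a) ≤ 2 ^ n * (t - a) := by
      have : 0 ≤ t - a := by
        by_contra hneg
        push Not at hneg
        have : (2 : ℝ) ^ m * (t - a) < 0 := mul_neg_of_pos_of_neg (by positivity) hneg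
        linarith
      gcongr
      · norm_num
      · omega
    rw [pow_succ] at h2
    linarith

section

variable {M : Type u} [CStarAlgebra M] [TracialVN M]

theorem fc_mul {f g : ℝ → ℝ} (hf : Continuous f) (hg : Continuous g) (h : M) :
    cfc (fun t => f t * g t) h = cfc f h * cfc g h :=
  cfc_mul f g h hf.continuousOn hg.continuousOn

theorem fc_sub {f g : ℝ → ℝ} (hf : Continuous f) (hg : Continuous g) (h : M) :
    cfc (fun t => f t - g t) h = cfc f h - cfc g h :=
  cfc_sub f g h hf.continuousOn hg.continuousOn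

theorem fc_add {f g : ℝ → ℝ} (hf : Continuous f) (hg : Continuous g) (h : M) :
    cfc (fun t => f t + g t) h = cfc f h + cfc g h :=
  cfc_add (a := h) f g hf.continuousOn hg.continuousOn

theorem fc_congr {f g : ℝ → ℝ} (hfg : ∀ t, f t = g t) (h : M) : cfc f h = cfc g h :=
  cfc_congr fun t _ => hfg t

theorem fc_norm_le {f : ℝ → ℝ} {c : ℝ} (hc : 0 ≤ c) (hf : ∀ t, |f t| ≤ c) (h : M) :
    ‖cfc f h‖ ≤ c :=
  norm_cfc_le hc fun t _ => hf t

theorem fc_sa (f : ℝ → ℝ) (h : M) : star (cfc f h) = cfc f h :=
  (cfc_predicate f h : IsSelfAdjoint (cfc f h)).star_eq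

theorem fc_tr_mono {f g : ℝ → ℝ} (hf : Continuous f) (hg : Continuous g) (hfg : ∀ t, f t ≤ g t)
    (h : M) : (tr (cfc f h)).re ≤ (tr (cfc g h)).re :=
  tr_re_mono (cfc_mono (fun t _ => hfg t) hf.continuousOn hg.continuousOn)

theorem fc_comm (f g : ℝ → ℝ) (h : M) : cfc f h * cfc g h = cfc g h * cfc f h :=
  cfc_commute_cfc f g h

theorem fc_const {h : M} (hh : star h = h) (c : ℝ) : cfc (fun _ : ℝ => c) h = c • (1 : M) := by
  rw [cfc_const c h (show IsSelfAdjoint h from hh), Algebra.algebraMap_eq_smul_one]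

theorem fc_id {h : M} (hh : star h = h) : cfc (fun t : ℝ => t) h = h :=
  cfc_id' ℝ h (show IsSelfAdjoint h from hh)

theorem n2_sq_sa {x : M} (hx : star x = x) : n2 x ^ 2 = (tr (x * x)).re := by
  rw [n2_sq, hx]

/-- `E` is the spectral projection of `h` for `(a, ∞)`. -/
structure IsSpec (h : M) (a : ℝ) (E : M) : Prop where
  proj : Proj E
  lim : T2 (fun n => cfc (ramp a n) h) E

theorem ramp_norm_le (a : ℝ) (n : ℕ) (h : M) : ‖cfc (ramp a n) h‖ ≤ 1 :=
  fc_norm_le zero_le_one (fun t => by
    rw [abs_of_nonneg (ramp_nonneg a n t)]; exact ramp_le_one a n t) h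

theorem ramp_mul_ramp' (a : ℝ) {m n : ℕ} (hmn : m < n) (h : M) :
    cfc (ramp a m) h * cfc (ramp a n) h = cfc (ramp a m) h := by
  rw [← fc_mul (continuous_ramp a m) (continuous_ramp a n)]
  exact fc_congr (fun t => ramp_mul_ramp hmn t) h

theorem exists_spec (h : M) (a : ℝ) : ∃ E, IsSpec h a E := by
  obtain ⟨E, hE, hlim⟩ := exists_lim_of_mono (x := fun n => cfc (ramp a n) h) (C := 1)
    (fun n => ramp_norm_le a n h) (φ := fun n => (tr (cfc (ramp a n) h)).re)
    (fun m n hmn => fc_tr_mono (continuous_ramp a m) (continuous_ramp a n) (ramp_mono hmn) h)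
    (B := 1) (fun n => by
      have h1 := norm_tr_le_n2 (cfc (ramp a n) h)
      have h2 := n2_le_norm (cfc (ramp a n) h)
      have h3 := ramp_norm_le a n h
      have h4 := Complex.re_le_norm (tr (cfc (ramp a n) h))
      linarith)
    (by
      intro m n hmn
      have hsa : star (cfc (ramp a n) h - cfc (ramp a m) h) =
          cfc (ramp a n) h - cfc (ramp a m) h := by
        rw [star_sub, fc_sa, fc_sa]
      rw [n2_sq_sa hsa, ← fc_sub (continuous_ramp a n) (continuous_ramp a m),
        ← fc_mul (by have := continuous_ramp a n; have := continuous_ramp a m; fun_prop)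
          (by have := continuous_ramp a n; have := continuous_ramp a m; fun_prop)]
      rw [← Complex.sub_re, ← map_sub, ← fc_sub (continuous_ramp a n) (continuous_ramp a m)]
      refine fc_tr_mono (by have := continuous_ramp a n; have := continuous_ramp a m; fun_prop)
        (by have := continuous_ramp a n; have := continuous_ramp a m; fun_prop) (fun t => ?_) h
      have h1 := ramp_mono (a := a) hmn t
      have h2 := ramp_le_one a n t
      have h3 := ramp_nonneg a m t
      nlinarith)
  refine ⟨E, ⟨?_, ?_⟩, hlim⟩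
  · -- `f_m E = f_m`
    have h1 : ∀ m, cfc (ramp a m) h * E = cfc (ramp a m) h := by
      intro m
      have h2 : T2 (fun n => cfc (ramp a m) h * cfc (ramp a (n + m + 1)) h)
          (cfc (ramp a m) h * E) := by
        refine T2.mul_left (hlim.comp (φ := fun n => n + m + 1) ?_) _
        exact tendsto_atTop_mono (fun n => by show n ≤ n + m + 1; omega) tendsto_id
      have h3 : (fun n => cfc (ramp a m) h * cfc (ramp a (n + m + 1)) h) =
          fun _ => cfc (ramp a m) h := by
        funext n
        exact ramp_mul_ramp' a (by omega) h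
      rw [h3] at h2
      exact h2.unique (T2.const _)
    have h4 : T2 (fun m => cfc (ramp a m) h * E) (E * E) := hlim.mul_right E
    simp only [h1] at h4
    exact h4.unique hlim
  · have h1 := hlim.star
    simp only [fc_sa] at h1
    exact h1.unique hlim

theorem IsSpec.comm {h : M} {a : ℝ} {E : M} (hE : IsSpec h a E) {y : M} (hy : h * y = y * h) :
    E * y = y * E := by
  have h1 := hE.lim.mul_right y
  have h2 := hE.lim.mul_left y
  have h3 : (fun n => cfc (ramp a n) h * y) = fun n => y * cfc (ramp a n) h := by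
    funext n
    exact (Commute.cfc_real (show Commute h y from hy) _)
  rw [h3] at h1
  exact h1.unique h2

theorem IsSpec.comm_fc {h : M} {a : ℝ} {E : M} (hE : IsSpec h a E) (f : ℝ → ℝ) :
    E * cfc f h = cfc f h * E := by
  have h1 := hE.lim.mul_right (cfc f h)
  have h2 := hE.lim.mul_left (cfc f h)
  simp only [fun n => fc_comm (ramp a n) f h] at h1
  exact h1.unique h2

theorem IsSpec.ge {h : M} {a : ℝ} {E : M} (hE : IsSpec h a E) {f g : ℝ → ℝ} (hf : Continuous f)
    (hg : Continuous g) (hfg : ∀ t, a ≤ t → f t = g t) : cfc f h * E = cfc g h * E := by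
  have h1 := hE.lim.mul_left (cfc f h)
  have h2 := hE.lim.mul_left (cfc g h)
  have h3 : (fun n => cfc f h * cfc (ramp a n) h) = fun n => cfc g h * cfc (ramp a n) h := by
    funext n
    rw [← fc_mul hf (continuous_ramp a n), ← fc_mul hg (continuous_ramp a n)]
    refine fc_congr (fun t => ?_) h
    rcases le_total t a with hta | hta
    · rw [ramp_eq_zero' hta, mul_zero, mul_zero]
    · rw [hfg t hta]
  rw [h3] at h1
  exact h1.unique h2

theorem IsSpec.le₀ {h : M} {a : ℝ} {E : M} (hE : IsSpec h a E) {f : ℝ → ℝ} (hf : Continuous f)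
    (hf0 : ∀ t, t ≤ a → f t = 0) : cfc f h * E = cfc f h := by
  have key : ∀ ε : ℝ, 0 < ε → n2 (cfc f h * E - cfc f h) ≤ ε := by
    intro ε hε
    -- continuity of `f` at `a`
    have hc := hf.tendsto a
    rw [hf0 a le_rfl, Metric.tendsto_nhds_nhds] at hc
    obtain ⟨δ, hδ, hδ'⟩ := hc ε hε
    obtain ⟨N, hN⟩ := exists_pow_lt_of_lt_one (show (0 : ℝ) < δ / 2 by positivity)
      (show (1 / 2 : ℝ) < 1 by norm_num)
    have h2 : ∀ n ≥ N, ‖cfc f h * cfc (ramp a n) h - cfc f h‖ ≤ ε := by
      intro n hn
      have e1 : cfc f h * cfc (ramp a n) h - cfc f h =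
          cfc (fun t => f t * ramp a n t - f t) h := by
        rw [fc_sub (f := fun t => f t * ramp a n t) (hf.mul (continuous_ramp a n)) hf,
          fc_mul hf (continuous_ramp a n)]
      rw [e1]
      refine fc_norm_le hε.le (fun t => ?_) h
      rcases le_total t a with hta | hta
      · rw [hf0 t hta]; simp [hε.le]
      rcases le_total 2 (2 ^ n * (t - a)) with h3 | h3
      · rw [ramp_eq_one h3]; simp [hε.le]
      · have h4 : |f t| ≤ ε := by
          have h5 : t - a < δ := by
            have h6 : (2 : ℝ) ^ n * (1 / 2) ^ n = 1 := by rw [← mul_pow]; norm_num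
            have h7 : (1 / 2 : ℝ) ^ n ≤ (1 / 2) ^ N :=
              pow_le_pow_of_le_one (by norm_num) (by norm_num) hn
            have h8 : (0 : ℝ) < (1 / 2) ^ n := by positivity
            have h9 : t - a ≤ 2 * (1 / 2) ^ n := by
              have : (t - a) = (1 / 2) ^ n * (2 ^ n * (t - a)) := by
                rw [← mul_assoc, mul_comm ((1 / 2 : ℝ) ^ n), h6, one_mul]
              rw [this]
              nlinarith
            linarith
          have h10 := hδ' (x := t) (by rw [Real.dist_eq, abs_of_nonneg (by linarith)]; exact h5)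
          rw [Real.dist_eq, sub_zero] at h10
          exact h10.le
        have h5 : f t * ramp a n t - f t = -(f t * (1 - ramp a n t)) := by ring
        rw [h5, abs_neg, abs_mul]
        have h6 := ramp_nonneg a n t
        have h7 := ramp_le_one a n t
        rw [abs_of_nonneg (show 0 ≤ 1 - ramp a n t by linarith)]
        calc |f t| * (1 - ramp a n t) ≤ |f t| * 1 := by
              have := abs_nonneg (f t)
              gcongr
              linarith
          _ ≤ ε := by rw [mul_one]; exact h4
    have h3 := ((hE.lim.mul_left (cfc f h)).sub (T2.const (cfc f h))).n2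
    refine le_of_tendsto h3 ?_
    filter_upwards [eventually_ge_atTop N] with n hn
    exact (n2_le_norm _).trans (h2 n hn)
  have h0 : n2 (cfc f h * E - cfc f h) = 0 :=
    le_antisymm (le_of_forall_pos_le_add fun ε hε => by rw [zero_add]; exact key ε hε) (n2_nonneg _)
  exact sub_eq_zero.1 (n2_eq_zero.1 h0)

theorem IsSpec.le {h : M} {a : ℝ} {E : M} (hE : IsSpec h a E) {f g : ℝ → ℝ} (hf : Continuous f)
    (hg : Continuous g) (hfg : ∀ t, t ≤ a → f t = g t) :
    cfc f h * (1 - E) = cfc g h * (1 - E) := by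
  have h1 := hE.le₀ (f := fun t => f t - g t) (hf.sub hg) (fun t ht => by rw [hfg t ht, sub_self])
  rw [fc_sub hf hg] at h1
  have h2 : (cfc f h - cfc g h) * (1 - E) = 0 := by
    rw [mul_sub, mul_one, h1, sub_self]
  rw [sub_mul] at h2
  exact sub_eq_zero.1 h2

end

end H80VN
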