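import Mathlib

set_option autoImplicit false

/-!
# Tracial von Neumann algebras, II₁ factors and existential closedness

The definitions used in the statement on `MP_27947a_lc`.
-/

universe u

namespace H80VN.Stmt

open scoped InnerProductSpace

/-- `π` is a ⋆-isomorphism of the C⋆-algebra `M` onto the von Neumann algebra `A` on the Hilbert space
`H` (Mathlib's notion: a ⋆-subalgebra of the bounded operators equal to its double commutant), for
which `τ` is normal: `τ x = ∑ n, ⟪ξ n, (π x) (ξ n)⟫` with a square summable sequence `ξ` in `H`. -/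
structure IsNormalRep {M H : Type u} [CStarAlgebra M] [NormedAddCommGroup H]
    [InnerProductSpace ℂ H] [CompleteSpace H] (τ : M →ₗ[ℂ] ℂ) (A : VonNeumannAlgebra H)
    (π : M →⋆ₐ[ℂ] (H →L[ℂ] H)) (ξ : ℕ → H) : Prop where
  injective : Function.Injective π
  range : ∀ T : H →L[ℂ] H, T ∈ A ↔ ∃ x, π x = T
  summable : Summable (fun n => ‖ξ n‖ ^ 2)
  hasSum : ∀ x, HasSum (fun n => ⟪ξ n, π x (ξ n)⟫_ℂ) (τ x)

/-- `(M, τ)` is a tracial von Neumann algebra: `τ` is a faithful tracial state on the C⋆-algebra `M`,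
and `M` is ⋆-isomorphic to a von Neumann algebra `A` on a Hilbert space `H` for which `τ` is normal. -/
structure IsTracialVN {M : Type u} [CStarAlgebra M] (τ : M →ₗ[ℂ] ℂ) : Prop where
  one : τ 1 = 1
  tracial : ∀ x y, τ (x * y) = τ (y * x)
  faithful : ∀ x, τ (star x * x) = 0 → x = 0
  normal : ∃ (H : Type u) (_ : NormedAddCommGroup H) (_ : InnerProductSpace ℂ H)
    (_ : CompleteSpace H) (A : VonNeumannAlgebra H) (π : M →⋆ₐ[ℂ] (H →L[ℂ] H)) (ξ : ℕ → H),
    IsNormalRep τ A π ξ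

/-- The 2-norm `‖x‖₂ = τ (x⋆ x) ^ (1/2)`. -/
noncomputable def norm2 {M : Type u} [CStarAlgebra M] (τ : M →ₗ[ℂ] ℂ) (x : M) : ℝ :=
  √(τ (star x * x)).re

/-- `(M, τ)` is a II₁ factor: an infinite dimensional tracial von Neumann algebra with trivial
center. -/
def IsII1Factor {M : Type u} [CStarAlgebra M] (τ : M →ₗ[ℂ] ℂ) : Prop :=
  IsTracialVN τ ∧ (∀ z : M, (∀ y, z * y = y * z) → ∃ c : ℂ, z = c • (1 : M)) ∧
    ¬ FiniteDimensional ℂ M

/-- Separability (of the 2-norm). -/
def Separable {M : Type u} [CStarAlgebra M] (τ : M →ₗ[ℂ] ℂ) : Prop :=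
  ∃ D : Set M, D.Countable ∧ ∀ (x : M) (ε : ℝ), 0 < ε → ∃ d ∈ D, norm2 τ (x - d) < ε

/-- Property Gamma: for every finite `F ⊆ M` and `ε > 0` there is a unitary `u` in `M` of trace zero
with `‖x u - u x‖₂ < ε` for all `x ∈ F`. -/
def Gamma {M : Type u} [CStarAlgebra M] (τ : M →ₗ[ℂ] ℂ) : Prop :=
  ∀ (F : Finset M) (ε : ℝ), 0 < ε →
    ∃ u ∈ unitary M, τ u = 0 ∧ ∀ x ∈ F, norm2 τ (x * u - u * x) < ε

/-- `(R, τ)` is (a copy of) the hyperfinite II₁ factor: a tracial von Neumann algebra with an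
increasing sequence of unital ⋆-subalgebras isomorphic to the `2 ^ k` by `2 ^ k` matrices whose union
is dense in the 2-norm. -/
def IsHyperfinite {R : Type u} [CStarAlgebra R] (τ : R →ₗ[ℂ] ℂ) : Prop :=
  IsTracialVN τ ∧ ∃ φ : (k : ℕ) → Matrix (Fin (2 ^ k)) (Fin (2 ^ k)) ℂ →⋆ₐ[ℂ] R,
    (∀ k a, ∃ b, φ k a = φ (k + 1) b) ∧
      ∀ (x : R) (ε : ℝ), 0 < ε → ∃ k a, norm2 τ (x - φ k a) < ε

/-- `(M, τ)` is (isomorphic to) the tensor product of `(N, ρ)` and `(R, σ)`: there are commuting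
copies of `N` and `R` in `M` with `τ (x y) = ρ x * σ y` for `x` in the copy of `N` and `y` in the copy
of `R`, and the span of the products `x y` is dense in `M` in the 2-norm. -/
def IsTensor {M N R : Type u} [CStarAlgebra M] [CStarAlgebra N] [CStarAlgebra R] (τ : M →ₗ[ℂ] ℂ)
    (ρ : N →ₗ[ℂ] ℂ) (σ : R →ₗ[ℂ] ℂ) : Prop :=
  ∃ (i : N →⋆ₐ[ℂ] M) (j : R →⋆ₐ[ℂ] M),
    (∀ x y, i x * j y = j y * i x) ∧ (∀ x y, τ (i x * j y) = ρ x * σ y) ∧
      ∀ (z : M) (ε : ℝ), 0 < ε → ∃ (m : ℕ) (a : Fin m → N) (b : Fin m → R),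
        norm2 τ (z - ∑ l, i (a l) * j (b l)) < ε

/-- `(M, τ)` is strongly McDuff: it is isomorphic to the tensor product of a separable II₁ factor
without property Gamma and the hyperfinite II₁ factor. -/
def StronglyMcDuff {M : Type u} [CStarAlgebra M] (τ : M →ₗ[ℂ] ℂ) : Prop :=
  ∃ (N R : Type u) (_ : CStarAlgebra N) (_ : CStarAlgebra R) (ρ : N →ₗ[ℂ] ℂ) (σ : R →ₗ[ℂ] ℂ),
    IsII1Factor ρ ∧ Separable ρ ∧ ¬ Gamma ρ ∧ IsHyperfinite σ ∧ IsTensor τ ρ σ

/-- ⋆-polynomials in `n` variables with parameters from `A`. -/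
inductive Term (A : Type u) (n : ℕ) : Type u
  | var (i : Fin n) : Term A n
  | const (a : A) : Term A n
  | add (s t : Term A n) : Term A n
  | mul (s t : Term A n) : Term A n
  | smul (c : ℂ) (t : Term A n) : Term A n
  | star (t : Term A n) : Term A n

/-- The value of a term at `v` in `Q`, the parameters being interpreted by `ι`. -/
noncomputable def Term.eval {A : Type u} {n : ℕ} {Q : Type u} [CStarAlgebra Q] (ι : A → Q)
    (v : Fin n → Q) : Term A n → Q
  | .var i => v i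
  | .const a => ι a
  | .add s t => s.eval ι v + t.eval ι v
  | .mul s t => s.eval ι v * t.eval ι v
  | .smul c t => c • t.eval ι v
  | .star t => Star.star (t.eval ι v)

/-- A quantifier-free formula in `n` variables with parameters from `A`: a continuous real function
of the traces of finitely many ⋆-polynomials. -/
structure QFFormula (A : Type u) (n : ℕ) where
  k : ℕ
  term : Fin k → Term A n
  fn : (Fin k → ℂ) → ℝ
  cont : Continuous fn

/-- The value of a quantifier-free formula. -/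
noncomputable def QFFormula.eval {A : Type u} {n : ℕ} (φ : QFFormula A n) {Q : Type u}
    [CStarAlgebra Q] (σ : Q →ₗ[ℂ] ℂ) (ι : A → Q) (v : Fin n → Q) : ℝ :=
  φ.fn fun l => σ ((φ.term l).eval ι v)

/-- The infimum of a quantifier-free formula over the operator norm unit ball of `Q`. -/
noncomputable def QFFormula.inf {A : Type u} {n : ℕ} (φ : QFFormula A n) {Q : Type u}
    [CStarAlgebra Q] (σ : Q →ₗ[ℂ] ℂ) (ι : A → Q) : ℝ :=
  ⨅ v : {v : Fin n → Q // ∀ i, ‖v i‖ ≤ 1}, φ.eval σ ι v.1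

/-- For every trace preserving unital ⋆-homomorphism `ι : M → Q`, every quantifier-free formula with
parameters from `M` has the same infimum over the unit ball of `M` as over the unit ball of `Q`. -/
def IsECIn {M Q : Type u} [CStarAlgebra M] [CStarAlgebra Q] (τ : M →ₗ[ℂ] ℂ) (σ : Q →ₗ[ℂ] ℂ) : Prop :=
  ∀ ι : M →⋆ₐ[ℂ] Q, (∀ x, σ (ι x) = τ x) → ∀ (n : ℕ) (φ : QFFormula M n), φ.inf τ id = φ.inf σ ι

/-- `(M, τ)` is existentially closed: for every tracial von Neumann algebra `(Q, σ)` containing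
`(M, τ)` (via a trace preserving unital ⋆-homomorphism `ι`), every quantifier-free formula with
parameters from `M` has the same infimum over the unit ball of `M` as over the unit ball of `Q`. -/
def IsEC {M : Type u} [CStarAlgebra M] (τ : M →ₗ[ℂ] ℂ) : Prop :=
  ∀ (Q : Type u) [CStarAlgebra Q] (σ : Q →ₗ[ℂ] ℂ), IsTracialVN σ → IsECIn τ σ

end H80VN.Stmt
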