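import Pool.Agent.H80.VNMat

set_option autoImplicit false
set_option linter.unusedSectionVars false

/-!
# Spectral gap in a tensor product with the hyperfinite factor, and the final contradiction
-/

universe u v w

namespace H80VN

open scoped ComplexOrder Topology
open Filter Finset

attribute [local instance] CStarAlgebra.spectralOrder CStarAlgebra.spectralOrderedRing

variable {M : Type u} [CStarAlgebra M] [TracialVN M]
variable {N : Type v} [CStarAlgebra N] [TracialVN N]
variable {R : Type w} [CStarAlgebra R] [TracialVN R]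

/-- `M` is the tensor product of `N` and the hyperfinite factor `R`, with `R` the closure of the
union of an increasing sequence of matrix algebras. -/
structure Split (i : N →⋆ₐ[ℂ] M) (j : R →⋆ₐ[ℂ] M)
    (φ : (k : ℕ) → Matrix (Fin (2 ^ k)) (Fin (2 ^ k)) ℂ →⋆ₐ[ℂ] R) : Prop where
  comm : ∀ x y, i x * j y = j y * i x
  trace : ∀ x y, tr (i x * j y) = tr x * tr y
  dense : ∀ (y : M) (ε : ℝ), 0 < ε → ∃ (m : ℕ) (a : Fin m → N) (b : Fin m → R),
    n2 (y - ∑ l, i (a l) * j (b l)) < ε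
  mono : ∀ k a, ∃ b, φ k a = φ (k + 1) b
  dense' : ∀ (x : R) (ε : ℝ), 0 < ε → ∃ k a, n2 (x - φ k a) < ε

variable {i : N →⋆ₐ[ℂ] M} {j : R →⋆ₐ[ℂ] M}
  {φ : (k : ℕ) → Matrix (Fin (2 ^ k)) (Fin (2 ^ k)) ℂ →⋆ₐ[ℂ] R}

theorem Split.mono' (h : Split i j φ) {k l : ℕ} (hkl : k ≤ l)
    (a : Matrix (Fin (2 ^ k)) (Fin (2 ^ k)) ℂ) : ∃ b, φ k a = φ l b := by
  induction l, hkl using Nat.le_induction with
  | base => exact ⟨a, rfl⟩
  | succ l _ ih =>
    obtain ⟨b, hb⟩ := ih
    obtain ⟨c, hc⟩ := h.mono l b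
    exact ⟨c, hb.trans hc⟩

theorem Split.tr_i (h : Split i j φ) (x : N) : tr (i x) = tr x := by
  have := h.trace x 1
  rwa [map_one, mul_one, tr_one, mul_one] at this

theorem Split.tr_j (h : Split i j φ) (y : R) : tr (j y) = tr y := by
  have := h.trace 1 y
  rwa [map_one, one_mul, tr_one, one_mul] at this

theorem Split.n2_i (h : Split i j φ) (x : N) : n2 (i x) = n2 x := by
  unfold n2
  rw [← map_star, ← map_mul, h.tr_i]

theorem Split.n2_j (h : Split i j φ) (x : R) : n2 (j x) = n2 x := by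
  unfold n2
  rw [← map_star, ← map_mul, h.tr_j]

/-- The matrix algebras in `M`. -/
noncomputable abbrev Split.psi (_ : Split i j φ) (k : ℕ) :
    Matrix (Fin (2 ^ k)) (Fin (2 ^ k)) ℂ →⋆ₐ[ℂ] M := j.comp (φ k)

/-- The elements of `N ⊗ M_{2^k}`. -/
noncomputable def elt (h : Split i j φ) (k : ℕ) (Y : Fin (2 ^ k) → Fin (2 ^ k) → N) : M :=
  ∑ a, ∑ b, i (Y a b) * mu (h.psi k) a b

theorem Split.comm_mu (h : Split i j φ) (k : ℕ) (x : N) (a b : Fin (2 ^ k)) :
    i x * mu (h.psi k) a b = mu (h.psi k) a b * i x := h.comm _ _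

theorem Split.elt_sq (h : Split i j φ) (k : ℕ) (Y : Fin (2 ^ k) → Fin (2 ^ k) → N) :
    n2 (elt h k Y) ^ 2 = (1 / (2 ^ k : ℝ)) * ∑ a, ∑ b, n2 (Y a b) ^ 2 := by
  have h1 : ∀ a b c d, tr (star (i (Y a b) * mu (h.psi k) a b) * (i (Y c d) * mu (h.psi k) c d)) =
      if a = c ∧ b = d then ((1 / (2 ^ k : ℝ) * n2 (Y a b) ^ 2 : ℝ) : ℂ) else 0 := by
    intro a b c d
    have e1 : star (i (Y a b) * mu (h.psi k) a b) * (i (Y c d) * mu (h.psi k) c d) =
        i (star (Y a b) * Y c d) * (mu (h.psi k) b a * mu (h.psi k) c d) := by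
      rw [star_mul, star_mu, ← map_star, map_mul]
      calc mu (h.psi k) b a * i (star (Y a b)) * (i (Y c d) * mu (h.psi k) c d) =
            (mu (h.psi k) b a * i (star (Y a b) * Y c d)) * mu (h.psi k) c d := by
              rw [map_mul]; simp only [mul_assoc]
        _ = _ := by rw [← h.comm_mu, map_mul]; simp only [mul_assoc]
    rw [e1, mu_mul]
    by_cases hac : a = c
    · subst hac
      rw [if_pos rfl]
      have e2 : tr (i (star (Y a b) * Y a d) * mu (h.psi k) b d) =
          tr (star (Y a b) * Y a d) * tr (mu (h.psi k) b d) := by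
        show tr (i (star (Y a b) * Y a d) * j (φ k (Matrix.single b d 1))) =
          _ * tr (j (φ k (Matrix.single b d 1)))
        rw [h.trace, h.tr_j]
      rw [e2, tr_mu]
      by_cases hbd : b = d
      · subst hbd
        rw [if_pos rfl, if_pos ⟨rfl, rfl⟩, tr_ssm]
        push_cast
        ring
      · rw [if_neg hbd, if_neg (fun h => hbd h.2), mul_zero]
    · rw [if_neg hac, if_neg (fun h => hac h.1), mul_zero, map_zero]
  rw [← rt_ssm]
  unfold rt elt
  rw [star_sum, Finset.sum_mul, map_sum]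
  have h2 : ∀ a, tr (star (∑ b, i (Y a b) * mu (h.psi k) a b) *
      ∑ c, ∑ d, i (Y c d) * mu (h.psi k) c d) =
      ((1 / (2 ^ k : ℝ) * ∑ b, n2 (Y a b) ^ 2 : ℝ) : ℂ) := by
    intro a
    rw [star_sum, Finset.sum_mul, map_sum, Finset.mul_sum, Complex.ofReal_sum]
    refine Finset.sum_congr rfl fun b _ => ?_
    rw [Finset.mul_sum, map_sum, Finset.sum_eq_single a]
    · rw [Finset.mul_sum, map_sum, Finset.sum_eq_single b]
      · rw [h1, if_pos ⟨rfl, rfl⟩]
      · intro d _ hd
        rw [h1, if_neg fun h => hd h.2.symm]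
      · simp
    · intro c _ hc
      rw [Finset.mul_sum, map_sum]
      refine Finset.sum_eq_zero fun d _ => ?_
      rw [h1, if_neg fun h => hc h.1.symm]
    · simp
  rw [Finset.sum_congr rfl (fun a _ => h2 a), ← Complex.ofReal_sum, Complex.ofReal_re,
    Finset.mul_sum]

theorem Split.dense_elt (h : Split i j φ) (y : M) {ε : ℝ} (hε : 0 < ε) :
    ∃ (k : ℕ) (Y : Fin (2 ^ k) → Fin (2 ^ k) → N), n2 (y - elt h k Y) < ε := by
  obtain ⟨m, a, b, hab⟩ := h.dense y (ε / 2) (by positivity)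
  set B : ℝ := ∑ l, ‖i (a l)‖ with hB
  have hB0 : 0 ≤ B := Finset.sum_nonneg fun _ _ => norm_nonneg _
  have hex : ∀ l : Fin m, ∃ k c, n2 (b l - φ k c) < ε / (2 * (B + 1)) := fun l =>
    h.dense' (b l) _ (by positivity)
  choose kk cc hcc using hex
  set k := Finset.univ.sup kk with hk
  have hex2 : ∀ l : Fin m, ∃ c, φ (kk l) (cc l) = φ k c := fun l =>
    h.mono' (Finset.le_sup (f := kk) (Finset.mem_univ l)) _
  choose c hc using hex2
  refine ⟨k, fun p q => ∑ l, (c l p q • a l : N), ?_⟩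
  have h1 : elt h k (fun p q => ∑ l, c l p q • a l) = ∑ l, i (a l) * j (φ k (c l)) := by
    have e1 : ∀ l, i (a l) * j (φ k (c l)) =
        ∑ p, ∑ q, i (c l p q • a l) * mu (h.psi k) p q := by
      intro l
      have e2 : j (φ k (c l)) = ∑ p, ∑ q, c l p q • mu (h.psi k) p q := psi_eq (h.psi k) (c l)
      rw [e2, Finset.mul_sum]
      refine Finset.sum_congr rfl fun p _ => ?_
      rw [Finset.mul_sum]
      refine Finset.sum_congr rfl fun q _ => ?_
      rw [map_smul, smul_mul_assoc, mul_smul_comm]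
    rw [Finset.sum_congr rfl (fun l _ => e1 l)]
    unfold elt
    conv_rhs => rw [Finset.sum_comm]
    refine Finset.sum_congr rfl fun p _ => ?_
    conv_rhs => rw [Finset.sum_comm]
    refine Finset.sum_congr rfl fun q _ => ?_
    rw [map_sum, Finset.sum_mul]
  have h2 : y - elt h k (fun p q => ∑ l, c l p q • a l) =
      (y - ∑ l, i (a l) * j (b l)) + ∑ l, i (a l) * j (b l - φ k (c l)) := by
    rw [h1]
    have : ∑ l, i (a l) * j (b l - φ k (c l)) =
        ∑ l, i (a l) * j (b l) - ∑ l, i (a l) * j (φ k (c l)) := by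
      rw [← Finset.sum_sub_distrib]
      refine Finset.sum_congr rfl fun l _ => ?_
      rw [map_sub, mul_sub]
    rw [this]
    abel
  have hsum : ∀ (s : Finset (Fin m)) (g : Fin m → M), n2 (∑ i ∈ s, g i) ≤ ∑ i ∈ s, n2 (g i) := by
    intro s g
    induction s using Finset.induction_on with
    | empty => simp [n2_zero]
    | insert a s ha ih =>
      rw [Finset.sum_insert ha, Finset.sum_insert ha]
      exact (n2_add_le _ _).trans (by linarith)
  rw [h2]
  refine (n2_add_le _ _).trans_lt ?_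
  have h3 : n2 (∑ l, i (a l) * j (b l - φ k (c l))) ≤ ε / 2 := by
    refine (hsum _ _).trans ?_
    calc _ ≤ ∑ l, ‖i (a l)‖ * (ε / (2 * (B + 1))) := by
          refine Finset.sum_le_sum fun l _ => ?_
          refine (n2_mul_le_left _ _).trans ?_
          rw [h.n2_j, ← hc]
          exact mul_le_mul_of_nonneg_left (hcc l).le (norm_nonneg _)
      _ = B * (ε / (2 * (B + 1))) := by rw [← Finset.sum_mul]
      _ ≤ ε / 2 := by
          rw [mul_div_assoc', div_le_iff₀ (by positivity)]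
          nlinarith
  linarith

theorem cs2_approx {A : Type u} [CStarAlgebra A] [TracialVN A] (F : Finset A)
    (hF : ∀ f ∈ F, f ∈ unitary A) (x y : A) {δ : ℝ} (h : n2 (x - y) ≤ δ) :
    cs2 F y ≤ 2 * cs2 F x + 8 * F.card * δ ^ 2 := by
  have hδ := (n2_nonneg _).trans h
  have h1 : cs2 F (y - x) ≤ 4 * F.card * δ ^ 2 := by
    unfold cs2
    calc _ ≤ ∑ f ∈ F, (2 * δ) ^ 2 := by
          refine Finset.sum_le_sum fun f hf => ?_
          have h4 := n2_sub_le ((y - x) * f) (f * (y - x))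
          rw [n2_mul_unitary (hF f hf), n2_unitary_mul (hF f hf), n2_sub_comm y] at h4
          have h5 : n2 ((y - x) * f - f * (y - x)) ≤ 2 * δ := by linarith
          have h6 := n2_nonneg ((y - x) * f - f * (y - x))
          gcongr
      _ = 4 * F.card * δ ^ 2 := by
          rw [Finset.sum_const, nsmul_eq_mul]; ring
  have h2 := cs2_add_le F x (y - x)
  rw [add_sub_cancel] at h2
  linarith

/-- Spectral gap for `N` in `M = N ⊗ R`: elements of `M` almost commuting with `F` are close to the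
matrix algebras of `R`. -/
theorem Split.gap (h : Split i j φ) (F : Finset N) (hF : ∀ f ∈ F, f ∈ unitary N) {K : ℝ}
    (hK : 0 < K) (hgap : ∀ a : N, n2 (a - tr a • (1 : N)) ^ 2 ≤ K * cs2 F a) {ε : ℝ} (hε : 0 < ε) :
    ∃ δ : ℝ, 0 < δ ∧ ∀ y : M, (∀ f ∈ F, n2 (y * i f - i f * y) ≤ δ) →
      ∃ k m, n2 (y - h.psi k m) ≤ ε := by
  classical
  set C : ℝ := K * (10 * (F.card + 1)) with hC
  have hC0 : 0 < C := by positivity
  set δ : ℝ := min (ε / 2) √((ε / 2) ^ 2 / C) with hδ
  have hδ0 : 0 < δ := lt_min (by positivity) (Real.sqrt_pos.2 (by positivity))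
  have hδ1 : δ ≤ ε / 2 := min_le_left _ _
  have hδ2 : C * δ ^ 2 ≤ (ε / 2) ^ 2 := by
    have h1 : δ ^ 2 ≤ √((ε / 2) ^ 2 / C) ^ 2 := by
      have := min_le_right (ε / 2) √((ε / 2) ^ 2 / C)
      gcongr
    rw [Real.sq_sqrt (by positivity), le_div_iff₀ hC0] at h1
    linarith
  refine ⟨δ, hδ0, fun y hy => ?_⟩
  obtain ⟨k, Y, hY⟩ := h.dense_elt y hδ0
  set y' := elt h k Y with hy'
  set m : Matrix (Fin (2 ^ k)) (Fin (2 ^ k)) ℂ := Matrix.of fun a b => tr (Y a b) with hm
  refine ⟨k, m, ?_⟩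
  have h1 : y' - h.psi k m = elt h k (fun a b => Y a b - tr (Y a b) • (1 : N)) := by
    rw [hy', psi_eq]
    unfold elt
    rw [← Finset.sum_sub_distrib]
    refine Finset.sum_congr rfl fun a _ => ?_
    rw [← Finset.sum_sub_distrib]
    refine Finset.sum_congr rfl fun b _ => ?_
    rw [map_sub, map_smul, map_one, sub_mul, smul_mul_assoc, one_mul]
    rfl
  have h2 : ∀ f, n2 (y' * i f - i f * y') ^ 2 =
      (1 / (2 ^ k : ℝ)) * ∑ a, ∑ b, n2 (Y a b * f - f * Y a b) ^ 2 := by
    intro f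
    rw [← h.elt_sq]
    congr 2
    rw [hy']
    unfold elt
    rw [Finset.sum_mul, Finset.mul_sum, ← Finset.sum_sub_distrib]
    refine Finset.sum_congr rfl fun a _ => ?_
    rw [Finset.sum_mul, Finset.mul_sum, ← Finset.sum_sub_distrib]
    refine Finset.sum_congr rfl fun b _ => ?_
    rw [map_sub, map_mul, map_mul, sub_mul, mul_assoc, ← h.comm_mu]
    simp only [mul_assoc]
  have h3 : n2 (y' - h.psi k m) ^ 2 ≤ K * ∑ f ∈ F, n2 (y' * i f - i f * y') ^ 2 := by
    rw [h1, h.elt_sq]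
    calc (1 / (2 ^ k : ℝ)) * ∑ a, ∑ b, n2 (Y a b - tr (Y a b) • (1 : N)) ^ 2 ≤
        (1 / (2 ^ k : ℝ)) * ∑ a, ∑ b, K * cs2 F (Y a b) := by
          gcongr with a _ b _
          exact hgap _
      _ = K * ∑ f ∈ F, n2 (y' * i f - i f * y') ^ 2 := by
          rw [Finset.sum_congr rfl (fun f _ => h2 f)]
          unfold cs2
          simp only [Finset.mul_sum]
          rw [Finset.sum_comm' (s := F) (t := fun _ => univ) (t' := univ) (s' := fun _ => F)
            (by simp)]
          refine Finset.sum_congr rfl fun a _ => ?_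
          rw [Finset.sum_comm]
          refine Finset.sum_congr rfl fun f _ => Finset.sum_congr rfl fun b _ => ?_
          ring
  have h4 : ∀ f ∈ F, n2 (y' * i f - i f * y') ^ 2 ≤ 10 * δ ^ 2 := by
    intro f hf
    have hfu : i f ∈ unitary M := by
      have := hF f hf
      rw [Unitary.mem_iff] at this ⊢
      rw [← map_star, ← map_mul, ← map_mul, this.1, this.2, map_one]
      exact ⟨rfl, rfl⟩
    have e1 : y' * i f - i f * y' = (y * i f - i f * y) - ((y - y') * i f - i f * (y - y')) := by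
      noncomm_ring
    have e2 := n2_sub_le (y * i f - i f * y) ((y - y') * i f - i f * (y - y'))
    have e3 := n2_sub_le ((y - y') * i f) (i f * (y - y'))
    rw [n2_mul_unitary hfu, n2_unitary_mul hfu] at e3
    rw [← e1] at e2
    have e4 := hy f hf
    have e5 : n2 (y' * i f - i f * y') ≤ 3 * δ := by linarith
    have e6 := n2_nonneg (y' * i f - i f * y')
    nlinarith
  have h5 : n2 (y' - h.psi k m) ^ 2 ≤ (ε / 2) ^ 2 := by
    refine h3.trans ?_
    calc K * ∑ f ∈ F, n2 (y' * i f - i f * y') ^ 2 ≤ K * ∑ f ∈ F, 10 * δ ^ 2 := by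
          gcongr with f hf
          exact h4 f hf
      _ = K * (F.card * (10 * δ ^ 2)) := by rw [Finset.sum_const, nsmul_eq_mul]
      _ ≤ C * δ ^ 2 := by
          rw [hC]
          have : 0 ≤ K * δ ^ 2 := by positivity
          nlinarith
      _ ≤ _ := hδ2
  have h6 : n2 (y' - h.psi k m) ≤ ε / 2 := (sq_le_sq₀ (n2_nonneg _) (by positivity)).1 h5
  have h7 : y - h.psi k m = (y - y') + (y' - h.psi k m) := by abel
  rw [h7]
  refine (n2_add_le _ _).trans ?_
  linarith

end H80VN
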