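import Pool.Agent.H80.VNGNS

set_option autoImplicit false
set_option linter.unusedSectionVars false

/-!
# Hilbert space tensor products and the triple tensor product
-/

universe u v w

namespace H80VN

open scoped ComplexOrder Topology InnerProductSpace TensorProduct
open Filter UniformSpace

/-- The Hilbert space tensor product. -/
def HT (E : Type u) (F : Type v) [NormedAddCommGroup E] [InnerProductSpace ℂ E]
    [NormedAddCommGroup F] [InnerProductSpace ℂ F] : Type (max u v) := Completion (E ⊗[ℂ] F)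

section two

variable {E : Type u} [NormedAddCommGroup E] [InnerProductSpace ℂ E]
  {F : Type v} [NormedAddCommGroup F] [InnerProductSpace ℂ F]

noncomputable instance : NormedAddCommGroup (HT E F) :=
  inferInstanceAs (NormedAddCommGroup (Completion (E ⊗[ℂ] F)))

noncomputable instance : InnerProductSpace ℂ (HT E F) :=
  inferInstanceAs (InnerProductSpace ℂ (Completion (E ⊗[ℂ] F)))

instance : CompleteSpace (HT E F) :=
  inferInstanceAs (CompleteSpace (Completion (E ⊗[ℂ] F)))

namespace HT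

/-- The inclusion of the algebraic tensor product. -/
noncomputable def of (x : E ⊗[ℂ] F) : HT E F := (x : Completion (E ⊗[ℂ] F))

/-- Elementary tensors. -/
noncomputable def tm (x : E) (y : F) : HT E F := of (x ⊗ₜ[ℂ] y)

theorem of_add (x y : E ⊗[ℂ] F) : of (x + y) = of x + of y := Completion.coe_add _ _

theorem of_smul (c : ℂ) (x : E ⊗[ℂ] F) : of (c • x) = c • of x := Completion.coe_smul _ _

theorem of_zero : of (0 : E ⊗[ℂ] F) = 0 := Completion.coe_zero

theorem inner_of (x y : E ⊗[ℂ] F) : ⟪of x, of y⟫_ℂ = ⟪x, y⟫_ℂ := Completion.inner_coe _ _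

theorem norm_of (x : E ⊗[ℂ] F) : ‖of x‖ = ‖x‖ := Completion.norm_coe _

theorem ind_of {p : HT E F → Prop} (hc : IsClosed {x | p x}) (h : ∀ x, p (of x)) (x : HT E F) :
    p x :=
  Completion.induction_on x hc h

theorem ind {p : HT E F → Prop} (hc : IsClosed {x | p x}) (h0 : p 0)
    (hadd : ∀ a b, p a → p b → p (a + b)) (htm : ∀ x y, p (tm x y)) (x : HT E F) : p x := by
  refine ind_of hc (fun x => ?_) x
  induction x using TensorProduct.induction_on with
  | zero => rw [of_zero]; exact h0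
  | add a b ha hb => rw [of_add]; exact hadd _ _ ha hb
  | tmul a b => exact htm a b

theorem inner_tm (x x' : E) (y y' : F) : ⟪tm x y, tm x' y'⟫_ℂ = ⟪x, x'⟫_ℂ * ⟪y, y'⟫_ℂ := by
  unfold tm
  rw [inner_of, TensorProduct.inner_tmul]

theorem tm_add_left (x x' : E) (y : F) : tm (x + x') y = tm x y + tm x' y := by
  unfold tm
  rw [TensorProduct.add_tmul, of_add]

theorem tm_add_right (x : E) (y y' : F) : tm x (y + y') = tm x y + tm x y' := by
  unfold tm
  rw [TensorProduct.tmul_add, of_add]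

theorem tm_smul_left (c : ℂ) (x : E) (y : F) : tm (c • x) y = c • tm x y := by
  unfold tm
  rw [← of_smul, TensorProduct.smul_tmul']

theorem tm_smul_right (c : ℂ) (x : E) (y : F) : tm x (c • y) = c • tm x y := by
  unfold tm
  rw [← of_smul, TensorProduct.tmul_smul]

theorem norm_tm (x : E) (y : F) : ‖tm x y‖ = ‖x‖ * ‖y‖ := by
  have h := inner_tm x x y y
  rw [inner_self_eq_norm_sq_to_K, inner_self_eq_norm_sq_to_K, inner_self_eq_norm_sq_to_K] at h
  have h' : ‖tm x y‖ ^ 2 = (‖x‖ * ‖y‖) ^ 2 := by rw [mul_pow]; exact_mod_cast h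
  exact (sq_eq_sq₀ (norm_nonneg _) (mul_nonneg (norm_nonneg _) (norm_nonneg _))).1 h'

/-- `x ↦ x ⊗ y`. -/
noncomputable def tmLeft (y : F) : E →L[ℂ] HT E F :=
  LinearMap.mkContinuous
    { toFun := fun x => tm x y
      map_add' := fun x x' => tm_add_left x x' y
      map_smul' := fun c x => tm_smul_left c x y } ‖y‖ fun x => by
    show ‖tm x y‖ ≤ _
    rw [norm_tm, mul_comm]

/-- `y ↦ x ⊗ y`. -/
noncomputable def tmRight (x : E) : F →L[ℂ] HT E F :=
  LinearMap.mkContinuous
    { toFun := fun y => tm x y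
      map_add' := fun y y' => tm_add_right x y y'
      map_smul' := fun c y => tm_smul_right c x y } ‖x‖ fun y => by
    show ‖tm x y‖ ≤ _
    rw [norm_tm]

theorem tmLeft_apply (x : E) (y : F) : tmLeft y x = tm x y := rfl

theorem tmRight_apply (x : E) (y : F) : tmRight x y = tm x y := rfl

theorem dense_tm {D : Set E} {D' : Set F} (hD : Dense (Submodule.span ℂ D : Set E))
    (hD' : Dense (Submodule.span ℂ D' : Set F)) :
    Dense (Submodule.span ℂ {v : HT E F | ∃ x ∈ D, ∃ y ∈ D', v = tm x y} : Set (HT E F)) := by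
  set V := Submodule.span ℂ {v : HT E F | ∃ x ∈ D, ∃ y ∈ D', v = tm x y} with hV
  have h1 : ∀ y ∈ D', ∀ x : E, tm x y ∈ V.topologicalClosure := by
    intro y hy x
    have hc : IsClosed ((tmLeft (E := E) y) ⁻¹' (V.topologicalClosure : Set (HT E F))) :=
      V.isClosed_topologicalClosure.preimage (tmLeft y).continuous
    have hs : (Submodule.span ℂ D : Set E) ⊆
        (tmLeft (E := E) y) ⁻¹' (V.topologicalClosure : Set (HT E F)) := by
      have : Submodule.span ℂ D ≤ V.topologicalClosure.comap (tmLeft (E := E) y).toLinearMap := by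
        rw [Submodule.span_le]
        intro x hx
        exact V.le_topologicalClosure (Submodule.subset_span ⟨x, hx, y, hy, rfl⟩)
      exact this
    exact hc.closure_subset_iff.2 hs (hD x)
  have h2 : ∀ x : E, ∀ y : F, tm x y ∈ V.topologicalClosure := by
    intro x y
    have hc : IsClosed ((tmRight (F := F) x) ⁻¹' (V.topologicalClosure : Set (HT E F))) :=
      V.isClosed_topologicalClosure.preimage (tmRight x).continuous
    have hs : (Submodule.span ℂ D' : Set F) ⊆
        (tmRight (F := F) x) ⁻¹' (V.topologicalClosure : Set (HT E F)) := by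
      have : Submodule.span ℂ D' ≤ V.topologicalClosure.comap (tmRight (F := F) x).toLinearMap := by
        rw [Submodule.span_le]
        intro y hy
        exact h1 y hy x
      exact this
    exact hc.closure_subset_iff.2 hs (hD' y)
  intro v
  have : v ∈ V.topologicalClosure :=
    ind (p := fun v => v ∈ V.topologicalClosure) V.isClosed_topologicalClosure
      (Submodule.zero_mem _) (fun a b ha hb => Submodule.add_mem _ ha hb) h2 v
  rwa [← SetLike.mem_coe, Submodule.topologicalClosure_coe] at this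

/-- The tensor product of two operators. -/
noncomputable def T (f : E →L[ℂ] E) (g : F →L[ℂ] F) : HT E F →L[ℂ] HT E F :=
  (TensorProduct.mapL f g).completion

theorem T_of (f : E →L[ℂ] E) (g : F →L[ℂ] F) (x : E ⊗[ℂ] F) :
    T f g (of x) = of (TensorProduct.mapL f g x) :=
  ContinuousLinearMap.completion_apply_coe _ _

theorem T_tm (f : E →L[ℂ] E) (g : F →L[ℂ] F) (x : E) (y : F) :
    T f g (tm x y) = tm (f x) (g y) := by
  unfold tm
  rw [T_of, TensorProduct.mapL_tmul]

theorem ext_T {S T : HT E F →L[ℂ] HT E F} (h : ∀ x y, S (tm x y) = T (tm x y)) : S = T := by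
  ext x
  refine ind (p := fun x => S x = T x) (isClosed_eq S.continuous T.continuous) (by simp) ?_ h x
  intro a b ha hb
  rw [map_add, map_add, ha, hb]

theorem T_mul (f f' : E →L[ℂ] E) (g g' : F →L[ℂ] F) : T f g * T f' g' = T (f * f') (g * g') := by
  apply ext_T
  intro x y
  show T f g (T f' g' (tm x y)) = _
  rw [T_tm, T_tm, T_tm]
  rfl

theorem T_one : T (1 : E →L[ℂ] E) (1 : F →L[ℂ] F) = 1 := by
  apply ext_T
  intro x y
  rw [T_tm]
  rfl

theorem T_add_left (f f' : E →L[ℂ] E) (g : F →L[ℂ] F) : T (f + f') g = T f g + T f' g := by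
  apply ext_T
  intro x y
  rw [add_apply, T_tm, T_tm, T_tm, add_apply, tm_add_left]

theorem T_add_right (f : E →L[ℂ] E) (g g' : F →L[ℂ] F) : T f (g + g') = T f g + T f g' := by
  apply ext_T
  intro x y
  rw [add_apply, T_tm, T_tm, T_tm, add_apply, tm_add_right]

theorem T_smul_left (c : ℂ) (f : E →L[ℂ] E) (g : F →L[ℂ] F) : T (c • f) g = c • T f g := by
  apply ext_T
  intro x y
  rw [smul_apply, T_tm, T_tm, smul_apply, tm_smul_left]

theorem T_smul_right (c : ℂ) (f : E →L[ℂ] E) (g : F →L[ℂ] F) : T f (c • g) = c • T f g := by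
  apply ext_T
  intro x y
  rw [smul_apply, T_tm, T_tm, smul_apply, tm_smul_right]

theorem inner_T {f f' : E →L[ℂ] E} {g g' : F →L[ℂ] F} (hf : ∀ x y, ⟪f x, y⟫_ℂ = ⟪x, f' y⟫_ℂ)
    (hg : ∀ x y, ⟪g x, y⟫_ℂ = ⟪x, g' y⟫_ℂ) (x y : HT E F) : ⟪T f g x, y⟫_ℂ = ⟪x, T f' g' y⟫_ℂ := by
  refine ind (p := fun x => ⟪T f g x, y⟫_ℂ = ⟪x, T f' g' y⟫_ℂ) ?_ ?_ ?_ ?_ x
  · exact isClosed_eq ((T f g).continuous.inner continuous_const)
      (continuous_id'.inner continuous_const)
  · simp
  · intro a b ha hb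
    rw [map_add, inner_add_left, inner_add_left, ha, hb]
  · intro a b
    refine ind (p := fun y => ⟪T f g (tm a b), y⟫_ℂ = ⟪tm a b, T f' g' y⟫_ℂ) ?_ ?_ ?_ ?_ y
    · exact isClosed_eq (continuous_const.inner continuous_id')
        (continuous_const.inner (T f' g').continuous)
    · simp
    · intro c d hc hd
      rw [map_add, inner_add_right, inner_add_right, hc, hd]
    · intro c d
      rw [T_tm, T_tm, inner_tm, inner_tm, hf, hg]

end HT

/-- A map reversing inner products is antilinear. -/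
noncomputable def mkJ (J : E → E) (hJ : ∀ x y, ⟪J x, J y⟫_ℂ = ⟪y, x⟫_ℂ) : E →ₗ⋆[ℂ] E where
  toFun := J
  map_add' := fun x y => by
    rw [← sub_eq_zero, ← inner_self_eq_zero (𝕜 := ℂ)]
    simp only [inner_sub_left, inner_sub_right, inner_add_left, inner_add_right, hJ]
    ring
  map_smul' := fun c x => by
    rw [← sub_eq_zero, ← inner_self_eq_zero (𝕜 := ℂ)]
    simp only [inner_sub_left, inner_sub_right, inner_smul_left, inner_smul_right, hJ]
    simp only [starRingEnd_self_apply]
    ring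

namespace HT

/-- The algebraic tensor product of two antilinear maps. -/
noncomputable def algJ {J : E → E} {K : F → F} (hJ : ∀ x y, ⟪J x, J y⟫_ℂ = ⟪y, x⟫_ℂ)
    (hK : ∀ x y, ⟪K x, K y⟫_ℂ = ⟪y, x⟫_ℂ) : E ⊗[ℂ] F →ₗ⋆[ℂ] E ⊗[ℂ] F :=
  TensorProduct.map (mkJ J hJ) (mkJ K hK)

variable {J : E → E} {K : F → F} (hJ : ∀ x y, ⟪J x, J y⟫_ℂ = ⟪y, x⟫_ℂ)
    (hK : ∀ x y, ⟪K x, K y⟫_ℂ = ⟪y, x⟫_ℂ)

theorem algJ_tmul (x : E) (y : F) : algJ hJ hK (x ⊗ₜ y) = J x ⊗ₜ K y :=
  TensorProduct.map_tmul _ _ _ _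

theorem inner_algJ (x y : E ⊗[ℂ] F) : ⟪algJ hJ hK x, algJ hJ hK y⟫_ℂ = ⟪y, x⟫_ℂ := by
  induction x using TensorProduct.induction_on with
  | zero => simp
  | add x x' hx hx' => rw [map_add, inner_add_left, inner_add_right, hx, hx']
  | tmul x x' =>
    induction y using TensorProduct.induction_on with
    | zero => simp
    | add y y' hy hy' => rw [map_add, inner_add_left, inner_add_right, hy, hy']
    | tmul y y' =>
      rw [algJ_tmul, algJ_tmul, TensorProduct.inner_tmul, TensorProduct.inner_tmul, hJ, hK]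

theorem norm_algJ (x : E ⊗[ℂ] F) : ‖algJ hJ hK x‖ = ‖x‖ := by
  have h : ⟪of (algJ hJ hK x), of (algJ hJ hK x)⟫_ℂ = ⟪of x, of x⟫_ℂ := by
    rw [inner_of, inner_of, inner_algJ hJ hK x x]
  rw [inner_self_eq_norm_sq_to_K, inner_self_eq_norm_sq_to_K] at h
  have h' : ‖of (algJ hJ hK x)‖ ^ 2 = ‖of x‖ ^ 2 := by exact_mod_cast h
  have h2 := (sq_eq_sq₀ (norm_nonneg _) (norm_nonneg _)).1 h'
  rwa [norm_of, norm_of] at h2

theorem uniformContinuous_algJ : UniformContinuous (algJ hJ hK) := by
  have : Isometry (algJ hJ hK) := by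
    refine Isometry.of_dist_eq fun x y => ?_
    rw [dist_eq_norm, dist_eq_norm, ← map_sub, norm_algJ hJ hK]
  exact this.uniformContinuous

/-- The tensor product of two antilinear maps reversing inner products. -/
noncomputable def JJ : HT E F → HT E F := Completion.map (algJ hJ hK)

theorem continuous_JJ : Continuous (JJ hJ hK) := Completion.continuous_map

theorem JJ_of (x : E ⊗[ℂ] F) : JJ hJ hK (of x) = of (algJ hJ hK x) :=
  Completion.map_coe (uniformContinuous_algJ hJ hK) x

theorem JJ_tm (x : E) (y : F) : JJ hJ hK (tm x y) = tm (J x) (K y) := by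
  unfold tm
  rw [JJ_of, algJ_tmul]

theorem inner_JJ (x y : HT E F) : ⟪JJ hJ hK x, JJ hJ hK y⟫_ℂ = ⟪y, x⟫_ℂ := by
  refine ind_of (p := fun x => ⟪JJ hJ hK x, JJ hJ hK y⟫_ℂ = ⟪y, x⟫_ℂ) ?_ (fun x => ?_) x
  · exact isClosed_eq ((continuous_JJ hJ hK).inner continuous_const)
      (continuous_const.inner continuous_id')
  · refine ind_of (p := fun y => ⟪JJ hJ hK (of x), JJ hJ hK y⟫_ℂ = ⟪y, of x⟫_ℂ) ?_ (fun y => ?_) y
    · exact isClosed_eq (continuous_const.inner (continuous_JJ hJ hK))
        (continuous_id'.inner continuous_const)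
    · rw [JJ_of, JJ_of, inner_of, inner_of, inner_algJ]

end HT

end two

end H80VN
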